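import Pool.Agent.R384.Leg

/-!
# The Galois action on the curves `y² = x³ + α x² + β x`
-/

set_option autoImplicit false
set_option linter.unusedSectionVars false

namespace Pool.Agent.R384

open WeierstrassCurve Pool.Agent.Y676.IS

variable {F : Type} [Field F] [CharZero F] {α β α' β' u c : F} {σ : F →+* F}

/-- `σ` fixes the coefficients -/
structure Fc (α β : F) (σ : F →+* F) : Prop where
  hb : β ≠ 0
  hd : α ^ 2 - 4 * β ≠ 0
  fa : σ α = α
  fb : σ β = β

lemma Fc.eq (h : Fc α β σ) {x y : F} (hxy : (Cu α β).Nonsingular x y) :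
    (Cu α β).Nonsingular (σ x) (σ y) := cu_ns h.hb h.hd (by
  have h1 := congrArg σ (ns_eq hxy)
  rwa [map_pow, map_add, map_add, map_mul, map_mul, map_pow, map_pow, h.fa, h.fb] at h1)

/-- the action on the points -/
def ga (h : Fc α β σ) : (Cu α β).Point → (Cu α β).Point
  | .zero => .zero
  | .some x y hxy => .some (σ x) (σ y) (h.eq hxy)

lemma ga_zero (h : Fc α β σ) : ga h 0 = 0 := rfl

lemma ga_some (h : Fc α β σ) {x y : F} (hxy : (Cu α β).Nonsingular x y) :
    ga h (.some x y hxy) = .some (σ x) (σ y) (h.eq hxy) := rfl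

variable [DecidableEq F]

lemma slope_ga (h : Fc α β σ) (x1 x2 y1 y2 : F) :
    (Cu α β).slope (σ x1) (σ x2) (σ y1) (σ y2) = σ ((Cu α β).slope x1 x2 y1 y2) := by
  have hinj : Function.Injective σ := σ.injective
  unfold Affine.slope
  rw [negY_cu, negY_cu, negY_cu, negY_cu]
  have a1 : (Cu α β).a₁ = 0 := rfl
  have a2 : (Cu α β).a₂ = α := rfl
  have a4 : (Cu α β).a₄ = β := rfl
  rw [a1, a2, a4]
  by_cases hx : x1 = x2
  · rw [if_pos hx, if_pos (congrArg σ hx)]
    by_cases hy : y1 = -y2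
    · rw [if_pos hy, if_pos (by rw [hy, map_neg]), map_zero]
    · rw [if_neg hy, if_neg (fun h1 => hy (hinj (by rw [h1, map_neg])))]
      simp only [map_div₀, map_add, map_sub, map_mul, map_pow, map_neg, map_ofNat, h.fa, h.fb,
        map_zero]
  · rw [if_neg hx, if_neg (fun h1 => hx (hinj h1)), map_div₀, map_sub, map_sub]

theorem ga_add (h : Fc α β σ) (P Q : (Cu α β).Point) : ga h (P + Q) = ga h P + ga h Q := by
  rcases P with _ | ⟨x1, y1, h1⟩
  · change ga h (0 + Q) = 0 + ga h Q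
    rw [zero_add, zero_add]
  rcases Q with _ | ⟨x2, y2, h2⟩
  · change ga h (_ + 0) = ga h _ + 0
    rw [add_zero, add_zero]
  have a1 : (Cu α β).a₁ = 0 := rfl
  have a2 : (Cu α β).a₂ = α := rfl
  by_cases hxy : x1 = x2 ∧ y1 = (Cu α β).negY x2 y2
  · rw [Affine.Point.add_of_Y_eq hxy.1 hxy.2, ga_zero, ga_some, ga_some,
      Affine.Point.add_of_Y_eq]
    · rw [hxy.1]
    · rw [hxy.2, negY_cu, negY_cu, map_neg]
  · have hxy' : ¬ (σ x1 = σ x2 ∧ σ y1 = (Cu α β).negY (σ x2) (σ y2)) := by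
      rw [negY_cu] at hxy ⊢
      rintro ⟨e1, e2⟩
      exact hxy ⟨σ.injective e1, σ.injective (by rw [e2, map_neg])⟩
    rw [Affine.Point.add_some hxy, ga_some, ga_some, ga_some, Affine.Point.add_some hxy']
    apply some_congr
    · rw [slope_ga h, Affine.addX, Affine.addX, a1, a2]
      simp only [map_add, map_sub, map_mul, map_pow, h.fa, map_zero]
    · rw [slope_ga h, Affine.addY, Affine.addY, negY_cu, negY_cu, Affine.negAddY, Affine.negAddY,
        Affine.addX, Affine.addX, a1, a2]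
      simp only [map_add, map_sub, map_mul, map_pow, map_neg, h.fa, map_zero]

/-- the action as a homomorphism -/
def gH (h : Fc α β σ) : (Cu α β).Point →+ (Cu α β).Point where
  toFun := ga h
  map_zero' := rfl
  map_add' := ga_add h

lemma gH_some (h : Fc α β σ) {x y : F} (hxy : (Cu α β).Nonsingular x y) :
    gH h (.some x y hxy) = .some (σ x) (σ y) (h.eq hxy) := rfl

/-- the action commutes with the shifts -/
lemma ga_sh (h : Fc α β σ) (h' : Fc α' β' σ) (s : Sh α β α' β' c) (hc : σ c = c)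
    (P : (Cu α β).Point) : ga h' (shF s P) = shF s (ga h P) := by
  rcases P with _ | ⟨x1, y1, h1⟩
  · rfl
  · rw [shF_some, ga_some, ga_some, shF_some]
    exact some_congr _ _ (by rw [map_add, hc]) rfl

/-- the action commutes with the isogenies -/
lemma ga_iso (h : Fc α β σ) (h' : Fc α' β' σ) (s : Dat α β α' β' u) (hc : σ u = u)
    (P : (Cu α β).Point) : ga h' (isoF s P) = isoF s (ga h P) := by
  rcases P with _ | ⟨x, y, h1⟩
  · rfl
  · by_cases hx : x = 0
    · rw [isoF_x0 s _ hx, ga_some, isoF_x0 s _ (by rw [hx, map_zero])]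
      rfl
    · rw [isoF_some s _ hx, ga_some, ga_some, isoF_some s _ ((map_ne_zero σ).2 hx)]
      apply some_congr
      · simp only [map_div₀, map_mul, map_pow, hc]
      · simp only [map_div₀, map_mul, map_pow, map_sub, hc, h.fb]

lemma ga_T (h : Fc α β σ) (hb : β ≠ 0) (hd : α ^ 2 - 4 * β ≠ 0) : ga h (TT hb hd) = TT hb hd := by
  rw [TT, ga_some]
  exact some_congr _ _ (map_zero σ) (map_zero σ)

/-- the points with `2 Q = (0, 0)` -/
lemma half_T (hb : β ≠ 0) (hd : α ^ 2 - 4 * β ≠ 0) {Q : (Cu α β).Point}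
    (hQ : Q + Q = TT hb hd) : ∃ (x y : F) (hxy : (Cu α β).Nonsingular x y), Q = .some x y hxy ∧
      x ≠ 0 ∧ y ≠ 0 ∧ x ^ 2 = β := by
  have s : Dat α β (-2 * α) (α ^ 2 - 4 * β) 1 := ⟨hb, hd, one_ne_zero, by ring, by ring⟩
  have s' : Dat (-2 * α) (α ^ 2 - 4 * β) α β 2 := ⟨hd, hb, two_ne_zero, by ring, by ring⟩
  rcases Q with _ | ⟨x, y, hxy⟩
  · exact absurd hQ (by rintro ⟨⟩)
  have hx : x ≠ 0 := by
    intro hx
    rw [isT_of_x0 hb hd hxy hx, T_add_T] at hQ
    exact absurd hQ (by rintro ⟨⟩)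
  have hy : y ≠ 0 := by
    intro hy
    rw [Affine.Point.add_of_Y_eq rfl (by rw [negY_cu, hy, neg_zero])] at hQ
    exact absurd hQ (by rintro ⟨⟩)
  refine ⟨x, y, hxy, rfl, hx, hy, ?_⟩
  rw [← dbl s s' (by ring), isoF_some s _ hx, isoF_some s' _ (by
    exact div_ne_zero (pow_ne_zero 2 hy) (mul_ne_zero (pow_ne_zero 2 one_ne_zero)
      (pow_ne_zero 2 hx)))] at hQ
  obtain ⟨e1, -⟩ := (Affine.Point.some.injEq _ _ _ _ _ _).mp hQ
  have e2 : y * (β - x ^ 2) = 0 := by
    rcases div_eq_zero_iff.1 e1 with h1 | h1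
    · have h2 := pow_eq_zero_iff two_ne_zero |>.1 h1
      rcases div_eq_zero_iff.1 h2 with h3 | h3
      · exact h3
      · exfalso
        exact mul_ne_zero (pow_ne_zero 3 one_ne_zero) (pow_ne_zero 2 hx) h3
    · exfalso
      exact mul_ne_zero (pow_ne_zero 2 two_ne_zero) (pow_ne_zero 2 (div_ne_zero (pow_ne_zero 2 hy)
        (mul_ne_zero (pow_ne_zero 2 one_ne_zero) (pow_ne_zero 2 hx)))) h1
  rcases mul_eq_zero.1 e2 with h3 | h3
  · exact absurd h3 hy
  · exact (sub_eq_zero.1 h3).symm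

variable {D a b c a' b' : F}

/-- the action on the halves of `(0, 0)` -/
lemma act_half (h : LD D a b c) (hs : Fc (al D a b) (be D a b) σ) (fD : σ D = D) (fa : σ a = a)
    (fb : σ b = b) {r : F} (hr : r ^ 2 = D) {Q : Pt D a b} (hQ : Q + Q = pT h) :
    (σ r = r → gH hs Q = Q) ∧ (σ r = -r → gH hs Q = -Q) := by
  obtain ⟨x, y, hxy, rfl, hx, hy, h1⟩ := half_T h.be0 h.hd hQ
  have h2 := ns_eq hxy
  obtain ⟨e, he, hxe⟩ : ∃ e : F, (e = 1 ∨ e = -1) ∧ x = e * (D * a * b) := by
    have : x ^ 2 = (D * a * b) ^ 2 := by rw [h1]; unfold be; ring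
    rcases sq_eq_sq_iff_eq_or_eq_neg.1 this with h3 | h3
    · exact ⟨1, Or.inl rfl, by rw [h3, one_mul]⟩
    · exact ⟨-1, Or.inr rfl, by rw [h3]; ring⟩
  have he2 : e ^ 2 = 1 := by rcases he with rfl | rfl <;> ring
  have hse : σ e = e := by rcases he with rfl | rfl <;> simp
  have hsx : σ x = x := by rw [hxe, map_mul, map_mul, map_mul, hse, fD, fa, fb]
  have hy1 : y = r * x * (a + e * b) ∨ y = -(r * x * (a + e * b)) := by
    apply sq_eq_sq_iff_eq_or_eq_neg.1
    rw [h2]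
    have e3 : x ^ 3 = x ^ 2 * x := by ring
    have e4 : (r * x * (a + e * b)) ^ 2 = x ^ 2 * (D * (a ^ 2 + 2 * a * (e * b) + e ^ 2 * b ^ 2)) := by
      rw [← hr]; ring
    rw [e4, he2, e3]
    have e5 : be D a b * x = x ^ 2 * x := by rw [h1]
    rw [e5, hxe]
    unfold al
    ring
  rw [gH_some]
  constructor
  · intro hsr
    apply some_congr _ _ hsx
    rcases hy1 with rfl | rfl
    · rw [map_mul, map_mul, map_add, map_mul, hse, fa, fb, hsr, hsx]
    · rw [map_neg, map_mul, map_mul, map_add, map_mul, hse, fa, fb, hsr, hsx]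
  · intro hsr
    rw [neg_some hxy (ns_neg h.be0 h.hd hxy)]
    apply some_congr _ _ hsx
    rcases hy1 with rfl | rfl
    · rw [map_mul, map_mul, map_add, map_mul, hse, fa, fb, hsr, hsx]
      ring
    · rw [map_neg, map_mul, map_mul, map_add, map_mul, hse, fa, fb, hsr, hsx]
      ring

/-- the action on the halves of `(-D a², 0)` -/
lemma act_half' (h : LD D a b c) (hs : Fc (al D a b) (be D a b) σ)
    (hs' : Fc (al (-D) a c) (be (-D) a c) σ) (fD : σ D = D) (fa : σ a = a)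
    (fc : σ c = c) {r : F} (hr : r ^ 2 = -D) {Q : Pt D a b} (hQ : Q + Q = pP h) :
    (σ r = r → gH hs Q = Q) ∧ (σ r = -r → gH hs Q = -Q) := by
  have h1 : sP h Q + sP h Q = pT h.neg := by
    rw [← map_add, hQ]
    exact shF_inv' h.sh (TT h.neg.be0 h.neg.hd)
  have h2 := act_half h.neg hs' (by rw [map_neg, fD]) fa fc hr h1
  have h3 : gH hs' (sP h Q) = sP h (gH hs Q) := ga_sh hs hs' h.sh (by rw [map_mul, map_pow, fD, fa]) Q
  rw [h3] at h2
  constructor
  · intro hr
    have h4 := congrArg (sM h) (h2.1 hr)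
    rwa [sM_sP, sM_sP] at h4
  · intro hr
    have h4 := congrArg (sM h) (h2.2 hr)
    rwa [sM_sP, map_neg, sM_sP] at h4

lemma LD.fc (h : LD D a b c) (fD : σ D = D) (fa : σ a = a) (fb : σ b = b) :
    Fc (al D a b) (be D a b) σ :=
  ⟨h.be0, h.hd, by unfold al; simp only [map_mul, map_add, map_pow, fD, fa, fb],
    by unfold be; simp only [map_mul, map_pow, fD, fa, fb]⟩

variable [IsAlgClosed F]

/-- the action commutes with the isogeny -/
lemma ga_lf (h : LN D a b c a' b') (hs : Fc (al D a b) (be D a b) σ)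
    (hs1 : Fc (al (-D) a c) (be (-D) a c) σ) (hs' : Fc (al D a' b') (be D a' b') σ)
    (fD : σ D = D) (fa : σ a = a) (P : Pt D a b) : gH hs' (lf h P) = lf h (gH hs P) := by
  change ga hs' (isoF h.dat (shF h.sh P)) = isoF h.dat (shF h.sh (ga hs P))
  rw [ga_iso hs1 hs' h.dat (map_ofNat σ 2), ga_sh hs hs1 h.sh (by rw [map_mul, map_pow, fD, fa])]

/-- the kernels are stable -/
lemma Kc_ga {D : F} {a b c : ℕ → F} (h : ∀ n, LN D (a n) (b n) (c n) (a (n + 1)) (b (n + 1)))
    (fD : σ D = D) (fa : ∀ n, σ (a n) = a n) (fb : ∀ n, σ (b n) = b n) (fc : ∀ n, σ (c n) = c n)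
    (n : ℕ) : ∀ (m : ℕ) (P : Pt D (a m) (b m)), Kc (A := fun n => Pt D (a n) (b n))
      (fun n => lf (h n)) n m P → Kc (A := fun n => Pt D (a n) (b n)) (fun n => lf (h n)) n m
      (gH ((h m).toLD.fc fD (fa m) (fb m)) P) := by
  induction n with
  | zero =>
    intro m P hP
    have : P = 0 := hP
    rw [this, map_zero]
    exact Kc_zero 0 m
  | succ n ih =>
    intro m P hP
    have h1 := ih (m + 1) _ hP
    have h2 := ga_lf (h m) ((h m).toLD.fc fD (fa m) (fb m))
      ((h m).toLD.neg.fc (by rw [map_neg, fD]) (fa m) (fc m))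
      ((h (m + 1)).toLD.fc fD (fa (m + 1)) (fb (m + 1))) fD (fa m) P
    rw [h2] at h1
    exact h1

end Pool.Agent.R384
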