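import Pool.Agent.R384.Rec

/-!
# The elements that satisfy the local conditions
-/

set_option autoImplicit false
set_option linter.unusedSectionVars false

namespace Pool.Agent.R384

open QuadraticAlgebra

lemma prime_of_two {x : OO} (h : nn x = 2) : Prime x := by
  rw [← irreducible_iff_prime]
  constructor
  · intro h1
    rw [unit_iff, h] at h1
    norm_num at h1
  · intro a b hab
    have h1 : nn a * nn b = 2 := by rw [← nn_mul, ← hab, h]
    have ha := nn_nonneg a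
    have hb := nn_nonneg b
    have h2 : nn a ∣ 2 := ⟨_, h1.symm⟩
    have h3 : nn a ≤ 2 := Int.le_of_dvd (by norm_num) h2
    rcases (by omega : nn a = 0 ∨ nn a = 1 ∨ nn a = 2) with h4 | h4 | h4
    · rw [h4] at h1
      norm_num at h1
    · left
      exact unit_iff.2 h4
    · right
      rw [h4] at h1
      exact unit_iff.2 (by omega)

lemma prime_om : Prime om := prime_of_two (by simp [nn, om])

lemma prime_om' : Prime (1 - om) := prime_of_two (by simp [nn, om])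

section sums

variable {n : ℕ}

lemma sum_om (q : Fin n → OO) (hq : ∀ i, Pr (q i)) (T : Finset (Fin n)) :
    (4 : ℤ) ∣ (∏ i ∈ T, q i).re - 1 ∧ (4 : ℤ) ∣ (∏ i ∈ T, q i).im ∧
      (∑ i ∈ T, qs (q i) om = 0 ↔ (8 : ℤ) ∣ (∏ i ∈ T, q i).re - 1) := by
  classical
  induction T using Finset.induction_on with
  | empty => simp
  | insert i T hi ih =>
    obtain ⟨⟨x, hx⟩, ⟨y, hy⟩, h3⟩ := ih
    obtain ⟨a, ha⟩ := (hq i).re
    obtain ⟨b, hb⟩ := (hq i).im
    have h4 := om_symb (hq i)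
    rw [Finset.prod_insert hi, Finset.sum_insert hi]
    set P := ∏ i ∈ T, q i with hP
    have e1 : (q i * P).re - 1 = 4 * (a + x) + 8 * (2 * a * x - 4 * b * y) := by
      rw [re_mul, show (q i).re = 4 * a + 1 by linarith, show P.re = 4 * x + 1 by linarith, hb, hy]
      ring
    have e2 : (q i * P).im = 4 * ((4 * a + 1) * y + (4 * x + 1) * b + 4 * b * y) := by
      rw [im_mul, show (q i).re = 4 * a + 1 by linarith, show P.re = 4 * x + 1 by linarith, hb, hy]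
      ring
    refine ⟨⟨a + x + 2 * (2 * a * x - 4 * b * y), by rw [e1]; ring⟩, ⟨_, e2⟩, ?_⟩
    rw [e1]
    rw [hx] at h3
    rw [ha] at h4
    have h5 : ∀ u v : ZMod 2, u + v = 0 ↔ ((u = 0 ∧ v = 0) ∨ (¬ u = 0 ∧ ¬ v = 0)) := by decide
    rw [h5, h3, h4]
    omega

lemma sum_one (q : Fin n → OO) (hq : ∀ i, Pr (q i)) (h8 : (8 : OO) ∣ ∏ i, q i - 5) :
    ∑ i, qs (q i) om = 1 := by
  have h1 := (sum_om q hq Finset.univ).2.2
  have h01 : ∀ a : ZMod 2, ¬ a = 0 → a = 1 := by decide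
  apply h01
  rw [h1]
  obtain ⟨t, ht⟩ := h8
  have h2 := congrArg QuadraticAlgebra.re ht
  rw [re_sub, re_mul] at h2
  simp at h2
  omega

lemma sum_one' (q : Fin n → OO) (hq : ∀ i, Pr (q i)) (h8 : (8 : OO) ∣ ∏ i, q i - 5) :
    ∑ i, qs (q i) (1 - om) = 1 := by
  have h1 := sum_one (fun i => cj (q i)) (fun i => (hq i).cj) (by
    have h1 := cj_dvd h8
    have e1 : cj 8 = 8 := by
      show cjH _ = _
      rw [map_ofNat]
    have e2 : cj (∏ i, q i - 5) = ∏ i, cj (q i) - 5 := by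
      show cjH _ = ∏ i, cjH _ - 5
      rw [map_sub, map_prod, map_ofNat]
    rwa [e1, e2] at h1)
  rw [← h1]
  apply Finset.sum_congr rfl
  intro i _
  apply qs_eq
  rw [← sqm_cj]
  have : cj (1 - om) = om := by ext <;> simp [cj, om]
  rw [this]

end sums

/-- The condition on the symbols. -/
def Indec {n : ℕ} (q : Fin n → OO) : Prop :=
  ∀ S : Finset (Fin n), (∀ i, i ∉ S → Sqm (q i) (∏ k ∈ S, q k)) →
    (∀ i, i ∈ S → Sqm (q i) (∏ k ∈ Sᶜ, q k)) → S = ∅ ∨ S = Finset.univ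

section alg

variable {n : ℕ} {q : Fin n → OO} (hq : ∀ i, Pr (q i)) (hinj : Function.Injective q)

include hq hinj

lemma nd {i k : Fin n} (h : i ≠ k) : ¬ q i ∣ q k := not_dvd (hq i) (hq k) (fun h1 => h (hinj h1))

/-- decomposition -/
lemma decomp {ϖ δ : OO} (hϖ : ϖ = om ∨ ϖ = 1 - om) (hδ : Squarefree δ)
    (hsup : ∀ π, Prime π → π ∣ δ → π ∣ ϖ ∨ ∃ i, π ∣ q i) :
    ∃ (u : OO) (a : ℕ) (S : Finset (Fin n)), (u = 1 ∨ u = -1) ∧ (a = 0 ∨ a = 1) ∧
      (∀ i, i ∈ S ↔ q i ∣ δ) ∧ δ = u * ϖ ^ a * ∏ i ∈ S, q i := by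
  classical
  have hϖp : Prime ϖ := by
    rcases hϖ with rfl | rfl
    · exact prime_om
    · exact prime_om'
  set S : Finset (Fin n) := Finset.univ.filter fun i => q i ∣ δ with hS
  have hmem : ∀ i, i ∈ S ↔ q i ∣ δ := fun i => by simp [hS]
  have hP : ∏ i ∈ S, q i ∣ δ := by
    apply Finset.prod_dvd_of_coprime
    · intro i _ k _ hik
      exact ((hq i).prime.irreducible.coprime_iff_not_dvd).2 (nd hq hinj hik)
    · intro i hi
      exact (hmem i).1 hi
  obtain ⟨δ2, h2⟩ := hP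
  have hδ20 : δ2 ≠ 0 := by
    rintro rfl
    rw [mul_zero] at h2
    exact hδ.ne_zero h2
  have hno : ∀ i, ¬ q i ∣ δ2 := by
    rintro i ⟨t, ht⟩
    have hi : i ∈ S := (hmem i).2 (by rw [h2, ht]; exact ⟨(∏ i ∈ S, q i) * t, by ring⟩)
    obtain ⟨v, hv⟩ := Finset.dvd_prod_of_mem q hi
    apply (hq i).prime.not_isUnit
    apply hδ (q i)
    rw [h2, ht, hv]
    exact ⟨v * t, by ring⟩
  have hunit : ∀ y : OO, y ∣ δ2 → ¬ ϖ ∣ y → IsUnit y := by
    intro y hy hyϖ
    by_contra hcon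
    have hy0 : y ≠ 0 := by
      rintro rfl
      exact hδ20 (zero_dvd_iff.1 hy)
    obtain ⟨π, hπ, hπy⟩ := WfDvdMonoid.exists_irreducible_factor hcon hy0
    have hπp := hπ.prime
    rcases hsup π hπp (hπy.trans (hy.trans (by rw [h2]; exact Dvd.intro_left _ rfl))) with h3 | ⟨i, h3⟩
    · exact hyϖ (((hπp.dvd_prime_iff_associated hϖp).1 h3).symm.dvd.trans hπy)
    · exact hno i ((((hπp.dvd_prime_iff_associated (hq i).prime).1 h3).symm.dvd.trans hπy).trans hy)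
  by_cases hϖ2 : ϖ ∣ δ2
  · obtain ⟨u, hu⟩ := hϖ2
    have hu1 : ¬ ϖ ∣ u := by
      rintro ⟨t, ht⟩
      apply hϖp.not_isUnit
      apply hδ ϖ
      rw [h2, hu, ht]
      exact ⟨(∏ i ∈ S, q i) * t, by ring⟩
    have hu2 := unit_cases (hunit u (by rw [hu]; exact Dvd.intro_left _ rfl) hu1)
    exact ⟨u, 1, S, hu2, Or.inr rfl, hmem, by rw [h2, hu]; ring⟩
  · have hu2 := unit_cases (hunit δ2 (dvd_refl _) hϖ2)
    exact ⟨δ2, 0, S, hu2, Or.inl rfl, hmem, by rw [h2]; ring⟩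

lemma nd_prod {i : Fin n} {S : Finset (Fin n)} (h : i ∉ S) : ¬ q i ∣ ∏ k ∈ S, q k := by
  intro h1
  obtain ⟨j, hj, h2⟩ := ((hq i).prime.dvd_finsetProd_iff _).1 h1
  exact nd hq hinj (fun h3 : i = j => h (by rw [h3]; exact hj)) h2

omit hinj in
lemma nd_unit {i : Fin n} {u : OO} (hu : u = 1 ∨ u = -1) : ¬ q i ∣ u ∧ qs (q i) u = 0 := by
  rcases hu with rfl | rfl
  · exact ⟨fun h => (hq i).prime.not_isUnit (isUnit_of_dvd_one h), qs_one⟩
  · refine ⟨fun h => (hq i).prime.not_isUnit (isUnit_of_dvd_one ?_), neg_one_symb (hq i)⟩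
    rwa [dvd_neg] at h

theorem alg {m' δ : OO} (h8 : (8 : OO) ∣ ∏ i, q i - 5) (hind : Indec q) {ϖ : OO}
    (hϖ : ϖ = om ∨ ϖ = 1 - om) (hδ : Squarefree δ)
    (hsup : ∀ π, Prime π → π ∣ δ → π ∣ ϖ ∨ ∃ i, π ∣ q i) (hm' : m' = ∏ i, q i ∨ m' = -∏ i, q i)
    (hloc : ∀ i, (¬ q i ∣ δ ∧ Sqm (q i) δ) ∨
      ∃ δ1 m1, δ = q i * δ1 ∧ m' = q i * m1 ∧ Sqm (q i) (δ1 * m1)) :
    δ = 1 ∨ δ = -1 ∨ δ = m' ∨ δ = -m' := by
  classical
  obtain ⟨u, a, S, hu, ha, hS, hδe⟩ := decomp hq hinj hϖ hδ hsup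
  have hϖ2 : ∀ i, ¬ q i ∣ ϖ := by
    intro i
    rcases hϖ with rfl | rfl
    · exact not_dvd_two_div (hq i) om_mul
    · exact not_dvd_two_div (hq i) (by rw [mul_comm]; exact om_mul)
  have hϖa : ∀ i, ¬ q i ∣ ϖ ^ a ∧ qs (q i) (ϖ ^ a) = a * qs (q i) ϖ := by
    intro i
    rcases ha with rfl | rfl
    · refine ⟨fun h => (hq i).prime.not_isUnit (isUnit_of_dvd_one (by simpa using h)), ?_⟩
      rw [pow_zero, qs_one]; simp
    · rw [pow_one]
      exact ⟨hϖ2 i, by simp⟩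
  have hsum : ∑ i, qs (q i) ϖ = 1 := by
    rcases hϖ with rfl | rfl
    · exact sum_one q hq h8
    · exact sum_one' q hq h8
  -- the conditions
  have c1 : ∀ i, i ∉ S → a * qs (q i) ϖ + ∑ k ∈ S, qs (q i) (q k) = 0 := by
    intro i hi
    rcases hloc i with ⟨-, h1⟩ | ⟨δ1, m1, h1, -⟩
    · rw [← qs_zero, hδe] at h1
      have n1 := nd_prod hq hinj hi
      have n2 : ¬ q i ∣ u * ϖ ^ a := fun h => ((hq i).prime.dvd_or_dvd h).elim
        (nd_unit hq hu).1 (hϖa i).1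
      rw [qs_mul (hq i) n2 n1, qs_mul (hq i) (nd_unit hq hu).1 (hϖa i).1, (nd_unit hq hu).2,
        (hϖa i).2, zero_add, qs_prod (hq i)] at h1
      · exact h1
      · intro k hk
        exact nd hq hinj (fun h => hi (h ▸ hk))
    · exact absurd ((hS i).2 ⟨δ1, h1⟩) hi
  have c2 : ∀ i, i ∈ S → a * qs (q i) ϖ + ∑ k ∈ Sᶜ, qs (q i) (q k) = 0 := by
    intro i hi
    rcases hloc i with ⟨h1, -⟩ | ⟨δ1, m1, h1, h2, h3⟩
    · exact absurd ((hS i).1 hi) h1
    · have hq0 := (hq i).prime.ne_zero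
      obtain ⟨v, hv, hmv⟩ : ∃ v : OO, (v = 1 ∨ v = -1) ∧ m' = v * ∏ i, q i := by
        rcases hm' with h | h
        · exact ⟨1, Or.inl rfl, by rw [h, one_mul]⟩
        · exact ⟨-1, Or.inr rfl, by rw [h]; ring⟩
      have e1 : δ1 = u * ϖ ^ a * ∏ k ∈ S.erase i, q k := by
        apply mul_left_cancel₀ hq0
        rw [← h1, hδe, ← Finset.mul_prod_erase S q hi]
        ring
      have e2 : m1 = v * ((∏ k ∈ S.erase i, q k) * ∏ k ∈ Sᶜ, q k) := by
        apply mul_left_cancel₀ hq0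
        rw [← h2, hmv, ← Finset.prod_mul_prod_compl S q, ← Finset.mul_prod_erase S q hi]
        ring
      have e3 : δ1 * m1 = (u * v * ϖ ^ a * ∏ k ∈ Sᶜ, q k) * (∏ k ∈ S.erase i, q k) ^ 2 := by
        rw [e1, e2]
        ring
      have huv : u * v = 1 ∨ u * v = -1 := by
        rcases hu with rfl | rfl <;> rcases hv with rfl | rfl <;> simp
      have hi' : i ∉ Sᶜ := by simpa using hi
      rw [← qs_zero, e3, qs_mul_sq (hq i) (nd_prod hq hinj (Finset.notMem_erase i S)),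
        qs_mul (hq i) (fun h => ((hq i).prime.dvd_or_dvd h).elim (nd_unit hq huv).1 (hϖa i).1)
          (nd_prod hq hinj hi'), qs_mul (hq i) (nd_unit hq huv).1 (hϖa i).1, (nd_unit hq huv).2,
        (hϖa i).2, zero_add, qs_prod (hq i)] at h3
      · exact h3
      · intro k hk
        exact nd hq hinj (fun h => hi' (h ▸ hk))
  -- summation
  have ha0 : (a : ZMod 2) = 0 := by
    have h1 : ∑ i ∈ S, (a * qs (q i) ϖ + ∑ k ∈ Sᶜ, qs (q i) (q k)) = 0 :=
      Finset.sum_eq_zero fun i hi => c2 i hi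
    have h2 : ∑ i ∈ Sᶜ, (a * qs (q i) ϖ + ∑ k ∈ S, qs (q i) (q k)) = 0 :=
      Finset.sum_eq_zero fun i hi => c1 i (by simpa using hi)
    rw [Finset.sum_add_distrib, ← Finset.mul_sum] at h1 h2
    have h3 : ∑ i ∈ Sᶜ, ∑ k ∈ S, qs (q i) (q k) = ∑ i ∈ S, ∑ k ∈ Sᶜ, qs (q i) (q k) := by
      rw [Finset.sum_comm]
      apply Finset.sum_congr rfl
      intro i hi
      apply Finset.sum_congr rfl
      intro k hk
      apply recip (hq k) (hq i)
      intro h
      rw [Finset.mem_compl] at hk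
      exact hk (hinj h ▸ hi)
    rw [h3] at h2
    have h4 : (a : ZMod 2) * ∑ i, qs (q i) ϖ = 0 := by
      rw [← Finset.sum_add_sum_compl S, mul_add]
      have h5 : ∀ x : ZMod 2, x + x = 0 := by decide
      linear_combination h1 + h2 - h5 (∑ i ∈ S, ∑ k ∈ Sᶜ, qs (q i) (q k))
    rwa [hsum, mul_one] at h4
  have ha' : a = 0 := by
    rcases ha with h | h
    · exact h
    · rw [h] at ha0
      exact absurd ha0 (by decide)
  rcases hind S (fun i hi => by
      rw [← qs_zero, qs_prod (hq i) _ _ (fun k hk => nd hq hinj (fun h => hi (h ▸ hk)))]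
      have := c1 i hi
      rwa [ha0, zero_mul, zero_add] at this) (fun i hi => by
      rw [← qs_zero, qs_prod (hq i) _ _ (fun k hk => nd hq hinj (fun h => by
        rw [Finset.mem_compl] at hk
        exact hk (h ▸ hi)))]
      have := c2 i hi
      rwa [ha0, zero_mul, zero_add] at this) with h | h
  · rw [ha', h, Finset.prod_empty, pow_zero, mul_one, mul_one] at hδe
    rcases hu with hu | hu
    · exact Or.inl (by rw [hδe, hu])
    · exact Or.inr (Or.inl (by rw [hδe, hu]))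
  · rw [ha', h, pow_zero, mul_one] at hδe
    right; right
    rcases hu with hu | hu <;> rcases hm' with hm | hm <;> rw [hδe, hu, hm]
    · left; ring
    · right; ring
    · right; ring
    · left; ring

end alg

end Pool.Agent.R384
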