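import Pool.Agent.R384.Char

/-!
# Chains of isogenies of degree two
-/

set_option autoImplicit false

namespace Pool.Agent.R384

/-- the data of a chain -/
structure CD (A : ℕ → Type) [∀ n, AddCommGroup (A n)] (f : ∀ n, A n →+ A (n + 1))
    (g : ∀ n, A (n + 1) →+ A n) (P T : ∀ n, A n) : Prop where
  gf : ∀ n x, g n (f n x) = x + x
  fg : ∀ n x, f n (g n x) = x + x
  fsurj : ∀ n, Function.Surjective (f n)
  gsurj : ∀ n, Function.Surjective (g n)
  kf : ∀ n x, f n x = 0 ↔ x = 0 ∨ x = P n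
  kg : ∀ n x, g n x = 0 ↔ x = 0 ∨ x = T (n + 1)
  T0 : ∀ n, T n ≠ 0
  P0 : ∀ n, P n ≠ 0
  T2 : T 0 + T 0 = 0
  ne : ∀ n, T n ≠ P n

variable {A : ℕ → Type} [∀ n, AddCommGroup (A n)] {f : ∀ n, A n →+ A (n + 1)}
  {g : ∀ n, A (n + 1) →+ A n} {P T : ∀ n, A n}

lemma CD.T2' (h : CD A f g P T) (n : ℕ) : T n + T n = 0 := by
  cases n with
  | zero => exact h.T2
  | succ n => rw [← h.fg n, (h.kg n _).2 (Or.inr rfl), map_zero]

lemma CD.P2 (h : CD A f g P T) (n : ℕ) : P n + P n = 0 := by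
  rw [← h.gf n, (h.kf n _).2 (Or.inr rfl), map_zero]

lemma CD.fT (h : CD A f g P T) (n : ℕ) : f n (T n) = T (n + 1) := by
  have h1 : g n (f n (T n)) = 0 := by rw [h.gf, h.T2']
  rcases (h.kg n _).1 h1 with h2 | h2
  · rcases (h.kf n _).1 h2 with h3 | h3
    · exact absurd h3 (h.T0 n)
    · exact absurd h3 (h.ne n)
  · exact h2

lemma CD.tors (h : CD A f g P T) {n : ℕ} {x : A n} (hx : x + x = 0) :
    x = 0 ∨ x = P n ∨ x = T n ∨ x = P n + T n := by
  have h1 : g n (f n x) = 0 := by rw [h.gf, hx]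
  rcases (h.kg n _).1 h1 with h2 | h2
  · rcases (h.kf n _).1 h2 with h3 | h3
    · exact Or.inl h3
    · exact Or.inr (Or.inl h3)
  · have h3 : f n (x - T n) = 0 := by rw [map_sub, h.fT, h2, sub_self]
    rcases (h.kf n _).1 h3 with h4 | h4
    · exact Or.inr (Or.inr (Or.inl (sub_eq_zero.1 h4)))
    · exact Or.inr (Or.inr (Or.inr (sub_eq_iff_eq_add.1 h4)))

/-- the kernels of the composites -/
def Kc (f : ∀ n, A n →+ A (n + 1)) : (n m : ℕ) → A m → Prop
  | 0, _, x => x = 0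
  | n + 1, m, x => Kc f n (m + 1) (f m x)

lemma Kc_zero (n : ℕ) : ∀ m, Kc f n m 0 := by
  induction n with
  | zero => intro m; rfl
  | succ n ih => intro m; show Kc f n (m + 1) (f m 0); rw [map_zero]; exact ih _

lemma Kc_add (n : ℕ) : ∀ (m : ℕ) (x y : A m), Kc f n m x → Kc f n m y → Kc f n m (x + y) := by
  induction n with
  | zero =>
    intro m x y hx hy
    show x + y = 0
    rw [show x = 0 from hx, show y = 0 from hy, add_zero]
  | succ n ih =>
    intro m x y hx hy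
    show Kc f n (m + 1) (f m (x + y))
    rw [map_add]
    exact ih _ _ _ hx hy

lemma Kc_smul (n : ℕ) : ∀ (m : ℕ) (k : ℤ) (x : A m), Kc f n m x → Kc f n m (k • x) := by
  induction n with
  | zero =>
    intro m k x hx
    show k • x = 0
    rw [show x = 0 from hx, smul_zero]
  | succ n ih =>
    intro m k x hx
    show Kc f n (m + 1) (f m (k • x))
    rw [map_zsmul]
    exact ih _ _ _ hx

lemma Kc_sub (n : ℕ) (m : ℕ) (x y : A m) (hx : Kc f n m x) (hy : Kc f n m y) :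
    Kc f n m (x - y) := by
  have h1 := Kc_add n m x _ hx (Kc_smul n m (-1) y hy)
  rwa [neg_smul, one_smul, ← sub_eq_add_neg] at h1

lemma Kc_mono (n : ℕ) : ∀ (m : ℕ) (x : A m), Kc f n m x → Kc f (n + 1) m x := by
  induction n with
  | zero =>
    intro m x hx
    show f m x = 0
    rw [show x = 0 from hx, map_zero]
  | succ n ih =>
    intro m x hx
    exact ih _ _ hx

lemma CD.Kg (h : CD A f g P T) (n : ℕ) : ∀ (m : ℕ) (u : A (m + 1)), Kc f n (m + 1) u →
    Kc f n m (g m u) := by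
  induction n with
  | zero =>
    intro m u hu
    show g m u = 0
    rw [show u = 0 from hu, map_zero]
  | succ n ih =>
    intro m u hu
    show Kc f n (m + 1) (f m (g m u))
    rw [h.fg, ← h.gf]
    exact ih _ _ hu

lemma CD.Kdbl (h : CD A f g P T) {n m : ℕ} {x : A m} (hx : Kc f (n + 1) m x) :
    Kc f n m (x + x) := by
  rw [← h.gf]
  exact h.Kg n m _ hx

lemma CD.KT (h : CD A f g P T) (n : ℕ) : ∀ m, ¬ Kc f n m (T m) := by
  induction n with
  | zero => intro m hm; exact h.T0 m hm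
  | succ n ih =>
    intro m hm
    apply ih (m + 1)
    rw [← h.fT]
    exact hm

lemma CD.KP (h : CD A f g P T) (n m : ℕ) : Kc f (n + 1) m (P m) := by
  have h1 : Kc f 1 m (P m) := (h.kf m _).2 (Or.inr rfl)
  induction n with
  | zero => exact h1
  | succ n ih => exact Kc_mono _ _ _ ih

lemma CD.Ktors (h : CD A f g P T) {n m : ℕ} {x : A m} (hx : Kc f n m x) (h2 : x + x = 0) :
    x = 0 ∨ x = P m := by
  cases n with
  | zero => exact Or.inl hx
  | succ n =>
    rcases h.tors h2 with h3 | h3 | h3 | h3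
    · exact Or.inl h3
    · exact Or.inr h3
    · exfalso
      rw [h3] at hx
      exact h.KT _ _ hx
    · exfalso
      apply h.KT (n + 1) m
      have : T m = x - P m := by rw [h3, add_sub_cancel_left]
      rw [this]
      exact Kc_sub _ _ _ _ hx (h.KP n m)

lemma CD.lift (h : CD A f g P T) (n : ℕ) : ∀ (m : ℕ) (x : A m), Kc f n m x →
    ∃ u, g m u = x ∧ Kc f n (m + 1) u := by
  induction n with
  | zero =>
    intro m x hx
    exact ⟨0, by rw [map_zero]; exact (show x = 0 from hx).symm, rfl⟩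
  | succ n ih =>
    intro m x hx
    obtain ⟨u, hu⟩ := h.gsurj m x
    have hfx : f m x = u + u := by rw [← hu, h.fg]
    obtain ⟨v', hv', hK⟩ := ih (m + 1) (f m x) hx
    have h1 : g (m + 1) (v' - f (m + 1) u) = 0 := by
      rw [map_sub, hv', h.gf, hfx, sub_self]
    rcases (h.kg (m + 1) _).1 h1 with h2 | h2
    · refine ⟨u, hu, ?_⟩
      show Kc f n (m + 2) (f (m + 1) u)
      rwa [← sub_eq_zero.1 h2]
    · refine ⟨u + T (m + 1), ?_, ?_⟩
      · rw [map_add, hu, (h.kg m _).2 (Or.inr rfl), add_zero]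
      · show Kc f n (m + 2) (f (m + 1) (u + T (m + 1)))
        rw [map_add, h.fT]
        have h3 : v' = f (m + 1) u + T (m + 1 + 1) := by
          rw [← h2]
          abel
        rw [← h3]
        exact hK

lemma CD.step (h : CD A f g P T) {n m : ℕ} {x : A m} (hx : Kc f n m x) :
    ∃ y, y + y = x ∧ Kc f (n + 1) m y := by
  obtain ⟨u, hu, hK⟩ := h.lift n m x hx
  obtain ⟨y, hy⟩ := h.fsurj m u
  refine ⟨y, ?_, ?_⟩
  · rw [← h.gf, hy, hu]
  · show Kc f n (m + 1) (f m y)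
    rwa [hy]

/-- a sequence with `2 x (n + 1) = x n`, `x 0 = 0`, `x 1 = T` -/
structure Sq {G : Type} [AddCommGroup G] (T : G) (x : ℕ → G) : Prop where
  zero : x 0 = 0
  one : x 1 = T
  dbl : ∀ n, x (n + 1) + x (n + 1) = x n

open Classical in
theorem CD.exists_sq (h : CD A f g P T) : ∃ x : ℕ → A 0, Sq (P 0) x ∧ ∀ n, Kc f n 0 (x n) := by
  have hs : ∀ p : (n : ℕ) × {x : A 0 // Kc f n 0 x}, ∃ y : A 0, y + y = p.2.1 ∧
      Kc f (p.1 + 1) 0 y := fun p => h.step p.2.2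
  choose s hs1 hs2 using hs
  let z : ∀ n : ℕ, {x : A 0 // Kc f (n + 1) 0 x} := fun n =>
    Nat.rec ⟨P 0, h.KP 0 0⟩ (fun n p => ⟨s ⟨n + 1, p⟩, hs2 ⟨n + 1, p⟩⟩) n
  refine ⟨fun n => Nat.casesOn n 0 (fun n => (z n).1), ⟨rfl, rfl, ?_⟩, ?_⟩
  · intro n
    cases n with
    | zero => exact h.P2 0
    | succ n => exact hs1 ⟨n + 1, z n⟩
  · intro n
    cases n with
    | zero => rfl
    | succ n => exact (z n).2

section Sq

variable {G : Type} [AddCommGroup G] {Q Q' : G} {x y : ℕ → G}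

lemma Sq.pow (hx : Sq Q x) (n k : ℕ) : (2 ^ k : ℤ) • x (n + k) = x n := by
  induction k with
  | zero => simp
  | succ k ih =>
    rw [pow_succ, mul_smul, ← add_assoc, two_smul, hx.dbl, ih]

lemma Sq.pow' (hx : Sq Q x) (n : ℕ) : (2 ^ n : ℤ) • x n = 0 := by
  have := hx.pow 0 n
  rwa [zero_add, hx.zero] at this

lemma Sq.two (hx : Sq Q x) : Q + Q = 0 := by
  rw [← hx.one]
  have := hx.dbl 0
  rwa [hx.zero] at this

lemma Sq.dvd (hx : Sq Q x) (hQ : Q ≠ 0) {n : ℕ} {k : ℤ} (hk : k • x n = 0) :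
    (2 ^ n : ℤ) ∣ k := by
  induction n generalizing k with
  | zero => simp
  | succ n ih =>
    have h1 : (2 : ℤ) ∣ k := by
      by_contra hodd
      have h2 : (2 ^ n : ℤ) • (k • x (n + 1)) = 0 := by rw [hk, smul_zero]
      rw [smul_comm] at h2
      have h3 := hx.pow 1 n
      rw [add_comm] at h3
      rw [h3, hx.one] at h2
      obtain ⟨l, hl⟩ := Int.not_even_iff_odd.1 (fun he => hodd he.two_dvd)
      rw [hl, add_smul, one_smul, mul_comm, mul_smul, two_smul, hx.two, smul_zero, zero_add] at h2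
      exact hQ h2
    obtain ⟨l, rfl⟩ := h1
    rw [mul_comm, mul_smul, two_smul, hx.dbl] at hk
    obtain ⟨j, rfl⟩ := ih hk
    exact ⟨j, by ring⟩

/-- `x` and `y` are a basis -/
theorem Sq.basis (hx : Sq Q x) (hy : Sq Q' y)
    (h4 : ∀ z : G, z + z = 0 → z = 0 ∨ z = Q ∨ z = Q' ∨ z = Q + Q') {n : ℕ} {R : G}
    (hR : (2 ^ n : ℤ) • R = 0) : ∃ a b : ℤ, R = a • x n + b • y n := by
  induction n generalizing R with
  | zero =>
    rw [pow_zero, one_smul] at hR
    exact ⟨0, 0, by rw [hR]; simp⟩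
  | succ n ih =>
    set S := (2 ^ n : ℤ) • R with hS
    have h2S : S + S = 0 := by
      rw [← two_smul ℤ S, hS, ← mul_smul, ← pow_succ', hR]
    have h1 : ∃ a b : ℤ, S = a • Q + b • Q' := by
      rcases h4 S h2S with h5 | h5 | h5 | h5
      · exact ⟨0, 0, by rw [h5]; simp⟩
      · exact ⟨1, 0, by rw [h5]; simp⟩
      · exact ⟨0, 1, by rw [h5]; simp⟩
      · exact ⟨1, 1, by rw [h5]; simp⟩
    obtain ⟨a, b, hab⟩ := h1
    have h7 : (2 ^ n : ℤ) • (R - (a • x (n + 1) + b • y (n + 1))) = 0 := by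
      rw [smul_sub, smul_add, smul_comm _ a, smul_comm _ b, ← hS, hab]
      have e1 := hx.pow 1 n
      have e2 := hy.pow 1 n
      rw [add_comm] at e1 e2
      rw [e1, e2, hx.one, hy.one, sub_self]
    obtain ⟨c, d, hcd⟩ := ih h7
    refine ⟨a + 2 * c, b + 2 * d, ?_⟩
    rw [sub_eq_iff_eq_add] at hcd
    rw [hcd, ← hx.dbl, ← hy.dbl, add_smul, add_smul, mul_comm 2 c, mul_comm 2 d, mul_smul, mul_smul,
      two_smul, two_smul]
    abel

/-- uniqueness of the coordinates -/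
theorem Sq.uniq (hx : Sq Q x) (hy : Sq Q' y) (hQ : Q ≠ 0) (hQ' : Q' ≠ 0) (hne : Q ≠ Q') {n : ℕ}
    {a b : ℤ} (hR : a • x n + b • y n = 0) : (2 ^ n : ℤ) ∣ a ∧ (2 ^ n : ℤ) ∣ b := by
  induction n generalizing a b with
  | zero => simp
  | succ n ih =>
    have h1 : (2 ^ n : ℤ) • (a • x (n + 1) + b • y (n + 1)) = 0 := by rw [hR, smul_zero]
    have e1 := hx.pow 1 n
    have e2 := hy.pow 1 n
    rw [add_comm] at e1 e2
    rw [smul_add, smul_comm _ a, smul_comm _ b, e1, e2, hx.one, hy.one] at h1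
    have hT2 := hx.two
    have hT2' := hy.two
    have key : ∀ (a : ℤ) (S : G), S + S = 0 → ((2 : ℤ) ∣ a ∧ a • S = 0) ∨ (¬ (2 : ℤ) ∣ a ∧ a • S = S) := by
      intro a S hS
      rcases Int.even_or_odd a with ⟨c, hc⟩ | ⟨c, hc⟩
      · left
        refine ⟨⟨c, by omega⟩, ?_⟩
        rw [hc, add_smul, ← smul_add, hS, smul_zero]
      · right
        refine ⟨by omega, ?_⟩
        rw [hc, add_smul, one_smul, mul_comm, mul_smul, two_smul, hS, smul_zero, zero_add]
    have h2 : (2 : ℤ) ∣ a ∧ (2 : ℤ) ∣ b := by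
      rcases key a Q hT2 with ⟨ha, ha'⟩ | ⟨ha, ha'⟩ <;> rcases key b Q' hT2' with ⟨hb, hb'⟩ | ⟨hb, hb'⟩
      · exact ⟨ha, hb⟩
      · rw [ha', hb', zero_add] at h1
        exact absurd h1 hQ'
      · rw [ha', hb', add_zero] at h1
        exact absurd h1 hQ
      · rw [ha', hb'] at h1
        exfalso
        apply hne
        have : Q = -Q' := eq_neg_of_add_eq_zero_left h1
        rw [this, neg_eq_iff_add_eq_zero, hT2']
    obtain ⟨⟨c, rfl⟩, ⟨d, rfl⟩⟩ := h2
    rw [mul_comm 2 c, mul_comm 2 d, mul_smul, mul_smul, two_smul, two_smul, hx.dbl, hy.dbl] at hR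
    obtain ⟨⟨c', hc'⟩, ⟨d', hd'⟩⟩ := ih hR
    exact ⟨⟨c', by rw [hc']; ring⟩, ⟨d', by rw [hd']; ring⟩⟩

end Sq

lemma CD.gen (h : CD A f g P T) {x : ℕ → A 0} (hx : Sq (P 0) x) {n : ℕ} {y : A 0}
    (hxK : ∀ n, Kc f n 0 (x n)) (hy : Kc f n 0 y) : ∃ k : ℤ, y = k • x n := by
  induction n generalizing y with
  | zero => exact ⟨0, by rw [zero_smul]; exact hy⟩
  | succ n ih =>
    obtain ⟨k, hk⟩ := ih (h.Kdbl hy)
    have h1 : Kc f (n + 1) 0 (y - k • x (n + 1)) := Kc_sub _ _ _ _ hy (Kc_smul _ _ _ _ (hxK _))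
    have h2 : (y - k • x (n + 1)) + (y - k • x (n + 1)) = 0 := by
      have : k • x n = k • x (n + 1) + k • x (n + 1) := by rw [← hx.dbl, smul_add]
      rw [this] at hk
      rw [sub_add_sub_comm, hk, sub_self]
    rcases h.Ktors h1 h2 with h3 | h3
    · exact ⟨k, sub_eq_zero.1 h3⟩
    · refine ⟨2 ^ n + k, ?_⟩
      have h4 := hx.pow 1 n
      rw [add_comm, hx.one] at h4
      rw [add_smul, h4, ← h3, sub_add_cancel]

end Pool.Agent.R384
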