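import Pool.Agent.R384.Tower

/-!
# The character of a tower
-/

set_option autoImplicit false

namespace Pool.Agent.R384

variable {A : Type} [AddCommGroup A] {f g : A →+ A} {T T' : A} {x : ℕ → A}

instance fact2 : Fact (Nat.Prime 2) := ⟨Nat.prime_two⟩

/-- `a` acts on the sequence `x` as multiplication by the 2-adic integer `z` -/
def ActsBy (x : ℕ → A) (a : A →+ A) (z : ℤ_[2]) : Prop :=
  ∀ (n : ℕ) (k : ℤ), (2 : ℤ_[2]) ^ n ∣ z - k → a (x n) = k • x n

lemma dvd_cast {n : ℕ} {k : ℤ} : (2 : ℤ_[2]) ^ n ∣ (k : ℤ_[2]) ↔ (2 ^ n : ℤ) ∣ k := by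
  rw [← Ideal.mem_span_singleton]
  have h1 := PadicInt.norm_le_pow_iff_mem_span_pow (p := 2) (k : ℤ_[2]) n
  have h2 : (((2 : ℕ) : ℤ_[2])) = 2 := by norm_num
  rw [h2] at h1
  rw [← h1, PadicInt.norm_int_le_pow_iff_dvd]
  norm_num

lemma exists_int (z : ℤ_[2]) (n : ℕ) : ∃ k : ℤ, (2 : ℤ_[2]) ^ n ∣ z - k := by
  refine ⟨(z.appr n : ℕ), ?_⟩
  have h := PadicInt.appr_spec n z
  rw [Ideal.mem_span_singleton] at h
  have h2 : (((2 : ℕ) : ℤ_[2])) = 2 := by norm_num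
  rw [h2] at h
  exact_mod_cast h

lemma exists_lim (k : ℕ → ℤ) (hk : ∀ n, (2 ^ n : ℤ) ∣ k (n + 1) - k n) :
    ∃ z : ℤ_[2], ∀ n, (2 : ℤ_[2]) ^ n ∣ z - k n := by
  have hmono : ∀ n j, (2 ^ n : ℤ) ∣ k (n + j) - k n := by
    intro n j
    induction j with
    | zero => simp
    | succ j ih =>
      have h1 : (2 ^ n : ℤ) ∣ k (n + j + 1) - k (n + j) :=
        (pow_dvd_pow 2 (Nat.le_add_right n j)).trans (hk (n + j))
      have h2 := dvd_add h1 ih
      rwa [sub_add_sub_cancel] at h2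
  have hnorm : ∀ n j, ‖(k (n + j) : ℤ_[2]) - k n‖ ≤ (2 : ℝ) ^ (-(n : ℤ)) := by
    intro n j
    rw [← Int.cast_sub]
    have h1 : (((2 : ℕ) : ℤ) ^ n ∣ k (n + j) - k n) := by exact_mod_cast hmono n j
    have := PadicInt.norm_int_le_pow_iff_dvd.2 h1
    simpa using this
  have hc : CauchySeq (fun n => (k n : ℤ_[2])) := by
    apply cauchySeq_of_le_geometric (1 / 2) 1 (by norm_num)
    intro n
    rw [dist_comm, dist_eq_norm]
    have h1 := hnorm n 1
    rw [one_mul, one_div, inv_pow, ← zpow_natCast, ← zpow_neg]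
    exact h1
  obtain ⟨z, hz⟩ := cauchySeq_tendsto_of_complete hc
  refine ⟨z, fun n => ?_⟩
  have h2 : ‖z - k n‖ ≤ (2 : ℝ) ^ (-(n : ℤ)) := by
    have h3 : Filter.Tendsto (fun j => ‖(k (n + j) : ℤ_[2]) - k n‖) Filter.atTop
        (nhds ‖z - k n‖) := by
      apply Filter.Tendsto.norm
      apply Filter.Tendsto.sub_const
      have h4 := (Filter.tendsto_add_atTop_iff_nat (f := fun n => (k n : ℤ_[2])) n).2 hz
      refine h4.congr fun j => ?_
      rw [add_comm]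
    exact le_of_tendsto' h3 (hnorm n)
  have h5 := (PadicInt.norm_le_pow_iff_mem_span_pow (p := 2) (z - k n) n).1 (by simpa using h2)
  rw [Ideal.mem_span_singleton] at h5
  have h6 : (((2 : ℕ) : ℤ_[2])) = 2 := by norm_num
  rwa [h6] at h5

lemma eq_of_dvd {z z' : ℤ_[2]} (h : ∀ n, (2 : ℤ_[2]) ^ n ∣ z - z') : z = z' := by
  by_contra hne
  have h0 : z - z' ≠ 0 := sub_ne_zero.2 hne
  have h1 : ∀ n : ℕ, ‖z - z'‖ ≤ (1 / 2 : ℝ) ^ n := by
    intro n
    obtain ⟨c, hc⟩ := h n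
    rw [hc, norm_mul, norm_pow]
    have h2 : ‖(2 : ℤ_[2])‖ = 1 / 2 := by
      have := PadicInt.norm_p (p := 2)
      simpa using this
    rw [h2]
    calc (1 / 2 : ℝ) ^ n * ‖c‖ ≤ (1 / 2 : ℝ) ^ n * 1 :=
          mul_le_mul_of_nonneg_left (PadicInt.norm_le_one c) (by positivity)
      _ = _ := mul_one _
  have h2 : ‖z - z'‖ ≤ 0 := by
    have h3 : Filter.Tendsto (fun n : ℕ => (1 / 2 : ℝ) ^ n) Filter.atTop (nhds 0) :=
      tendsto_pow_atTop_nhds_zero_of_lt_one (by norm_num) (by norm_num)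
    exact ge_of_tendsto' h3 h1
  exact h0 (norm_le_zero_iff.1 h2)

/-- existence of the scalar -/
theorem exists_scalar (h : TD f g T T') (hx : Tow f T x) (a : A →+ A)
    (hcomm : ∀ P, a (f P) = f (a P)) : ∃ z : ℤ_[2], ActsBy x a z := by
  have hker : ∀ n, K f n (a (x n)) := by
    intro n
    have h1 : ∀ (n : ℕ) (P : A), (f^[n]) (a P) = a ((f^[n]) P) := by
      intro n
      induction n with
      | zero => intro P; rfl
      | succ n ih =>
        intro P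
        rw [Function.iterate_succ_apply, ← hcomm, ih, Function.iterate_succ_apply]
    unfold K
    rw [h1, show (f^[n]) (x n) = 0 from hx.ker n, map_zero]
  choose k hk using fun n => hx.gen h (hker n)
  have hk2 : ∀ n, (2 ^ n : ℤ) ∣ k (n + 1) - k n := by
    intro n
    apply Tow.dvd h hx
    rw [sub_smul, ← hk n]
    nth_rw 1 [← hx.dbl n]
    rw [smul_add, ← hk (n + 1), ← map_add, hx.dbl, sub_self]
  obtain ⟨z, hz⟩ := exists_lim k hk2
  refine ⟨z, fun n j hj => ?_⟩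
  have h1 : (2 : ℤ_[2]) ^ n ∣ ((j - k n : ℤ) : ℤ_[2]) := by
    have h2 := dvd_sub (hz n) hj
    rw [sub_sub_sub_cancel_left] at h2
    push_cast
    exact h2
  obtain ⟨l, hl⟩ := dvd_cast.1 h1
  have h3 : j = k n + l * 2 ^ n := by linarith
  rw [h3, add_smul, mul_smul, hx.pow', smul_zero, add_zero]
  exact hk n

theorem scalar_unique (h : TD f g T T') (hx : Tow f T x) {a : A →+ A} {z z' : ℤ_[2]}
    (hz : ActsBy x a z) (hz' : ActsBy x a z') : z = z' := by
  apply eq_of_dvd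
  intro n
  obtain ⟨k, hk⟩ := exists_int z n
  obtain ⟨k', hk'⟩ := exists_int z' n
  have h1 : (k - k') • x n = 0 := by rw [sub_smul, ← hz n k hk, ← hz' n k' hk', sub_self]
  have h2 := Tow.dvd h hx h1
  have h3 := dvd_cast.2 h2
  push_cast at h3
  have h4 := dvd_sub (dvd_add hk h3) hk'
  have h5 : z - (k : ℤ_[2]) + ((k : ℤ_[2]) - k') - (z' - k') = z - z' := by ring
  rwa [h5] at h4

lemma actsBy_of (hx : Tow f T x) {a : A →+ A} {z : ℤ_[2]}
    (h : ∀ n, ∃ k : ℤ, (2 : ℤ_[2]) ^ n ∣ z - k ∧ a (x n) = k • x n) : ActsBy x a z := by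
  intro n j hj
  obtain ⟨k, hk, he⟩ := h n
  have h1 : (2 : ℤ_[2]) ^ n ∣ ((j - k : ℤ) : ℤ_[2]) := by
    have h2 := dvd_sub hk hj
    rw [sub_sub_sub_cancel_left] at h2
    push_cast
    exact h2
  obtain ⟨l, hl⟩ := dvd_cast.1 h1
  have h3 : j = k + l * 2 ^ n := by linarith
  rw [h3, add_smul, mul_smul, hx.pow', smul_zero, add_zero]
  exact he

lemma ActsBy.one (hx : Tow f T x) {a : A →+ A} (ha : ∀ n, a (x n) = x n) : ActsBy x a 1 :=
  actsBy_of hx fun n => ⟨1, by simp, by rw [one_smul, ha]⟩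

lemma ActsBy.neg_one (hx : Tow f T x) {a : A →+ A} (ha : ∀ n, a (x n) = -x n) : ActsBy x a (-1) :=
  actsBy_of hx fun n => ⟨-1, by simp, by rw [neg_smul, one_smul, ha]⟩

lemma ActsBy.mul (hx : Tow f T x) {a b c : A →+ A} (habc : ∀ P, c P = a (b P)) {z z' : ℤ_[2]}
    (hz : ActsBy x a z) (hz' : ActsBy x b z') : ActsBy x c (z * z') := by
  apply actsBy_of hx
  intro n
  obtain ⟨k, hk⟩ := exists_int z n
  obtain ⟨k', hk'⟩ := exists_int z' n
  refine ⟨k * k', ?_, ?_⟩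
  · have h1 : z * z' - ((k * k' : ℤ) : ℤ_[2]) = (z - k) * z' + k * (z' - k') := by
      push_cast
      ring
    rw [h1]
    exact dvd_add (hk.mul_right _) (hk'.mul_left _)
  · rw [habc, hz' n k' hk', map_zsmul, hz n k hk, smul_smul, mul_comm k' k]

/-- a family of commuting operators acts through a character -/
theorem exists_char (h : TD f g T T') (hx : Tow f T x) {G : Type} [Group G] (a : G → A →+ A)
    (h1 : ∀ P, a 1 P = P) (hmul : ∀ σ τ P, a (σ * τ) P = a σ (a τ P))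
    (hcomm : ∀ σ P, a σ (f P) = f (a σ P)) :
    ∃ κ : G →* ℤ_[2]ˣ, ∀ σ, ActsBy x (a σ) (κ σ) := by
  choose z hz using fun σ => exists_scalar h hx (a σ) (hcomm σ)
  have hz1 : z 1 = 1 := scalar_unique h hx (hz 1) (ActsBy.one hx fun n => h1 _)
  have hzm : ∀ σ τ, z (σ * τ) = z σ * z τ := fun σ τ =>
    scalar_unique h hx (hz (σ * τ)) (ActsBy.mul hx (hmul σ τ) (hz σ) (hz τ))
  let κ : G →* ℤ_[2] := { toFun := z, map_one' := hz1, map_mul' := hzm }
  exact ⟨κ.toHomUnits, fun σ => hz σ⟩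

end Pool.Agent.R384
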