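import Pool.Agent.R384.Fin

/-!
# The vanishing of the Selmer groups modulo two
-/

set_option autoImplicit false
set_option linter.unusedSectionVars false

namespace Pool.Agent.R384

open Pool.Agent.Y715.Red Pool.Agent.Y715.Nr Pool.Agent.W237.RK
open Pool.Agent.Y715.Gi (QB KK GK i₀_mem gk_fix)
open Pool.Agent.Y715.Df (Cmp exists_cmp)
open Pool.Agent.Y715.Lc (norm_two_odd)

open scoped Classical

variable {i₀ : QB} (hi : i₀ ^ 2 = i₀ - 2) {m : OO} {r : QB}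

/-- the restriction of `φ` to `D` is trivial or the character of `r` -/
def Dich (φ : GK i₀ → ZMod 2) (r : QB) (D : Set (GK i₀)) : Prop :=
  (∀ σ ∈ D, φ σ = 0) ∨ ∀ σ ∈ D, (φ σ = 0 ↔ σ r = r)

/-- the local conditions -/
structure LC (m : OO) (r : QB) (ι0 : QB →ₐ[ℚ] PadicAlgCl 2) (φ : GK i₀ → ZMod 2) : Prop where
  cont : IsLocallyConstant φ
  add : ∀ σ τ, φ (σ * τ) = φ σ + φ τ
  unr : ∀ (p : ℕ) [Fact p.Prime] (ι : QB →ₐ[ℚ] PadicAlgCl p), p ≠ 2 → ¬ ‖em (iw hi ι) m‖ < 1 →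
    ∀ σ ∈ (II ι : Set (GK i₀)), φ σ = 0
  ram : ∀ (p : ℕ) [Fact p.Prime] (ι : QB →ₐ[ℚ] PadicAlgCl p), p ≠ 2 → ‖em (iw hi ι) m‖ < 1 →
    Dich φ r (DD ι)
  str : Dich φ r (DD ι0)

variable {φ : GK i₀ → ZMod 2}

lemma dich_fix (hr : r ^ 2 = em hi m) {D : Set (GK i₀)} (hd : Dich φ r D) {δ : OO} {s : QB}
    (hs : s ^ 2 = em hi δ) (hk : ∀ σ : GK i₀, σ s = s ↔ φ σ = 0) :
    (∀ σ ∈ D, σ s = s) ∨ ∀ σ ∈ D, σ (s * r) = s * r := by
  rcases hd with h3 | h3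
  · left
    intro σ hσ
    exact (hk σ).2 (h3 σ hσ)
  · right
    intro σ hσ
    have h4 := h3 σ hσ
    rw [← hk σ] at h4
    rw [map_mul]
    rcases rt_or hi hr σ with h5 | h5
    · rw [h5, h4.2 h5]
    · rcases rt_or hi hs σ with h6 | h6
      · rw [h6, h4.1 h6]
      · rw [h5, h6]
        ring

/-- the local condition at a prime divisor of `m` -/
lemma loc_q' (hr : r ^ 2 = em hi m) {q m1 : OO} (hq : Pr q) (hm : m = q * m1) (hq1 : ¬ q ∣ m1)
    {p : ℕ} [Fact p.Prime] {ι : QB →ₐ[ℚ] PadicAlgCl p} (hι : ‖em (iw hi ι) q‖ < 1)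
    (hd : Dich φ r (DD ι)) {δ : OO} (hδ : Squarefree δ) {s : QB}
    (hs : s ^ 2 = em hi δ) (hk : ∀ σ : GK i₀, σ s = s ↔ φ σ = 0) :
    (¬ q ∣ δ ∧ Sqm q δ) ∨ ∃ δ1 m1, δ = q * δ1 ∧ m = q * m1 ∧ Sqm q (δ1 * m1) := by
  have hp2 : p ≠ 2 := fun h => hq.two ((two_of_dvd hq.prime (iw hi ι) hι).1 h)
  have hp7 : p ≠ 7 := seven_of hq (iw hi ι) hι
  have hsq : (ι s) ^ 2 = em (iw hi ι) δ := by rw [← map_pow, hs, ι_em]
  rcases dich_fix hi hr hd hs hk with h | h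
  · left
    refine ⟨not_dvd_of_fix (iw hi ι) hq.prime hι hδ hsq fun τ _ hτ => fix_D h τ hτ, ?_⟩
    exact resid (iw hi ι) hp2 hp7 hq.prime hι hsq (fix_D h)
  · right
    have hsr : (s * r) ^ 2 = em hi (δ * m) := by rw [mul_pow, hs, hr, map_mul]
    have hdv : q ∣ δ := by
      by_contra hcon
      refine no_simple (iw hi ι) hq.prime hι (t := δ * m1) (s := ι (s * r))
        (fun h => (hq.prime.dvd_or_dvd h).elim hcon hq1) ?_ fun τ _ hτ => fix_D h τ hτ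
      rw [← map_pow, hsr, ι_em, hm]
      congr 1
      ring
    obtain ⟨δ1, hδ1⟩ := hdv
    refine ⟨δ1, m1, hδ1, hm, ?_⟩
    have hq0 : em (iw hi ι) q ≠ 0 := em_ne _ hq.prime.ne_zero
    refine resid (iw hi ι) hp2 hp7 hq.prime hι (y := ι (s * r) / em (iw hi ι) q) ?_ ?_
    · rw [div_pow, ← map_pow, hsr, ι_em, hδ1, hm, div_eq_iff (pow_ne_zero _ hq0), ← map_pow,
        ← map_mul]
      congr 1
      ring
    · intro τ hτ
      rw [map_div₀, fix_D h τ hτ, em_fix (iw hi ι) hτ]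

/-- there is an element of the decomposition group that moves `√m` -/
lemma exists_dec' {z : ℤ} {n : ℕ} {k : ℤ} (hz : z - 1 = 2 ^ n * k) (hk : k % 2 = 1) (hn : n ≤ 2)
    (hz1 : z % 2 = 1) (ι : QB →ₐ[ℚ] PadicAlgCl 2) (hmz : ‖em (iw hi ι) m - z‖ ≤ 1 / 8)
    (hr : r ^ 2 = em hi m) : ∃ σ ∈ (DD ι : Set (GK i₀)), σ r = -r := by
  by_contra hcon
  push Not at hcon
  have hfix : ∀ τ : Au 2, τ (ι r) = ι r := by
    intro τ
    refine fix_D (fun σ hσ => ?_) τ (two_fix (iw hi ι) τ)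
    rcases rt_or hi hr σ with h | h
    · exact h
    · exact absurd h (hcon σ hσ)
  have h1 : (ι r) ^ 2 = em (iw hi ι) m := by rw [← map_pow, hr, ι_em]
  have h2 : ‖ι r‖ = 1 := by
    have h3 : ‖em (iw hi ι) m‖ = 1 := by
      have h2 : ‖(z : PadicAlgCl 2)‖ = 1 := odd_norm hz1
      have e : em (iw hi ι) m = z + (em (iw hi ι) m - z) := by ring
      rw [e, eq_of_lt, h2]
      rw [h2]
      linarith
    rw [← h1, norm_pow] at h3
    exact (pow_eq_one_iff_of_nonneg (norm_nonneg _) two_ne_zero).1 h3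
  have h3 := sq_mod_eight h2 hfix
  rw [h1] at h3
  exact size (iw hi ι) h3 hmz hz hk hn

/-- the local condition at the strict place -/
lemma loc_strict' (hr : r ^ 2 = em hi m)
    (h8 : (8 : OO) ∣ m - 5 ∨ (8 : OO) ∣ m + 5) {ϖ : OO} (hϖ : Prime ϖ)
    {ι : QB →ₐ[ℚ] PadicAlgCl 2} (hι : ‖em (iw hi ι) ϖ‖ < 1)
    (hd : Dich φ r (DD ι)) {δ : OO} (hδ : Squarefree δ) {s : QB}
    (hs : s ^ 2 = em hi δ) (hk : ∀ σ : GK i₀, σ s = s ↔ φ σ = 0) :
    ¬ ϖ ∣ δ ∧ (‖em (iw hi ι) δ - 1‖ ≤ 1 / 8 ∨ ‖em (iw hi ι) (δ * m) - 1‖ ≤ 1 / 8) := by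
  have hm1 := norm_one_of h8 (iw hi ι)
  have hϖm : ¬ ϖ ∣ m := by
    rw [dvd_iff (iw hi ι) hϖ hι, hm1]
    exact lt_irrefl _
  have hsq : (ι s) ^ 2 = em (iw hi ι) δ := by rw [← map_pow, hs, ι_em]
  have key : ∀ {x : OO} {y : PadicAlgCl 2}, y ^ 2 = em (iw hi ι) x → ¬ ϖ ∣ x →
      (∀ τ : Au 2, τ y = y) → ‖em (iw hi ι) x - 1‖ ≤ 1 / 8 := by
    intro x y hy hx hfix
    have h3 := eq_one_of_not_lt (iw hi ι) ((dvd_iff (iw hi ι) hϖ hι x).not.1 hx)
    rw [← hy, norm_pow] at h3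
    rw [← hy]
    exact sq_mod_eight ((pow_eq_one_iff_of_nonneg (norm_nonneg _) two_ne_zero).1 h3) hfix
  rcases dich_fix hi hr hd hs hk with h | h
  · have h3 := not_dvd_of_fix (iw hi ι) hϖ hι hδ hsq fun τ _ hτ => fix_D h τ hτ
    exact ⟨h3, Or.inl (key hsq h3 fun τ => fix_D h τ (two_fix (iw hi ι) τ))⟩
  · have hsr : (ι (s * r)) ^ 2 = em (iw hi ι) (δ * m) := by
      rw [← map_pow, mul_pow, hs, hr, ← map_mul, ι_em]
    have h3 : ¬ ϖ ∣ δ := by
      rintro ⟨t, ht⟩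
      have h4 : ¬ ϖ ∣ t := by
        rintro ⟨v, rfl⟩
        exact hϖ.not_isUnit (hδ ϖ ⟨v, by rw [ht]; ring⟩)
      refine no_simple (iw hi ι) hϖ hι (t := t * m) (s := ι (s * r))
        (fun h => (hϖ.dvd_or_dvd h).elim h4 hϖm) ?_ fun τ _ hτ => fix_D h τ hτ
      rw [hsr, ht]
      congr 1
      ring
    exact ⟨h3, Or.inr (key hsr (fun h => (hϖ.dvd_or_dvd h).elim h3 hϖm)
      fun τ => fix_D h τ (two_fix (iw hi ι) τ))⟩

/-- **The vanishing of the Selmer group modulo two.** -/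
theorem core {n : ℕ} {q : Fin n → OO} (hq : ∀ i, Pr (q i)) (hinj : Function.Injective q)
    (h8 : (8 : OO) ∣ ∏ i, q i - 5) (hind : Indec q) (hm : m = ∏ i, q i ∨ m = -∏ i, q i)
    (hr : r ^ 2 = em hi m) {ϖ ϖ' : OO}
    (hϖ : (ϖ = om ∧ ϖ' = 1 - om) ∨ (ϖ = 1 - om ∧ ϖ' = om))
    {ι : QB →ₐ[ℚ] PadicAlgCl 2} (hι : ‖ι (em hi ϖ)‖ < 1) (lc : LC hi m r ι φ) :
    (∀ σ, φ σ = 0) ∨ ∀ σ, (φ σ = 0 ↔ σ r = r) := by
  classical
  have h8' : (8 : OO) ∣ m - 5 ∨ (8 : OO) ∣ m + 5 := by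
    rcases hm with h | h
    · left; rw [h]; exact h8
    · right
      rw [h]
      have : -∏ i, q i + 5 = -(∏ i, q i - 5) := by ring
      rw [this]
      exact (dvd_neg).2 h8
  have hϖp : Prime ϖ := by
    rcases hϖ with ⟨rfl, -⟩ | ⟨rfl, -⟩
    · exact prime_om
    · exact prime_om'
  have hϖ2 : ϖ * ϖ' = 2 := by
    rcases hϖ with ⟨rfl, rfl⟩ | ⟨rfl, rfl⟩
    · exact om_mul
    · rw [mul_comm]; exact om_mul
  have hι' : ‖em (iw hi ι) ϖ‖ < 1 := by rwa [ι_em] at hι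
  -- Kummer theory
  obtain ⟨δ, hδ, hkum⟩ := kum hi φ lc.cont lc.add
  obtain ⟨s, hs⟩ : ∃ s : QB, s ^ 2 = em hi δ := IsAlgClosed.exists_pow_nat_eq _ (by norm_num)
  have hk : ∀ σ : GK i₀, σ s = s ↔ φ σ = 0 := hkum s hs
  obtain ⟨hst1, hst2⟩ := loc_strict' hi hr h8' hϖp hι' lc.str hδ hs hk
  -- the prime divisors of `δ`
  have hsup : ∀ π, Prime π → π ∣ δ → π ∣ ϖ' ∨ ∃ i, π ∣ q i := by
    intro π hπ hπδ
    by_cases hπ2 : π ∣ 2
    · rw [← hϖ2] at hπ2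
      rcases hπ.dvd_or_dvd hπ2 with h | h
      · exfalso
        exact hst1 (((hπ.dvd_prime_iff_associated hϖp).1 h).symm.dvd.trans hπδ)
      · exact Or.inl h
    · by_cases hπm : π ∣ m
      · right
        have h1 : π ∣ ∏ i, q i := by
          rcases hm with h | h
          · rwa [h] at hπm
          · rwa [h, dvd_neg] at hπm
        obtain ⟨i, -, h2⟩ := (hπ.dvd_finsetProd_iff _).1 h1
        exact ⟨i, h2⟩
      · exfalso
        obtain ⟨l, hl, κ, hκ⟩ := exists_emb hi hπ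
        rw [ι_em] at hκ
        have hl2 : l ≠ 2 := fun h => hπ2 ((two_of_dvd hπ (iw hi κ) hκ).1 h)
        have h1 := lc.unr l κ hl2 ((dvd_iff (iw hi κ) hπ hκ m).not.1 hπm)
        refine not_dvd_of_fix (iw hi κ) hπ hκ hδ (s := κ s) ?_ ?_ hπδ
        · rw [← map_pow, hs, ι_em]
        · intro τ hin hτ
          exact fix_I (fun σ hσ => (hk σ).2 (h1 σ hσ)) τ hin hτ
  -- the prime divisors of `m`
  have hloc : ∀ i, (¬ q i ∣ δ ∧ Sqm (q i) δ) ∨
      ∃ δ1 m1, δ = q i * δ1 ∧ m = q i * m1 ∧ Sqm (q i) (δ1 * m1) := by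
    intro i
    obtain ⟨m1, hm1, hm1'⟩ : ∃ m1, m = q i * m1 ∧ ¬ q i ∣ m1 := by
      have h1 := Finset.mul_prod_erase Finset.univ q (Finset.mem_univ i)
      have h2 := nd_prod hq hinj (Finset.notMem_erase i Finset.univ)
      rcases hm with h | h
      · exact ⟨_, by rw [h, ← h1], h2⟩
      · refine ⟨-∏ k ∈ Finset.univ.erase i, q k, by rw [h, ← h1]; ring, ?_⟩
        rwa [dvd_neg]
    obtain ⟨l, hl, κ, hκ⟩ := exists_emb hi (hq i).prime
    rw [ι_em] at hκ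
    have hl2 : l ≠ 2 := fun h => (hq i).two ((two_of_dvd (hq i).prime (iw hi κ) hκ).1 h)
    have hlm : ‖em (iw hi κ) m‖ < 1 := (dvd_iff (iw hi κ) (hq i).prime hκ m).1 ⟨m1, hm1⟩
    exact loc_q' hi hr (hq i) hm1 hm1' hκ (lc.ram l κ hl2 hlm) hδ hs hk
  have hϖ'c : ϖ' = om ∨ ϖ' = 1 - om := by
    rcases hϖ with ⟨-, h⟩ | ⟨-, h⟩
    · exact Or.inr h
    · exact Or.inl h
  have hδ4 := alg hq hinj h8 hind hϖ'c hδ hsup hm hloc
  -- the strict place again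
  obtain ⟨z, hz, hmz⟩ := five_of h8' (iw hi ι)
  have hmm : ‖em (iw hi ι) (m * m) - ((z * z : ℤ) : PadicAlgCl 2)‖ ≤ 1 / 8 := by
    have e : em (iw hi ι) (m * m) - ((z * z : ℤ) : PadicAlgCl 2) =
        (em (iw hi ι) m - z) * (em (iw hi ι) m + z) := by
      rw [map_mul]
      push_cast
      ring
    rw [e, norm_mul]
    have h1 : ‖em (iw hi ι) m + z‖ ≤ 1 :=
      add_le (em_le _ _) (IsUltrametricDist.norm_intCast_le_one _ z)
    calc ‖em (iw hi ι) m - z‖ * ‖em (iw hi ι) m + z‖ ≤ ‖em (iw hi ι) m - z‖ * 1 :=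
          mul_le_mul_of_nonneg_left h1 (norm_nonneg _)
      _ ≤ 1 / 8 := by rwa [mul_one]
  have hneg : ∀ {x : OO} {b : ℤ}, ‖em (iw hi ι) x - b‖ ≤ 1 / 8 →
      ‖em (iw hi ι) (-x) - ((-b : ℤ) : PadicAlgCl 2)‖ ≤ 1 / 8 := by
    intro x b h
    have e : em (iw hi ι) (-x) - ((-b : ℤ) : PadicAlgCl 2) = -(em (iw hi ι) x - b) := by
      rw [map_neg]
      push_cast
      ring
    rw [e, norm_neg]
    exact h
  have h11 : ‖em (iw hi ι) (1 : OO) - ((1 : ℤ) : PadicAlgCl 2)‖ ≤ 1 / 8 := by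
    rw [map_one, Int.cast_one, sub_self, norm_zero]
    norm_num
  have hδ2 : δ = 1 ∨ δ = m := by
    rcases hδ4 with h | h | h | h
    · exact Or.inl h
    · exfalso
      rw [h] at hst2
      rcases hst2 with h1 | h1
      · exact size (iw hi ι) (z := -1) (k := -1) (n := 1) h1 (hneg h11) (by norm_num) (by norm_num)
          (by norm_num)
      · rw [neg_one_mul] at h1
        rcases hz with rfl | rfl
        · exact size (iw hi ι) (z := -5) (k := -3) (n := 1) h1 (hneg hmz) (by norm_num)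
            (by norm_num) (by norm_num)
        · exact size (iw hi ι) (z := 5) (k := 1) (n := 2) h1
            (by have := hneg hmz; rwa [neg_neg] at this) (by norm_num) (by norm_num) (by norm_num)
    · exact Or.inr h
    · exfalso
      rw [h] at hst2
      rcases hst2 with h1 | h1
      · rcases hz with rfl | rfl
        · exact size (iw hi ι) (z := -5) (k := -3) (n := 1) h1 (hneg hmz) (by norm_num)
            (by norm_num) (by norm_num)
        · exact size (iw hi ι) (z := 5) (k := 1) (n := 2) h1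
            (by have := hneg hmz; rwa [neg_neg] at this) (by norm_num) (by norm_num) (by norm_num)
      · rw [neg_mul] at h1
        have h2 := hneg hmm
        have hzz : z * z = 25 := by rcases hz with rfl | rfl <;> norm_num
        rw [hzz] at h2
        exact size (iw hi ι) (z := -25) (k := -13) (n := 1) h1 h2 (by norm_num) (by norm_num)
          (by norm_num)
  rcases hδ2 with h | h
  · -- `δ = 1`
    left
    intro σ
    rw [h, map_one] at hs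
    rw [← hk σ]
    rcases sq_eq_one_iff.1 hs with h2 | h2
    · rw [h2, map_one]
    · rw [h2, map_neg, map_one]
  · -- `δ = m`
    right
    intro σ
    rw [h] at hs
    rw [← hk σ]
    have h1 : s ^ 2 = r ^ 2 := by rw [hs, hr]
    rcases sq_eq_sq_iff_eq_or_eq_neg.1 h1 with h2 | h2
    · rw [h2]
    · rw [h2, map_neg, neg_inj]

end Pool.Agent.R384
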