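import Mathlib

/-!
# Towers for an endomorphism of degree two

`A` is an abelian group with endomorphisms `f`, `g` such that `f g = g f = 2`, `f` and `g` are
surjective with kernels `{0, T}` and `{0, T'}`, `T ≠ T'`.
-/

set_option autoImplicit false

namespace Pool.Agent.R384

/-- the data -/
structure TD {A : Type} [AddCommGroup A] (f g : A →+ A) (T T' : A) : Prop where
  fg : ∀ P, f (g P) = P + P
  gf : ∀ P, g (f P) = P + P
  fsurj : Function.Surjective f
  gsurj : Function.Surjective g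
  kf : ∀ P, f P = 0 ↔ P = 0 ∨ P = T
  kg : ∀ P, g P = 0 ↔ P = 0 ∨ P = T'
  hT : T ≠ 0
  hT' : T' ≠ 0
  hne : T ≠ T'

variable {A : Type} [AddCommGroup A] {f g : A →+ A} {T T' : A}

lemma TD.symm (h : TD f g T T') : TD g f T' T :=
  ⟨h.gf, h.fg, h.gsurj, h.fsurj, h.kg, h.kf, h.hT', h.hT, h.hne.symm⟩

lemma TD.comm (h : TD f g T T') (P : A) : f (g P) = g (f P) := by rw [h.fg, h.gf]

lemma TD.fT (h : TD f g T T') : f T = 0 := (h.kf T).2 (Or.inr rfl)

lemma TD.T2 (h : TD f g T T') : T + T = 0 := by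
  rw [← h.gf, h.fT, map_zero]

lemma TD.gT (h : TD f g T T') : g T = T := by
  have h1 : f (g T) = 0 := by rw [h.comm, h.fT, map_zero]
  rcases (h.kf _).1 h1 with h2 | h2
  · rcases (h.kg _).1 h2 with h3 | h3
    · exact absurd h3 h.hT
    · exact absurd h3 h.hne
  · exact h2

lemma TD.fT' (h : TD f g T T') : f T' = T' := h.symm.gT

/-- the kernel of `f ^ n` -/
def K (f : A →+ A) (n : ℕ) (P : A) : Prop := (f^[n]) P = 0

lemma iter_add (f : A →+ A) (n : ℕ) (P Q : A) : (f^[n]) (P + Q) = (f^[n]) P + (f^[n]) Q := by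
  induction n generalizing P Q with
  | zero => rfl
  | succ n ih => rw [Function.iterate_succ_apply, map_add, ih]; rfl

lemma iter_zero (f : A →+ A) (n : ℕ) : (f^[n]) 0 = 0 := by
  induction n with
  | zero => rfl
  | succ n ih => rw [Function.iterate_succ_apply, map_zero, ih]

lemma iter_sub (f : A →+ A) (n : ℕ) (P Q : A) : (f^[n]) (P - Q) = (f^[n]) P - (f^[n]) Q := by
  rw [eq_sub_iff_add_eq, ← iter_add, sub_add_cancel]

lemma iter_smul (f : A →+ A) (n : ℕ) (k : ℤ) (P : A) : (f^[n]) (k • P) = k • (f^[n]) P := by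
  induction n generalizing P with
  | zero => rfl
  | succ n ih => rw [Function.iterate_succ_apply, map_zsmul, ih]; rfl

lemma TD.iter_comm (h : TD f g T T') (n : ℕ) (P : A) : (f^[n]) (g P) = g ((f^[n]) P) := by
  induction n generalizing P with
  | zero => rfl
  | succ n ih => rw [Function.iterate_succ_apply, h.comm, ih]; rfl

lemma TD.iter_T' (h : TD f g T T') (n : ℕ) : (f^[n]) T' = T' := by
  induction n with
  | zero => rfl
  | succ n ih => rw [Function.iterate_succ_apply, h.fT', ih]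

lemma TD.step (h : TD f g T T') {n : ℕ} {x : A} (hx : K f n x) :
    ∃ y, y + y = x ∧ K f (n + 1) y := by
  obtain ⟨u, hu⟩ := h.gsurj x
  have h1 : g ((f^[n]) u) = 0 := by
    rw [← h.iter_comm, hu]
    exact hx
  obtain ⟨v, hv, hv'⟩ : ∃ v, g v = x ∧ (f^[n]) v = 0 := by
    rcases (h.kg _).1 h1 with h2 | h2
    · exact ⟨u, hu, h2⟩
    · refine ⟨u - T', ?_, ?_⟩
      · rw [map_sub, hu, (h.kg T').2 (Or.inr rfl), sub_zero]
      · rw [iter_sub, h2, h.iter_T', sub_self]
  obtain ⟨y, hy⟩ := h.fsurj v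
  refine ⟨y, ?_, ?_⟩
  · rw [← h.gf, hy, hv]
  · unfold K
    rw [Function.iterate_succ_apply, hy, hv']

/-- a compatible sequence: `2 x (n + 1) = x n`, `x 0 = 0`, `x 1 = T`, `f ^ n (x n) = 0` -/
structure Tow (f : A →+ A) (T : A) (x : ℕ → A) : Prop where
  zero : x 0 = 0
  one : x 1 = T
  dbl : ∀ n, x (n + 1) + x (n + 1) = x n
  ker : ∀ n, K f n (x n)

open Classical in
theorem TD.exists_tow (h : TD f g T T') : ∃ x : ℕ → A, Tow f T x := by
  have hs : ∀ p : (n : ℕ) × {x : A // K f n x}, ∃ y : A, y + y = p.2.1 ∧ K f (p.1 + 1) y :=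
    fun p => h.step p.2.2
  choose s hs1 hs2 using hs
  let z : ∀ n : ℕ, {x : A // K f (n + 1) x} := fun n =>
    Nat.rec ⟨T, by unfold K; rw [Function.iterate_succ_apply, h.fT, iter_zero]⟩
      (fun n p => ⟨s ⟨n + 1, p⟩, hs2 ⟨n + 1, p⟩⟩) n
  refine ⟨fun n => Nat.casesOn n 0 (fun n => (z n).1), rfl, rfl, ?_, ?_⟩
  · intro n
    cases n with
    | zero => exact h.T2
    | succ n => exact hs1 ⟨n + 1, z n⟩
  · intro n
    cases n with
    | zero => rfl
    | succ n => exact (z n).2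

variable {x : ℕ → A}

lemma Tow.pow (hx : Tow f T x) (n k : ℕ) : (2 ^ k : ℤ) • x (n + k) = x n := by
  induction k with
  | zero => simp
  | succ k ih =>
    rw [pow_succ, mul_smul, ← add_assoc, two_smul, hx.dbl, ih]

lemma Tow.pow' (hx : Tow f T x) (n : ℕ) : (2 ^ n : ℤ) • x n = 0 := by
  have := hx.pow 0 n
  rwa [zero_add, hx.zero] at this

lemma Tow.dvd (h : TD f g T T') (hx : Tow f T x) {n : ℕ} {k : ℤ} (hk : k • x n = 0) :
    (2 ^ n : ℤ) ∣ k := by
  induction n generalizing k with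
  | zero => simp
  | succ n ih =>
    have h1 : (2 : ℤ) ∣ k := by
      by_contra hodd
      have h2 : (2 ^ n : ℤ) • (k • x (n + 1)) = 0 := by rw [hk, smul_zero]
      rw [smul_comm] at h2
      have h3 := hx.pow 1 n
      rw [add_comm] at h3
      rw [h3, hx.one] at h2
      obtain ⟨l, hl⟩ := Int.not_even_iff_odd.1 (fun he => hodd he.two_dvd)
      rw [hl, add_smul, one_smul, mul_comm, mul_smul, two_smul, h.T2, smul_zero, zero_add] at h2
      exact h.hT h2
    obtain ⟨l, rfl⟩ := h1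
    rw [mul_comm, mul_smul, two_smul, hx.dbl] at hk
    obtain ⟨j, rfl⟩ := ih hk
    exact ⟨j, by ring⟩

lemma Tow.gen (h : TD f g T T') (hx : Tow f T x) {n : ℕ} {P : A} (hP : K f n P) :
    ∃ k : ℤ, P = k • x n := by
  induction n generalizing P with
  | zero => exact ⟨0, by rw [zero_smul]; exact hP⟩
  | succ n ih =>
    have h0 : f ((f^[n]) P) = 0 := by
      rw [← Function.iterate_succ_apply' (f : A → A)]
      exact hP
    have h1 : ∀ Q : A, (f^[n]) Q = 0 → ∃ k : ℤ, Q = k • x (n + 1) := by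
      intro Q hQ
      obtain ⟨k, hk⟩ := ih hQ
      refine ⟨k * 2, ?_⟩
      rw [hk, ← hx.dbl, mul_smul, two_smul]
    rcases (h.kf _).1 h0 with h2 | h2
    · exact h1 P h2
    · have h3 : (f^[n]) (x (n + 1)) = T := by
        have h4 : f ((f^[n]) (x (n + 1))) = 0 := by
          rw [← Function.iterate_succ_apply' (f : A → A)]
          exact hx.ker (n + 1)
        rcases (h.kf _).1 h4 with h5 | h5
        · exfalso
          obtain ⟨k, hk⟩ := ih h5
          have h6 : (2 ^ n : ℤ) • x (n + 1) = 0 := by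
            rw [hk, smul_comm, hx.pow', smul_zero]
          have h7 := Tow.dvd h hx h6
          have h8 : ((2 : ℤ) ^ (n + 1)) ≤ 2 ^ n := Int.le_of_dvd (by positivity) h7
          have h9 : ((2 : ℤ) ^ n) < 2 ^ (n + 1) := pow_lt_pow_right₀ (by norm_num) (by omega)
          omega
        · exact h5
      obtain ⟨k, hk⟩ := h1 (P - x (n + 1)) (by rw [iter_sub, h2, h3, sub_self])
      refine ⟨k + 1, ?_⟩
      rw [add_smul, one_smul, ← hk, sub_add_cancel]

/-- `x` and `y` are a basis -/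
theorem Tow.basis (h : TD f g T T') (hx : Tow f T x) {y : ℕ → A} (hy : Tow g T' y) {n : ℕ} {P : A}
    (hP : (2 ^ n : ℤ) • P = 0) : ∃ a b : ℤ, P = a • x n + b • y n := by
  induction n generalizing P with
  | zero =>
    rw [pow_zero, one_smul] at hP
    exact ⟨0, 0, by rw [hP]; simp⟩
  | succ n ih =>
    set Q := (2 ^ n : ℤ) • P with hQ
    have h2Q : Q + Q = 0 := by
      rw [← two_smul ℤ Q, hQ, ← mul_smul, ← pow_succ', hP]
    have h1 : ∃ a b : ℤ, Q = a • T + b • T' := by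
      have h3 : g (f Q) = 0 := by rw [h.gf, h2Q]
      rcases (h.kg _).1 h3 with h4 | h4
      · rcases (h.kf _).1 h4 with h5 | h5
        · exact ⟨0, 0, by rw [h5]; simp⟩
        · exact ⟨1, 0, by rw [h5]; simp⟩
      · have h6 : f (Q - T') = 0 := by rw [map_sub, h4, h.fT', sub_self]
        rcases (h.kf _).1 h6 with h5 | h5
        · exact ⟨0, 1, by rw [sub_eq_zero.1 h5]; simp⟩
        · exact ⟨1, 1, by rw [sub_eq_iff_eq_add.1 h5]; simp⟩
    obtain ⟨a, b, hab⟩ := h1
    have h7 : (2 ^ n : ℤ) • (P - (a • x (n + 1) + b • y (n + 1))) = 0 := by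
      rw [smul_sub, smul_add, smul_comm _ a, smul_comm _ b, ← hQ, hab]
      have e1 := hx.pow 1 n
      have e2 := hy.pow 1 n
      rw [add_comm] at e1 e2
      rw [e1, e2, hx.one, hy.one, sub_self]
    obtain ⟨c, d, hcd⟩ := ih h7
    refine ⟨a + 2 * c, b + 2 * d, ?_⟩
    rw [sub_eq_iff_eq_add] at hcd
    rw [hcd, ← hx.dbl, ← hy.dbl, add_smul, add_smul, mul_comm 2 c, mul_comm 2 d, mul_smul, mul_smul,
      two_smul, two_smul]
    abel

/-- uniqueness of the coordinates -/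
theorem Tow.uniq (h : TD f g T T') (hx : Tow f T x) {y : ℕ → A} (hy : Tow g T' y) {n : ℕ} {a b : ℤ}
    (hP : a • x n + b • y n = 0) : (2 ^ n : ℤ) ∣ a ∧ (2 ^ n : ℤ) ∣ b := by
  induction n generalizing a b with
  | zero => simp
  | succ n ih =>
    have h1 : (2 ^ n : ℤ) • (a • x (n + 1) + b • y (n + 1)) = 0 := by rw [hP, smul_zero]
    have e1 := hx.pow 1 n
    have e2 := hy.pow 1 n
    rw [add_comm] at e1 e2
    rw [smul_add, smul_comm _ a, smul_comm _ b, e1, e2, hx.one, hy.one] at h1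
    have hT2 := h.T2
    have hT2' := h.symm.T2
    have key : ∀ (a : ℤ) (S : A), S + S = 0 → ((2 : ℤ) ∣ a ∧ a • S = 0) ∨ (¬ (2 : ℤ) ∣ a ∧ a • S = S) := by
      intro a S hS
      rcases Int.even_or_odd a with ⟨c, hc⟩ | ⟨c, hc⟩
      · left
        refine ⟨⟨c, by omega⟩, ?_⟩
        rw [hc, add_smul, ← smul_add, hS, smul_zero]
      · right
        refine ⟨by omega, ?_⟩
        rw [hc, add_smul, one_smul, mul_comm, mul_smul, two_smul, hS, smul_zero, zero_add]
    have h2 : (2 : ℤ) ∣ a ∧ (2 : ℤ) ∣ b := by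
      rcases key a T hT2 with ⟨ha, ha'⟩ | ⟨ha, ha'⟩ <;> rcases key b T' hT2' with ⟨hb, hb'⟩ | ⟨hb, hb'⟩
      · exact ⟨ha, hb⟩
      · rw [ha', hb', zero_add] at h1
        exact absurd h1 h.hT'
      · rw [ha', hb', add_zero] at h1
        exact absurd h1 h.hT
      · rw [ha', hb'] at h1
        exfalso
        apply h.hne
        have : T = -T' := eq_neg_of_add_eq_zero_left h1
        rw [this, neg_eq_iff_add_eq_zero, hT2']
    obtain ⟨⟨c, rfl⟩, ⟨d, rfl⟩⟩ := h2
    rw [mul_comm 2 c, mul_comm 2 d, mul_smul, mul_smul, two_smul, two_smul, hx.dbl, hy.dbl] at hP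
    obtain ⟨⟨c', hc'⟩, ⟨d', hd'⟩⟩ := ih hP
    exact ⟨⟨c', by rw [hc']; ring⟩, ⟨d', by rw [hd']; ring⟩⟩

end Pool.Agent.R384
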