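import Pool.Agent.Y676.IS.Alg4
import Pool.Agent.R384.Tower

/-!
# The curves `y² = x³ + 3 (1 - w) m x² + w⁴ m² x`, `w² = w - 2`, and their endomorphisms `1 - w`, `w`
-/

set_option autoImplicit false
set_option linter.unusedSectionVars false

namespace Pool.Agent.R384

open WeierstrassCurve Pool.Agent.Y676.IS

variable {F : Type} [Field F] [CharZero F]

/-- the data -/
structure WD (w m : F) : Prop where
  hw : w ^ 2 = w - 2
  hm : m ≠ 0

/-- the coefficients -/
def ca (w m : F) : F := 3 * (1 - w) * m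
/-- the coefficients -/
def cb (w m : F) : F := w ^ 4 * m ^ 2

variable {w m : F}

lemma WD.bar (h : WD w m) : WD (1 - w) (-m) :=
  ⟨by linear_combination h.hw, neg_ne_zero.2 h.hm⟩

lemma WD.w0 (h : WD w m) : w ≠ 0 := by
  rintro h0
  have := h.hw
  rw [h0] at this
  norm_num at this

lemma WD.w1 (h : WD w m) : 1 - w ≠ 0 := h.bar.w0

lemma WD.mul (h : WD w m) : w * (1 - w) = 2 := by linear_combination -h.hw

lemma WD.w3 (h : WD w m) : w ^ 3 = -w - 2 := by linear_combination (w + 1) * h.hw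

lemma WD.w4 (h : WD w m) : w ^ 4 = 2 - 3 * w := by linear_combination (w ^ 2 + w - 1) * h.hw

lemma WD.b4 (h : WD w m) : (1 - w) ^ 4 = 3 * w - 1 := by
  rw [h.bar.w4]
  ring

lemma WD.disc (h : WD w m) : (ca w m) ^ 2 - 4 * cb w m = (1 - w) ^ 8 * m ^ 2 := by
  have h1 : (1 - w) ^ 8 = (3 * w - 1) ^ 2 := by rw [← h.b4]; ring
  unfold ca cb
  rw [h1, h.w4]
  ring

/-- the 2-isogeny -/
lemma WD.dat (h : WD w m) : Dat (ca w m) (cb w m) (ca (1 - w) (-m)) (cb (1 - w) (-m)) (1 - w) where
  hb := mul_ne_zero (pow_ne_zero _ h.w0) (pow_ne_zero _ h.hm)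
  hb' := mul_ne_zero (pow_ne_zero _ h.w1) (pow_ne_zero _ (neg_ne_zero.2 h.hm))
  hu := h.w1
  e1 := by
    unfold ca
    linear_combination (-3 * m * (1 - w)) * h.mul
  e2 := by
    rw [h.disc]
    unfold cb
    ring

lemma WD.dat' (h : WD w m) : Dat (ca (1 - w) (-m)) (cb (1 - w) (-m)) (ca w m) (cb w m) w := by
  have h1 := h.bar.dat
  rwa [sub_sub_cancel, neg_neg] at h1

/-! ### The shift -/

variable {c a b a' b' : F}

/-- the data of the shift `x ↦ x + c` from `Cu a b` to `Cu a' b'` -/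
structure Sh (a b a' b' c : F) : Prop where
  hb : b ≠ 0
  hd : a ^ 2 - 4 * b ≠ 0
  hb' : b' ≠ 0
  hd' : a' ^ 2 - 4 * b' ≠ 0
  ea : a' = a - 3 * c
  eb : b' = 3 * c ^ 2 - 2 * a * c + b
  e0 : -c ^ 3 + a * c ^ 2 - b * c = 0

lemma Sh.symm (h : Sh a b a' b' c) : Sh a' b' a b (-c) where
  hb := h.hb'
  hd := h.hd'
  hb' := h.hb
  hd' := h.hd
  ea := by rw [h.ea]; ring
  eb := by rw [h.ea, h.eb]; ring
  e0 := by rw [h.ea, h.eb]; linear_combination -h.e0

lemma Sh.eq (h : Sh a b a' b' c) {x y : F} (he : y ^ 2 = x ^ 3 + a * x ^ 2 + b * x) :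
    y ^ 2 = (x + c) ^ 3 + a' * (x + c) ^ 2 + b' * (x + c) := by
  rw [h.ea, h.eb]
  linear_combination he + h.e0

/-- the map -/
def shF (h : Sh a b a' b' c) : (Cu a b).Point → (Cu a' b').Point
  | .zero => .zero
  | .some x y hxy => .some (x + c) y (cu_ns h.hb' h.hd' (h.eq (ns_eq hxy)))

lemma shF_zero (h : Sh a b a' b' c) : shF h 0 = 0 := rfl

lemma shF_some (h : Sh a b a' b' c) {x y : F} (hxy : (Cu a b).Nonsingular x y) :
    shF h (.some x y hxy) = .some (x + c) y (cu_ns h.hb' h.hd' (h.eq (ns_eq hxy))) := rfl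

lemma shF_inv (h : Sh a b a' b' c) (P : (Cu a b).Point) : shF h.symm (shF h P) = P := by
  rcases P with _ | ⟨x, y, hxy⟩
  · rfl
  · rw [shF_some, shF_some]
    exact some_congr _ _ (by ring) rfl

lemma shF_inv' (h : Sh a b a' b' c) (P : (Cu a' b').Point) : shF h (shF h.symm P) = P := by
  rcases P with _ | ⟨x, y, hxy⟩
  · rfl
  · rw [shF_some, shF_some]
    exact some_congr _ _ (by ring) rfl

variable [DecidableEq F]

lemma negY_cu (a b x y : F) : (Cu a b).negY x y = -y := by
  have a1 : (Cu a b).a₁ = 0 := rfl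
  have a3 : (Cu a b).a₃ = 0 := rfl
  rw [Affine.negY, a1, a3]
  ring

lemma slope_sh (h : Sh a b a' b' c) (x1 x2 y1 y2 : F) :
    (Cu a' b').slope (x1 + c) (x2 + c) y1 y2 = (Cu a b).slope x1 x2 y1 y2 := by
  unfold Affine.slope
  rw [negY_cu, negY_cu, negY_cu, negY_cu]
  have a1 : (Cu a b).a₁ = 0 := rfl
  have a2 : (Cu a b).a₂ = a := rfl
  have a4 : (Cu a b).a₄ = b := rfl
  have a1' : (Cu a' b').a₁ = 0 := rfl
  have a2' : (Cu a' b').a₂ = a' := rfl
  have a4' : (Cu a' b').a₄ = b' := rfl
  rw [a1, a2, a4, a1', a2', a4']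
  simp only [add_left_inj, add_sub_add_right_eq_sub]
  split_ifs
  · rfl
  · congr 1
    rw [h.ea, h.eb]
    ring
  · rfl

theorem shF_add (h : Sh a b a' b' c) (P Q : (Cu a b).Point) : shF h (P + Q) = shF h P + shF h Q := by
  rcases P with _ | ⟨x1, y1, h1⟩
  · change shF h (0 + Q) = 0 + shF h Q
    rw [zero_add, zero_add]
  rcases Q with _ | ⟨x2, y2, h2⟩
  · change shF h (_ + 0) = shF h _ + 0
    rw [add_zero, add_zero]
  by_cases hxy : x1 = x2 ∧ y1 = (Cu a b).negY x2 y2
  · rw [Affine.Point.add_of_Y_eq hxy.1 hxy.2, shF_zero, shF_some, shF_some, Affine.Point.add_of_Y_eq]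
    · rw [hxy.1]
    · rw [hxy.2, negY_cu, negY_cu]
  · have hxy' : ¬ (x1 + c = x2 + c ∧ y1 = (Cu a' b').negY (x2 + c) y2) := by
      rw [negY_cu, add_left_inj]
      rwa [negY_cu] at hxy
    rw [Affine.Point.add_some hxy, shF_some, shF_some, shF_some, Affine.Point.add_some hxy']
    apply some_congr
    · rw [slope_sh h]
      have a1 : (Cu a b).a₁ = 0 := rfl
      have a2 : (Cu a b).a₂ = a := rfl
      have a1' : (Cu a' b').a₁ = 0 := rfl
      have a2' : (Cu a' b').a₂ = a' := rfl
      rw [Affine.addX, Affine.addX, a1, a2, a1', a2', h.ea]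
      ring
    · rw [slope_sh h]
      have a1 : (Cu a b).a₁ = 0 := rfl
      have a2 : (Cu a b).a₂ = a := rfl
      have a1' : (Cu a' b').a₁ = 0 := rfl
      have a2' : (Cu a' b').a₂ = a' := rfl
      rw [Affine.addY, Affine.addY, negY_cu, negY_cu, Affine.negAddY, Affine.negAddY,
        Affine.addX, Affine.addX, a1, a2, a1', a2', h.ea]
      ring

/-- the shift between the two models -/
lemma WD.sh (h : WD w m) : Sh (ca (1 - w) (-m)) (cb (1 - w) (-m)) (ca w m) (cb w m) (-m) where
  hb := h.bar.dat.hb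
  hd := h.bar.dat.hd
  hb' := h.dat.hb
  hd' := h.dat.hd
  ea := by
    unfold ca
    ring
  eb := by
    unfold cb ca
    rw [h.w4, h.b4]
    ring
  e0 := by
    unfold cb ca
    rw [h.b4]
    ring

/-! ### The isogeny is onto -/

theorem iso_surj [IsAlgClosed F] {u : F} (h : Dat a b a' b' u) : Function.Surjective (isoF h) := by
  intro Q
  rcases Q with _ | ⟨X, Y, hQ⟩
  · exact ⟨0, rfl⟩
  have hu := h.hu
  have hE := ns_eq hQ
  by_cases hX : X = 0
  · -- the point `(0, 0)`
    obtain ⟨d, hd⟩ := IsAlgClosed.exists_pow_nat_eq (a ^ 2 - 4 * b) two_pos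
    set x : F := (-a + d) / 2 with hx
    have hx2 : x ^ 2 + a * x + b = 0 := by
      rw [hx]
      field_simp
      linear_combination hd
    have hx0 : x ≠ 0 := by
      intro h0
      rw [h0] at hx2
      apply h.hb
      linear_combination hx2
    have hY : Y = 0 := by
      rw [hX] at hE
      have : Y ^ 2 = 0 := by rw [hE]; ring
      exact pow_eq_zero_iff two_ne_zero |>.1 this
    refine ⟨.some x 0 (cu_ns h.hb h.hd (by linear_combination -x * hx2)), ?_⟩
    rw [isoF_some h _ hx0]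
    apply some_congr
    · rw [hX]; simp
    · rw [hY]; simp
  · obtain ⟨l, hl⟩ := IsAlgClosed.exists_pow_nat_eq (u ^ 2 * X) two_pos
    have hl0 : l ≠ 0 := by
      intro h0
      rw [h0] at hl
      have : u ^ 2 * X = 0 := by rw [← hl]; ring
      rcases mul_eq_zero.1 this with h1 | h1
      · exact pow_ne_zero 2 hu h1
      · exact hX h1
    obtain ⟨d, hd⟩ := IsAlgClosed.exists_pow_nat_eq ((a - l ^ 2) ^ 2 - 4 * b) two_pos
    set x : F := (-(a - l ^ 2) + d) / 2 with hx
    have hx2 : x ^ 2 + (a - l ^ 2) * x + b = 0 := by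
      rw [hx]
      field_simp
      linear_combination hd
    have hx0 : x ≠ 0 := by
      intro h0
      rw [h0] at hx2
      apply h.hb
      linear_combination hx2
    have key : ∀ l' : F, l' ^ 2 = l ^ 2 → l' * (b - x ^ 2) / (u ^ 3 * x) = Y →
        ∃ P, isoF h P = .some X Y hQ := by
      intro l' hl' hY
      have e : (l' * x) ^ 2 = x ^ 3 + a * x ^ 2 + b * x := by
        rw [mul_pow, hl']
        linear_combination -x * hx2
      refine ⟨.some x (l' * x) (cu_ns h.hb h.hd e), ?_⟩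
      rw [isoF_some h _ hx0]
      apply some_congr
      · rw [mul_pow, hl', hl]
        field_simp
      · rw [← hY]
        field_simp
    have hYY : (l * (b - x ^ 2) / (u ^ 3 * x)) ^ 2 = Y ^ 2 := by
      have e : (l * x) ^ 2 = x ^ 3 + a * x ^ 2 + b * x := by
        rw [mul_pow]
        linear_combination -x * hx2
      have h1 := img h hx0 e
      have h2 : (l * x) ^ 2 / (u ^ 2 * x ^ 2) = X := by
        rw [mul_pow, hl]
        field_simp
      rw [h2] at h1
      rw [hE, ← h1]
      field_simp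
    rcases sq_eq_sq_iff_eq_or_eq_neg.1 hYY with h1 | h1
    · exact key l rfl h1
    · apply key (-l) (by ring)
      rw [neg_mul, neg_div, h1, neg_neg]

lemma iso_ker {u : F} (h : Dat a b a' b' u) (P : (Cu a b).Point) :
    isoF h P = 0 ↔ P = 0 ∨ P = TT h.hb h.hd := by
  constructor
  · intro hP
    rcases P with _ | ⟨x, y, hxy⟩
    · exact Or.inl rfl
    · by_cases hx : x = 0
      · exact Or.inr (isT_of_x0 h.hb h.hd hxy hx)
      · rw [isoF_some h hxy hx] at hP
        exact absurd hP (by rintro ⟨⟩)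
  · rintro (rfl | rfl)
    · rfl
    · exact isoF_T h

/-! ### The endomorphisms -/

variable [IsAlgClosed F]

/-- multiplication by `1 - w` -/
noncomputable def eF (h : WD w m) : (Cu (ca w m) (cb w m)).Point →+ (Cu (ca w m) (cb w m)).Point where
  toFun P := shF h.sh (isoF h.dat P)
  map_zero' := rfl
  map_add' P Q := by rw [add_all, shF_add]

/-- multiplication by `w` -/
noncomputable def eG (h : WD w m) : (Cu (ca w m) (cb w m)).Point →+ (Cu (ca w m) (cb w m)).Point where
  toFun P := isoF h.dat' (shF h.sh.symm P)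
  map_zero' := rfl
  map_add' P Q := by rw [shF_add, add_all]

/-- the point of order two killed by `1 - w` -/
def tA (h : WD w m) : (Cu (ca w m) (cb w m)).Point := TT h.dat.hb h.dat.hd

/-- the point of order two killed by `w` -/
def tB (h : WD w m) : (Cu (ca w m) (cb w m)).Point := shF h.sh (TT h.bar.dat.hb h.bar.dat.hd)

theorem td (h : WD w m) : TD (eF h) (eG h) (tA h) (tB h) where
  fg P := by
    change shF h.sh (isoF h.dat (isoF h.dat' (shF h.sh.symm P))) = P + P
    rw [dbl h.dat' h.dat (by rw [h.mul]), shF_add, shF_inv']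
  gf P := by
    change isoF h.dat' (shF h.sh.symm (shF h.sh (isoF h.dat P))) = P + P
    rw [shF_inv, dbl h.dat h.dat' (by rw [mul_comm, h.mul])]
  fsurj Q := by
    obtain ⟨P, hP⟩ := iso_surj h.dat (shF h.sh.symm Q)
    refine ⟨P, ?_⟩
    change shF h.sh (isoF h.dat P) = Q
    rw [hP, shF_inv']
  gsurj Q := by
    obtain ⟨P, hP⟩ := iso_surj h.dat' Q
    refine ⟨shF h.sh P, ?_⟩
    change isoF h.dat' (shF h.sh.symm (shF h.sh P)) = Q
    rw [shF_inv, hP]
  kf P := by
    rw [tA, ← iso_ker h.dat]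
    change shF h.sh (isoF h.dat P) = 0 ↔ _
    constructor
    · intro h1
      have := congrArg (shF h.sh.symm) h1
      rwa [shF_inv, shF_zero] at this
    · intro h1
      rw [h1, shF_zero]
  kg P := by
    change isoF h.dat' (shF h.sh.symm P) = 0 ↔ _
    rw [iso_ker]
    constructor
    · rintro (h1 | h1)
      · left
        have := congrArg (shF h.sh) h1
        rwa [shF_inv', shF_zero] at this
      · right
        have := congrArg (shF h.sh) h1
        rwa [shF_inv'] at this
    · rintro (h1 | h1)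
      · left
        rw [h1, shF_zero]
      · right
        rw [h1, tB, shF_inv]
  hT := by rintro ⟨⟩
  hT' := by rintro ⟨⟩
  hne := by
    rw [tA, tB, TT, TT, shF_some]
    intro h1
    have := (Affine.Point.some.injEq _ _ _ _ _ _).mp h1
    apply h.hm
    have h2 := this.1
    linear_combination h2

end Pool.Agent.R384
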