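import Pool.Agent.R384.Fin

/-!
# The characters of the powers of the curve
-/

set_option autoImplicit false
set_option linter.unusedSectionVars false

namespace Pool.Agent.R384

open WeierstrassCurve Pool.Agent.Y676.IS
open Pool.Agent.Y715.Red Pool.Agent.Y715.Nr Pool.Agent.W237.RK
open Pool.Agent.Y715.Gi (QB KK GK i₀_mem gk_fix)
open Pool.Agent.Y715.Df (Cmp exists_cmp)
open Pool.Agent.Y715.Lc (norm_two_odd)

open scoped Classical

/-! ### Units modulo four -/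

/-- reduction modulo four -/
noncomputable def ph : ℤ_[2]ˣ →* (ZMod (2 ^ 2))ˣ := Units.map (PadicInt.toZModPow 2).toMonoidHom

lemma dvd_iff_ker (z : ℤ_[2]) : (4 : ℤ_[2]) ∣ z ↔ PadicInt.toZModPow 2 z = 0 := by
  have h1 : PadicInt.toZModPow 2 z = 0 ↔ z ∈ RingHom.ker (PadicInt.toZModPow (p := 2) 2) := Iff.rfl
  rw [h1, PadicInt.ker_toZModPow, Ideal.mem_span_singleton]
  have e : ((2 : ℕ) : ℤ_[2]) ^ 2 = 4 := by norm_num
  rw [e]

lemma ph_one {u : ℤ_[2]ˣ} : ph u = 1 ↔ (4 : ℤ_[2]) ∣ (u : ℤ_[2]) - 1 := by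
  rw [dvd_iff_ker, map_sub, map_one, sub_eq_zero, Units.ext_iff]
  rfl

lemma ph_neg {u : ℤ_[2]ˣ} : ph u = -1 ↔ (4 : ℤ_[2]) ∣ (u : ℤ_[2]) + 1 := by
  rw [dvd_iff_ker, map_add, map_one, ← eq_neg_iff_add_eq_zero, Units.ext_iff]
  rfl

lemma sq_four (u : (ZMod (2 ^ 2))ˣ) : u ^ 2 = 1 := by
  revert u
  decide

lemma zpow_even {G : Type*} [Group G] {u : G} (h : u ^ 2 = 1) (k : ℤ) : u ^ (2 * k) = 1 := by
  rw [zpow_mul]
  norm_cast
  rw [h, one_zpow]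

/-! ### The characters -/

variable {i₀ : QB} (hi : i₀ ^ 2 = i₀ - 2)

/-- the properties of the characters `κ` and `κ'` -/
structure KD (κ κ' : GK i₀ →* ℤ_[2]ˣ) (D : OO) (r I : QB) : Prop where
  hr : r ^ 2 = em hi D
  hI : I ^ 2 = -1
  cont : Continuous κ
  cont' : Continuous κ'
  one : ∀ σ : GK i₀, σ (I * r) = I * r → ph (κ σ) = 1
  neg : ∀ σ : GK i₀, σ (I * r) = -(I * r) → ph (κ σ) = -1
  one' : ∀ σ : GK i₀, σ r = r → ph (κ' σ) = 1
  neg' : ∀ σ : GK i₀, σ r = -r → ph (κ' σ) = -1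
  inert : ∀ (p : ℕ) [Fact p.Prime] (ι : QB →ₐ[ℚ] PadicAlgCl p) (τ : Au p) (σ : GK i₀),
    Cmp ι τ σ → Inert τ → ‖ι i₀‖ = 1 → (σ (I * r) = I * r → κ σ = 1) ∧
      (σ (I * r) = -(I * r) → κ σ = -1)
  inert' : ∀ (p : ℕ) [Fact p.Prime] (ι : QB →ₐ[ℚ] PadicAlgCl p) (τ : Au p) (σ : GK i₀),
    Cmp ι τ σ → Inert τ → ‖ι (1 - i₀)‖ = 1 → (σ r = r → κ' σ = 1) ∧ (σ r = -r → κ' σ = -1)

section

variable {κ κ' : GK i₀ →* ℤ_[2]ˣ} {D : OO} {r I : QB}

include hi in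
lemma norm_w_odd {p : ℕ} [Fact p.Prime] (hp : p ≠ 2) (ι : QB →ₐ[ℚ] PadicAlgCl p) :
    ‖ι i₀‖ = 1 ∧ ‖ι (1 - i₀)‖ = 1 := by
  have h1 : ‖ι i₀‖ ≤ 1 := w_le (iw hi ι)
  have h2 : ‖ι (1 - i₀)‖ ≤ 1 := by
    rw [map_sub, map_one]
    exact sub_le (by rw [norm_one]) h1
  have h3 : ‖ι i₀‖ * ‖ι (1 - i₀)‖ = 1 := by
    have e : i₀ * (1 - i₀) = 2 := by linear_combination -hi
    rw [← norm_mul, ← map_mul, e, map_ofNat, norm_two_odd hp]
  have h4 := norm_nonneg (ι i₀)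
  have h5 := norm_nonneg (ι (1 - i₀))
  constructor <;> nlinarith

/-- the square root of `-1` is fixed by the inertia groups of the odd primes -/
lemma KD.fixI (kd : KD hi κ κ' D r I) {p : ℕ} [Fact p.Prime] (hp : p ≠ 2)
    {ι : QB →ₐ[ℚ] PadicAlgCl p} {τ : Au p} {σ : GK i₀} (h : Cmp ι τ σ) (hin : Inert τ) :
    σ I = I := by
  have h1 : (ι I) ^ 2 = em (iw hi ι) (-1) := by
    rw [← map_pow, kd.hI, map_neg, map_neg, map_one, map_one]
  have h2 : τ (ι I) = ι I := by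
    refine fix_of_unit (iw hi ι) hp h1 ?_ hin h.fix
    rw [map_neg, map_one, norm_neg, norm_one]
    exact lt_irrefl _
  apply ι.injective
  show ι (σ I) = ι I
  rw [← h, h2]

/-- the character `κ ^ j κ' ^ (1 - j)` -/
theorem chiD (kd : KD hi κ κ' D r I) (j : ℤ) :
    ∃ (m : OO) (s : QB), (m = D ∨ m = -D) ∧ ChiD hi (κ ^ j * κ' ^ (1 - j)) m s := by
  have hcont : Continuous (κ ^ j * κ' ^ (1 - j) : GK i₀ →* ℤ_[2]ˣ) := by
    have h1 : Continuous fun σ => (κ σ) ^ j * (κ' σ) ^ (1 - j) :=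
      (kd.cont.zpow j).mul (kd.cont'.zpow (1 - j))
    exact h1
  have hap : ∀ σ, (κ ^ j * κ' ^ (1 - j) : GK i₀ →* ℤ_[2]ˣ) σ = (κ σ) ^ j * (κ' σ) ^ (1 - j) :=
    fun σ => rfl
  have hinert : ∀ (p : ℕ) [Fact p.Prime] (ι : QB →ₐ[ℚ] PadicAlgCl p) (τ : Au p) (σ : GK i₀),
      p ≠ 2 → Cmp ι τ σ → Inert τ → (σ r = r → (κ ^ j * κ' ^ (1 - j) : GK i₀ →* ℤ_[2]ˣ) σ = 1) ∧
        (σ r = -r → (κ ^ j * κ' ^ (1 - j) : GK i₀ →* ℤ_[2]ˣ) σ = -1) := by
    intro p _ ι τ σ hp hc hin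
    obtain ⟨n1, n2⟩ := norm_w_odd hi hp ι
    have hσI := kd.fixI hi hp hc hin
    have a1 := kd.inert p ι τ σ hc hin n1
    have a2 := kd.inert' p ι τ σ hc hin n2
    rw [hap]
    constructor
    · intro h
      rw [a1.1 (by rw [map_mul, hσI, h]), a2.1 h, one_zpow, one_zpow, one_mul]
    · intro h
      rw [a1.2 (by rw [map_mul, hσI, h, mul_neg]), a2.2 h, ← zpow_add, add_sub_cancel, zpow_one]
  rcases Int.even_or_odd j with ⟨k, hk⟩ | ⟨k, hk⟩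
  · -- `j` even
    have hk' : j = 2 * k := by omega
    have hph : ∀ σ, ph ((κ ^ j * κ' ^ (1 - j) : GK i₀ →* ℤ_[2]ˣ) σ) = ph (κ' σ) := by
      intro σ
      rw [hap, map_mul, map_zpow, map_zpow, hk', zpow_even (sq_four _), one_mul, zpow_sub,
        zpow_even (sq_four _), zpow_one]
      simp
    refine ⟨D, r, Or.inl rfl, hcont, kd.hr, ?_, ?_, hinert⟩
    · intro σ h
      rw [← ph_one, hph]
      exact kd.one' σ h
    · intro σ h
      rw [← ph_neg, hph]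
      exact kd.neg' σ h
  · -- `j` odd
    have hph : ∀ σ, ph ((κ ^ j * κ' ^ (1 - j) : GK i₀ →* ℤ_[2]ˣ) σ) = ph (κ σ) := by
      intro σ
      have e : 1 - j = 2 * (-k) := by omega
      rw [hap, map_mul, map_zpow, map_zpow, e, zpow_even (sq_four _), mul_one, hk, zpow_add,
        zpow_even (sq_four _), zpow_one, one_mul]
    refine ⟨-D, I * r, Or.inr rfl, hcont, ?_, ?_, ?_, ?_⟩
    · rw [mul_pow, kd.hI, kd.hr, map_neg]
      ring
    · intro σ h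
      rw [← ph_one, hph]
      exact kd.one σ h
    · intro σ h
      rw [← ph_neg, hph]
      exact kd.neg σ h
    · intro p _ ι τ σ hp hc hin
      have hσI := kd.fixI hi hp hc hin
      have hI0 : I ≠ 0 := by
        rintro h0
        have := kd.hI
        rw [h0] at this
        norm_num at this
      obtain ⟨a1, a2⟩ := hinert p ι τ σ hp hc hin
      constructor
      · intro h
        apply a1
        rw [map_mul, hσI] at h
        exact mul_left_cancel₀ hI0 h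
      · intro h
        apply a2
        rw [map_mul, hσI, ← mul_neg] at h
        exact mul_left_cancel₀ hI0 h

theorem vanish {n : ℕ} {q : Fin n → OO} (hq : ∀ i, Pr (q i)) (hinj : Function.Injective q)
    (h8 : (8 : OO) ∣ ∏ i, q i - 5) (hind : Indec q) (hD : D = ∏ i, q i ∨ D = -∏ i, q i)
    (kd : KD hi κ κ' D r I) (j : ℤ) {ϖ ϖ' : OO}
    (hϖ : (ϖ = om ∧ ϖ' = 1 - om) ∨ (ϖ = 1 - om ∧ ϖ' = om))
    {c : GK i₀ → ℚ_[2]} (hc : Coc (κ ^ j * κ' ^ (1 - j)) c)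
    (hodd : ∀ (p : ℕ) [Fact p.Prime] (ι : QB →ₐ[ℚ] PadicAlgCl p), p ≠ 2 →
      CobOn (κ ^ j * κ' ^ (1 - j)) (II ι) c)
    (hstr : ∀ ι : QB →ₐ[ℚ] PadicAlgCl 2, ‖ι (em hi ϖ)‖ < 1 →
      CobOn (κ ^ j * κ' ^ (1 - j)) (DD ι) c) :
    ∃ y : ℚ_[2], ∀ σ, c σ = (vl (κ ^ j * κ' ^ (1 - j)) σ - 1) * y := by
  obtain ⟨m, s, hm, cd⟩ := chiD hi kd j
  refine main hi hq hinj h8 hind ?_ cd hϖ hc hodd hstr
  rcases hm with rfl | rfl
  · exact hD
  · rcases hD with h | h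
    · right; rw [h]
    · left; rw [h, neg_neg]

end

/-- the endomorphism of the other model -/
lemma eG_S {w m : QB} (h : WD w m) (P : (Cu (ca (1 - w) (-m)) (cb (1 - w) (-m))).Point) :
    eG h (shF h.sh P) = shF h.sh (eF h.bar P) := by
  change isoF h.dat' (shF h.sh.symm (shF h.sh P)) = shF h.sh (eF h.bar P)
  rw [shF_inv]
  rcases P with _ | ⟨x, y, hxy⟩
  · rfl
  · by_cases hx : x = 0
    · rw [isT_of_x0 h.dat'.hb h.dat'.hd hxy hx, isoF_T]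
      have h1 : eF h.bar (TT h.dat'.hb h.dat'.hd) = 0 := (td h.bar).fT
      rw [h1, shF_zero]
    · obtain ⟨hn, he⟩ := eF_some h.bar hxy hx
      rw [he, isoF_some h.dat' hxy hx, shF_some]
      apply some_congr
      · rw [sub_sub_cancel]; ring
      · rw [sub_sub_cancel, cb]

/-- the tower of the other model -/
lemma tow_S {w m : QB} (h : WD w m) {z : ℕ → (Cu (ca (1 - w) (-m)) (cb (1 - w) (-m))).Point}
    (hz : Tow (eF h.bar) (tA h.bar) z) : Tow (eG h) (tB h) (fun n => shF h.sh (z n)) := by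
  have hit : ∀ (n : ℕ) (P : (Cu (ca (1 - w) (-m)) (cb (1 - w) (-m))).Point),
      ((eG h)^[n]) (shF h.sh P) = shF h.sh (((eF h.bar)^[n]) P) := by
    intro n
    induction n with
    | zero => intro P; rfl
    | succ n ih =>
      intro P
      rw [Function.iterate_succ_apply, eG_S, ih, Function.iterate_succ_apply]
  refine ⟨?_, ?_, fun n => ?_, fun n => ?_⟩
  · show shF h.sh (z 0) = 0
    rw [hz.zero]
    rfl
  · show shF h.sh (z 1) = tB h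
    rw [hz.one]
    rfl
  · show shF h.sh (z (n + 1)) + shF h.sh (z (n + 1)) = shF h.sh (z n)
    rw [← shF_add, hz.dbl]
  · show ((eG h)^[n]) (shF h.sh (z n)) = 0
    rw [hit, show ((eF h.bar)^[n]) (z n) = 0 from hz.ker n]
    rfl

/-- The characters of the curve. -/
theorem exists_kd {D : OO} (hD : D ≠ 0) (h : WD i₀ (em hi D)) {r I : QB} (hr : r ^ 2 = em hi D)
    (hI : I ^ 2 = -1) (fx : ∀ σ : GK i₀, Fx i₀ (em hi D) (rh σ)) :
    ∃ (κ κ' : GK i₀ →* ℤ_[2]ˣ) (x y : ℕ → (Cu (ca i₀ (em hi D)) (cb i₀ (em hi D))).Point),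
      KD hi κ κ' D r I ∧ Tow (eF h) (tA h) x ∧ Tow (eG h) (tB h) y ∧
      (∀ σ, ActsBy x (act h fx σ) (κ' σ)) ∧ ∀ σ, ActsBy y (act h fx σ) (κ σ) := by
  obtain ⟨x, hx⟩ := (td h).exists_tow
  obtain ⟨z, hz⟩ := (td h.bar).exists_tow
  obtain ⟨κ', a1, a2, a3, a4, a5⟩ := exists_kap h fx hx hr
  have hr' : (I * r) ^ 2 = -em hi D := by rw [mul_pow, hI, hr]; ring
  have fxb : ∀ σ : GK i₀, Fx (1 - i₀) (-em hi D) (rh σ) := fun σ => (fx σ).bar
  obtain ⟨κ, b1, b2, b3, b4, b5⟩ := exists_kap h.bar fxb hz hr'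
  let S : (Cu (ca (1 - i₀) (-em hi D)) (cb (1 - i₀) (-em hi D))).Point →+
      (Cu (ca i₀ (em hi D)) (cb i₀ (em hi D))).Point :=
    { toFun := shF h.sh, map_zero' := rfl, map_add' := shF_add h.sh }
  have hS : ∀ P, S P = shF h.sh P := fun P => rfl
  refine ⟨κ, κ', x, fun n => S (z n), ⟨hr, hI, b1, a1, fun σ h => ph_one.2 (b3 σ h),
    fun σ h => ph_neg.2 (b4 σ h), fun σ h => ph_one.2 (a3 σ h), fun σ h => ph_neg.2 (a4 σ h), ?_,
    a5⟩, hx, ?_, a2, ?_⟩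
  · intro p _ ι τ σ hc hin hw
    refine b5 p ι τ σ hc hin ?_
    rwa [sub_sub_cancel]
  · exact tow_S h hz
  · intro σ n k hk
    have h1 := b2 σ n k hk
    show act h fx σ (S (z n)) = k • S (z n)
    rw [← map_zsmul, ← h1]
    exact gal_shF h (fx σ) (z n)

end Pool.Agent.R384
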