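import Pool.Agent.R384.Ten
import Pool.Agent.R384.End

/-!
# The cyclotomic character and the places of multiplicative reduction
-/

set_option autoImplicit false
set_option linter.unusedSectionVars false

namespace Pool.Agent.R384

open Pool.Agent.Y715.Red Pool.Agent.Y715.Nr Pool.Agent.W237.RK
open Pool.Agent.Y715.Gi (QB KK GK i₀_mem gk_fix)
open Pool.Agent.Y715.Df (Cmp exists_cmp)
open Pool.Agent.Y715.Lc (norm_two_odd)

open scoped Classical

/-- the cyclotomic character -/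
noncomputable def cyc (i₀ : QB) : GK i₀ →* ℤ_[2]ˣ :=
  (cyclotomicCharacter QB 2).comp (MulSemiringAction.toRingAut (GK i₀) QB)

lemma cyc_cont (i₀ : QB) : Continuous (cyc i₀) := cyclotomicCharacter.continuous 2 (KK i₀) QB

instance enough (i : ℕ) : HasEnoughRootsOfUnity QB (2 ^ i) := by
  have : NeZero ((2 ^ i : ℕ) : QB) := ⟨by push_cast; exact pow_ne_zero _ two_ne_zero⟩
  infer_instance

variable {i₀ : QB}

lemma cyc_spec (σ : GK i₀) {n : ℕ} {t : QB} (ht : t ^ 2 ^ n = 1) :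
    σ t = t ^ (((cyc i₀ σ : ℤ_[2]ˣ) : ℤ_[2]).toZModPow n).val :=
  cyclotomicCharacter.spec (L := QB) 2 (n := n) (MulSemiringAction.toRingAut (GK i₀) QB σ) t ht

lemma cyc_four {I : QB} (hI : I ^ 2 = -1) (σ : GK i₀) :
    (σ I = I → (4 : ℤ_[2]) ∣ (cyc i₀ σ : ℤ_[2]) - 1) ∧
      (σ I = -I → (4 : ℤ_[2]) ∣ (cyc i₀ σ : ℤ_[2]) + 1) := by
  have hI0 : I ≠ 0 := by
    rintro rfl
    norm_num at hI
  have h4 : I ^ 2 ^ 2 = 1 := by
    have : I ^ 2 ^ 2 = (I ^ 2) ^ 2 := by ring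
    rw [this, hI]
    norm_num
  have h1 := cyc_spec σ h4
  have hu : IsUnit (((cyc i₀ σ : ℤ_[2]ˣ) : ℤ_[2]).toZModPow 2) := (cyc i₀ σ).isUnit.map _
  have h01 : ∀ z : ZMod (2 ^ 2), IsUnit z → z = 1 ∨ z = -1 := by decide
  have hne : I ≠ -I := ne_neg' hI0
  rcases h01 _ hu with h2 | h2
  · constructor
    · intro _
      rw [dvd_iff_ker, map_sub, map_one, h2, sub_self]
    · intro h3
      exfalso
      rw [h2] at h1
      have : ((1 : ZMod (2 ^ 2))).val = 1 := by decide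
      rw [this, pow_one, h3] at h1
      exact hne h1.symm
  · constructor
    · intro h3
      exfalso
      rw [h2] at h1
      have : ((-1 : ZMod (2 ^ 2))).val = 3 := by decide
      rw [this, h3] at h1
      have h5 : I ^ 3 = -I := by
        have : I ^ 3 = I ^ 2 * I := by ring
        rw [this, hI]
        ring
      rw [h5] at h1
      exact hne h1
    · intro _
      rw [dvd_iff_ker, map_add, map_one, h2, neg_add_cancel]

/-- the roots of unity are fixed by the inertia groups of the odd primes -/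
lemma root_fix {p : ℕ} [Fact p.Prime] (hp : p ≠ 2) {τ : Au p} (hin : Inert τ) (n : ℕ) :
    ∀ z : PadicAlgCl p, z ^ 2 ^ n = 1 → τ z = z := by
  intro z hz
  have hz0 : z ≠ 0 := by
    rintro rfl
    rw [zero_pow (by positivity)] at hz
    exact zero_ne_one hz
  have hz1 : ‖z‖ = 1 := by
    have h1 := congrArg norm hz
    rw [norm_pow, norm_one] at h1
    exact (pow_eq_one_iff_of_nonneg (norm_nonneg _) (by positivity)).1 h1
  set u := τ z / z with hu
  have hu1 : u ^ 2 ^ n = 1 := by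
    rw [hu, div_pow, ← map_pow, hz, map_one, div_one]
  have hu2 : ‖u - 1‖ < 1 := by
    have h1 := hin z hz1.le
    have e : u - 1 = (τ z - z) / z := by rw [hu]; field_simp
    rw [e, norm_div, hz1, div_one]
    exact h1
  have key : ∀ m : ℕ, u ^ 2 ^ m = 1 → u = 1 := by
    intro m
    induction m with
    | zero =>
      intro h
      simpa using h
    | succ m ih =>
      intro h
      apply ih
      have h1 : (u ^ 2 ^ m) ^ 2 = 1 := by rw [← pow_mul, ← pow_succ, h]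
      rcases sq_eq_one_iff.1 h1 with h2 | h2
      · exact h2
      · exfalso
        have h3 : ‖u ^ 2 ^ m - 1‖ < 1 := by
          obtain ⟨c, hc⟩ : u - 1 ∣ u ^ 2 ^ m - 1 := by
            have := sub_dvd_pow_sub_pow u 1 (2 ^ m)
            rwa [one_pow] at this
          have hun : ‖u‖ = 1 := by rw [hu, norm_div, nrm, hz1, div_one]
          -- the quotient is integral
          have h4 : u ^ 2 ^ m - 1 = (u - 1) * ∑ i ∈ Finset.range (2 ^ m), u ^ i := by
            rw [mul_comm, geom_sum_mul]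
          rw [h4, norm_mul]
          have h5 : ‖∑ i ∈ Finset.range (2 ^ m), u ^ i‖ ≤ 1 := by
            apply IsUltrametricDist.norm_sum_le_of_forall_le_of_nonneg (by norm_num)
            intro i _
            rw [norm_pow, hun, one_pow]
          calc ‖u - 1‖ * _ ≤ ‖u - 1‖ * 1 := mul_le_mul_of_nonneg_left h5 (norm_nonneg _)
            _ < 1 := by rwa [mul_one]
        rw [h2] at h3
        have e : (-1 - 1 : PadicAlgCl p) = -2 := by norm_num
        rw [e, norm_neg, norm_two_odd hp] at h3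
        exact lt_irrefl _ h3
  have h1 := key n hu1
  rw [hu, div_eq_one_iff_eq hz0] at h1
  exact h1

lemma cyc_inert {p : ℕ} [Fact p.Prime] (hp : p ≠ 2) {ι : QB →ₐ[ℚ] PadicAlgCl p} {σ : GK i₀}
    (hσ : σ ∈ (II ι : Set (GK i₀))) : cyc i₀ σ = 1 := by
  obtain ⟨τ, hτ, hin⟩ := hσ
  apply Units.ext
  apply PadicInt.ext_of_toZModPow.mp
  intro n
  obtain ⟨ζ, hζ⟩ := HasEnoughRootsOfUnity.exists_primitiveRoot QB (2 ^ n)
  have h1 : σ ζ = ζ := by
    apply ι.injective
    show ι (σ ζ) = ι ζ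
    rw [← hτ]
    exact root_fix hp hin n (ι ζ) (by rw [← map_pow, hζ.pow_eq_one, map_one])
  have h2 := cyc_spec σ hζ.pow_eq_one
  rw [h1] at h2
  rw [Units.val_one, map_one]
  rcases Nat.eq_zero_or_pos n with rfl | hn
  · have : Subsingleton (ZMod (2 ^ 0)) := by rw [pow_zero]; infer_instance
    exact Subsingleton.elim _ _
  have h3 : (1 : ℕ) < 2 ^ n := Nat.one_lt_two_pow (by omega)
  have h4 : (((cyc i₀ σ : ℤ_[2]ˣ) : ℤ_[2]).toZModPow n).val = 1 := by
    apply hζ.pow_inj (ZMod.val_lt _) h3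
    rw [← h2, pow_one]
  have : Fact (1 < 2 ^ n) := ⟨h3⟩
  apply ZMod.val_injective
  rw [h4, ZMod.val_one]

/-! ### The places of multiplicative reduction -/

lemma seven_no {y z : OO} (hz : -1 - y ^ 2 = ⟨-1, 2⟩ * z) : False := by
  have h4w : (4 : ZMod 7) ^ 2 = 4 - 2 := by decide
  have h12 := congrArg (em h4w) hz
  have h13 : em h4w (⟨-1, 2⟩ : OO) = 0 := by
    rw [em_apply]
    decide
  rw [map_mul, h13, zero_mul, map_sub, map_neg, map_one, map_pow] at h12
  revert h12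
  generalize em h4w y = s
  revert s
  decide

section mult

variable {p : ℕ} [Fact p.Prime] {w : PadicAlgCl p} (hw : w ^ 2 = w - 2)

/-- a prime divisor below -/
lemma exists_below {z : OO} (hz : z ≠ 0) (h : ‖em hw z‖ < 1) :
    ∃ π, Prime π ∧ π ∣ z ∧ ‖em hw π‖ < 1 := by
  induction z using UniqueFactorizationMonoid.induction_on_prime with
  | h₁ => exact absurd rfl hz
  | h₂ x hx =>
    exfalso
    rcases unit_cases hx with h1 | h1
    · rw [h1, map_one, norm_one] at h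
      exact lt_irrefl _ h
    · rw [h1, map_neg, map_one, norm_neg, norm_one] at h
      exact lt_irrefl _ h
  | h₃ a q ha hq ih =>
    by_cases h1 : ‖em hw q‖ < 1
    · exact ⟨q, hq, Dvd.intro _ rfl, h1⟩
    · have h2 := eq_one_of_not_lt hw h1
      rw [map_mul, norm_mul, h2, one_mul] at h
      obtain ⟨π, hπ, hd, hlt⟩ := ih ha h
      exact ⟨π, hπ, hd.mul_left _, hlt⟩

/-- `-1` is not a square modulo `√-7` -/
lemma seven_sq {π : OO} (hπ : Prime π) (h : ‖em hw π‖ < 1) (hs : Sqm π (-1)) : p ≠ 7 := by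
  rintro rfl
  have e7 : ((7 : ℕ) : OO) = -(⟨-1, 2⟩ * ⟨-1, 2⟩) := by
    ext
    · rw [QuadraticAlgebra.re_natCast]; simp
    · rw [QuadraticAlgebra.im_natCast]; simp
  have h1 := (dvd_iff hw hπ h ((7 : ℕ) : OO)).2 (p_lt hw)
  rw [e7, dvd_neg] at h1
  have h2 : π ∣ ⟨-1, 2⟩ := (hπ.dvd_or_dvd h1).elim id id
  obtain ⟨t, ht⟩ := h2
  have h3 := congrArg nn ht
  rw [nn_mul] at h3
  have h4 : nn (⟨-1, 2⟩ : OO) = 7 := by simp [nn]
  rw [h4] at h3
  have h6 := nn_nonneg π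
  have h9 : nn π ≠ 1 := fun h => hπ.not_isUnit (unit_iff.2 h)
  have h10 : nn t = 1 := by
    have h7 : (nn π).natAbs * (nn t).natAbs = 7 := by rw [← Int.natAbs_mul, ← h3]; rfl
    rcases (Nat.dvd_prime (by norm_num : Nat.Prime 7)).1 ⟨_, h7.symm⟩ with h8 | h8
    · exfalso; apply h9; omega
    · have h11 := nn_nonneg t
      rw [h8] at h7
      omega
  have ht1 : IsUnit t := unit_iff.2 h10
  obtain ⟨y, hy⟩ := hs
  have h5 : (⟨-1, 2⟩ : OO) ∣ -1 - y ^ 2 := by
    rw [ht]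
    exact (ht1.mul_right_dvd).2 hy
  obtain ⟨z, hz⟩ := h5
  exact seven_no hz

variable {ι : QB →ₐ[ℚ] PadicAlgCl p} (hi : i₀ ^ 2 = i₀ - 2)

/-- `√-1` is fixed by the decomposition group -/
lemma fix_sqrt (hp : p ≠ 2) {I : QB} (hI : I ^ 2 = -1) {π : OO} (h : ‖em (iw hi ι) π‖ < 1)
    (hπ : Prime π) (hs : Sqm π (-1)) : ∀ σ ∈ (DD ι : Set (GK i₀)), σ I = I := by
  rintro σ ⟨τ, hτ⟩
  have hI2 : (σ I) ^ 2 = I ^ 2 := by rw [← map_pow, hI, map_neg, map_one]
  rcases sq_eq_sq_iff_eq_or_eq_neg.1 hI2 with h1 | h1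
  · exact h1
  exfalso
  obtain ⟨y, hy⟩ := hs
  have h2 := (dvd_iff (iw hi ι) hπ h _).1 hy
  rw [map_sub, map_neg, map_one, map_pow] at h2
  have h3 : (ι I) ^ 2 = -1 := by rw [← map_pow, hI, map_neg, map_one]
  have hιI : ‖ι I‖ = 1 := by
    have := congrArg norm h3
    rw [norm_pow, norm_neg, norm_one] at this
    exact (pow_eq_one_iff_of_nonneg (norm_nonneg _) two_ne_zero).1 this
  have h4 : ‖ι I - em (iw hi ι) y‖ * ‖ι I + em (iw hi ι) y‖ < 1 := by
    rw [← norm_mul]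
    have e : (ι I - em (iw hi ι) y) * (ι I + em (iw hi ι) y) = -1 - em (iw hi ι) y ^ 2 := by
      linear_combination h3
    rw [e]
    exact h2
  have hfy := em_fix (iw hi ι) hτ.fix y
  have hτI : τ (ι I) = -ι I := by rw [hτ, h1, map_neg]
  have key : ∀ s : PadicAlgCl p, τ s = s → ‖ι I - s‖ < 1 → False := by
    intro s hs h5
    have h6 : ‖τ (ι I - s)‖ < 1 := by rwa [nrm]
    rw [map_sub, hs, hτI] at h6
    have h7 : ‖(ι I - s) - (-ι I - s)‖ < 1 := sub_lt h5 h6
    have e : (ι I - s) - (-ι I - s) = 2 * ι I := by ring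
    rw [e, norm_mul, norm_two_odd hp, hιI, one_mul] at h7
    exact lt_irrefl _ h7
  by_cases h5 : ‖ι I - em (iw hi ι) y‖ < 1
  · exact key _ hfy h5
  · apply key (-em (iw hi ι) y) (by rw [map_neg, hfy])
    rw [sub_neg_eq_add]
    push Not at h5
    have h6 := norm_nonneg (ι I + em (iw hi ι) y)
    nlinarith

/-- an element of the decomposition group that moves `√D` -/
lemma exists_frob (hp : p ≠ 2) {D : OO} {r : QB} (hr : r ^ 2 = em hi D) {π : OO}
    (h : ‖em (iw hi ι) π‖ < 1) (hπ : Prime π) (hs : Sqm π (-1)) (hD : ¬ Sqm π D) :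
    ∃ σ ∈ (DD ι : Set (GK i₀)), σ r = -r := by
  by_contra hcon
  push Not at hcon
  apply hD
  refine resid (iw hi ι) hp (seven_sq (iw hi ι) hπ h hs) hπ h (y := ι r) ?_ ?_
  · rw [← map_pow, hr, ι_em]
  · intro τ hτ
    refine fix_D (fun σ hσ => ?_) τ hτ
    rcases rt_or hi hr σ with h1 | h1
    · exact h1
    · exact absurd h1 (hcon σ hσ)

end mult

/-! ### The places above two -/

/-- an element of the decomposition group that moves `√D` and fixes `√-1` -/
lemma exists_mv (hi : i₀ ^ 2 = i₀ - 2) {D : OO} (h8 : (8 : OO) ∣ D - 5 ∨ (8 : OO) ∣ D + 5)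
    {r I : QB} (hr : r ^ 2 = em hi D) (hI : I ^ 2 = -1) (ι : QB →ₐ[ℚ] PadicAlgCl 2) :
    ∃ σ ∈ (DD ι : Set (GK i₀)), σ r = -r ∧ σ I = I := by
  have hIe : I ^ 2 = em hi (-1) := by rw [hI, map_neg, map_one]
  have hIr : (I * r) ^ 2 = em hi (-D) := by rw [mul_pow, hI, hr, map_neg]; ring
  have five : ∀ z : ℤ, (z = 5 ∨ z = -5) → ∃ (n : ℕ) (k : ℤ), z - 1 = 2 ^ n * k ∧ k % 2 = 1 ∧
      n ≤ 2 ∧ z % 2 = 1 := by
    rintro z (rfl | rfl)
    · exact ⟨2, 1, by norm_num, by norm_num, by norm_num, by norm_num⟩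
    · exact ⟨1, -3, by norm_num, by norm_num, by norm_num, by norm_num⟩
  have h8' : (8 : OO) ∣ -D - 5 ∨ (8 : OO) ∣ -D + 5 := by
    rcases h8 with h | h
    · right
      have e : -D + 5 = -(D - 5) := by ring
      rw [e]
      exact (dvd_neg).2 h
    · left
      have e : -D - 5 = -(D + 5) := by ring
      rw [e]
      exact (dvd_neg).2 h
  obtain ⟨z, hz, hz'⟩ := five_of h8 (iw hi ι)
  obtain ⟨n, k, a1, a2, a3, a4⟩ := five z hz
  obtain ⟨σ₁, s1, t1⟩ := exists_dec' hi a1 a2 a3 a4 ι hz' hr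
  obtain ⟨z', hy, hy'⟩ := five_of h8' (iw hi ι)
  obtain ⟨n', k', b1, b2, b3, b4⟩ := five z' hy
  obtain ⟨σ₂, s2, t2⟩ := exists_dec' hi b1 b2 b3 b4 ι hy' hIr
  have hI0 : I ≠ 0 := by
    rintro rfl
    norm_num at hI
  have hr0 : r ≠ 0 := by
    intro h0
    rw [h0, mul_zero, map_zero, neg_zero] at t2
    have h1 := norm_one_of h8 (iw hi ι)
    rw [← ι_em hi, ← hr, h0] at h1
    simp at h1
  have mulD : ∀ {σ τ : GK i₀}, σ ∈ (DD ι : Set (GK i₀)) → τ ∈ (DD ι : Set (GK i₀)) →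
      σ * τ ∈ (DD ι : Set (GK i₀)) := by
    rintro σ τ ⟨s, hs⟩ ⟨t, ht⟩
    exact ⟨s * t, hs.mul ht⟩
  rcases rt_or hi hIe σ₁ with h1 | h1
  · exact ⟨σ₁, s1, t1, h1⟩
  · rw [map_mul] at t2
    rcases rt_or hi hIe σ₂ with h2 | h2
    · refine ⟨σ₂, s2, ?_, h2⟩
      rw [h2] at t2
      apply mul_left_cancel₀ hI0
      rw [t2, mul_neg]
    · have h3 : σ₂ r = r := by
        rw [h2] at t2
        apply mul_left_cancel₀ hI0
        linear_combination -t2
      refine ⟨σ₁ * σ₂, mulD s1 s2, ?_, ?_⟩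
      · rw [AlgEquiv.mul_apply, h3, t1]
      · rw [AlgEquiv.mul_apply, h2, map_neg, h1, neg_neg]

end Pool.Agent.R384
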