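import Pool.Agent.R384.Ring
import Pool.Agent.Y715.Gi
import Pool.Agent.Y715.Lc

/-!
# `ℤ[ω]` in algebraically closed fields
-/

set_option autoImplicit false
set_option linter.unusedSectionVars false

namespace Pool.Agent.R384

open Pool.Agent.Y715.Red Pool.Agent.Y715.Nr Pool.Agent.W237.RK
open Pool.Agent.Y715.Gi (KK GK i₀_mem gk_fix even_of)

lemma em_apply {L : Type} [CommRing L] {w : L} (hw : w ^ 2 = w - 2) (z : OO) :
    em hw z = z.re + z.im * w := rfl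

lemma map_em {L M : Type} [CommRing L] [CommRing M] (φ : L →+* M) {w : L} (hw : w ^ 2 = w - 2)
    {w' : M} (hw' : w' ^ 2 = w' - 2) (h : φ w = w') (z : OO) : φ (em hw z) = em hw' z := by
  rw [em_apply, em_apply, map_add, map_mul, map_intCast, map_intCast, h]

lemma em_inj {L : Type} [Field L] [CharZero L] {w : L} (hw : w ^ 2 = w - 2) {z : OO}
    (h : em hw z = 0) : z = 0 := by
  have h1 : em hw (z * cj z) = 0 := by rw [map_mul, h, zero_mul]
  rw [mul_cj, map_intCast] at h1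
  have h2 : nn z = 0 := by exact_mod_cast h1
  exact nn_zero_iff.1 h2

lemma em_ne {L : Type} [Field L] [CharZero L] {w : L} (hw : w ^ 2 = w - 2) {z : OO}
    (h : z ≠ 0) : em hw z ≠ 0 := fun h0 => h (em_inj hw h0)

/-! ### Local fields -/

section local_

variable {p : ℕ} [Fact p.Prime] {w : PadicAlgCl p} (hw : w ^ 2 = w - 2)

include hw in
lemma w_le : ‖w‖ ≤ 1 := by
  by_contra hcon
  push Not at hcon
  have h1 : ‖w‖ ^ 2 ≤ ‖w‖ := by
    rw [← norm_pow, hw]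
    refine sub_le le_rfl ?_
    have h2 : ‖(2 : PadicAlgCl p)‖ ≤ 1 := by
      have := int_le (F := PadicAlgCl p) 2
      exact_mod_cast this
    linarith
  nlinarith

lemma em_le (z : OO) : ‖em hw z‖ ≤ 1 := by
  have h : ∀ a : ℤ, ‖(a : PadicAlgCl p)‖ ≤ 1 := fun a => IsUltrametricDist.norm_intCast_le_one _ a
  rw [em_apply]
  exact add_le (h _) (mul_le (h _) (w_le hw))

lemma em_fix {τ : Au p} (h : τ w = w) (z : OO) : τ (em hw z) = em hw z :=
  map_em τ.toRingEquiv.toRingHom hw hw h z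

/-- divisibility by the prime below -/
lemma dvd_iff {ρ : OO} (hρ : Prime ρ) (h : ‖em hw ρ‖ < 1) (z : OO) :
    ρ ∣ z ↔ ‖em hw z‖ < 1 := by
  constructor
  · rintro ⟨t, rfl⟩
    rw [map_mul, norm_mul]
    calc ‖em hw ρ‖ * ‖em hw t‖ ≤ ‖em hw ρ‖ * 1 :=
          mul_le_mul_of_nonneg_left (em_le hw t) (norm_nonneg _)
      _ < 1 := by rwa [mul_one]
  · intro hz
    by_contra hcon
    obtain ⟨a, b, hab⟩ := (hρ.irreducible.coprime_iff_not_dvd).2 hcon
    have h1 : ‖em hw (a * ρ + b * z)‖ < 1 := by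
      rw [map_add, map_mul, map_mul]
      refine add_lt ?_ ?_
      · rw [norm_mul]
        calc ‖em hw a‖ * ‖em hw ρ‖ ≤ 1 * ‖em hw ρ‖ :=
              mul_le_mul_of_nonneg_right (em_le hw a) (norm_nonneg _)
          _ < 1 := by rwa [one_mul]
      · rw [norm_mul]
        calc ‖em hw b‖ * ‖em hw z‖ ≤ 1 * ‖em hw z‖ :=
              mul_le_mul_of_nonneg_right (em_le hw b) (norm_nonneg _)
          _ < 1 := by rwa [one_mul]
    rw [hab, map_one, norm_one] at h1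
    exact lt_irrefl _ h1

lemma eq_one_of_not_lt {z : OO} (h : ¬ ‖em hw z‖ < 1) : ‖em hw z‖ = 1 :=
  le_antisymm (em_le hw z) (not_lt.1 h)

include hw in
/-- the Gauss sum -/
lemma w_mem (hp : p ≠ 7) : w ∈ kur p := by
  have hpp : p.Prime := Fact.out
  obtain ⟨ζ, hζ⟩ := HasEnoughRootsOfUnity.exists_primitiveRoot (PadicAlgCl p) 7
  have hζ7 : ζ ^ 7 = 1 := hζ.pow_eq_one
  have hsum : 1 + ζ + ζ ^ 2 + ζ ^ 3 + ζ ^ 4 + ζ ^ 5 + ζ ^ 6 = 0 := by
    have h1 : (ζ - 1) * (1 + ζ + ζ ^ 2 + ζ ^ 3 + ζ ^ 4 + ζ ^ 5 + ζ ^ 6) = 0 := by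
      linear_combination hζ7
    refine (mul_eq_zero.1 h1).resolve_left fun h2 => ?_
    exact hζ.ne_one (by norm_num) (sub_eq_zero.1 h2)
  have hmem : ζ ∈ kur p := by
    apply IntermediateField.subset_adjoin
    refine ⟨7, fun h7 => ?_, hζ7⟩
    exact hp ((Nat.prime_dvd_prime_iff_eq hpp (by norm_num)).1 h7)
  set η := -(ζ + ζ ^ 2 + ζ ^ 4) with hη
  have hηm : η ∈ kur p := neg_mem (add_mem (add_mem hmem (pow_mem hmem 2)) (pow_mem hmem 4))
  have hη2 : η ^ 2 = η - 2 := by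
    rw [hη]
    linear_combination (2 : PadicAlgCl p) * hsum + ζ * hζ7
  have h3 : (w - η) * (w - (1 - η)) = 0 := by
    linear_combination hw - hη2
  rcases mul_eq_zero.1 h3 with h4 | h4
  · rw [sub_eq_zero.1 h4]
    exact hηm
  · rw [sub_eq_zero.1 h4]
    exact sub_mem (one_mem _) hηm

include hw in
/-- elements fixed by the inertia group -/
theorem norm_odd (hp : p ≠ 7) {z : PadicAlgCl p} (hz : z ≠ 0)
    (h : ∀ τ : Au p, Inert τ → τ w = w → τ z = z) : ∃ m : ℤ, ‖z‖ = (p : ℝ) ^ m :=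
  norm_ne hz (mem_kur fun τ hτ => h τ (inert_of_kur hτ) (hτ w (w_mem hw hp)))

include hw in
lemma w_or (τ : Au p) : τ w = w ∨ τ w = 1 - w := by
  have h : (τ w - w) * (τ w - (1 - w)) = 0 := by
    have h1 : (τ w) ^ 2 = τ w - 2 := by
      rw [← map_pow, hw, map_sub, map_ofNat]
    linear_combination h1 - hw
  rcases mul_eq_zero.1 h with h4 | h4
  · exact Or.inl (sub_eq_zero.1 h4)
  · exact Or.inr (sub_eq_zero.1 h4)

include hw in
/-- elements fixed by the inertia group, ramified case -/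
theorem norm_gen {z : PadicAlgCl p} (hz : z ≠ 0)
    (h : ∀ τ : Au p, Inert τ → τ w = w → τ z = z) : ∃ m : ℤ, ‖z‖ ^ 2 = (p : ℝ) ^ m := by
  by_cases hall : ∀ τ : Au p, (∀ x ∈ kur p, τ x = x) → τ z = z
  · obtain ⟨m, hm⟩ := norm_ne hz (mem_kur hall)
    refine ⟨2 * m, ?_⟩
    rw [hm, mul_comm, zpow_mul]
    norm_cast
  · push Not at hall
    obtain ⟨t, ht, htz⟩ := hall
    have htI : t w = 1 - w := by
      rcases w_or hw t with h1 | h1
      · exact absurd (h t (inert_of_kur ht) h1) htz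
      · exact h1
    have hinv : ∀ x ∈ kur p, t⁻¹ x = x := by
      intro x hx
      have := congrArg (t⁻¹ : Au p) (ht x hx)
      rw [← AlgEquiv.mul_apply, inv_mul_cancel, AlgEquiv.one_apply] at this
      exact this.symm
    have htI' : t⁻¹ w = 1 - w := by
      have := congrArg (t⁻¹ : Au p) htI
      rw [← AlgEquiv.mul_apply, inv_mul_cancel, AlgEquiv.one_apply, map_sub, map_one] at this
      linear_combination this
    have key : ∀ τ : Au p, (∀ x ∈ kur p, τ x = x) → τ w = 1 - w → τ z = t z := by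
      intro τ hτ hτI
      have h1 : (t⁻¹ * τ) z = z := by
        apply h
        · apply inert_of_kur
          intro x hx
          rw [AlgEquiv.mul_apply, hτ x hx, hinv x hx]
        · rw [AlgEquiv.mul_apply, hτI, map_sub, map_one, htI']; ring
      have h2 := congrArg t h1
      rw [← AlgEquiv.mul_apply, ← mul_assoc, mul_inv_cancel, one_mul] at h2
      exact h2
    have hmem : z * t z ∈ kur p := by
      apply mem_kur
      intro τ hτ
      rw [map_mul]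
      rcases w_or hw τ with h1 | h1
      · have h2 : τ (t z) = t z := by
          have h3 := key (τ * t) (fun x hx => by rw [AlgEquiv.mul_apply, ht x hx, hτ x hx])
            (by rw [AlgEquiv.mul_apply, htI, map_sub, map_one, h1])
          rwa [AlgEquiv.mul_apply] at h3
        rw [h2, h τ (inert_of_kur hτ) h1]
      · have h2 : τ (t z) = z := by
          have h3 := h (τ * t) (inert_of_kur fun x hx => by rw [AlgEquiv.mul_apply, ht x hx, hτ x hx])
            (by rw [AlgEquiv.mul_apply, htI, map_sub, map_one, h1]; ring)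
          rwa [AlgEquiv.mul_apply] at h3
        rw [h2, key τ hτ h1, mul_comm]
    have htz0 : t z ≠ 0 := (map_ne_zero t).2 hz
    obtain ⟨m, hm⟩ := norm_ne (mul_ne_zero hz htz0) hmem
    refine ⟨m, ?_⟩
    rw [norm_mul, nrm] at hm
    rw [pow_two, hm]

lemma p_norm : ‖em hw ((p : ℕ) : OO)‖ = (p : ℝ)⁻¹ := by
  rw [map_natCast]
  exact Pool.Agent.W571.RK.norm_p_Om

lemma p1 : (1 : ℝ) < p := by exact_mod_cast (Fact.out : p.Prime).one_lt

lemma p_lt : ‖em hw ((p : ℕ) : OO)‖ < 1 := by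
  rw [p_norm]
  exact inv_lt_one_of_one_lt₀ p1

/-- the prime elements are uniformisers -/
lemma norm_prime (hp : p ≠ 7) {ρ : OO} (hρ : Prime ρ) (h : ‖em hw ρ‖ < 1) :
    ‖em hw ρ‖ = (p : ℝ)⁻¹ := by
  have hρ0 : em hw ρ ≠ 0 := em_ne hw hρ.ne_zero
  obtain ⟨m, hm⟩ := norm_odd hw hp hρ0 (fun τ _ hτ => em_fix hw hτ ρ)
  obtain ⟨t, ht⟩ := (dvd_iff hw hρ h _).2 (p_lt hw)
  have h1 : (p : ℝ)⁻¹ ≤ ‖em hw ρ‖ := by
    rw [← p_norm hw, ht, map_mul, norm_mul]
    calc ‖em hw ρ‖ * ‖em hw t‖ ≤ ‖em hw ρ‖ * 1 :=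
          mul_le_mul_of_nonneg_left (em_le hw t) (norm_nonneg _)
      _ = ‖em hw ρ‖ := mul_one _
  rw [hm] at h h1 ⊢
  have h2 : m < 0 := by
    by_contra hcon
    push Not at hcon
    exact absurd (one_le_zpow₀ p1.le hcon) (not_le.2 h)
  have h3 : (-1 : ℤ) ≤ m := by
    rw [← zpow_neg_one] at h1
    exact (zpow_le_zpow_iff_right₀ p1).1 h1
  have h4 : m = -1 := by omega
  rw [h4, zpow_neg_one]

/-- the same at `√-7` -/
lemma norm_prime7 [Fact (Nat.Prime 7)] {w : PadicAlgCl 7} (hw : w ^ 2 = w - 2) {ρ : OO}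
    (hρ : Prime ρ) (h : ‖em hw ρ‖ < 1) : ‖em hw ρ‖ ^ 2 = (7 : ℝ)⁻¹ := by
  have hρ0 : em hw ρ ≠ 0 := em_ne hw hρ.ne_zero
  obtain ⟨m, hm⟩ := norm_gen hw hρ0 (fun τ _ hτ => em_fix hw hτ ρ)
  have e7 : ((7 : ℕ) : OO) = -(⟨-1, 2⟩ * ⟨-1, 2⟩) := by
    ext
    · rw [QuadraticAlgebra.re_natCast]; simp
    · rw [QuadraticAlgebra.im_natCast]; simp
  have h7 := p_norm hw
  have hs : ‖em hw (⟨-1, 2⟩ : OO)‖ ^ 2 = (7 : ℝ)⁻¹ := by
    rw [e7, map_neg, norm_neg, map_mul, norm_mul] at h7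
    rw [pow_two, h7]
    norm_num
  have hslt : ‖em hw (⟨-1, 2⟩ : OO)‖ < 1 := by
    have h1 : ‖em hw (⟨-1, 2⟩ : OO)‖ ^ 2 < 1 := by rw [hs]; norm_num
    exact (pow_lt_one_iff_of_nonneg (norm_nonneg _) two_ne_zero).1 h1
  obtain ⟨t, ht⟩ := (dvd_iff hw hρ h _).2 hslt
  have h1 : (7 : ℝ)⁻¹ ≤ ‖em hw ρ‖ ^ 2 := by
    rw [← hs, ht, map_mul, norm_mul]
    apply pow_le_pow_left₀ (by positivity)
    calc ‖em hw ρ‖ * ‖em hw t‖ ≤ ‖em hw ρ‖ * 1 :=
          mul_le_mul_of_nonneg_left (em_le hw t) (norm_nonneg _)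
      _ = ‖em hw ρ‖ := mul_one _
  have h0 : ‖em hw ρ‖ ^ 2 < 1 := (pow_lt_one_iff_of_nonneg (norm_nonneg _) two_ne_zero).2 h
  rw [hm] at h0 h1 ⊢
  push_cast at h0 h1 ⊢
  have h2 : m < 0 := by
    by_contra hcon
    push Not at hcon
    exact absurd (one_le_zpow₀ (a := (7 : ℝ)) (by norm_num) hcon) (not_le.2 h0)
  have h3 : (-1 : ℤ) ≤ m := by
    rw [← zpow_neg_one] at h1
    exact (zpow_le_zpow_iff_right₀ (by norm_num)).1 h1
  have h4 : m = -1 := by omega
  rw [h4, zpow_neg_one]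

/-- no simple zeros -/
lemma no_simple {ρ : OO} (hρ : Prime ρ) (h : ‖em hw ρ‖ < 1)
    {t : OO} (ht : ¬ ρ ∣ t) {s : PadicAlgCl p} (hs : s ^ 2 = em hw (ρ * t))
    (hfix : ∀ τ : Au p, Inert τ → τ w = w → τ s = s) : False := by
  have hs0 : s ≠ 0 := by
    rintro rfl
    have h1 := em_inj hw (z := ρ * t) (by rw [← hs]; ring)
    rcases mul_eq_zero.1 h1 with h2 | h2
    · exact hρ.ne_zero h2
    · exact ht (by rw [h2]; exact dvd_zero _)
  have h1 := eq_one_of_not_lt hw ((dvd_iff hw hρ h t).not.1 ht)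
  have h2 : ‖s‖ ^ 2 = ‖em hw ρ‖ := by
    rw [← norm_pow, hs, map_mul, norm_mul, h1, mul_one]
  by_cases hp : p = 7
  · subst hp
    obtain ⟨m, hm⟩ := norm_gen hw hs0 hfix
    have h3 := norm_prime7 hw hρ h
    rw [← h2, hm, ← zpow_natCast, ← zpow_mul, ← zpow_neg_one] at h3
    push_cast at h3
    have h4 := zpow_right_injective₀ (a := (7 : ℝ)) (by norm_num) (by norm_num) h3
    omega
  · obtain ⟨m, hm⟩ := norm_odd hw hp hs0 hfix
    rw [hm, norm_prime hw hp hρ h, ← zpow_neg_one, ← zpow_natCast, ← zpow_mul] at h2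
    have h4 := zpow_right_injective₀ (a := (p : ℝ)) (by linarith [p1 (p := p)]) p1.ne' h2
    push_cast at h4
    omega

/-- a squarefree element that is a square in an extension unramified at the prime `ρ` is prime
to `ρ` -/
lemma not_dvd_of_fix {ρ : OO} (hρ : Prime ρ) (h : ‖em hw ρ‖ < 1)
    {z : OO} (hz : Squarefree z) {s : PadicAlgCl p} (hs : s ^ 2 = em hw z)
    (hfix : ∀ τ : Au p, Inert τ → τ w = w → τ s = s) : ¬ ρ ∣ z := by
  rintro ⟨t, rfl⟩
  refine no_simple hw hρ h ?_ hs hfix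
  rintro ⟨v, rfl⟩
  exact hρ.not_isUnit (hz ρ ⟨v, by ring⟩)

end local_

end Pool.Agent.R384
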