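import Pool.Agent.R384.Inf2

/-!
# A sequence of triples
-/

set_option autoImplicit false
set_option linter.unusedSectionVars false

namespace Pool.Agent.R384

open QuadraticAlgebra

/-- the triples of the sequence -/
structure Tri (m : ℕ) (a b c : OO) : Prop where
  ha : (1 - om) * a = 1 + om ^ 2 ^ (m + 1)
  hb : b = om ^ (2 ^ m + 1)
  hc : (1 - om) * c = 1 - om ^ 2 ^ (m + 1)

lemma om_sq : om ^ 2 = om - 2 := by
  ext
  · rw [pow_two, re_mul, re_sub, re_ofNat]; simp [om]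
  · rw [pow_two, im_mul, im_sub, im_ofNat]; simp [om]

lemma om_ne : om ≠ 0 := prime_om.ne_zero
lemma om_ne' : 1 - om ≠ 0 := prime_om'.ne_zero

lemma om_cube : 1 - om ^ 2 = -(1 - om) ^ 3 := by
  linear_combination (1 - om) * om_sq

lemma dvd_m (m : ℕ) : 1 - om ^ 2 ∣ 1 - om ^ 2 ^ (m + 1) := by
  have h := sub_one_dvd_pow_sub_one (om ^ 2) (2 ^ m)
  rw [← pow_mul, ← pow_succ'] at h
  rwa [← neg_dvd, ← dvd_neg, neg_sub, neg_sub]

lemma dvd_k {k m : ℕ} (h : k ≤ m) : 1 - om ^ 2 ^ k ∣ 1 - om ^ 2 ^ m := by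
  obtain ⟨d, rfl⟩ := Nat.exists_eq_add_of_le h
  have h := sub_one_dvd_pow_sub_one (om ^ 2 ^ k) (2 ^ d)
  rw [← pow_mul, ← pow_add] at h
  rwa [← neg_dvd, ← dvd_neg, neg_sub, neg_sub]

lemma exists_tri (m : ℕ) : ∃ a b c, Tri m a b c := by
  obtain ⟨t, ht⟩ := dvd_m m
  rw [om_cube] at ht
  refine ⟨om - (1 - om) ^ 2 * -t, _, (1 - om) ^ 2 * -t, ?_, rfl, ?_⟩
  · linear_combination om_mul + ht
  · linear_combination -ht

variable {m : ℕ} {a b c : OO}

lemma Tri.pyth (h : Tri m a b c) : a ^ 2 = b ^ 2 + c ^ 2 := by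
  have h1 : (1 - om) ^ 2 * a ^ 2 = (1 - om) ^ 2 * (b ^ 2 + c ^ 2) := by
    have e1 : om ^ 2 ^ (m + 1) = (om ^ 2 ^ m) ^ 2 := by rw [← pow_mul, ← pow_succ]
    have ha := h.ha
    have hc := h.hc
    rw [e1] at ha hc
    have hb : b = om ^ 2 ^ m * om := by rw [h.hb, pow_succ]
    rw [hb]
    generalize om ^ 2 ^ m = x at *
    have : (1 - om) ^ 2 * (x * om) ^ 2 = 4 * x ^ 2 := by
      have h4 : (om * (1 - om)) ^ 2 = 4 := by rw [om_mul]; norm_num
      linear_combination x ^ 2 * h4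
    have ha2 : (1 - om) ^ 2 * a ^ 2 = (1 + x ^ 2) ^ 2 := by rw [← ha]; ring
    have hc2 : (1 - om) ^ 2 * c ^ 2 = (1 - x ^ 2) ^ 2 := by rw [← hc]; ring
    rw [mul_add, this, ha2, hc2]
    ring
  exact mul_left_cancel₀ (pow_ne_zero 2 om_ne') h1

lemma Tri.c_dvd (h : Tri m a b c) : (1 - om) ^ 2 ∣ c := by
  obtain ⟨t, ht⟩ := dvd_m m
  rw [om_cube, ← h.hc] at ht
  refine ⟨-t, ?_⟩
  apply mul_left_cancel₀ om_ne'
  rw [ht]
  ring

lemma Tri.b_dvd (h : Tri m a b c) : om ^ 2 ∣ b := by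
  rw [h.hb]
  exact pow_dvd_pow _ (by have := Nat.one_le_two_pow (n := m); omega)

lemma Tri.sum (h : Tri m a b c) : a + c = om := by
  apply mul_left_cancel₀ om_ne'
  linear_combination h.ha + h.hc - om_mul

lemma Tri.odd (h : Tri m a b c) : IsCoprime a 2 := by
  rw [← om_mul]
  apply IsCoprime.mul_right
  · -- coprime to om
    have h1 : IsCoprime ((1 - om) * a) om := by
      rw [h.ha]
      have e : om ^ 2 ^ (m + 1) = om ^ (2 ^ (m + 1) - 1) * om := by
        rw [← pow_succ]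
        congr 1
        have := Nat.one_le_two_pow (n := m + 1)
        omega
      refine ⟨1, -om ^ (2 ^ (m + 1) - 1), ?_⟩
      rw [e]
      ring
    exact h1.of_mul_left_right
  · obtain ⟨t, ht⟩ := h.c_dvd
    have e : a = om - (1 - om) * ((1 - om) * t) := by
      have hs := h.sum
      rw [ht] at hs
      linear_combination hs
    refine ⟨1, 1 + (1 - om) * t, ?_⟩
    linear_combination e

lemma Tri.ne (h : Tri m a b c) : a * b * c ≠ 0 := by
  have hpow : ∀ k : ℕ, 1 ≤ k → om ^ k ≠ 1 ∧ om ^ k ≠ -1 := by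
    intro k hk
    have h1 : ∀ k : ℕ, nn (om ^ k) = 2 ^ k := by
      intro k
      induction k with
      | zero => simp [nn]
      | succ k ih => rw [pow_succ, nn_mul, ih, pow_succ]; simp [nn, om]
    have h2 := h1 k
    have h3 : (2 : ℤ) ≤ 2 ^ k := by
      calc (2 : ℤ) = 2 ^ 1 := by norm_num
        _ ≤ 2 ^ k := pow_le_pow_right₀ (by norm_num) hk
    constructor
    · intro h4
      rw [h4] at h2
      simp [nn] at h2
      omega
    · intro h4
      rw [h4] at h2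
      simp [nn] at h2
      omega
  refine mul_ne_zero (mul_ne_zero ?_ ?_) ?_
  · rintro rfl
    have h1 := h.ha
    rw [mul_zero] at h1
    exact (hpow (2 ^ (m + 1)) Nat.one_le_two_pow).2 (by linear_combination -h1)
  · rw [h.hb]
    exact pow_ne_zero _ om_ne
  · rintro rfl
    have h1 := h.hc
    rw [mul_zero] at h1
    exact (hpow (2 ^ (m + 1)) Nat.one_le_two_pow).1 (by linear_combination h1)

lemma sqm_neg {π : OO} {k : ℕ} (h : π ∣ 1 + om ^ 2 ^ (k + 1)) : Sqm π (-1) := by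
  refine ⟨om ^ 2 ^ k, ?_⟩
  rw [← pow_mul, ← pow_succ]
  have : -1 - om ^ 2 ^ (k + 1) = -(1 + om ^ 2 ^ (k + 1)) := by ring
  rw [this]
  exact (dvd_neg).2 h

lemma sqm_sub {π : OO} (hπ : Prime π) (h2 : ¬ π ∣ 2) (k : ℕ) (h : π ∣ 1 - om ^ 2 ^ (k + 1)) :
    Sqm π (-1) := by
  induction k with
  | zero =>
    exfalso
    rw [zero_add, pow_one, om_cube, dvd_neg] at h
    have h3 := hπ.dvd_of_dvd_pow h
    apply h2
    rw [← om_mul]
    exact Dvd.dvd.mul_left h3 _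
  | succ k ih =>
    have e : 1 - om ^ 2 ^ (k + 1 + 1) = (1 - om ^ 2 ^ (k + 1)) * (1 + om ^ 2 ^ (k + 1)) := by
      rw [pow_succ 2 (k + 1), pow_mul]
      ring
    rw [e] at h
    rcases hπ.dvd_or_dvd h with h3 | h3
    · exact ih h3
    · exact sqm_neg h3

lemma not_dvd_om {π : OO} (h2 : ¬ π ∣ 2) : ¬ π ∣ om := by
  intro h
  apply h2
  rw [← om_mul]
  exact Dvd.dvd.mul_right h _

lemma Tri.neg (h : Tri m a b c) {π : OO} (hπ : Prime π) (h2 : ¬ π ∣ 2) (hd : π ∣ a * b * c) :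
    Sqm π (-1) := by
  rcases hπ.dvd_or_dvd hd with h3 | h3
  · rcases hπ.dvd_or_dvd h3 with h4 | h4
    · apply sqm_neg (k := m)
      rw [← h.ha]
      exact Dvd.dvd.mul_left h4 _
    · rw [h.hb] at h4
      exact absurd (hπ.dvd_of_dvd_pow h4) (not_dvd_om h2)
  · apply sqm_sub hπ h2 m
    rw [← h.hc]
    exact Dvd.dvd.mul_left h3 _

lemma Tri.new (h : Tri m a b c) (hm : 1 ≤ m) : ∃ π : OO, Prime π ∧ ¬ π ∣ 2 ∧ π ∣ a ∧ ¬ π ∣ b * c ∧
    ∀ (k : ℕ) (a' b' c' : OO), k < m → Tri k a' b' c' → ¬ π ∣ a' * b' * c' := by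
  have hnn : ∀ k : ℕ, nn (om ^ k) = 2 ^ k := by
    intro k
    induction k with
    | zero => simp [nn]
    | succ k ih => rw [pow_succ, nn_mul, ih, pow_succ]; simp [nn, om]
  have hau : ¬ IsUnit a := by
    intro hu
    have h4 : (8 : ℤ) ≤ 2 ^ 2 ^ (m + 1) := by
      calc (8 : ℤ) = 2 ^ 3 := by norm_num
        _ ≤ 2 ^ 2 ^ (m + 1) := pow_le_pow_right₀ (by norm_num) (by
          have : 2 ^ 2 ≤ 2 ^ (m + 1) := Nat.pow_le_pow_right (by norm_num) (by omega)
          omega)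
    have h1 := hnn (2 ^ (m + 1))
    have ha := h.ha
    rcases unit_cases hu with h3 | h3
    · rw [h3, mul_one] at ha
      have e : om ^ 2 ^ (m + 1) = -om := by linear_combination -ha
      rw [e] at h1
      simp [nn, om] at h1
      omega
    · rw [h3] at ha
      have e : om ^ 2 ^ (m + 1) = om - 2 := by linear_combination -ha
      rw [e, ← om_sq, hnn] at h1
      omega
  have ha0 : a ≠ 0 := by
    rintro rfl
    exact h.ne (by ring)
  obtain ⟨π, hπ, hd⟩ := WfDvdMonoid.exists_irreducible_factor hau ha0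
  have hπp := hπ.prime
  have h2 : ¬ π ∣ 2 := by
    intro h3
    exact hπ.not_isUnit (h.odd.isUnit_of_dvd' hd h3)
  have hπa : π ∣ 1 + om ^ 2 ^ (m + 1) := by
    rw [← h.ha]
    exact Dvd.dvd.mul_left hd _
  have hnb : ∀ k : ℕ, ¬ π ∣ om ^ k := fun k h4 => not_dvd_om h2 (hπp.dvd_of_dvd_pow h4)
  have hns : ¬ π ∣ 1 - om ^ 2 ^ (m + 1) := by
    intro h4
    apply h2
    have : (2 : OO) = (1 + om ^ 2 ^ (m + 1)) + (1 - om ^ 2 ^ (m + 1)) := by ring
    rw [this]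
    exact dvd_add hπa h4
  refine ⟨π, hπp, h2, hd, ?_, ?_⟩
  · intro h4
    rcases hπp.dvd_or_dvd h4 with h5 | h5
    · rw [h.hb] at h5
      exact hnb _ h5
    · apply hns
      rw [← h.hc]
      exact Dvd.dvd.mul_left h5 _
  · intro k a' b' c' hk h' hd'
    have key : ¬ π ∣ 1 - om ^ 2 ^ (k + 1 + 1) := by
      intro h4
      exact hns (h4.trans (dvd_k (by omega)))
    have e : 1 - om ^ 2 ^ (k + 1 + 1) = (1 - om ^ 2 ^ (k + 1)) * (1 + om ^ 2 ^ (k + 1)) := by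
      rw [pow_succ 2 (k + 1), pow_mul]
      ring
    rcases hπp.dvd_or_dvd hd' with h3 | h3
    · rcases hπp.dvd_or_dvd h3 with h4 | h4
      · apply key
        rw [e, ← h'.ha]
        exact Dvd.dvd.mul_left (Dvd.dvd.mul_left h4 _) _
      · rw [h'.hb] at h4
        exact hnb _ h4
    · apply key
      rw [e, ← h'.hc]
      exact Dvd.dvd.mul_right (Dvd.dvd.mul_left h3 _) _

end Pool.Agent.R384
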