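import Pool.Agent.R384.Main

/-!
# The vanishing of the Selmer groups: the theorem
-/

set_option autoImplicit false
set_option linter.unusedSectionVars false

namespace Pool.Agent.R384

open Pool.Agent.Y715.Red Pool.Agent.Y715.Nr Pool.Agent.W237.RK
open Pool.Agent.Y715.Gi (QB KK GK i₀_mem gk_fix)
open Pool.Agent.Y715.Df (Cmp exists_cmp)
open Pool.Agent.Y715.Lc (norm_two_odd)

open scoped Classical

variable {i₀ : QB} (hi : i₀ ^ 2 = i₀ - 2)

variable {χ : GK i₀ →* ℤ_[2]ˣ} {m : OO} {r : QB}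

lemma norm_one_of {m : OO} (h8 : (8 : OO) ∣ m - 5 ∨ (8 : OO) ∣ m + 5) {w : PadicAlgCl 2}
    (hw : w ^ 2 = w - 2) : ‖em hw m‖ = 1 := by
  obtain ⟨z, hz, h1⟩ := five_of h8 hw
  have h2 : ‖(z : PadicAlgCl 2)‖ = 1 := odd_norm (by rcases hz with rfl | rfl <;> norm_num)
  have e : em hw m = z + (em hw m - z) := by ring
  rw [e, eq_of_lt, h2]
  rw [h2]
  linarith

/-- there is an element of the decomposition group that moves `√m` -/
lemma exists_dec (cd : ChiD hi χ m r) (h8 : (8 : OO) ∣ m - 5 ∨ (8 : OO) ∣ m + 5)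
    (ι : QB →ₐ[ℚ] PadicAlgCl 2) : ∃ σ ∈ (DD ι : Set (GK i₀)), σ r = -r := by
  by_contra hcon
  push Not at hcon
  have hfix : ∀ τ : Au 2, τ (ι r) = ι r := by
    intro τ
    refine fix_D (fun σ hσ => ?_) τ (two_fix (iw hi ι) τ)
    rcases rt_or hi cd.hr σ with h | h
    · exact h
    · exact absurd h (hcon σ hσ)
  have h1 : (ι r) ^ 2 = em (iw hi ι) m := by rw [← map_pow, cd.hr, ι_em]
  have h2 : ‖ι r‖ = 1 := by
    have h3 := norm_one_of h8 (iw hi ι)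
    rw [← h1, norm_pow] at h3
    exact (pow_eq_one_iff_of_nonneg (norm_nonneg _) two_ne_zero).1 h3
  have h3 := sq_mod_eight h2 hfix
  rw [h1] at h3
  obtain ⟨z, hz, h4⟩ := five_of h8 (iw hi ι)
  have h5 : ‖((z - 1 : ℤ) : PadicAlgCl 2)‖ ≤ 1 / 8 := by
    have e : ((z - 1 : ℤ) : PadicAlgCl 2) = (em (iw hi ι) m - 1) - (em (iw hi ι) m - z) := by
      push_cast
      ring
    rw [e]
    exact sub_le h3 h4
  rcases hz with rfl | rfl
  · rw [even_norm (z := 5 - 1) (k := 1) (n := 2) (by norm_num) (by norm_num)] at h5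
    norm_num at h5
  · rw [even_norm (z := -5 - 1) (k := -3) (n := 1) (by norm_num) (by norm_num)] at h5
    norm_num at h5

/-- the local condition at the strict place -/
lemma loc_strict (cd : ChiD hi χ m r) {c : GK i₀ → ℚ_[2]} (hc1 : ∀ σ, ‖c σ‖ ≤ 1)
    (h8 : (8 : OO) ∣ m - 5 ∨ (8 : OO) ∣ m + 5) {ϖ : OO} (hϖ : Prime ϖ)
    {ι : QB →ₐ[ℚ] PadicAlgCl 2} (hι : ‖em (iw hi ι) ϖ‖ < 1)
    (hD : CobOn χ (DD ι) c) {δ : OO} (hδ : Squarefree δ) {s : QB}
    (hs : s ^ 2 = em hi δ) (hk : ∀ σ : GK i₀, σ s = s ↔ md c σ = 0) :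
    ¬ ϖ ∣ δ ∧ (‖em (iw hi ι) δ - 1‖ ≤ 1 / 8 ∨ ‖em (iw hi ι) (δ * m) - 1‖ ≤ 1 / 8) := by
  obtain ⟨σ₀, h0, h2⟩ := exists_dec hi cd h8 ι
  have hm1 := norm_one_of h8 (iw hi ι)
  have hϖm : ¬ ϖ ∣ m := by
    rw [dvd_iff (iw hi ι) hϖ hι, hm1]
    exact lt_irrefl _
  have hsq : (ι s) ^ 2 = em (iw hi ι) δ := by rw [← map_pow, hs, ι_em]
  have key : ∀ {x : OO} {y : PadicAlgCl 2}, y ^ 2 = em (iw hi ι) x → ¬ ϖ ∣ x →
      (∀ τ : Au 2, τ y = y) → ‖em (iw hi ι) x - 1‖ ≤ 1 / 8 := by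
    intro x y hy hx hfix
    have h3 := eq_one_of_not_lt (iw hi ι) ((dvd_iff (iw hi ι) hϖ hι x).not.1 hx)
    rw [← hy, norm_pow] at h3
    rw [← hy]
    exact sq_mod_eight ((pow_eq_one_iff_of_nonneg (norm_nonneg _) two_ne_zero).1 h3) hfix
  rcases loc_dich hi cd hc1 hD h0 h2 hs hk with h | h
  · have h3 := not_dvd_of_fix (iw hi ι) hϖ hι hδ hsq fun τ _ hτ => fix_D h τ hτ
    exact ⟨h3, Or.inl (key hsq h3 fun τ => fix_D h τ (two_fix (iw hi ι) τ))⟩
  · have hsr : (ι (s * r)) ^ 2 = em (iw hi ι) (δ * m) := by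
      rw [← map_pow, mul_pow, hs, cd.hr, ← map_mul, ι_em]
    have h3 : ¬ ϖ ∣ δ := by
      rintro ⟨t, ht⟩
      have h4 : ¬ ϖ ∣ t := by
        rintro ⟨v, rfl⟩
        exact hϖ.not_isUnit (hδ ϖ ⟨v, by rw [ht]; ring⟩)
      refine no_simple (iw hi ι) hϖ hι (t := t * m) (s := ι (s * r))
        (fun h => (hϖ.dvd_or_dvd h).elim h4 hϖm) ?_ fun τ _ hτ => fix_D h τ hτ
      rw [hsr, ht]
      congr 1
      ring
    exact ⟨h3, Or.inr (key hsr (fun h => (hϖ.dvd_or_dvd h).elim h3 hϖm)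
      fun τ => fix_D h τ (two_fix (iw hi ι) τ))⟩

/-- sizes -/
lemma size {w : PadicAlgCl 2} (hw : w ^ 2 = w - 2) {x : OO} {z k : ℤ} {n : ℕ}
    (h1 : ‖em hw x - 1‖ ≤ 1 / 8) (h2 : ‖em hw x - z‖ ≤ 1 / 8) (hz : z - 1 = 2 ^ n * k)
    (hk : k % 2 = 1) (hn : n ≤ 2) : False := by
  have h3 : ‖((z - 1 : ℤ) : PadicAlgCl 2)‖ ≤ 1 / 8 := by
    have e : ((z - 1 : ℤ) : PadicAlgCl 2) = (em hw x - 1) - (em hw x - z) := by
      push_cast
      ring
    rw [e]
    exact sub_le h1 h2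
  rw [even_norm hz hk] at h3
  have h4 : (1 / 4 : ℝ) ≤ (1 / 2) ^ n := by
    rcases (by omega : n = 0 ∨ n = 1 ∨ n = 2) with rfl | rfl | rfl <;> norm_num
  linarith

theorem main {n : ℕ} {q : Fin n → OO} (hq : ∀ i, Pr (q i)) (hinj : Function.Injective q)
    (h8 : (8 : OO) ∣ ∏ i, q i - 5) (hind : Indec q) (hm : m = ∏ i, q i ∨ m = -∏ i, q i)
    (cd : ChiD hi χ m r) {ϖ ϖ' : OO} (hϖ : (ϖ = om ∧ ϖ' = 1 - om) ∨ (ϖ = 1 - om ∧ ϖ' = om))
    {c : GK i₀ → ℚ_[2]} (hc : Coc χ c)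
    (hodd : ∀ (p : ℕ) [Fact p.Prime] (ι : QB →ₐ[ℚ] PadicAlgCl p), p ≠ 2 → CobOn χ (II ι) c)
    (hstr : ∀ ι : QB →ₐ[ℚ] PadicAlgCl 2, ‖ι (em hi ϖ)‖ < 1 → CobOn χ (DD ι) c) :
    ∃ y : ℚ_[2], ∀ σ, c σ = (vl χ σ - 1) * y := by
  classical
  by_contra hn
  have h8' : (8 : OO) ∣ m - 5 ∨ (8 : OO) ∣ m + 5 := by
    rcases hm with h | h
    · left; rw [h]; exact h8
    · right
      rw [h]
      have : -∏ i, q i + 5 = -(∏ i, q i - 5) := by ring
      rw [this]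
      exact (dvd_neg).2 h8
  have hϖp : Prime ϖ := by
    rcases hϖ with ⟨rfl, -⟩ | ⟨rfl, -⟩
    · exact prime_om
    · exact prime_om'
  have hϖ2 : ϖ * ϖ' = 2 := by
    rcases hϖ with ⟨rfl, rfl⟩ | ⟨rfl, rfl⟩
    · exact om_mul
    · rw [mul_comm]; exact om_mul
  -- the strict place
  obtain ⟨p, hpf, ι, hι⟩ := exists_emb hi hϖp
  have hp2 : p = 2 := by
    rw [ι_em] at hι
    exact (two_of_dvd hϖp (iw hi ι) hι).2 ⟨_, hϖ2.symm⟩
  subst hp2
  have hι' : ‖em (iw hi ι) ϖ‖ < 1 := by rwa [ι_em] at hι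
  obtain ⟨σ₀, -, hσ₀⟩ := exists_dec hi cd h8' ι
  -- normalization
  obtain ⟨a, y, ha, hint, hmin⟩ := normalize hc (cd.big hi hσ₀) hn
  set c' : GK i₀ → ℚ_[2] := fun σ => a * c σ + (vl χ σ - 1) * y with hc'
  have hcc : Coc χ c' := hc.twist cd.cont a y
  have hodd' : ∀ (p : ℕ) [Fact p.Prime] (ι : QB →ₐ[ℚ] PadicAlgCl p), p ≠ 2 →
      CobOn χ (II ι) c' := fun p _ ι hp => (hodd p ι hp).twist a y
  have hstr' : CobOn χ (DD ι) c' := (hstr ι hι).twist a y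
  -- Kummer theory
  obtain ⟨δ, hδ, hkum⟩ := kum hi (md c') (md_cont hcc) (md_mul hcc hint)
  obtain ⟨s, hs⟩ : ∃ s : QB, s ^ 2 = em hi δ := IsAlgClosed.exists_pow_nat_eq _ (by norm_num)
  have hk : ∀ σ : GK i₀, σ s = s ↔ md c' σ = 0 := hkum s hs
  obtain ⟨hst1, hst2⟩ := loc_strict hi cd hint h8' hϖp hι' hstr' hδ hs hk
  -- the prime divisors of `δ`
  have hsup : ∀ π, Prime π → π ∣ δ → π ∣ ϖ' ∨ ∃ i, π ∣ q i := by
    intro π hπ hπδ
    by_cases hπ2 : π ∣ 2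
    · rw [← hϖ2] at hπ2
      rcases hπ.dvd_or_dvd hπ2 with h | h
      · exfalso
        exact hst1 (((hπ.dvd_prime_iff_associated hϖp).1 h).symm.dvd.trans hπδ)
      · exact Or.inl h
    · by_cases hπm : π ∣ m
      · right
        have h1 : π ∣ ∏ i, q i := by
          rcases hm with h | h
          · rwa [h] at hπm
          · rwa [h, dvd_neg] at hπm
        obtain ⟨i, -, h2⟩ := (hπ.dvd_finsetProd_iff _).1 h1
        exact ⟨i, h2⟩
      · exfalso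
        obtain ⟨l, hl, κ, hκ⟩ := exists_emb hi hπ
        rw [ι_em] at hκ
        have hl2 : l ≠ 2 := fun h => hπ2 ((two_of_dvd hπ (iw hi κ) hκ).1 h)
        have h1 := unram hi cd hl2 (hodd' l κ hl2) ((dvd_iff (iw hi κ) hπ hκ m).not.1 hπm)
        refine not_dvd_of_fix (iw hi κ) hπ hκ hδ (s := κ s) ?_ ?_ hπδ
        · rw [← map_pow, hs, ι_em]
        · intro τ hin hτ
          exact fix_I (fun σ hσ => (hk σ).2 (h1 σ hσ)) τ hin hτ
  -- the prime divisors of `m`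
  have hloc : ∀ i, (¬ q i ∣ δ ∧ Sqm (q i) δ) ∨
      ∃ δ1 m1, δ = q i * δ1 ∧ m = q i * m1 ∧ Sqm (q i) (δ1 * m1) := by
    intro i
    obtain ⟨m1, hm1, hm1'⟩ : ∃ m1, m = q i * m1 ∧ ¬ q i ∣ m1 := by
      have h1 := Finset.mul_prod_erase Finset.univ q (Finset.mem_univ i)
      have h2 := nd_prod hq hinj (Finset.notMem_erase i Finset.univ)
      rcases hm with h | h
      · exact ⟨_, by rw [h, ← h1], h2⟩
      · refine ⟨-∏ k ∈ Finset.univ.erase i, q k, by rw [h, ← h1]; ring, ?_⟩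
        rwa [dvd_neg]
    obtain ⟨l, hl, κ, hκ⟩ := exists_emb hi (hq i).prime
    rw [ι_em] at hκ
    have hl2 : l ≠ 2 := fun h => (hq i).two ((two_of_dvd (hq i).prime (iw hi κ) hκ).1 h)
    exact loc_q hi cd hcc hint (hq i) hm1 hm1' hκ (hodd' l κ hl2) hδ hs hk
  have hϖ'c : ϖ' = om ∨ ϖ' = 1 - om := by
    rcases hϖ with ⟨-, h⟩ | ⟨-, h⟩
    · exact Or.inr h
    · exact Or.inl h
  have hδ4 := alg hq hinj h8 hind hϖ'c hδ hsup hm hloc
  -- the strict place again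
  obtain ⟨z, hz, hmz⟩ := five_of h8' (iw hi ι)
  have hmm : ‖em (iw hi ι) (m * m) - ((z * z : ℤ) : PadicAlgCl 2)‖ ≤ 1 / 8 := by
    have e : em (iw hi ι) (m * m) - ((z * z : ℤ) : PadicAlgCl 2) =
        (em (iw hi ι) m - z) * (em (iw hi ι) m + z) := by
      rw [map_mul]
      push_cast
      ring
    rw [e, norm_mul]
    have h1 : ‖em (iw hi ι) m + z‖ ≤ 1 :=
      add_le (em_le _ _) (IsUltrametricDist.norm_intCast_le_one _ z)
    calc ‖em (iw hi ι) m - z‖ * ‖em (iw hi ι) m + z‖ ≤ ‖em (iw hi ι) m - z‖ * 1 :=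
          mul_le_mul_of_nonneg_left h1 (norm_nonneg _)
      _ ≤ 1 / 8 := by rwa [mul_one]
  have hneg : ∀ {x : OO} {b : ℤ}, ‖em (iw hi ι) x - b‖ ≤ 1 / 8 →
      ‖em (iw hi ι) (-x) - ((-b : ℤ) : PadicAlgCl 2)‖ ≤ 1 / 8 := by
    intro x b h
    have e : em (iw hi ι) (-x) - ((-b : ℤ) : PadicAlgCl 2) = -(em (iw hi ι) x - b) := by
      rw [map_neg]
      push_cast
      ring
    rw [e, norm_neg]
    exact h
  have h11 : ‖em (iw hi ι) (1 : OO) - ((1 : ℤ) : PadicAlgCl 2)‖ ≤ 1 / 8 := by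
    rw [map_one, Int.cast_one, sub_self, norm_zero]
    norm_num
  have hδ2 : δ = 1 ∨ δ = m := by
    rcases hδ4 with h | h | h | h
    · exact Or.inl h
    · exfalso
      rw [h] at hst2
      rcases hst2 with h1 | h1
      · exact size (iw hi ι) (z := -1) (k := -1) (n := 1) h1 (hneg h11) (by norm_num) (by norm_num)
          (by norm_num)
      · rw [neg_one_mul] at h1
        rcases hz with rfl | rfl
        · exact size (iw hi ι) (z := -5) (k := -3) (n := 1) h1 (hneg hmz) (by norm_num)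
            (by norm_num) (by norm_num)
        · exact size (iw hi ι) (z := 5) (k := 1) (n := 2) h1
            (by have := hneg hmz; rwa [neg_neg] at this) (by norm_num) (by norm_num) (by norm_num)
    · exact Or.inr h
    · exfalso
      rw [h] at hst2
      rcases hst2 with h1 | h1
      · rcases hz with rfl | rfl
        · exact size (iw hi ι) (z := -5) (k := -3) (n := 1) h1 (hneg hmz) (by norm_num)
            (by norm_num) (by norm_num)
        · exact size (iw hi ι) (z := 5) (k := 1) (n := 2) h1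
            (by have := hneg hmz; rwa [neg_neg] at this) (by norm_num) (by norm_num) (by norm_num)
      · rw [neg_mul] at h1
        have h2 := hneg hmm
        have hzz : z * z = 25 := by rcases hz with rfl | rfl <;> norm_num
        rw [hzz] at h2
        exact size (iw hi ι) (z := -25) (k := -13) (n := 1) h1 h2 (by norm_num) (by norm_num)
          (by norm_num)
  rcases hδ2 with h | h
  · -- `δ = 1`
    rw [h, map_one] at hs
    obtain ⟨σ, hσ⟩ := hmin 0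
    rw [mul_zero, sub_zero] at hσ
    apply hσ
    have h1 : σ s = s := by
      rcases sq_eq_one_iff.1 hs with h2 | h2
      · rw [h2, map_one]
      · rw [h2, map_neg, map_one]
    have h5 : ‖c' σ‖ < 1 := md_zero.1 ((hk σ).1 h1)
    exact h5
  · -- `δ = m`
    rw [h] at hs
    have hsr : ∀ σ : GK i₀, σ s = s ↔ σ r = r := by
      intro σ
      have h1 : s ^ 2 = r ^ 2 := by rw [hs, cd.hr]
      rcases sq_eq_sq_iff_eq_or_eq_neg.1 h1 with h2 | h2
      · rw [h2]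
      · rw [h2, map_neg, neg_inj]
    obtain ⟨σ, hσ⟩ := hmin (1 / 2)
    apply hσ
    have h2n : ‖(2 : ℚ_[2])‖ = 1 / 2 := norm_two'
    have h3 : ‖(vl χ σ - 1) * (1 / 2)‖ = 2 * ‖vl χ σ - 1‖ := by
      rw [norm_mul, norm_div, norm_one, h2n]
      ring
    by_cases h4 : md c' σ = 0
    · have h5 : ‖c' σ‖ < 1 := md_zero.1 h4
      have h6 := (cd.iff hi σ).2 ((hsr σ).1 ((hk σ).2 h4))
      have e : c' σ - (vl χ σ - 1) * (1 / 2) = c' σ + -((vl χ σ - 1) * (1 / 2)) := by ring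
      have h7 : ‖c' σ - (vl χ σ - 1) * (1 / 2)‖ < 1 := by
        rw [e]
        refine add_lt' h5 ?_
        rw [norm_neg, h3]
        linarith
      exact h7
    · have h5 : ¬ ‖c' σ‖ < 1 := fun h => h4 (md_zero.2 h)
      have h6 := (md_eq (hint σ)).1 h5
      have h7 : σ r = -r := by
        rcases rt_or hi cd.hr σ with h7 | h7
        · exact absurd ((hk σ).1 ((hsr σ).2 h7)) h4
        · exact h7
      have h8 := cd.big hi h7
      have h9 : ¬ ‖(vl χ σ - 1) * (1 / 2)‖ < 1 := by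
        rw [h3, h8]
        norm_num
      have h10 := (md_eq (by rw [h3, h8]; norm_num)).1 h9
      have e : c' σ - (vl χ σ - 1) * (1 / 2) = (c' σ - 1) + -((vl χ σ - 1) * (1 / 2) - 1) := by ring
      rw [e]
      exact add_lt' h6 (by rwa [norm_neg])

end Pool.Agent.R384
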