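import Pool.Agent.R384.Reg

/-!
# The inertia groups of the odd places of good reduction
-/

set_option autoImplicit false
set_option linter.unusedSectionVars false

namespace Pool.Agent.R384

open WeierstrassCurve Pool.Agent.Y676.IS
open Pool.Agent.Y715.Red Pool.Agent.Y715.Nr Pool.Agent.W237.RK
open Pool.Agent.Y715.Gi (QB KK GK i₀_mem gk_fix)

open scoped Classical

section contra

variable {L : Type} [NormedField L] [IsUltrametricDist L] [CharZero L]

theorem contra2 {α β ξ η : L} (h2 : ‖(2 : L)‖ = 1) (hα : ‖α‖ ≤ 1) (hβ : ‖β‖ = 1)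
    (hd : ‖α ^ 2 - 4 * β‖ = 1) (he : η ^ 2 = ξ ^ 3 + α * ξ ^ 2 + β * ξ) (hξ0 : ξ ≠ 0) (τ : L → L)
    (hτ : ∀ z, ‖τ z‖ = ‖z‖) (hin : ∀ z, ‖z‖ ≤ 1 → ‖τ z - z‖ < 1) (h1 : τ ξ = β / ξ)
    (h3 : τ η = -(β * η / ξ ^ 2)) : False := by
  have hξ : ‖ξ‖ = 1 := by
    have h3 := hτ ξ
    rw [h1, norm_div, hβ] at h3
    have h4 : 0 < ‖ξ‖ := norm_pos_iff.2 hξ0
    rw [div_eq_iff h4.ne'] at h3
    nlinarith
  have h4 : ‖(4 : L)‖ = 1 := by
    have e : (4 : L) = 2 * 2 := by norm_num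
    rw [e, norm_mul, h2, mul_one]
  have hη : ‖η‖ ≤ 1 := by
    have h5 : ‖η ^ 2‖ ≤ 1 := by
      rw [he]
      refine add_le (add_le ?_ ?_) ?_
      · rw [norm_pow, hξ, one_pow]
      · rw [norm_mul, norm_pow, hξ, one_pow, mul_one]; exact hα
      · rw [norm_mul, hξ, mul_one]; exact hβ.le
    rw [norm_pow] at h5
    exact (pow_le_one_iff_of_nonneg (norm_nonneg _) two_ne_zero).1 h5
  have k1 : ‖β - ξ ^ 2‖ < 1 := by
    have h5 := hin ξ hξ.le
    rw [h1] at h5
    have h6 : β - ξ ^ 2 = (β / ξ - ξ) * ξ := by field_simp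
    rw [h6, norm_mul, hξ, mul_one]
    exact h5
  have k2 : ‖η * (β + ξ ^ 2)‖ < 1 := by
    have h5 := hin η hη
    rw [h3] at h5
    have h6 : η * (β + ξ ^ 2) = -((-(β * η / ξ ^ 2) - η) * ξ ^ 2) := by
      field_simp
      ring
    rw [h6, norm_neg, norm_mul, norm_pow, hξ, one_pow, mul_one]
    exact h5
  have k3 : ‖η‖ < 1 := by
    have h6 : 2 * η * ξ ^ 2 = η * (β + ξ ^ 2) - η * (β - ξ ^ 2) := by ring
    have h7 : ‖2 * η * ξ ^ 2‖ < 1 := by
      rw [h6]
      refine sub_lt k2 ?_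
      rw [norm_mul]
      calc ‖η‖ * ‖β - ξ ^ 2‖ ≤ 1 * ‖β - ξ ^ 2‖ := mul_le_mul_of_nonneg_right hη (norm_nonneg _)
        _ < 1 := by rw [one_mul]; exact k1
    rwa [norm_mul, norm_mul, h2, one_mul, norm_pow, hξ, one_pow, mul_one] at h7
  have k4 : ‖2 * ξ + α‖ < 1 := by
    have h6 : (2 * ξ + α) * ξ ^ 2 = η * η - (β - ξ ^ 2) * ξ := by linear_combination -he
    have h7 : ‖(2 * ξ + α) * ξ ^ 2‖ < 1 := by
      rw [h6]
      refine sub_lt ?_ ?_
      · rw [norm_mul]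
        nlinarith [norm_nonneg η]
      · rw [norm_mul, hξ, mul_one]
        exact k1
    rwa [norm_mul, norm_pow, hξ, one_pow, mul_one] at h7
  have e : α ^ 2 - 4 * β = (2 * ξ + α) * (α - 2 * ξ) - 4 * (β - ξ ^ 2) := by ring
  have h8 : ‖α ^ 2 - 4 * β‖ < 1 := by
    rw [e]
    refine sub_lt ?_ ?_
    · rw [norm_mul]
      have h9 : ‖α - 2 * ξ‖ ≤ 1 := sub_le hα (by rw [norm_mul, h2, hξ, one_mul])
      calc ‖2 * ξ + α‖ * ‖α - 2 * ξ‖ ≤ ‖2 * ξ + α‖ * 1 :=
            mul_le_mul_of_nonneg_left h9 (norm_nonneg _)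
        _ < 1 := by rwa [mul_one]
    · rw [norm_mul, h4, one_mul]
      exact k1
  rw [hd] at h8
  exact lt_irrefl _ h8

end contra

variable {D a b c : QB} {σ : QB →+* QB} {p : ℕ} [Fact p.Prime]

/-- a twisted translation by `(0, 0)` -/
lemma no_transl {α₀ β₀ r e : QB} (hr : r ^ 2 = D) (hD : D ≠ 0) (he : e = 1 ∨ e = -1)
    (hsr : σ r = e * r) (fβ : σ β₀ = β₀) {α β : QB} (hα : α = D * α₀) (hβ : β = D ^ 2 * β₀)
    (hs : Fc α β σ) (hb : β ≠ 0) (hd : α ^ 2 - 4 * β ≠ 0)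
    (ι : QB →+* PadicAlgCl p) (τ : Au p) (hτι : ∀ z, τ (ι z) = ι (σ z)) (hin : Inert τ)
    (h2 : ‖(2 : PadicAlgCl p)‖ = 1) (nα : ‖ι α₀‖ ≤ 1) (nβ : ‖ι β₀‖ = 1)
    (nd : ‖ι (α₀ ^ 2 - 4 * β₀)‖ = 1) {P : (Cu α β).Point} {k : ℤ} (hk : (k : QB) = e)
    (hP : k • gH hs P = P + TT hb hd) : False := by
  have hr0 : r ≠ 0 := by
    rintro rfl
    apply hD
    rw [← hr]
    ring
  have he2 : e * e = 1 := by rcases he with rfl | rfl <;> ring
  have hk' : k = 1 ∨ k = -1 := by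
    rcases he with h | h
    · left
      rw [h] at hk
      exact_mod_cast hk
    · right
      rw [h] at hk
      exact_mod_cast hk
  have hTne : TT hb hd ≠ (0 : (Cu α β).Point) := by rintro ⟨⟩
  have hfT : gH hs (TT hb hd) = TT hb hd := ga_T hs hb hd
  rcases P with _ | ⟨x, y, hxy⟩
  · change k • gH hs 0 = 0 + TT hb hd at hP
    rw [map_zero, smul_zero, zero_add] at hP
    exact hTne hP.symm
  by_cases hx : x = 0
  · rw [isT_of_x0 hb hd hxy hx, hfT, T_add_T] at hP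
    rcases hk' with rfl | rfl
    · rw [one_smul] at hP
      exact hTne hP
    · rw [neg_smul, one_smul, neg_T] at hP
      exact hTne hP
  have hns := ns_T hb hd hxy hx
  rw [add_T hb hd hxy hx hns, gH_some] at hP
  have hcoord : σ x = β / x ∧ e * σ y = -(β * y / x ^ 2) := by
    rcases hk' with rfl | rfl
    · rw [one_smul] at hP
      have := (Affine.Point.some.injEq _ _ _ _ _ _).mp hP
      refine ⟨this.1, ?_⟩
      rw [← hk, Int.cast_one, one_mul]
      exact this.2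
    · rw [neg_smul, one_smul, neg_some (hs.eq hxy) (ns_neg hb hd (hs.eq hxy))] at hP
      have := (Affine.Point.some.injEq _ _ _ _ _ _).mp hP
      refine ⟨this.1, ?_⟩
      rw [← hk, Int.cast_neg, Int.cast_one, neg_one_mul]
      exact this.2
  obtain ⟨c1, c2⟩ := hcoord
  have c3 : σ y = -(e * (β * y / x ^ 2)) := by
    calc σ y = e * (e * σ y) := by rw [← mul_assoc, he2, one_mul]
      _ = _ := by rw [c2]; ring
  have he0 : e ≠ 0 := by
    rintro rfl
    norm_num at he2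
  have hfD : σ D = D := by
    rw [← hr, map_pow, hsr, mul_pow, pow_two e, he2, one_mul]
  have hE := ns_eq hxy
  have hX : σ (x / D) = β₀ / (x / D) := by
    rw [map_div₀, c1, hfD, hβ]
    field_simp
  have hY : σ (y / r ^ 3) = -(β₀ * (y / r ^ 3) / (x / D) ^ 2) := by
    rw [map_div₀, map_pow, c3, hsr, hβ, ← hr]
    have e3 : (e * r) ^ 3 = e * r ^ 3 := by
      calc (e * r) ^ 3 = (e * e) * e * r ^ 3 := by ring
        _ = _ := by rw [he2, one_mul]
    rw [e3]
    field_simp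
  refine contra2 (L := PadicAlgCl p) (α := ι α₀) (β := ι β₀) (ξ := ι (x / D)) (η := ι (y / r ^ 3))
    h2 nα nβ ?_ ?_ ?_ τ (fun z => nrm τ z) hin ?_ ?_
  · rw [map_sub, map_pow, map_mul, map_ofNat] at nd
    exact nd
  · rw [← map_pow, ← map_pow, ← map_pow, ← map_mul, ← map_mul, ← map_add, ← map_add]
    congr 1
    have e6 : (y / r ^ 3) ^ 2 = y ^ 2 / D ^ 3 := by
      rw [div_pow, ← pow_mul, mul_comm 3 2, pow_mul, hr]
    rw [e6, hE, hα, hβ]
    field_simp
  · exact (map_ne_zero ι).2 (div_ne_zero hx hD)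
  · rw [hτι, hX, map_div₀]
  · rw [hτι, hY, map_neg, map_div₀, map_mul, map_pow]

/-- the third shift -/
lemma LD.sh3 (h : LD D a b c) : Sh (al D a b) (be D a b) (D * (c ^ 2 - b ^ 2)) (D ^ 2 * (-(b ^ 2 * c ^ 2)))
    (D * b ^ 2) where
  hb := h.be0
  hd := h.hd
  hb' := mul_ne_zero (pow_ne_zero _ h.D0) (neg_ne_zero.2 (mul_ne_zero (pow_ne_zero _ h.b0)
    (pow_ne_zero _ h.c0)))
  hd' := by
    have e : (D * (c ^ 2 - b ^ 2)) ^ 2 - 4 * (D ^ 2 * (-(b ^ 2 * c ^ 2))) = (D * a ^ 2) ^ 2 := by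
      rw [h.hc]; ring
    rw [e]
    exact pow_ne_zero _ (mul_ne_zero h.D0 (pow_ne_zero _ h.a0))
  ea := by
    unfold al
    rw [h.hc]
    ring
  eb := by
    unfold al be
    rw [h.hc]
    ring
  e0 := by
    unfold al be
    ring

/-- **The odd inertia groups.** -/
theorem odd_inert (h : LD D a b c) (hs : Fc (al D a b) (be D a b) σ) (fa : σ a = a)
    (fb : σ b = b) (fc : σ c = c) {r : QB} (hr : r ^ 2 = D) (fD : σ D = D)
    (ι : QB →+* PadicAlgCl p) (τ : Au p) (hτι : ∀ z, τ (ι z) = ι (σ z)) (hin : Inert τ)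
    (h2 : ‖(2 : PadicAlgCl p)‖ = 1) (na : ‖ι a‖ = 1) (nb : ‖ι b‖ = 1) (nc : ‖ι c‖ = 1)
    {k : ℤ} (hk : k = 1 ∨ k = -1) (hsr : σ r = k * r) (n : ℕ) :
    ∀ P : Pt D a b, (2 ^ n : ℤ) • P = 0 → gH hs P = k • P := by
  have hkk : ∀ Q : Pt D a b, k • (k • Q) = Q := by
    intro Q
    rcases hk with rfl | rfl
    · rw [one_smul, one_smul]
    · rw [neg_smul, neg_smul, one_smul, one_smul, neg_neg]
  have hk' : (k : QB) = 1 ∨ (k : QB) = -1 := by
    rcases hk with rfl | rfl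
    · left; norm_num
    · right; norm_num
  have sq1 : ∀ {z : QB}, ‖ι z‖ = 1 → ‖ι (z ^ 2)‖ = 1 := fun hz => by rw [map_pow, norm_pow, hz, one_pow]
  have le1 : ∀ {z : QB}, ‖ι z‖ = 1 → ‖ι z‖ ≤ 1 := fun hz => hz.le
  induction n with
  | zero =>
    intro P hP
    rw [pow_zero, one_smul] at hP
    rw [hP, map_zero, smul_zero]
  | succ n ih =>
    intro P hP
    have h2P : gH hs (P + P) = k • (P + P) := by
      apply ih
      rw [← two_smul ℤ P, ← mul_smul, ← pow_succ, hP]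
    set Q := k • gH hs P - P with hQ
    have hQQ : Q + Q = 0 := by
      have h3 : Q + Q = k • gH hs (P + P) - (P + P) := by
        rw [hQ, map_add, smul_add]
        abel
      rw [h3, h2P, hkk, sub_self]
    have hQP : k • gH hs P = P + Q := by rw [hQ]; abel
    have key : Q = 0 → gH hs P = k • P := by
      intro h1
      rw [h1, add_zero] at hQP
      calc gH hs P = k • (k • gH hs P) := (hkk _).symm
        _ = k • P := by rw [hQP]
    have hfA : σ (D * a ^ 2) = D * a ^ 2 := by rw [map_mul, map_pow, fD, fa]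
    have hfB : σ (D * b ^ 2) = D * b ^ 2 := by rw [map_mul, map_pow, fD, fb]
    -- the classification of the points of order two
    obtain ⟨c0, hc0⟩ : ∃ c0 : QB, c0 ^ 2 = a * c := IsAlgClosed.exists_pow_nat_eq _ two_pos
    have hn : LN D a b c ((a + c) / 2) ((a - c) / 2) := ⟨h, by ring, by ring⟩
    have tors : Q = 0 ∨ Q = pP h ∨ Q = pT h ∨ Q = pP h + pT h := by
      have h1 : lg hn (lf hn Q) = 0 := by rw [lg_lf, hQQ]
      rcases (lg_ker hn _).1 h1 with h3 | h3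
      · rcases (lf_ker hn _).1 h3 with h4 | h4
        · exact Or.inl h4
        · exact Or.inr (Or.inl h4)
      · have h5 : lf hn (pT h) = TT hn.dat'.hb hn.dat'.hd := by
          have h6 : lg hn (lf hn (pT h)) = 0 := by rw [lg_lf, pT_two]
          rcases (lg_ker hn _).1 h6 with h7 | h7
          · rcases (lf_ker hn _).1 h7 with h8 | h8
            · exact absurd h8 (pT_ne h)
            · exact absurd h8 (pP_ne_pT h)
          · exact h7
        have h6 : lf hn (Q - pT h) = 0 := by rw [map_sub, h3, h5, sub_self]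
        rcases (lf_ker hn _).1 h6 with h4 | h4
        · exact Or.inr (Or.inr (Or.inl (sub_eq_zero.1 h4)))
        · exact Or.inr (Or.inr (Or.inr (sub_eq_iff_eq_add.1 h4)))
    have hc2 : c ^ 2 = a ^ 2 - b ^ 2 := by rw [h.hc]; ring
    rcases tors with h3 | h3 | h3 | h3
    · exact key h3
    · -- translation by `(-D a², 0)`
      exfalso
      have hs' : Fc (al (-D) a c) (be (-D) a c) σ := h.neg.fc (by rw [map_neg, fD]) fa fc
      refine no_transl (α₀ := -(a ^ 2 + c ^ 2)) (β₀ := a ^ 2 * c ^ 2) hr h.D0 hk' hsr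
        (by simp only [map_mul, map_pow, fa, fc]) (by unfold al; ring) (by unfold be; ring) hs'
        h.neg.be0 h.neg.hd ι τ hτι hin h2 ?_ ?_ ?_ (P := sP h P) (k := k) rfl ?_
      · rw [map_neg, norm_neg, map_add]
        exact add_le (sq1 na).le (sq1 nc).le
      · rw [map_mul, norm_mul, sq1 na, sq1 nc, one_mul]
      · have e : (-(a ^ 2 + c ^ 2)) ^ 2 - 4 * (a ^ 2 * c ^ 2) = (b ^ 2) ^ 2 := by rw [hc2]; ring
        rw [e]
        exact sq1 (sq1 nb)
      · have h4 : gH hs' (sP h P) = sP h (gH hs P) := ga_sh hs hs' h.sh hfA P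
        rw [h4, ← map_zsmul, hQP, map_add, h3]
        congr 1
        exact shF_inv' h.sh (TT h.neg.be0 h.neg.hd)
    · -- translation by `(0, 0)`
      exfalso
      refine no_transl (α₀ := a ^ 2 + b ^ 2) (β₀ := a ^ 2 * b ^ 2) hr h.D0 hk' hsr
        (by simp only [map_mul, map_pow, fa, fb]) (by unfold al; ring) (by unfold be; ring) hs
        h.be0 h.hd ι τ hτι hin h2 ?_ ?_ ?_ (P := P) (k := k) rfl ?_
      · rw [map_add]
        exact add_le (sq1 na).le (sq1 nb).le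
      · rw [map_mul, norm_mul, sq1 na, sq1 nb, one_mul]
      · have e : (a ^ 2 + b ^ 2) ^ 2 - 4 * (a ^ 2 * b ^ 2) = (c ^ 2) ^ 2 := by rw [hc2]; ring
        rw [e]
        exact sq1 (sq1 nc)
      · rw [hQP, h3]
        rfl
    · -- translation by `(-D b², 0)`
      exfalso
      have hs' : Fc (D * (c ^ 2 - b ^ 2)) (D ^ 2 * (-(b ^ 2 * c ^ 2))) σ :=
        ⟨h.sh3.hb', h.sh3.hd', by simp only [map_mul, map_sub, map_pow, fD, fc, fb],
          by simp only [map_mul, map_neg, map_pow, fD, fc, fb]⟩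
      let S : Pt D a b →+ (Cu (D * (c ^ 2 - b ^ 2)) (D ^ 2 * (-(b ^ 2 * c ^ 2)))).Point :=
        { toFun := shF h.sh3, map_zero' := rfl, map_add' := shF_add h.sh3 }
      refine no_transl (α₀ := c ^ 2 - b ^ 2) (β₀ := -(b ^ 2 * c ^ 2)) hr h.D0 hk' hsr
        (by simp only [map_neg, map_mul, map_pow, fc, fb]) rfl rfl hs'
        h.sh3.hb' h.sh3.hd' ι τ hτι hin h2 ?_ ?_ ?_ (P := S P) (k := k) rfl ?_
      · rw [map_sub]
        exact sub_le (sq1 nc).le (sq1 nb).le
      · rw [map_neg, norm_neg, map_mul, norm_mul, sq1 nb, sq1 nc, one_mul]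
      · have e : (c ^ 2 - b ^ 2) ^ 2 - 4 * (-(b ^ 2 * c ^ 2)) = (a ^ 2) ^ 2 := by rw [h.hc]; ring
        rw [e]
        exact sq1 (sq1 na)
      · have h4 : gH hs' (S P) = S (gH hs P) := ga_sh hs hs' h.sh3 hfB P
        rw [h4, ← map_zsmul, hQP, map_add, h3]
        congr 1
        -- `(-D a², 0) + (0, 0) = (-D b², 0)`
        have hx0 : (0 + -(D * a ^ 2) : QB) ≠ 0 := by
          rw [zero_add]
          exact neg_ne_zero.2 (mul_ne_zero h.D0 (pow_ne_zero _ h.a0))
        have hxy : (Cu (al D a b) (be D a b)).Nonsingular (0 + -(D * a ^ 2)) 0 :=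
          cu_ns h.be0 h.hd (by unfold al be; ring)
        have h5 : pP h = .some (0 + -(D * a ^ 2)) 0 hxy := by
          unfold pP TT
          rw [shF_some]
        have h6 := add_T h.be0 h.hd hxy hx0 (ns_T h.be0 h.hd hxy hx0)
        show shF h.sh3 (pP h + TT h.be0 h.hd) = _
        rw [h5, h6, shF_some, TT]
        apply some_congr
        · unfold be
          have := h.D0
          have := h.a0
          field_simp
          ring
        · simp

end Pool.Agent.R384
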