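import Pool.Agent.R384.Mat
import Pool.Agent.R384.OddI

/-!
# The representation on the Tate module of a curve
-/

set_option autoImplicit false
set_option linter.unusedSectionVars false

namespace Pool.Agent.R384

open WeierstrassCurve Pool.Agent.Y676.IS
open Pool.Agent.Y715.Red Pool.Agent.Y715.Nr Pool.Agent.W237.RK
open Pool.Agent.Y715.Gi (QB KK GK i₀_mem gk_fix)
open Pool.Agent.Y715.Df (Cmp exists_cmp)
open Pool.Agent.Y715.Lc (norm_two_odd)

open scoped Classical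

variable {i₀ : QB} (hi : i₀ ^ 2 = i₀ - 2) {D a b c : OO}

lemma rh_em (σ : GK i₀) (z : OO) : rh σ (em hi z) = em hi z := gk_em hi σ z

lemma LD.fcG (h : LD (em hi D) (em hi a) (em hi b) (em hi c)) (σ : GK i₀) :
    Fc (al (em hi D) (em hi a) (em hi b)) (be (em hi D) (em hi a) (em hi b)) (rh σ) :=
  h.fc (rh_em hi σ D) (rh_em hi σ a) (rh_em hi σ b)

/-- the action -/
noncomputable def ac (h : LD (em hi D) (em hi a) (em hi b) (em hi c)) (σ : GK i₀) :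
    Pt (em hi D) (em hi a) (em hi b) →+ Pt (em hi D) (em hi a) (em hi b) := gH (h.fcG hi σ)

lemma ac_one (h : LD (em hi D) (em hi a) (em hi b) (em hi c))
    (P : Pt (em hi D) (em hi a) (em hi b)) : ac hi h 1 P = P := by
  rcases P with _ | ⟨x, y, hxy⟩
  · rfl
  · rfl

lemma ac_mul (h : LD (em hi D) (em hi a) (em hi b) (em hi c)) (σ τ : GK i₀)
    (P : Pt (em hi D) (em hi a) (em hi b)) : ac hi h (σ * τ) P = ac hi h σ (ac hi h τ P) := by
  rcases P with _ | ⟨x, y, hxy⟩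
  · rfl
  · rfl

lemma ac_lc (h : LD (em hi D) (em hi a) (em hi b) (em hi c))
    (P : Pt (em hi D) (em hi a) (em hi b)) : IsLocallyConstant fun σ => ac hi h σ P := by
  rw [IsLocallyConstant.iff_exists_open]
  intro σ
  rcases P with _ | ⟨x, y, hxy⟩
  · exact ⟨Set.univ, isOpen_univ, Set.mem_univ _, fun τ _ => rfl⟩
  · have ha := Pool.Agent.W309.TD.locConst_apply (K := KK i₀) (Ω := QB) x
    have hb := Pool.Agent.W309.TD.locConst_apply (K := KK i₀) (Ω := QB) y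
    refine ⟨{τ | τ x = σ x} ∩ {τ | τ y = σ y}, (ha.isOpen_fiber (σ x)).inter (hb.isOpen_fiber (σ y)),
      ⟨rfl, rfl⟩, ?_⟩
    rintro τ ⟨h1, h2⟩
    exact some_congr _ _ h1 h2

/-- the properties of the representation -/
structure Rho (a b c : OO) (r I : QB) (ι₁ ι₂ : QB →ₐ[ℚ] PadicAlgCl 2)
    (ρ : GK i₀ →* Matrix (Fin 2) (Fin 2) ℤ_[2]) : Prop where
  cont : ∀ i j, Continuous fun σ => ρ σ i j
  off : ∀ (σ : GK i₀) i j, i ≠ j → (4 : ℤ_[2]) ∣ ρ σ i j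
  p0 : ∀ σ : GK i₀, σ (I * r) = I * r → (4 : ℤ_[2]) ∣ ρ σ 0 0 - 1
  m0 : ∀ σ : GK i₀, σ (I * r) = -(I * r) → (4 : ℤ_[2]) ∣ ρ σ 0 0 + 1
  p1 : ∀ σ : GK i₀, σ r = r → (4 : ℤ_[2]) ∣ ρ σ 1 1 - 1
  m1 : ∀ σ : GK i₀, σ r = -r → (4 : ℤ_[2]) ∣ ρ σ 1 1 + 1
  d1 : ∀ σ ∈ (DD ι₁ : Set (GK i₀)), ρ σ 1 0 = 0
  d2 : ∀ σ ∈ (DD ι₂ : Set (GK i₀)), ρ σ 0 1 = 0
  odd : ∀ (p : ℕ) [Fact p.Prime] (ι : QB →ₐ[ℚ] PadicAlgCl p), p ≠ 2 → ‖ι (em hi a)‖ = 1 →
    ‖ι (em hi b)‖ = 1 → ‖ι (em hi c)‖ = 1 → ∀ σ ∈ (II ι : Set (GK i₀)),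
      (σ r = r → ρ σ = 1) ∧ (σ r = -r → ρ σ = -1)

/-- **The representation on the Tate module.** -/
theorem exists_rho (h : LD (em hi D) (em hi a) (em hi b) (em hi c)) {r I : QB}
    (hr : r ^ 2 = em hi D) (hI : I ^ 2 = -1) {ι₁ ι₂ : QB →ₐ[ℚ] PadicAlgCl 2}
    (nD₁ : ‖ι₁ (em hi D)‖ = 1) (nD₂ : ‖ι₂ (em hi D)‖ = 1) (na₁ : ‖ι₁ (em hi a)‖ = 1)
    (na₂ : ‖ι₂ (em hi a)‖ = 1) (nb : ‖ι₁ (em hi b)‖ ≤ 1 / 4) (nc : ‖ι₂ (em hi c)‖ ≤ 1 / 4) :
    ∃ (e : Fin 2 → ℕ → Pt (em hi D) (em hi a) (em hi b))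
      (ρ : GK i₀ →* Matrix (Fin 2) (Fin 2) ℤ_[2]), Bs e ∧ (∀ σ, Acts e (ac hi h σ) (ρ σ)) ∧
      (∀ n, Rg (ι₁ : QB →+* PadicAlgCl 2) (e 0 n)) ∧
      (∀ n, Rg (ι₂ : QB →+* PadicAlgCl 2) (sP h (e 1 n))) ∧ Rho hi a b c r I ι₁ ι₂ ρ := by
  obtain ⟨x, hx, hx1, hx2⟩ := tow2 (ι := (ι₁ : QB →+* PadicAlgCl 2)) h nD₁ na₁ nb
  obtain ⟨y, hy, hy1, hy2⟩ := tow2 (ι := (ι₂ : QB →+* PadicAlgCl 2)) h.neg
    (by rw [map_neg, norm_neg]; exact nD₂) na₂ nc
  have hy' : Sq (pT h) (fun n => sM h (y n)) := by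
    refine ⟨?_, ?_, fun n => ?_⟩
    · show sM h (y 0) = 0
      rw [hy.zero, map_zero]
    · show sM h (y 1) = pT h
      rw [hy.one]
      have eM : ∀ P, sM h P = shF h.sh.symm P := fun _ => rfl
      rw [eM]
      unfold pP pT TT
      rw [shF_some, shF_some]
      exact some_congr _ _ (by ring) rfl
    · show sM h (y (n + 1)) + sM h (y (n + 1)) = sM h (y n)
      rw [← map_add, hy.dbl]
  -- the points of order two
  have h4 : ∀ z : Pt (em hi D) (em hi a) (em hi b), z + z = 0 →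
      z = 0 ∨ z = pP h ∨ z = pT h ∨ z = pP h + pT h := by
    intro Q hQQ
    have hn : LN (em hi D) (em hi a) (em hi b) (em hi c) ((em hi a + em hi c) / 2)
      ((em hi a - em hi c) / 2) := ⟨h, by ring, by ring⟩
    have h1 : lg hn (lf hn Q) = 0 := by rw [lg_lf, hQQ]
    rcases (lg_ker hn _).1 h1 with h3 | h3
    · rcases (lf_ker hn _).1 h3 with h4 | h4
      · exact Or.inl h4
      · exact Or.inr (Or.inl h4)
    · have h5 : lf hn (pT h) = TT hn.dat'.hb hn.dat'.hd := by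
        have h6 : lg hn (lf hn (pT h)) = 0 := by rw [lg_lf, pT_two]
        rcases (lg_ker hn _).1 h6 with h7 | h7
        · rcases (lf_ker hn _).1 h7 with h8 | h8
          · exact absurd h8 (pT_ne h)
          · exact absurd h8 (pP_ne_pT h)
        · exact h7
      have h6 : lf hn (Q - pT h) = 0 := by rw [map_sub, h3, h5, sub_self]
      rcases (lf_ker hn _).1 h6 with h4 | h4
      · exact Or.inr (Or.inr (Or.inl (sub_eq_zero.1 h4)))
      · exact Or.inr (Or.inr (Or.inr (sub_eq_iff_eq_add.1 h4)))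
  have hb : Bs ![x, fun n => sM h (y n)] :=
    bs_of hx hy' h4 (pP_ne h) (pT_ne h) (pP_ne_pT h).symm
  obtain ⟨ρ, hρ⟩ := exists_rep hb (ac hi h) (ac_one hi h) (ac_mul hi h)
  have hIr : (I * r) ^ 2 = -em hi D := by rw [mul_pow, hI, hr]; ring
  have e4 : (2 : ℤ_[2]) ^ 2 = 4 := by norm_num
  -- the action on the points of order four
  have hx2' : x 2 + x 2 = pP h := by rw [hx.dbl, hx.one]
  have hy2' : sM h (y 2) + sM h (y 2) = pT h := by rw [hy'.dbl, hy'.one]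
  have A0 : ∀ σ : GK i₀, (σ (I * r) = I * r → ac hi h σ (x 2) = x 2) ∧
      (σ (I * r) = -(I * r) → ac hi h σ (x 2) = -x 2) := fun σ =>
    act_half' h (h.fcG hi σ) (h.neg.fc (by rw [map_neg, rh_em]) (rh_em hi σ a) (rh_em hi σ c))
      (rh_em hi σ D) (rh_em hi σ a) (rh_em hi σ c) hIr hx2'
  have A1 : ∀ σ : GK i₀, (σ r = r → ac hi h σ (sM h (y 2)) = sM h (y 2)) ∧
      (σ r = -r → ac hi h σ (sM h (y 2)) = -sM h (y 2)) := fun σ =>
    act_half h (h.fcG hi σ) (rh_em hi σ D) (rh_em hi σ a) (rh_em hi σ b) hr hy2'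
  have E0 : ∀ (σ : GK i₀) (t : ℤ), ac hi h σ (x 2) = t • x 2 → ∀ i,
      (4 : ℤ_[2]) ∣ ρ σ i 0 - if i = 0 then (t : ℤ_[2]) else 0 := by
    intro σ t ht i
    rw [← e4]
    exact (hρ σ).entry hb (j := 0) ht i
  have E1 : ∀ (σ : GK i₀) (t : ℤ), ac hi h σ (sM h (y 2)) = t • sM h (y 2) → ∀ i,
      (4 : ℤ_[2]) ∣ ρ σ i 1 - if i = 1 then (t : ℤ_[2]) else 0 := by
    intro σ t ht i
    rw [← e4]
    exact (hρ σ).entry hb (j := 1) ht i
  have rtI : ∀ σ : GK i₀, σ (I * r) = I * r ∨ σ (I * r) = -(I * r) := fun σ =>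
    rt_or hi (m := -D) (by rw [hIr, map_neg]) σ
  refine ⟨_, ρ, hb, hρ, hx1, ?_, ?_⟩
  · intro n
    show Rg (ι₂ : QB →+* PadicAlgCl 2) (sP h (sM h (y n)))
    rw [sP_sM]
    exact hy1 n
  · refine ⟨fun i j => rep_cont hb (ac_lc hi h) hρ i j, ?_, ?_, ?_, ?_, ?_, ?_, ?_, ?_⟩
    · intro σ i j hij
      rcases (by fin_cases j <;> simp : j = 0 ∨ j = 1) with rfl | rfl
      · rcases rtI σ with h1 | h1
        · have := E0 σ 1 (by rw [one_smul]; exact (A0 σ).1 h1) i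
          rwa [if_neg hij, sub_zero] at this
        · have := E0 σ (-1) (by rw [neg_smul, one_smul]; exact (A0 σ).2 h1) i
          rwa [if_neg hij, sub_zero] at this
      · rcases rt_or hi hr σ with h1 | h1
        · have := E1 σ 1 (by rw [one_smul]; exact (A1 σ).1 h1) i
          rwa [if_neg hij, sub_zero] at this
        · have := E1 σ (-1) (by rw [neg_smul, one_smul]; exact (A1 σ).2 h1) i
          rwa [if_neg hij, sub_zero] at this
    · intro σ h1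
      have := E0 σ 1 (by rw [one_smul]; exact (A0 σ).1 h1) 0
      rwa [if_pos rfl, Int.cast_one] at this
    · intro σ h1
      have := E0 σ (-1) (by rw [neg_smul, one_smul]; exact (A0 σ).2 h1) 0
      rwa [if_pos rfl, Int.cast_neg, Int.cast_one, sub_neg_eq_add] at this
    · intro σ h1
      have := E1 σ 1 (by rw [one_smul]; exact (A1 σ).1 h1) 1
      rwa [if_pos rfl, Int.cast_one] at this
    · intro σ h1
      have := E1 σ (-1) (by rw [neg_smul, one_smul]; exact (A1 σ).2 h1) 1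
      rwa [if_pos rfl, Int.cast_neg, Int.cast_one, sub_neg_eq_add] at this
    · rintro σ ⟨τ, hτ⟩
      rw [← sub_zero (ρ σ 1 0)]
      apply sub_eq_zero.2
      apply eq_of_dvd
      intro n
      obtain ⟨k, hk⟩ := hx2 (rh σ) (h.fcG hi σ) τ (rh_em hi σ D) (rh_em hi σ a) (rh_em hi σ b)
        (fun z => nrm τ z) (fun z => hτ z) n
      have := (hρ σ).entry hb (n := n) (j := 0) (t := k) hk 1
      rwa [if_neg (by decide)] at this
    · rintro σ ⟨τ, hτ⟩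
      rw [← sub_zero (ρ σ 0 1)]
      apply sub_eq_zero.2
      apply eq_of_dvd
      intro n
      have hs' := h.neg.fc (σ := rh σ) (by rw [map_neg, rh_em]) (rh_em hi σ a) (rh_em hi σ c)
      obtain ⟨k, hk⟩ := hy2 (rh σ) hs' τ
        (by rw [map_neg, rh_em]) (rh_em hi σ a) (rh_em hi σ c)
        (fun z => nrm τ z) (fun z => hτ z) n
      have h5 : ac hi h σ (sM h (y n)) = k • sM h (y n) := by
        have h6 : gH hs' (sP h (sM h (y n))) = sP h (gH (h.fcG hi σ) (sM h (y n))) :=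
          ga_sh (h.fcG hi σ) hs' h.sh (by rw [map_mul, map_pow, rh_em, rh_em]) (sM h (y n))
        rw [sP_sM, hk] at h6
        have h7 := congrArg (sM h) h6
        rw [sM_sP, map_zsmul] at h7
        exact h7.symm
      have := (hρ σ).entry hb (n := n) (j := 1) (t := k) h5 0
      rwa [if_neg (by decide)] at this
    · rintro p _ ι hp na nb' nc' σ ⟨τ, hτ, hin⟩
      have key : ∀ k : ℤ, (k = 1 ∨ k = -1) → σ r = k * r → ρ σ = (k : ℤ_[2]) • 1 := by
        intro k hk hsr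
        refine (hρ σ).unique hb (Acts.scalar hb k ?_)
        intro i n
        exact odd_inert h (h.fcG hi σ) (rh_em hi σ a) (rh_em hi σ b) (rh_em hi σ c) hr
          (rh_em hi σ D) (ι : QB →+* PadicAlgCl p) τ (fun z => hτ z) hin (norm_two_odd hp) na nb' nc'
          hk hsr n _ (hb.pow' i n)
      constructor
      · intro h1
        rw [key 1 (Or.inl rfl) (by rw [h1]; simp)]
        simp
      · intro h1
        rw [key (-1) (Or.inr rfl) (by rw [h1]; simp)]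
        simp

end Pool.Agent.R384
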