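import Pool.Agent.R384.Curve

/-!
# The Galois action on the curves, the points of order four
-/

set_option autoImplicit false
set_option linter.unusedSectionVars false

namespace Pool.Agent.R384

open WeierstrassCurve Pool.Agent.Y676.IS

variable {F : Type} [Field F] [CharZero F] {w m : F}

/-- `σ` fixes the coefficients -/
structure Fx (w m : F) (σ : F →+* F) : Prop where
  w : σ w = w
  m : σ m = m

variable {σ : F →+* F}

lemma Fx.bar (hs : Fx w m σ) : Fx (1 - w) (-m) σ :=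
  ⟨by rw [map_sub, map_one, hs.w], by rw [map_neg, hs.m]⟩

lemma Fx.ca (hs : Fx w m σ) : σ (ca w m) = ca w m := by
  unfold Pool.Agent.R384.ca
  rw [map_mul, map_mul, map_sub, map_one, map_ofNat, hs.w, hs.m]

lemma Fx.cb (hs : Fx w m σ) : σ (cb w m) = cb w m := by
  unfold Pool.Agent.R384.cb
  rw [map_mul, map_pow, map_pow, hs.w, hs.m]

/-- the action on the points -/
def gal (h : WD w m) (σ : F →+* F) (hs : Fx w m σ) :
    (Cu (ca w m) (cb w m)).Point → (Cu (ca w m) (cb w m)).Point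
  | .zero => .zero
  | .some x y hxy => .some (σ x) (σ y) (cu_ns h.dat.hb h.dat.hd (by
      have h1 := congrArg σ (ns_eq hxy)
      rwa [map_pow, map_add, map_add, map_mul, map_mul, map_pow, map_pow, hs.ca, hs.cb] at h1))

lemma gal_zero (h : WD w m) (hs : Fx w m σ) : gal h σ hs 0 = 0 := rfl

lemma gal_some (h : WD w m) (hs : Fx w m σ) {x y : F}
    (hxy : (Cu (ca w m) (cb w m)).Nonsingular x y) : gal h σ hs (.some x y hxy) =
      .some (σ x) (σ y) (cu_ns h.dat.hb h.dat.hd (by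
        have h1 := congrArg σ (ns_eq hxy)
        rwa [map_pow, map_add, map_add, map_mul, map_mul, map_pow, map_pow, hs.ca, hs.cb] at h1)) :=
  rfl

variable [DecidableEq F]

lemma slope_gal (hs : Fx w m σ) (x1 x2 y1 y2 : F) :
    (Cu (ca w m) (cb w m)).slope (σ x1) (σ x2) (σ y1) (σ y2) =
      σ ((Cu (ca w m) (cb w m)).slope x1 x2 y1 y2) := by
  have hinj : Function.Injective σ := σ.injective
  unfold Affine.slope
  rw [negY_cu, negY_cu, negY_cu, negY_cu]
  have a1 : (Cu (ca w m) (cb w m)).a₁ = 0 := rfl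
  have a2 : (Cu (ca w m) (cb w m)).a₂ = ca w m := rfl
  have a4 : (Cu (ca w m) (cb w m)).a₄ = cb w m := rfl
  rw [a1, a2, a4]
  by_cases hx : x1 = x2
  · rw [if_pos hx, if_pos (congrArg σ hx)]
    by_cases hy : y1 = -y2
    · rw [if_pos hy, if_pos (by rw [hy, map_neg]), map_zero]
    · rw [if_neg hy, if_neg (fun h1 => hy (hinj (by rw [h1, map_neg])))]
      simp only [map_div₀, map_add, map_sub, map_mul, map_pow, map_neg, map_ofNat, hs.ca, hs.cb,
        map_zero]
  · rw [if_neg hx, if_neg (fun h1 => hx (hinj h1)), map_div₀, map_sub, map_sub]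

theorem gal_add (h : WD w m) (hs : Fx w m σ) (P Q : (Cu (ca w m) (cb w m)).Point) :
    gal h σ hs (P + Q) = gal h σ hs P + gal h σ hs Q := by
  rcases P with _ | ⟨x1, y1, h1⟩
  · change gal h σ hs (0 + Q) = 0 + gal h σ hs Q
    rw [zero_add, zero_add]
  rcases Q with _ | ⟨x2, y2, h2⟩
  · change gal h σ hs (_ + 0) = gal h σ hs _ + 0
    rw [add_zero, add_zero]
  have a1 : (Cu (ca w m) (cb w m)).a₁ = 0 := rfl
  have a2 : (Cu (ca w m) (cb w m)).a₂ = ca w m := rfl
  by_cases hxy : x1 = x2 ∧ y1 = (Cu (ca w m) (cb w m)).negY x2 y2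
  · rw [Affine.Point.add_of_Y_eq hxy.1 hxy.2, gal_zero, gal_some, gal_some,
      Affine.Point.add_of_Y_eq]
    · rw [hxy.1]
    · rw [hxy.2, negY_cu, negY_cu, map_neg]
  · have hxy' : ¬ (σ x1 = σ x2 ∧ σ y1 = (Cu (ca w m) (cb w m)).negY (σ x2) (σ y2)) := by
      rw [negY_cu] at hxy ⊢
      rintro ⟨e1, e2⟩
      exact hxy ⟨σ.injective e1, σ.injective (by rw [e2, map_neg])⟩
    rw [Affine.Point.add_some hxy, gal_some, gal_some, gal_some, Affine.Point.add_some hxy']
    apply some_congr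
    · rw [slope_gal hs, Affine.addX, Affine.addX, a1, a2]
      simp only [map_add, map_sub, map_mul, map_pow, hs.ca, map_zero]
    · rw [slope_gal hs, Affine.addY, Affine.addY, negY_cu, negY_cu, Affine.negAddY, Affine.negAddY,
        Affine.addX, Affine.addX, a1, a2]
      simp only [map_add, map_sub, map_mul, map_pow, map_neg, hs.ca, map_zero]

/-- the action as a homomorphism -/
def galH (h : WD w m) (σ : F →+* F) (hs : Fx w m σ) :
    (Cu (ca w m) (cb w m)).Point →+ (Cu (ca w m) (cb w m)).Point where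
  toFun := gal h σ hs
  map_zero' := rfl
  map_add' := gal_add h hs

lemma gal_smul (h : WD w m) (hs : Fx w m σ) (k : ℤ) (P : (Cu (ca w m) (cb w m)).Point) :
    gal h σ hs (k • P) = k • gal h σ hs P := map_zsmul (galH h σ hs) k P

lemma gal_neg (h : WD w m) (hs : Fx w m σ) (P : (Cu (ca w m) (cb w m)).Point) :
    gal h σ hs (-P) = -gal h σ hs P := map_neg (galH h σ hs) P

lemma gal_sub (h : WD w m) (hs : Fx w m σ) (P Q : (Cu (ca w m) (cb w m)).Point) :
    gal h σ hs (P - Q) = gal h σ hs P - gal h σ hs Q := map_sub (galH h σ hs) P Q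

lemma gal_inj (h : WD w m) (hs : Fx w m σ) : Function.Injective (gal h σ hs) := by
  intro P Q hPQ
  rcases P with _ | ⟨x1, y1, h1⟩
  · rcases Q with _ | ⟨x2, y2, h2⟩
    · rfl
    · exact absurd hPQ (by rintro ⟨⟩)
  · rcases Q with _ | ⟨x2, y2, h2⟩
    · exact absurd hPQ (by rintro ⟨⟩)
    · rw [gal_some, gal_some] at hPQ
      have e := (Affine.Point.some.injEq _ _ _ _ _ _).mp hPQ
      exact some_congr _ _ (σ.injective e.1) (σ.injective e.2)

lemma gal_comp (h : WD w m) {τ : F →+* F} (hs : Fx w m σ) (ht : Fx w m τ) (hst : Fx w m (σ.comp τ))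
    (P : (Cu (ca w m) (cb w m)).Point) : gal h (σ.comp τ) hst P = gal h σ hs (gal h τ ht P) := by
  rcases P with _ | ⟨x1, y1, h1⟩
  · rfl
  · rfl

lemma gal_tA [IsAlgClosed F] (h : WD w m) (hs : Fx w m σ) : gal h σ hs (tA h) = tA h := by
  rw [tA, TT, gal_some]
  exact some_congr _ _ (map_zero σ) (map_zero σ)

/-- the action commutes with the shift between the models -/
lemma gal_shF (h : WD w m) (hs : Fx w m σ)
    (P : (Cu (ca (1 - w) (-m)) (cb (1 - w) (-m))).Point) :
    gal h σ hs (shF h.sh P) = shF h.sh (gal h.bar σ hs.bar P) := by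
  rcases P with _ | ⟨x1, y1, h1⟩
  · rfl
  · rw [shF_some, gal_some, gal_some, shF_some]
    exact some_congr _ _ (by rw [map_add, map_neg, hs.m]) rfl

variable [IsAlgClosed F]

lemma eF_some (h : WD w m) {x y : F} (hxy : (Cu (ca w m) (cb w m)).Nonsingular x y) (hx : x ≠ 0) :
    ∃ hn, eF h (.some x y hxy) = .some (y ^ 2 / ((1 - w) ^ 2 * x ^ 2) - m)
      (y * (w ^ 4 * m ^ 2 - x ^ 2) / ((1 - w) ^ 3 * x ^ 2)) hn := by
  have h2 := cu_ns h.sh.hb' h.sh.hd' (h.sh.eq (ns_eq (cu_ns h.dat.hb' h.dat.hd'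
    (img h.dat hx (ns_eq hxy)))))
  rw [← sub_eq_add_neg] at h2
  refine ⟨h2, ?_⟩
  change shF h.sh (isoF h.dat (.some x y hxy)) = _
  rw [isoF_some h.dat hxy hx, shF_some]
  exact some_congr _ _ (by ring) rfl

lemma gal_eF (h : WD w m) (hs : Fx w m σ) (P : (Cu (ca w m) (cb w m)).Point) :
    gal h σ hs (eF h P) = eF h (gal h σ hs P) := by
  rcases P with _ | ⟨x, y, hxy⟩
  · rfl
  by_cases hx : x = 0
  · rw [isT_of_x0 h.dat.hb h.dat.hd hxy hx]
    change gal h σ hs (eF h (tA h)) = eF h (gal h σ hs (tA h))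
    rw [gal_tA, (td h).fT, gal_zero]
  · obtain ⟨hn, he⟩ := eF_some h hxy hx
    have hx' : σ x ≠ 0 := (map_ne_zero σ).2 hx
    rw [he, gal_some, gal_some]
    obtain ⟨hn', he'⟩ := eF_some h (x := σ x) (y := σ y) (cu_ns h.dat.hb h.dat.hd (by
        have h1 := congrArg σ (ns_eq hxy)
        rwa [map_pow, map_add, map_add, map_mul, map_mul, map_pow, map_pow, hs.ca, hs.cb] at h1)) hx'
    rw [he']
    apply some_congr
    · simp only [map_sub, map_div₀, map_mul, map_pow, map_one, hs.w, hs.m]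
    · simp only [map_sub, map_div₀, map_mul, map_pow, map_one, hs.w, hs.m]

/-- the points of order four: `f Q = T` implies `Q = (± w² m, ± √m (1 - w) w² m)` -/
lemma four (h : WD w m) {Q : (Cu (ca w m) (cb w m)).Point} (hQ : eF h Q = tA h) :
    ∃ (x y : F) (hxy : (Cu (ca w m) (cb w m)).Nonsingular x y), Q = .some x y hxy ∧
      x ≠ 0 ∧ y ≠ 0 ∧ x ^ 2 = w ^ 4 * m ^ 2 ∧ y ^ 2 = m * (1 - w) ^ 2 * x ^ 2 := by
  rcases Q with _ | ⟨x, y, hxy⟩
  · exact absurd hQ (by rintro ⟨⟩)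
  have hx : x ≠ 0 := by
    intro hx
    rw [isT_of_x0 h.dat.hb h.dat.hd hxy hx] at hQ
    have h1 : eF h (tA h) = 0 := (td h).fT
    rw [show (TT h.dat.hb h.dat.hd) = tA h from rfl, h1] at hQ
    exact absurd hQ (by rintro ⟨⟩)
  obtain ⟨hn, he⟩ := eF_some h hxy hx
  rw [he, tA, TT] at hQ
  obtain ⟨e1, e2⟩ := (Affine.Point.some.injEq _ _ _ _ _ _).mp hQ
  have hw1 := h.w1
  have hy2 : y ^ 2 = m * (1 - w) ^ 2 * x ^ 2 := by
    field_simp at e1
    linear_combination e1
  have hy : y ≠ 0 := by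
    rintro rfl
    have h3 : m * (1 - w) ^ 2 * x ^ 2 ≠ 0 :=
      mul_ne_zero (mul_ne_zero h.hm (pow_ne_zero _ hw1)) (pow_ne_zero _ hx)
    apply h3
    rw [← hy2]
    ring
  refine ⟨x, y, hxy, rfl, hx, hy, ?_, hy2⟩
  rw [div_eq_zero_iff, mul_eq_zero] at e2
  rcases e2 with (e2 | e2) | e2
  · exact absurd e2 hy
  · linear_combination -e2
  · exact absurd e2 (mul_ne_zero (pow_ne_zero _ hw1) (pow_ne_zero _ hx))

/-- the action on the points of order four -/
theorem gal_four (h : WD w m) (hs : Fx w m σ) {r : F} (hr : r ^ 2 = m)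
    {Q : (Cu (ca w m) (cb w m)).Point} (hQ : eF h Q = tA h) :
    (σ r = r → gal h σ hs Q = Q) ∧ (σ r = -r → gal h σ hs Q = -Q) := by
  obtain ⟨x, y, hxy, rfl, hx, hy, h1, h2⟩ := four h hQ
  have hx1 : x = w ^ 2 * m ∨ x = -(w ^ 2 * m) := by
    apply sq_eq_sq_iff_eq_or_eq_neg.1
    rw [h1]; ring
  have hsx : σ x = x := by
    rcases hx1 with rfl | rfl
    · rw [map_mul, map_pow, hs.w, hs.m]
    · rw [map_neg, map_mul, map_pow, hs.w, hs.m]
  have hy1 : y = r * (1 - w) * x ∨ y = -(r * (1 - w) * x) := by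
    apply sq_eq_sq_iff_eq_or_eq_neg.1
    rw [h2, ← hr]; ring
  rw [gal_some]
  constructor
  · intro hsr
    apply some_congr _ _ hsx
    rcases hy1 with rfl | rfl
    · rw [map_mul, map_mul, map_sub, map_one, hs.w, hsr, hsx]
    · rw [map_neg, map_mul, map_mul, map_sub, map_one, hs.w, hsr, hsx]
  · intro hsr
    rw [neg_some hxy (ns_neg h.dat.hb h.dat.hd hxy)]
    apply some_congr _ _ hsx
    rcases hy1 with rfl | rfl
    · rw [map_mul, map_mul, map_sub, map_one, hs.w, hsr, hsx]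
      ring
    · rw [map_neg, map_mul, map_mul, map_sub, map_one, hs.w, hsr, hsx]
      ring

end Pool.Agent.R384
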