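import Pool.Agent.R384.Alg

/-!
# There are infinitely many examples with any number of prime divisors
-/

set_option autoImplicit false
set_option linter.unusedSectionVars false

namespace Pool.Agent.R384

open QuadraticAlgebra

open scoped NumberTheorySymbols

/-- a factorization of the kind considered -/
structure Fac {n : ℕ} (q : Fin n → OO) : Prop where
  pr : ∀ i, Pr (q i)
  inj : Function.Injective q
  five : (8 : OO) ∣ ∏ i, q i - 5
  ind : Indec q

/-- elements of prime norm -/
lemma prime_of_nn {x : OO} {p : ℕ} (hp : p.Prime) (h : nn x = p) : Prime x := by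
  rw [← irreducible_iff_prime]
  constructor
  · intro h1
    rw [unit_iff, h] at h1
    have : p = 1 := by exact_mod_cast h1
    exact hp.one_lt.ne' this
  · intro a b hab
    have h1 : nn a * nn b = p := by rw [← nn_mul, ← hab, h]
    have h2 : (nn a).natAbs * (nn b).natAbs = p := by rw [← Int.natAbs_mul, h1, Int.natAbs_natCast]
    have ha := nn_nonneg a
    have hb := nn_nonneg b
    rcases (Nat.dvd_prime hp).1 ⟨_, h2.symm⟩ with h3 | h3
    · left
      exact unit_iff.2 (by omega)
    · right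
      rw [h3] at h2
      have h4 : (nn b).natAbs = 1 := Nat.eq_of_mul_eq_mul_left hp.pos (by rw [h2, mul_one])
      exact unit_iff.2 (by omega)

/-- inert primes -/
lemma inert_prime {l : ℕ} [hl : Fact l.Prime] (h : J(-7 | l) = -1) : Prime ((l : ℤ) : OO) := by
  have hu : ¬ IsUnit ((l : ℤ) : OO) := by
    intro h1
    rw [unit_iff, nn_int] at h1
    have h2 : l ^ 2 = 1 := by exact_mod_cast h1
    have h3 : 1 < l := hl.out.one_lt
    nlinarith
  have h0 : ((l : ℤ) : OO) ≠ 0 := by
    intro h1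
    have h2 := congrArg nn h1
    rw [nn_int, nn_zero_iff.2 rfl] at h2
    have h3 : (l : ℤ) = 0 := pow_eq_zero_iff two_ne_zero |>.1 h2
    have : l = 0 := by exact_mod_cast h3
    exact hl.out.ne_zero this
  obtain ⟨π, hπ, hd⟩ := WfDvdMonoid.exists_irreducible_factor hu h0
  have hπp := hπ.prime
  obtain ⟨t, ht⟩ := hd
  have hn : nn π * nn t = l ^ 2 := by
    rw [← nn_mul, ← ht, nn_int]
  rcases exists_type hπp with ⟨p, hp, hpn⟩ | ⟨l', hl', hq⟩
  · exfalso
    have h1 : p ∣ l := by
      have h2 : (p : ℤ) ∣ l ^ 2 := by rw [← hn, hpn]; exact Dvd.intro _ rfl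
      have h3 : p ∣ l ^ 2 := by exact_mod_cast h2
      exact hp.dvd_of_dvd_pow h3
    have h2 : p = l := (Nat.prime_dvd_prime_iff_eq hp hl.out).1 h1
    subst h2
    have him := split_not_dvd_im hπp hpn
    have h4 := nn_four π
    rw [hpn] at h4
    have h5 : IsSquare ((-7 : ℤ) : ZMod p) := by
      have hd : (π.im : ZMod p) ≠ 0 := by
        rw [Ne, ZMod.intCast_zmod_eq_zero_iff_dvd]
        exact him
      refine ⟨((2 * π.re + π.im : ℤ) : ZMod p) / (π.im : ZMod p), ?_⟩
      have h6 := congrArg (fun a : ℤ => (a : ZMod p)) h4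
      push_cast at h6 ⊢
      rw [CharP.cast_eq_zero (ZMod p) p] at h6
      field_simp
      linear_combination h6
    rw [← jacobiSym.legendreSym.to_jacobiSym, legendreSym.eq_neg_one_iff] at h
    exact h h5
  · have h1 : nn π = l' ^ 2 := by
      rcases hq with h | h
      · rw [h, nn_int]
      · rw [h, nn_int, neg_sq]
    have h2 : l' ∣ l := by
      have h3 : (l' : ℤ) ^ 2 ∣ l ^ 2 := by rw [← hn, h1]; exact Dvd.intro _ rfl
      have h4 : l' ^ 2 ∣ l ^ 2 := by exact_mod_cast h3
      exact (Nat.pow_dvd_pow_iff two_ne_zero).1 h4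
    have h3 : l' = l := (Nat.prime_dvd_prime_iff_eq hl' hl.out).1 h2
    rw [h3] at hq
    rcases hq with h4 | h4
    · rw [← h4]; exact hπp
    · have : ((l : ℤ) : OO) = -π := by
        rw [h4]; push_cast; ring
      rw [this]
      exact hπp.neg

/-- the primes used -/
structure Lf (l : ℕ) : Prop where
  pr : l.Prime
  four : l % 4 = 1
  seven : l % 7 = 3
  c : l % 137 = 3

lemma Lf.prime {l : ℕ} (h : Lf l) : Prime ((l : ℤ) : OO) := by
  have : Fact l.Prime := ⟨h.pr⟩
  apply inert_prime
  have ho : Odd l := Nat.odd_iff.2 (by have := h.four; omega)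
  rw [jacobiSym.neg _ ho, ZMod.χ₄_nat_one_mod_four h.four, one_mul]
  have h1 : J(((7 : ℕ) : ℤ) | l) = J((l : ℤ) | 7) :=
    jacobiSym.quadratic_reciprocity_one_mod_four' (by decide) h.four
  have h2 : J((l : ℤ) | 7) = J(3 | 7) := by
    rw [jacobiSym.mod_left]
    have : ((l : ℤ)) % ((7 : ℕ) : ℤ) = 3 := by have := h.seven; omega
    rw [this]
  have h3 : J(3 | 7) = -1 := by norm_num
  rw [h2, h3] at h1
  exact_mod_cast h1

lemma Lf.Pr {l : ℕ} (h : Lf l) : Pr ((l : ℤ) : OO) := by
  refine ⟨h.prime, ?_⟩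
  obtain ⟨k, hk⟩ : ∃ k : ℤ, (l : ℤ) = 4 * k + 1 := ⟨(l : ℤ) / 4, by have := h.four; omega⟩
  refine ⟨(k : OO), ?_⟩
  rw [hk]
  push_cast
  ring

/-- the split prime used -/
def p0 : OO := ⟨1, 8⟩

lemma nn_p0 : nn p0 = ((137 : ℕ) : ℤ) := by simp [nn, p0]

lemma prime_137 : Nat.Prime 137 := by norm_num

lemma Pr_p0 : Pr p0 := by
  refine ⟨prime_of_nn prime_137 nn_p0, ⟨⟨0, 2⟩, ?_⟩⟩
  ext
  · simp [p0]
  · simp [p0]

lemma qs_ll {l l' : ℕ} (h : Lf l) (h' : Lf l') (hne : l ≠ l') :
    qs ((l : ℤ) : OO) ((l' : ℤ) : OO) = 0 := by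
  have : Fact l.Prime := ⟨h.pr⟩
  rw [qs_zero]
  refine inert_int (Or.inl rfl) (by rintro rfl; have := h.four; omega) h.prime
    (by have := h.four; omega) ?_
  intro h1
  exact hne ((Nat.prime_dvd_prime_iff_eq h.pr h'.pr).1 (by exact_mod_cast h1))

lemma ne_lp {l : ℕ} (h : Lf l) : ((l : ℤ) : OO) ≠ p0 := by
  intro h1
  have := congrArg QuadraticAlgebra.im h1
  simp [p0] at this

lemma qs_lp {l : ℕ} (h : Lf l) : qs ((l : ℤ) : OO) p0 = 1 := by
  have : Fact (Nat.Prime 137) := ⟨prime_137⟩
  rw [recip h.Pr Pr_p0 (ne_lp h)]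
  have h01 : ∀ a : ZMod 2, ¬ a = 0 → a = 1 := by decide
  apply h01
  have hnd : ¬ ((137 : ℕ) : ℤ) ∣ (l : ℤ) := by
    intro h1
    have := h.c
    omega
  rw [qs_zero, split_int Pr_p0.prime nn_p0 hnd]
  have h2 : J((l : ℤ) | 137) = J(3 | 137) := by
    rw [jacobiSym.mod_left]
    have : ((l : ℤ)) % ((137 : ℕ) : ℤ) = 3 := by have := h.c; omega
    rw [this]
  have h3 : J(3 | 137) = -1 := by norm_num
  rw [h2, h3]
  norm_num

/-- the star -/
lemma star {n : ℕ} (l : Fin n → ℕ) (hl : ∀ i, Lf (l i)) (hinj : Function.Injective l) :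
    Indec (Fin.cons p0 (fun i => ((l i : ℤ) : OO)) : Fin (n + 1) → OO) := by
  classical
  set q : Fin (n + 1) → OO := Fin.cons p0 (fun i => ((l i : ℤ) : OO)) with hq
  have hq0 : q 0 = p0 := rfl
  have hqs : ∀ i : Fin n, q i.succ = ((l i : ℤ) : OO) := fun i => rfl
  have key : ∀ (i : Fin n) (T : Finset (Fin (n + 1))), i.succ ∉ T →
      (Sqm (q i.succ) (∏ k ∈ T, q k) ↔ (0 : Fin (n + 1)) ∉ T) := by
    intro i T hi
    have hterm : ∀ k ∈ T, k ≠ 0 → qs (q i.succ) (q k) = 0 := by
      intro k hk hk0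
      obtain ⟨k', rfl⟩ := Fin.exists_succ_eq.2 hk0
      rw [hqs, hqs]
      refine qs_ll (hl i) (hl k') ?_
      intro h
      apply hi
      rw [hinj h]
      exact hk
    have hnd : ∀ k ∈ T, ¬ q i.succ ∣ q k := by
      intro k hk
      by_cases hk0 : k = 0
      · rw [hk0, hq0, hqs]
        exact not_dvd (hl i).Pr Pr_p0 (ne_lp (hl i))
      · obtain ⟨k', rfl⟩ := Fin.exists_succ_eq.2 hk0
        rw [hqs, hqs]
        refine not_dvd (hl i).Pr (hl k').Pr ?_
        intro h
        apply hi
        have h2 : l i = l k' := by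
          have := congrArg QuadraticAlgebra.re h
          simpa using this
        rw [hinj h2]
        exact hk
    rw [← qs_zero, hqs, qs_prod (hl i).Pr T q hnd]
    by_cases h0 : (0 : Fin (n + 1)) ∈ T
    · rw [← Finset.add_sum_erase T _ h0, Finset.sum_eq_zero, hq0, qs_lp (hl i)]
      · simp [h0]
      · intro k hk
        have := hterm k (Finset.mem_of_mem_erase hk) (Finset.ne_of_mem_erase hk)
        rwa [hqs] at this
    · rw [Finset.sum_eq_zero]
      · simp [h0]
      · intro k hk
        have := hterm k hk (fun h => h0 (h ▸ hk))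
        rwa [hqs] at this
  intro S h1 h2
  have h3 : ∀ i : Fin n, i.succ ∈ S ↔ (0 : Fin (n + 1)) ∈ S := by
    intro i
    constructor
    · intro hi
      have := (key i Sᶜ (by simpa using hi)).1 (h2 _ hi)
      simpa using this
    · intro h0
      by_contra hi
      exact (key i S hi).1 (h1 _ hi) h0
  by_cases h0 : (0 : Fin (n + 1)) ∈ S
  · right
    ext k
    simp only [Finset.mem_univ, iff_true]
    by_cases hk0 : k = 0
    · rwa [hk0]
    · obtain ⟨k', rfl⟩ := Fin.exists_succ_eq.2 hk0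
      exact (h3 k').2 h0
  · left
    ext k
    simp only [Finset.notMem_empty, iff_false]
    by_cases hk0 : k = 0
    · rwa [hk0]
    · obtain ⟨k', rfl⟩ := Fin.exists_succ_eq.2 hk0
      exact fun h => h0 ((h3 k').1 h)

lemma lf_of {l : ℕ} (hp : l.Prime) {a : ℕ} (ha : a = 5757 ∨ a = 1921)
    (h : (l : ZMod 7672) = (a : ZMod 7672)) : Lf l ∧ l % 8 = a % 8 := by
  have h1 : l % 7672 = a % 7672 := (ZMod.natCast_eq_natCast_iff' _ _ _).1 h
  rcases ha with rfl | rfl
  · exact ⟨⟨hp, by omega, by omega, by omega⟩, by omega⟩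
  · exact ⟨⟨hp, by omega, by omega, by omega⟩, by omega⟩

lemma exists_seq {a : ℕ} (ha : a = 5757 ∨ a = 1921) :
    ∃ f : ℕ → ℕ, Function.Injective f ∧ ∀ k, Lf (f k) ∧ f k % 8 = a % 8 := by
  have hu : IsUnit (a : ZMod 7672) := by
    rw [ZMod.isUnit_iff_coprime]
    rcases ha with rfl | rfl <;> norm_num
  have hinf := Nat.infinite_setOfPred_prime_and_eq_mod hu
  let e := Set.Infinite.natEmbedding _ hinf
  refine ⟨fun k => (e k : ℕ), fun i j h => e.injective (Subtype.ext h), fun k => ?_⟩
  exact lf_of (e k).2.1 ha (e k).2.2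

lemma prod_mod {n : ℕ} (f : Fin n → ℕ) (h : ∀ i, f i % 8 = 1) : (∏ i, f i) % 8 = 1 := by
  rw [Finset.prod_nat_mod]
  simp [h]

/-- There are infinitely many examples with `n + 1` prime divisors. -/
theorem inf (n : ℕ) : {D : OO | ∃ q : Fin (n + 1) → OO, Fac q ∧ D = ∏ i, q i}.Infinite := by
  obtain ⟨f, hf, hfl⟩ := exists_seq (Or.inl rfl)
  obtain ⟨g, hg, hgl⟩ := exists_seq (Or.inr rfl)
  have hsub : ∀ a b : Fin (0 + 1), a = b := fun a b => by
    apply Fin.ext
    have := a.2
    have := b.2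
    omega
  rcases n with _ | n
  · refine Set.infinite_of_injective_forall_mem (f := fun k => ((f k : ℤ) : OO)) ?_ ?_
    · intro a b h
      apply hf
      have := congrArg QuadraticAlgebra.re h
      simpa using this
    · intro k
      refine ⟨fun _ => ((f k : ℤ) : OO), ⟨fun _ => (hfl k).1.Pr, fun a b _ => hsub a b,
        ?_, ?_⟩, ?_⟩
      · rw [Fin.prod_univ_one]
        obtain ⟨t, ht⟩ : ∃ t : ℤ, (f k : ℤ) = 8 * t + 5 := ⟨(f k : ℤ) / 8, by have := (hfl k).2; omega⟩
        rw [ht]
        refine ⟨(t : OO), ?_⟩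
        push_cast
        ring
      · intro S _ _
        by_cases h0 : (0 : Fin 1) ∈ S
        · right
          ext k
          rw [hsub k 0]
          simp [h0]
        · left
          ext k
          rw [hsub k 0]
          simp [h0]
      · rw [Fin.prod_univ_one]
  · set G : ℕ := ∏ i : Fin n, g i with hG
    have hG8 : G % 8 = 1 := prod_mod _ fun i => (hgl i).2
    have hG0 : G ≠ 0 := by
      intro h
      rw [h] at hG8
      norm_num at hG8
    refine Set.infinite_of_injective_forall_mem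
      (f := fun k => p0 * (((f k * G : ℕ) : ℤ) : OO)) ?_ ?_
    · intro a b h
      have h1 := mul_left_cancel₀ Pr_p0.prime.ne_zero h
      have h2 := congrArg QuadraticAlgebra.re h1
      simp only [re_intCast, Int.cast_id] at h2
      have h3 : f a * G = f b * G := by exact_mod_cast h2
      exact hf (Nat.eq_of_mul_eq_mul_right (Nat.pos_of_ne_zero hG0) h3)
    · intro k
      set l : Fin (n + 1) → ℕ := Fin.cons (f k) (fun i => g i) with hl
      have hlf : ∀ i, Lf (l i) := by
        intro i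
        refine Fin.cases (hfl k).1 (fun i => (hgl i).1) i
      have hinj : Function.Injective l := by
        rw [hl, Fin.cons_injective_iff]
        refine ⟨?_, fun a b h => Fin.ext (hg h)⟩
        rintro ⟨i, hi⟩
        have h1 := (hfl k).2
        have h2 := (hgl i).2
        have hi' : g i = f k := hi
        rw [hi'] at h2
        omega
      have hprod : ∏ i, (Fin.cons p0 (fun i => ((l i : ℤ) : OO)) : Fin (n + 2) → OO) i =
          p0 * (((f k * G : ℕ) : ℤ) : OO) := by
        rw [Fin.prod_univ_succ]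
        simp only [Fin.cons_zero, Fin.cons_succ]
        rw [Fin.prod_univ_succ]
        simp only [hl, Fin.cons_zero, Fin.cons_succ, hG]
        push_cast
        rfl
      refine ⟨Fin.cons p0 (fun i => ((l i : ℤ) : OO)), ⟨?_, ?_, ?_, star l hlf hinj⟩, hprod.symm⟩
      · intro i
        refine Fin.cases Pr_p0 (fun i => (hlf i).Pr) i
      · rw [Fin.cons_injective_iff]
        refine ⟨?_, ?_⟩
        · rintro ⟨i, hi⟩
          exact ne_lp (hlf i) hi
        · intro a b h
          apply hinj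
          have := congrArg QuadraticAlgebra.re h
          simpa using this
      · rw [hprod]
        have h1 : (f k * G) % 8 = 5 := by
          rw [Nat.mul_mod, hG8, (hfl k).2]
        obtain ⟨t, ht⟩ : ∃ t : ℤ, ((f k * G : ℕ) : ℤ) = 8 * t + 5 :=
          ⟨((f k * G : ℕ) : ℤ) / 8, by omega⟩
        rw [ht]
        have hp : p0 = 1 + 8 * om := by
          ext
          · rw [re_add, re_mul, re_ofNat, im_ofNat]; simp [p0, om]
          · rw [im_add, im_mul, re_ofNat, im_ofNat]; simp [p0, om]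
        rw [hp]
        refine ⟨(t : OO) + om * (8 * (t : OO) + 5), ?_⟩
        push_cast
        ring

end Pool.Agent.R384
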