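import Pool.Agent.R384.Inf

/-!
# Twists which are not squares modulo given primes
-/

set_option autoImplicit false
set_option linter.unusedSectionVars false

namespace Pool.Agent.R384

open QuadraticAlgebra

open scoped NumberTheorySymbols Classical

/-- primes in arithmetic progressions -/
lemma crt (T : Finset ℕ) (hT : ∀ p ∈ T, p.Prime ∧ p ≠ 2 ∧ p ≠ 7) {a₀ : ℕ}
    (h0 : Nat.Coprime a₀ 56) (g : ℕ → ℕ) (hg : ∀ p ∈ T, ¬ p ∣ g p) :
    {l : ℕ | l.Prime ∧ l % 56 = a₀ % 56 ∧ ∀ p ∈ T, l % p = g p % p}.Infinite := by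
  obtain ⟨k, hk⟩ := Nat.chineseRemainderOfFinset g id T (fun i hi => (hT i hi).1.ne_zero) (by
    intro p hp q hq hne
    exact (Nat.coprime_primes (hT p hp).1 (hT q hq).1).2 hne)
  set N := ∏ p ∈ T, p with hN
  have co : Nat.Coprime N 56 := by
    apply Nat.Coprime.prod_left
    intro p hp
    obtain ⟨h1, h2, h3⟩ := hT p hp
    rw [Nat.Prime.coprime_iff_not_dvd h1]
    intro h
    have h4 : p ∣ 2 ^ 3 * 7 := by norm_num; exact h
    rcases (Nat.Prime.dvd_mul h1).1 h4 with h5 | h5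
    · exact h2 ((Nat.prime_dvd_prime_iff_eq h1 Nat.prime_two).1 (h1.dvd_of_dvd_pow h5))
    · exact h3 ((Nat.prime_dvd_prime_iff_eq h1 (by norm_num)).1 h5)
  obtain ⟨x, hx1, hx2⟩ := Nat.chineseRemainder co k a₀
  have hN0 : N ≠ 0 := Finset.prod_ne_zero_iff.2 fun p hp => (hT p hp).1.ne_zero
  have : NeZero (N * 56) := ⟨by positivity⟩
  have hmod : ∀ p ∈ T, x ≡ g p [MOD p] := fun p hp =>
    (hx1.of_dvd (Finset.dvd_prod_of_mem _ hp)).trans (hk p hp)
  have hcop : Nat.Coprime x (N * 56) := by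
    apply Nat.Coprime.mul_right
    · apply Nat.Coprime.prod_right
      intro p hp
      rw [Nat.coprime_comm, Nat.Prime.coprime_iff_not_dvd (hT p hp).1]
      intro h
      exact hg p hp (((hmod p hp).dvd_iff dvd_rfl).1 h)
    · have h1 := hx2.gcd_eq
      unfold Nat.Coprime at h0 ⊢
      rw [h1, h0]
  have hu : IsUnit (x : ZMod (N * 56)) := (ZMod.isUnit_iff_coprime _ _).2 hcop
  refine (Nat.infinite_setOfPred_prime_and_eq_mod hu).mono ?_
  rintro l ⟨hl, h1⟩
  have h2 : l ≡ x [MOD N * 56] := (ZMod.natCast_eq_natCast_iff _ _ _).1 h1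
  refine ⟨hl, (h2.of_dvd (Dvd.intro_left _ rfl)).trans hx2, fun p hp => ?_⟩
  exact (h2.of_dvd ((Finset.dvd_prod_of_mem _ hp).mul_right _)).trans (hmod p hp)

lemma four_dvd {x : OO} (h1 : (4 : ℤ) ∣ x.re) (h2 : (4 : ℤ) ∣ x.im) : (4 : OO) ∣ x := by
  have h := (int_dvd (e := 4) (x := x)).2 ⟨h1, h2⟩
  exact_mod_cast h

lemma pr_sign {π : OO} (hπ : Prime π) {p : ℕ} (hn : nn π = p) (h4 : p % 4 = 1) :
    Pr π ∨ Pr (-π) := by
  have h1 : ((nn π : ℤ) : ZMod 4) = 1 := by
    rw [hn]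
    have h2 : p ≡ 1 [MOD 4] := h4
    have h3 := (ZMod.natCast_eq_natCast_iff _ _ _).2 h2
    push_cast at h3 ⊢
    exact h3
  have key : ∀ a b : ZMod 4, a ^ 2 + a * b + 2 * b ^ 2 = 1 → b = 0 ∧ (a = 1 ∨ a = -1) := by decide
  obtain ⟨h2, h3⟩ := key (π.re : ZMod 4) (π.im : ZMod 4) (by
    rw [← h1, nn]
    push_cast
    ring)
  have h2' : (4 : ℤ) ∣ π.im := (ZMod.intCast_zmod_eq_zero_iff_dvd _ 4).1 h2
  rcases h3 with h3 | h3
  · left
    refine ⟨hπ, four_dvd ?_ ?_⟩
    · apply (ZMod.intCast_zmod_eq_zero_iff_dvd _ 4).1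
      simp [h3]
    · simpa using h2'
  · right
    refine ⟨hπ.neg, four_dvd ?_ ?_⟩
    · apply (ZMod.intCast_zmod_eq_zero_iff_dvd _ 4).1
      simp [h3]
    · simpa using h2'

lemma two_of_norm {π : OO} (h : nn π = 2) : π ∣ 2 := by
  refine ⟨cj π, ?_⟩
  rw [mul_cj, h]
  push_cast
  rfl

lemma pr_of_neg_one {π : OO} (hπ : Prime π) (h2 : ¬ π ∣ 2) (h : Sqm π (-1)) :
    Pr π ∨ Pr (-π) := by
  rcases exists_type hπ with ⟨p, hp, hn⟩ | ⟨l, hl, hq⟩
  · have : Fact p.Prime := ⟨hp⟩
    have hp2 : p ≠ 2 := by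
      rintro rfl
      exact h2 (two_of_norm (by exact_mod_cast hn))
    have hodd : p % 2 = 1 := Nat.odd_iff.1 (hp.odd_of_ne_two hp2)
    have hnd : ¬ (p : ℤ) ∣ (-1 : ℤ) := by
      intro h1
      rw [dvd_neg] at h1
      have : p ∣ 1 := by exact_mod_cast h1
      exact hp.one_lt.ne' (Nat.dvd_one.1 this)
    have h1 := split_int hπ hn hnd
    push_cast at h1
    rw [h1, jacobiSym.at_neg_one (Nat.odd_iff.2 hodd)] at h
    refine pr_sign hπ hn ?_
    by_contra h4
    rw [ZMod.χ₄_nat_three_mod_four (by omega)] at h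
    norm_num at h
  · have hl2 : l ≠ 2 := by
      rintro rfl
      rcases hq with h | h
      · rw [h] at h2
        exact h2 (by norm_num)
      · rw [h] at h2
        exact h2 (by norm_num)
    have hodd : l % 2 = 1 := Nat.odd_iff.1 (hl.odd_of_ne_two hl2)
    have hpos : Prime ((l : ℤ) : OO) := by
      rcases hq with h | h
      · rwa [← h]
      · have : ((l : ℤ) : OO) = -π := by rw [h]; push_cast; ring
        rw [this]
        exact hπ.neg
    have key : Pr ((l : ℤ) : OO) ∨ Pr (-((l : ℤ) : OO)) := by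
      rcases (by omega : l % 4 = 1 ∨ l % 4 = 3) with h4 | h4
      · left
        refine ⟨hpos, four_dvd ?_ ?_⟩
        · simp; omega
        · simp
      · right
        refine ⟨hpos.neg, four_dvd ?_ ?_⟩
        · simp; omega
        · simp
    rcases hq with h | h
    · rw [h]; exact key
    · have : π = -((l : ℤ) : OO) := by rw [h]; push_cast; ring
      rw [this, neg_neg]
      exact key.symm

lemma not_prime_of_norm {π : OO} {p : ℕ} (hp : p.Prime) (hπ : Prime π) (hn : nn π = p) :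
    ¬ Prime ((p : ℤ) : OO) := by
  intro h
  have h1 : π ∣ ((p : ℤ) : OO) := ⟨cj π, by rw [mul_cj, hn]⟩
  obtain ⟨u, hu⟩ := (hπ.dvd_prime_iff_associated h).1 h1
  have h2 := congrArg nn hu
  rw [nn_mul, hn, unit_iff.1 u.isUnit, nn_int, mul_one] at h2
  have h3 : p = p ^ 2 := by exact_mod_cast h2
  have := hp.one_lt
  nlinarith

/-- primes of norm `P` -/
lemma exists_norm {P : ℕ} (hP : P.Prime) (h56 : P % 56 = 1) :
    ∃ q : OO, Pr q ∧ nn q = P ∧ (8 : ℤ) ∣ q.im := by
  have : Fact P.Prime := ⟨hP⟩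
  have hJ : J(-7 | P) = 1 := by
    have ho : Odd P := Nat.odd_iff.2 (by omega)
    rw [jacobiSym.neg _ ho, ZMod.χ₄_nat_one_mod_four (by omega), one_mul]
    have h1 : J(((7 : ℕ) : ℤ) | P) = J((P : ℤ) | 7) :=
      jacobiSym.quadratic_reciprocity_one_mod_four' (by decide) (by omega)
    have h2 : J((P : ℤ) | 7) = J(1 | 7) := by
      rw [jacobiSym.mod_left]
      have : ((P : ℤ)) % ((7 : ℕ) : ℤ) = 1 := by omega
      rw [this]
    rw [h2, jacobiSym.one_left] at h1
    exact_mod_cast h1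
  have hP7 : ¬ ((P : ℤ)) ∣ (-7 : ℤ) := by
    intro h
    rw [dvd_neg] at h
    have h7 : P = 7 := (Nat.prime_dvd_prime_iff_eq hP (by norm_num)).1 (by exact_mod_cast h)
    omega
  have hnp : ¬ Prime ((P : ℤ) : OO) := by
    intro hpr
    rw [← jacobiSym.legendreSym.to_jacobiSym, legendreSym.eq_one_iff _
      (by rwa [Ne, ZMod.intCast_zmod_eq_zero_iff_dvd])] at hJ
    obtain ⟨c, hc⟩ := hJ
    have h1 : (P : ℤ) ∣ nn (⟨(c.val : ℤ) - 1, 2⟩ : OO) := by
      rw [← ZMod.intCast_zmod_eq_zero_iff_dvd]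
      simp only [nn]
      push_cast
      rw [ZMod.natCast_zmod_val]
      push_cast at hc
      linear_combination -hc
    rw [← inert_nn (l := P) (e := (P : ℤ)) (Or.inl rfl) hpr, int_dvd] at h1
    have h2 : (P : ℤ) ∣ 2 := h1.2
    have h3 : P ∣ 2 := by exact_mod_cast h2
    have := (Nat.prime_dvd_prime_iff_eq hP Nat.prime_two).1 h3
    omega
  have hu : ¬ IsUnit ((P : ℤ) : OO) := by
    intro h1
    rw [unit_iff, nn_int] at h1
    have h2 : P ^ 2 = 1 := by exact_mod_cast h1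
    have h3 : 1 < P := hP.one_lt
    nlinarith
  have h0 : ((P : ℤ) : OO) ≠ 0 := by
    intro h1
    have h2 := congrArg nn h1
    rw [nn_int, nn_zero_iff.2 rfl] at h2
    have h3 : (P : ℤ) = 0 := pow_eq_zero_iff two_ne_zero |>.1 h2
    have : P = 0 := by exact_mod_cast h3
    exact hP.ne_zero this
  obtain ⟨π, hπ, hd⟩ := WfDvdMonoid.exists_irreducible_factor hu h0
  have hπp := hπ.prime
  obtain ⟨t, ht⟩ := hd
  have hn : nn π * nn t = P ^ 2 := by
    rw [← nn_mul, ← ht, nn_int]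
  rcases exists_type hπp with ⟨p, hp, hpn⟩ | ⟨l', hl', hq⟩
  · have h1 : p ∣ P := by
      have h2 : (p : ℤ) ∣ P ^ 2 := by rw [← hn, hpn]; exact Dvd.intro _ rfl
      have h3 : p ∣ P ^ 2 := by exact_mod_cast h2
      exact hp.dvd_of_dvd_pow h3
    have h2 : p = P := (Nat.prime_dvd_prime_iff_eq hp hP).1 h1
    subst h2
    have key : ∀ q : OO, Pr q → nn q = p → (8 : ℤ) ∣ q.im := by
      intro q hq hqn
      obtain ⟨a, ha⟩ := hq.re
      obtain ⟨b, hb⟩ := hq.im
      have h5 : (p : ℤ) = 8 * (2 * a ^ 2 + a + 2 * a * b + 4 * b ^ 2) + 1 + 4 * b := by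
        rw [← hqn, nn, hb, show q.re = 4 * a + 1 by linarith]
        ring
      have h6 : (p : ℤ) % 8 = 1 := by omega
      omega
    rcases pr_sign hπp hpn (by omega) with h3 | h3
    · exact ⟨π, h3, hpn, key _ h3 hpn⟩
    · have h4 : nn (-π) = p := by
        rw [← hpn]; simp only [nn, re_neg, im_neg]; ring
      exact ⟨-π, h3, h4, key _ h3 h4⟩
  · exfalso
    have h1 : nn π = l' ^ 2 := by
      rcases hq with h | h
      · rw [h, nn_int]
      · rw [h, nn_int, neg_sq]
    have h2 : l' ∣ P := by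
      have h3 : (l' : ℤ) ^ 2 ∣ P ^ 2 := by rw [← hn, h1]; exact Dvd.intro _ rfl
      have h4 : l' ^ 2 ∣ P ^ 2 := by exact_mod_cast h3
      exact (Nat.pow_dvd_pow_iff two_ne_zero).1 h4
    have h3 : l' = P := (Nat.prime_dvd_prime_iff_eq hl' hP).1 h2
    rw [h3] at hq
    apply hnp
    rcases hq with h4 | h4
    · rw [← h4]; exact hπp
    · have : ((P : ℤ) : OO) = -π := by
        rw [h4]; push_cast; ring
      rw [this]
      exact hπp.neg

lemma exists_nr {p : ℕ} (hp : p.Prime) (hp2 : p ≠ 2) : ∃ n : ℕ, ¬ p ∣ n ∧ J((n : ℤ) | p) = -1 := by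
  have : Fact p.Prime := ⟨hp⟩
  obtain ⟨a, ha⟩ := FiniteField.exists_nonsquare (F := ZMod p) (by rwa [ZMod.ringChar_zmod_n])
  have h0 : a ≠ 0 := by
    rintro rfl
    exact ha ⟨0, by simp⟩
  refine ⟨a.val, ?_, ?_⟩
  · rw [← ZMod.natCast_eq_zero_iff, ZMod.natCast_zmod_val]
    exact h0
  · rw [← jacobiSym.legendreSym.to_jacobiSym, legendreSym.eq_neg_one_iff]
    push_cast
    rw [ZMod.natCast_zmod_val]
    exact ha

lemma jac_mod {p a b : ℕ} (h : a % p = b % p) : J((a : ℤ) | p) = J((b : ℤ) | p) := by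
  apply jacobiSym.mod_left'
  exact_mod_cast h

section main

variable {m : OO} (hm : m ≠ 0)

/-- the rational primes considered -/
def T0 (m : OO) : Finset ℕ := (nn m).natAbs.primeFactors.filter fun p => p ≠ 2 ∧ p ≠ 7

lemma T0_prime {p : ℕ} (hp : p ∈ T0 m) : p.Prime ∧ p ≠ 2 ∧ p ≠ 7 := by
  unfold T0 at hp
  rw [Finset.mem_filter] at hp
  exact ⟨Nat.prime_of_mem_primeFactors hp.1, hp.2⟩

include hm

lemma mem_T0 {p : ℕ} (hp : p.Prime) (h2 : p ≠ 2) (h7 : p ≠ 7) (h : (p : ℤ) ∣ nn m) : p ∈ T0 m := by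
  unfold T0
  rw [Finset.mem_filter]
  refine ⟨Nat.mem_primeFactors.2 ⟨hp, ?_, ?_⟩, h2, h7⟩
  · exact Int.natCast_dvd.1 h
  · intro h0
    exact hm (nn_zero_iff.1 (Int.natAbs_eq_zero.1 h0))

lemma T0_split {π : OO} (hπ : Pr π) (hd : π ∣ m) {p : ℕ} (hp : p.Prime) (hn : nn π = p) :
    p ∈ T0 m ∧ p % 4 = 1 := by
  have h4 : p % 4 = 1 := by
    rcases hπ.cases with ⟨p', _, h4, hn'⟩ | ⟨l, e, hl, hl2, he, he4, hqe⟩
    · rw [hn] at hn'
      have : p = p' := by exact_mod_cast hn'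
      rw [this]; exact h4
    · exfalso
      rw [hqe, nn_int] at hn
      have h1 : e ^ 2 = l ^ 2 := by rcases he with rfl | rfl <;> ring
      rw [h1] at hn
      have h2 : l ^ 2 = p := by exact_mod_cast hn
      rw [← h2] at hp
      exact Nat.Prime.not_prime_pow le_rfl hp
  refine ⟨mem_T0 hm hp (by rintro rfl; omega) (by rintro rfl; omega) ?_, h4⟩
  obtain ⟨t, ht⟩ := hd
  rw [ht, nn_mul, hn]
  exact Dvd.intro _ rfl

/-- **There are infinitely many twists which are not squares modulo given primes.** -/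
theorem inf2 (hs : ∀ π : OO, Prime π → ¬ π ∣ 2 → π ∣ m → Sqm π (-1)) :
    {D : OO | (∃ q : Fin 2 → OO, Fac q ∧ D = ∏ i, q i) ∧
      ∀ π : OO, Prime π → ¬ π ∣ 2 → π ∣ m → ¬ Sqm π D}.Infinite := by
  -- the quadratic non residues
  have hnr : ∃ nr : ℕ → ℕ, ∀ p : ℕ, p.Prime → p ≠ 2 → ¬ p ∣ nr p ∧ J((nr p : ℤ) | p) = -1 := by
    have h : ∀ p : ℕ, ∃ n : ℕ, p.Prime → p ≠ 2 → ¬ p ∣ n ∧ J((n : ℤ) | p) = -1 := by
      intro p
      by_cases h : p.Prime ∧ p ≠ 2
      · obtain ⟨n, hn⟩ := exists_nr h.1 h.2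
        exact ⟨n, fun _ _ => hn⟩
      · exact ⟨0, fun h1 h2 => absurd ⟨h1, h2⟩ h⟩
    choose nr hnr using h
    exact ⟨nr, hnr⟩
  obtain ⟨nr, hnr⟩ := hnr
  -- the prime P
  set g₁ : ℕ → ℕ := fun p => if J(-7 | p) = -1 then nr p else 1 with hg₁
  have hg₁' : ∀ p ∈ T0 m, ¬ p ∣ g₁ p := by
    intro p hp
    obtain ⟨h1, h2, h3⟩ := T0_prime hp
    simp only [hg₁]
    split_ifs
    · exact (hnr p h1 h2).1
    · intro h
      exact h1.one_lt.ne' (Nat.dvd_one.1 h)
  obtain ⟨P, hP, hP56, hPg⟩ := (crt (T0 m) (fun p hp => T0_prime hp) (a₀ := 1) (by norm_num) g₁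
    hg₁').nonempty
  have hPT : P ∉ T0 m := by
    intro h
    have h1 := hPg P h
    rw [Nat.mod_self] at h1
    exact hg₁' P h (Nat.dvd_of_mod_eq_zero h1.symm)
  have hP56' : P % 56 = 1 := hP56
  have hP2 : P ≠ 2 := by rintro rfl; omega
  have hP7 : P ≠ 7 := by rintro rfl; omega
  obtain ⟨q₀, hq₀, hq₀n, hq₀i⟩ := exists_norm hP hP56'
  have FP : Fact P.Prime := ⟨hP⟩
  -- the prime l
  set g₂ : ℕ → ℕ := fun p => if p = P then nr p else
    if ∃ π : OO, Pr π ∧ nn π = p ∧ Sqm π q₀ then nr p else 1 with hg₂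
  have hT1 : ∀ p ∈ insert P (T0 m), p.Prime ∧ p ≠ 2 ∧ p ≠ 7 := by
    intro p hp
    rcases Finset.mem_insert.1 hp with rfl | hp
    · exact ⟨hP, hP2, hP7⟩
    · exact T0_prime hp
  have hg₂' : ∀ p ∈ insert P (T0 m), ¬ p ∣ g₂ p := by
    intro p hp
    obtain ⟨h1, h2, h3⟩ := hT1 p hp
    simp only [hg₂]
    split_ifs
    · exact (hnr p h1 h2).1
    · exact (hnr p h1 h2).1
    · intro h
      exact h1.one_lt.ne' (Nat.dvd_one.1 h)
  set a₀ : ℕ := if (8 : ℤ) ∣ q₀.re - 1 then 45 else 17 with ha₀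
  have hinf := crt (insert P (T0 m)) hT1 (a₀ := a₀) (by rw [ha₀]; split_ifs <;> norm_num) g₂ hg₂'
  refine (hinf.image (f := fun l : ℕ => q₀ * ((l : ℤ) : OO)) ?_).mono ?_
  · intro a _ b _ h
    have h1 := mul_left_cancel₀ hq₀.prime.ne_zero h
    have := congrArg QuadraticAlgebra.re h1
    simpa using this
  rintro _ ⟨l, ⟨hl, hl56, hlg⟩, rfl⟩
  have Fl : Fact l.Prime := ⟨hl⟩
  have hl56' : l % 56 = 45 ∧ (8 : ℤ) ∣ q₀.re - 1 ∨ l % 56 = 17 ∧ (8 : ℤ) ∣ q₀.re - 5 := by
    rw [hl56, ha₀]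
    have := hq₀.re
    split_ifs with h
    · left; exact ⟨by norm_num, h⟩
    · right; exact ⟨by norm_num, by omega⟩
  have hl4 : l % 4 = 1 := by omega
  have hl7 : l % 7 = 3 := by omega
  have hlnd : ∀ p ∈ insert P (T0 m), ¬ p ∣ l := by
    intro p hp h
    have h1 := hlg p hp
    rw [Nat.mod_eq_zero_of_dvd h] at h1
    exact hg₂' p hp (Nat.dvd_of_mod_eq_zero h1.symm)
  have hlp : Prime ((l : ℤ) : OO) := by
    apply inert_prime
    have ho : Odd l := Nat.odd_iff.2 (by omega)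
    rw [jacobiSym.neg _ ho, ZMod.χ₄_nat_one_mod_four hl4, one_mul]
    have h1 : J(((7 : ℕ) : ℤ) | l) = J((l : ℤ) | 7) :=
      jacobiSym.quadratic_reciprocity_one_mod_four' (by decide) hl4
    have h2 : J((l : ℤ) | 7) = J(3 | 7) := by
      rw [jacobiSym.mod_left]
      have : ((l : ℤ)) % ((7 : ℕ) : ℤ) = 3 := by omega
      rw [this]
    have h3 : J(3 | 7) = -1 := by norm_num
    rw [h2, h3] at h1
    exact_mod_cast h1
  have hlPr : Pr ((l : ℤ) : OO) := by
    refine ⟨hlp, four_dvd ?_ ?_⟩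
    · simp; omega
    · simp
  have hsq0 : ¬ Sqm q₀ ((l : ℤ) : OO) := by
    have hnd : ¬ ((P : ℕ) : ℤ) ∣ (l : ℤ) := by
      intro h
      exact hlnd P (Finset.mem_insert_self _ _) (by exact_mod_cast h)
    rw [split_int hq₀.prime hq₀n hnd, jac_mod (hlg P (Finset.mem_insert_self _ _))]
    simp only [hg₂, if_true]
    rw [(hnr P hP hP2).2]
    norm_num
  have hne0 : q₀ ≠ ((l : ℤ) : OO) := by
    intro h
    rw [h, nn_int] at hq₀n
    have h2 : l ^ 2 = P := by exact_mod_cast hq₀n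
    rw [← h2] at hP
    exact Nat.Prime.not_prime_pow le_rfl hP
  refine ⟨⟨![q₀, ((l : ℤ) : OO)], ⟨?_, ?_, ?_, ?_⟩, ?_⟩, ?_⟩
  · intro i
    fin_cases i
    exacts [hq₀, hlPr]
  · intro i j h
    fin_cases i <;> fin_cases j
    · rfl
    · exact absurd h hne0
    · exact absurd h.symm hne0
    · rfl
  · rw [Fin.prod_univ_two]
    show (8 : OO) ∣ q₀ * ((l : ℤ) : OO) - 5
    have h8 : ∃ c : ℤ, (8 : ℤ) ∣ q₀.re - c ∧ (8 : ℤ) ∣ (l : ℤ) * c - 5 := by
      rcases hl56' with ⟨h1, h2⟩ | ⟨h1, h2⟩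
      · exact ⟨1, h2, by omega⟩
      · exact ⟨5, h2, by omega⟩
    obtain ⟨c, ⟨u, hu⟩, ⟨v, hv⟩⟩ := h8
    obtain ⟨t, ht⟩ := hq₀i
    have h := (int_dvd (e := 8) (x := q₀ * ((l : ℤ) : OO) - 5)).2 ⟨⟨u * l + v, by
      simp
      linear_combination (l : ℤ) * hu + hv⟩, ⟨t * l, by
      simp
      linear_combination (l : ℤ) * ht⟩⟩
    exact_mod_cast h
  · intro S h1 h2
    by_cases h0 : (0 : Fin 2) ∈ S
    · by_cases h3 : (1 : Fin 2) ∈ S
      · right
        ext k
        fin_cases k <;> simp [h0, h3]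
      · exfalso
        have hSc : Sᶜ = {1} := by
          ext k
          fin_cases k <;> simp [h0, h3]
        have := h2 0 h0
        rw [hSc, Finset.prod_singleton] at this
        exact hsq0 this
    · by_cases h3 : (1 : Fin 2) ∈ S
      · exfalso
        have hSc : S = {1} := by
          ext k
          fin_cases k <;> simp [h0, h3]
        have := h1 0 h0
        rw [hSc, Finset.prod_singleton] at this
        exact hsq0 this
      · left
        ext k
        fin_cases k <;> simp [h0, h3]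
  · rw [Fin.prod_univ_two]
    rfl
  · intro π hπ hπ2 hd
    have key : ∀ π : OO, Pr π → π ∣ m → ¬ Sqm π (q₀ * ((l : ℤ) : OO)) := by
      intro π hπ hd
      rw [← qs_zero]
      rcases hπ.cases with ⟨p, hp, hp4, hn⟩ | ⟨l', e, hl', hl2, he, he4, hqe⟩
      · have Fp : Fact p.Prime := ⟨hp⟩
        have hpT := (T0_split hm hπ hd hp hn).1
        have hpT1 : p ∈ insert P (T0 m) := Finset.mem_insert_of_mem hpT
        have hpP : p ≠ P := by
          rintro rfl
          exact hPT hpT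
        have hnd : ¬ ((p : ℕ) : ℤ) ∣ (l : ℤ) := fun h => hlnd p hpT1 (by exact_mod_cast h)
        have nd1 : ¬ π ∣ q₀ := by
          refine not_dvd hπ hq₀ ?_
          rintro rfl
          rw [hn] at hq₀n
          exact hpP (by exact_mod_cast hq₀n)
        have nd2 : ¬ π ∣ ((l : ℤ) : OO) := fun h => hnd ((split_dvd hπ.prime hn _).1 h)
        have hl1 : Sqm π ((l : ℤ) : OO) ↔ J((g₂ p : ℤ) | p) = 1 := by
          rw [split_int hπ.prime hn hnd, jac_mod (hlg p hpT1)]
        rw [qs_mul hπ nd1 nd2]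
        by_cases hsq : ∃ π : OO, Pr π ∧ nn π = p ∧ Sqm π q₀
        · have e1 : g₂ p = nr p := by
            simp only [hg₂]
            rw [if_neg hpP, if_pos hsq]
          rw [e1, (hnr p hp (T0_prime hpT).2.1).2] at hl1
          have hl3 : qs π ((l : ℤ) : OO) ≠ 0 := by
            rw [Ne, qs_zero, hl1]
            norm_num
          -- the symbol of q₀
          have hq1 : qs π q₀ = 0 := by
            obtain ⟨π', hπ', hn', hs'⟩ := hsq
            by_cases hππ : π' = π
            · rw [← hππ, qs_zero]; exact hs'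
            · have h5 : π' ∣ π * cj π := by
                rw [mul_cj, hn, ← hn', ← mul_cj]
                exact Dvd.intro _ rfl
              have h6 : π' = cj π := by
                by_contra h7
                rcases hπ'.prime.dvd_or_dvd h5 with h8 | h8
                · exact not_dvd hπ' hπ hππ h8
                · exact not_dvd hπ' hπ.cj h7 h8
              have h7 : qs π (cj q₀) = 0 := by
                rw [qs_zero, ← sqm_cj, cj_cj, ← h6]
                exact hs'
              have nd3 : ¬ π ∣ cj q₀ := by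
                intro h8
                have h9 : π ∣ ((P : ℤ) : OO) := by
                  rw [← hq₀n, ← mul_cj]
                  exact Dvd.dvd.mul_left h8 _
                have h10 := (split_dvd hπ.prime hn _).1 h9
                exact hpP ((Nat.prime_dvd_prime_iff_eq hp hP).1 (by exact_mod_cast h10))
              have h8 : qs π (q₀ * cj q₀) = 0 := by
                rw [mul_cj, hq₀n, qs_zero]
                have hPp : ¬ ((p : ℕ) : ℤ) ∣ (P : ℤ) := by
                  intro h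
                  exact hpP ((Nat.prime_dvd_prime_iff_eq hp hP).1 (by exact_mod_cast h))
                rw [split_int hπ.prime hn hPp, jac_mod (hPg p hpT)]
                have e2 : g₁ p = 1 := by
                  simp only [hg₁]
                  rw [if_neg]
                  intro h
                  exact not_prime_of_norm hp hπ.prime hn (inert_prime h)
                rw [e2, Nat.cast_one, jacobiSym.one_left]
              rw [qs_mul hπ nd1 nd3, h7, add_zero] at h8
              exact h8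
          rw [hq1, zero_add]
          exact hl3
        · have e1 : g₂ p = 1 := by
            simp only [hg₂]
            rw [if_neg hpP, if_neg hsq]
          rw [e1, Nat.cast_one, jacobiSym.one_left] at hl1
          have hl3 : qs π ((l : ℤ) : OO) = 0 := by
            rw [qs_zero, hl1]
          rw [hl3, add_zero, qs_zero]
          intro h
          exact hsq ⟨π, hπ, hn, h⟩
      · have Fl' : Fact l'.Prime := ⟨hl'⟩
        subst hqe
        have hl7' : l' ≠ 7 := by
          rintro rfl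
          exact inert_seven he hπ.prime (by norm_num)
        have hlT : l' ∈ T0 m := by
          refine mem_T0 hm hl' hl2 hl7' ?_
          obtain ⟨t, ht⟩ := hd
          rw [ht, nn_mul, nn_int]
          rcases he with rfl | rfl
          · exact ⟨l' * nn t, by ring⟩
          · exact ⟨l' * nn t, by ring⟩
        have hlT1 : l' ∈ insert P (T0 m) := Finset.mem_insert_of_mem hlT
        have hlP : l' ≠ P := by
          rintro rfl
          exact hPT hlT
        have hnd : ¬ ((l' : ℕ) : ℤ) ∣ (l : ℤ) := fun h => hlnd l' hlT1 (by exact_mod_cast h)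
        have nd1 : ¬ ((e : ℤ) : OO) ∣ q₀ := by
          rw [inert_nn he hπ.prime, hq₀n]
          intro h
          exact hlP ((Nat.prime_dvd_prime_iff_eq hl' hP).1 (by exact_mod_cast h))
        have nd2 : ¬ ((e : ℤ) : OO) ∣ ((l : ℤ) : OO) := by
          rw [inert_nn he hπ.prime, nn_int]
          intro h
          have hlp' : Prime (l' : ℤ) := Nat.prime_iff_prime_int.1 hl'
          exact hnd (hlp'.dvd_of_dvd_pow h)
        have h1 : qs ((e : ℤ) : OO) ((l : ℤ) : OO) = 0 := by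
          rw [qs_zero]
          exact inert_int he hl2 hπ.prime he4 hnd
        rw [qs_mul hπ nd1 nd2, h1, add_zero, qs_zero, inert_symb he hl2 hπ.prime he4 nd1,
          hq₀n, jac_mod (hPg l' hlT)]
        have e2 : g₁ l' = nr l' := by
          simp only [hg₁]
          rw [if_pos (inert_neg he hl2 hπ.prime)]
        rw [e2, (hnr l' hl' hl2).2]
        norm_num
    rcases pr_of_neg_one hπ hπ2 (hs π hπ hπ2 hd) with h | h
    · exact key π h hd
    · have h1 := key (-π) h ((neg_dvd).2 hd)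
      rintro ⟨y, hy⟩
      exact h1 ⟨y, (neg_dvd).2 hy⟩

end main

end Pool.Agent.R384
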