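import Pool.Agent.R384.Gal
import Pool.Agent.R384.Char
import Pool.Agent.Y715.Gi

/-!
# The inertia groups act on the tower of `1 - w` by a quadratic character if `1 - w` is a unit
-/

set_option autoImplicit false
set_option linter.unusedSectionVars false

namespace Pool.Agent.R384

open WeierstrassCurve Pool.Agent.Y676.IS Pool.Agent.Y715.Red Pool.Agent.Y715.Nr
open Pool.Agent.Y715.Gi (QB)

section contra

variable {L : Type} [NormedField L] [IsUltrametricDist L] [CharZero L]

theorem contra {V ξ η c b : L} (hV : V ^ 2 = V - 2) (hV1 : ‖V‖ = 1) (hc : 4 * c = 3 * V - 1)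
    (hb : V ^ 4 * b = 1) (he : η ^ 2 + ξ * η = ξ ^ 3 + c * ξ ^ 2 + b * ξ) (hξ0 : ξ ≠ 0) (τ : L → L)
    (hτ : ∀ z, ‖τ z‖ = ‖z‖) (hin : ∀ z, ‖z‖ ≤ 1 → ‖τ z - z‖ < 1) (h1 : τ ξ = b / ξ)
    (h2 : τ η = -(b * (η + ξ) / ξ ^ 2)) : False := by
  have hb1 : ‖b‖ = 1 := by
    have := congrArg norm hb
    rw [norm_mul, norm_pow, hV1, one_pow, one_mul, norm_one] at this
    exact this
  have hξ : ‖ξ‖ = 1 := by
    have h3 := hτ ξ
    rw [h1, norm_div, hb1] at h3
    have h4 : 0 < ‖ξ‖ := norm_pos_iff.2 hξ0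
    rw [div_eq_iff h4.ne'] at h3
    nlinarith
  have hV0 : V ≠ 0 := by
    rintro rfl
    rw [norm_zero] at hV1
    exact zero_ne_one hV1
  have hc1 : ‖c‖ ≤ 1 := by
    have e : c * V ^ 2 = (1 - V) ^ 2 := by
      have h4 : (4 : L) ≠ 0 := by norm_num
      apply mul_left_cancel₀ h4
      linear_combination V ^ 2 * hc + (3 * V - 2) * hV
    have h3 := congrArg norm e
    rw [norm_mul, norm_pow, hV1, one_pow, mul_one, norm_pow] at h3
    rw [h3]
    exact pow_le_one₀ (norm_nonneg _) (sub_le (by rw [norm_one]) hV1.le)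
  have hη : ‖η‖ ≤ 1 := by
    by_contra hcon
    push Not at hcon
    have h3 : ‖ξ ^ 3 + c * ξ ^ 2 + b * ξ‖ ≤ 1 := by
      refine add_le (add_le ?_ ?_) ?_
      · rw [norm_pow, hξ, one_pow]
      · rw [norm_mul, norm_pow, hξ, one_pow, mul_one]; exact hc1
      · rw [norm_mul, hξ, mul_one]; exact hb1.le
    rw [← he] at h3
    have h4 : ‖ξ * η‖ < ‖η ^ 2‖ := by
      rw [norm_mul, hξ, one_mul, norm_pow]
      nlinarith
    rw [eq_of_lt h4, norm_pow] at h3
    nlinarith
  have k1 : ‖b - ξ ^ 2‖ < 1 := by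
    have h3 := hin ξ hξ.le
    rw [h1] at h3
    have h4 : b - ξ ^ 2 = (b / ξ - ξ) * ξ := by field_simp
    rw [h4, norm_mul, hξ, mul_one]
    exact h3
  have k2 : ‖b * (η + ξ) + η * ξ ^ 2‖ < 1 := by
    have h3 := hin η hη
    rw [h2] at h3
    have h4 : b * (η + ξ) + η * ξ ^ 2 = -((-(b * (η + ξ) / ξ ^ 2) - η) * ξ ^ 2) := by
      field_simp
      ring
    rw [h4, norm_neg, norm_mul, norm_pow, hξ, one_pow, mul_one]
    exact h3
  have k3 : ‖2 * η + ξ‖ < 1 := by
    have h4 : (2 * η + ξ) * ξ ^ 2 = (b * (η + ξ) + η * ξ ^ 2) - (b - ξ ^ 2) * (η + ξ) := by ring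
    have h5 : ‖(2 * η + ξ) * ξ ^ 2‖ < 1 := by
      rw [h4]
      refine sub_lt k2 ?_
      rw [norm_mul]
      have h6 : ‖η + ξ‖ ≤ 1 := add_le hη hξ.le
      calc ‖b - ξ ^ 2‖ * ‖η + ξ‖ ≤ ‖b - ξ ^ 2‖ * 1 :=
            mul_le_mul_of_nonneg_left h6 (norm_nonneg _)
        _ < 1 := by rw [mul_one]; exact k1
    rwa [norm_mul, norm_pow, hξ, one_pow, mul_one] at h5
  have k4 : ‖8 * ξ + 3 * V‖ < 1 := by
    have h4 : (8 * ξ + 3 * V) * ξ ^ 2 = (2 * η + ξ) * (2 * η + ξ) - 4 * ((b - ξ ^ 2) * ξ) := by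
      linear_combination (-4) * he - ξ ^ 2 * hc
    have h5 : ‖(8 * ξ + 3 * V) * ξ ^ 2‖ < 1 := by
      rw [h4]
      refine sub_lt ?_ ?_
      · rw [norm_mul]
        exact mul_lt_one_of_nonneg_of_lt_one_left (norm_nonneg _) k3 k3.le
      · rw [norm_mul, norm_mul, hξ, mul_one]
        have h6 : ‖(4 : L)‖ ≤ 1 := by
          have := int_le (F := L) 4
          exact_mod_cast this
        exact mul_lt_one_of_nonneg_of_lt_one_right h6 (norm_nonneg _) k1
    rwa [norm_mul, norm_pow, hξ, one_pow, mul_one] at h5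
  -- `9 V² - 64 b = V ^ 8`
  have h8 : ‖(8 : L)‖ ≤ 1 := by
    have := int_le (F := L) 8
    exact_mod_cast this
  have h3' : ‖(3 : L)‖ ≤ 1 := by
    have := int_le (F := L) 3
    exact_mod_cast this
  have h64 : ‖(64 : L)‖ ≤ 1 := by
    have := int_le (F := L) 64
    exact_mod_cast this
  have hV8 : ‖V ^ 8‖ < 1 := by
    have e1 : V ^ 12 = 9 * V ^ 6 - 64 := by
      have hV3 : V ^ 3 = -V - 2 := by linear_combination (V + 1) * hV
      have hV6 : V ^ 6 = 5 * V + 2 := by
        have : V ^ 6 = (V ^ 3) ^ 2 := by ring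
        rw [this, hV3]
        linear_combination hV
      have : V ^ 12 = (V ^ 6) ^ 2 := by ring
      rw [this, hV6]
      linear_combination 25 * hV
    have e2 : V ^ 8 = (8 * ξ + 3 * V) * (3 * V - 8 * ξ) - 64 * (b - ξ ^ 2) := by
      have h4 : V ^ 4 ≠ 0 := pow_ne_zero _ hV0
      apply mul_left_cancel₀ h4
      linear_combination e1 + 64 * hb
    rw [e2]
    refine sub_lt ?_ ?_
    · rw [norm_mul]
      refine mul_lt_one_of_nonneg_of_lt_one_left (norm_nonneg _) k4 (sub_le ?_ ?_)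
      · rw [norm_mul, hV1, mul_one]; exact h3'
      · rw [norm_mul, hξ, mul_one]; exact h8
    · rw [norm_mul]
      exact mul_lt_one_of_nonneg_of_lt_one_right h64 (norm_nonneg _) k1
  rw [norm_pow, hV1, one_pow] at hV8
  exact lt_irrefl _ hV8

end contra

section tower

open scoped Classical

variable {w m : QB}

/-- the reflected coordinates -/
lemma local_contra (h : WD w m) {r : QB} (hr : r ^ 2 = m) {σ : QB →+* QB} (hs : Fx w m σ)
    {p : ℕ} [Fact p.Prime] (ι : QB →+* PadicAlgCl p) (τ : Au p) (hτι : ∀ z, τ (ι z) = ι (σ z))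
    (hin : Inert τ) (hV : ‖ι (1 - w)‖ = 1) {e : QB} (he : e = 1 ∨ e = -1) (hsr : σ r = e * r)
    {x y : QB} (hxy : y ^ 2 = x ^ 3 + ca w m * x ^ 2 + cb w m * x) (hx : x ≠ 0)
    (h1 : σ x = cb w m / x) (h2 : e * σ y = -(cb w m * y / x ^ 2)) : False := by
  have hm := h.hm
  have hr0 : r ≠ 0 := by
    rintro rfl
    apply hm
    rw [← hr]
    ring
  have hw0 := h.w0
  have hw1 := h.w1
  have he2 : e * e = 1 := by rcases he with rfl | rfl <;> ring
  have he0 : e ≠ 0 := by
    rintro rfl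
    norm_num at he2
  have he3 : e ^ 3 = e := by
    rw [pow_succ, pow_two, he2, one_mul]
  set V : PadicAlgCl p := ι (1 - w) with hVdef
  set X : QB := x / (4 * m) with hX
  set Y : QB := (y / r ^ 3 - x / m) / 8 with hY
  have hbar := h.bar.hw
  have h16 : w ^ 4 * (1 - w) ^ 4 = 16 := by
    have := h.mul
    calc w ^ 4 * (1 - w) ^ 4 = (w * (1 - w)) ^ 4 := by ring
      _ = 16 := by rw [this]; norm_num
  have hsx : σ X = 1 / (1 - w) ^ 4 / X := by
    rw [hX, map_div₀, map_mul, hs.m, map_ofNat, h1, cb]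
    have hw14 : (1 - w) ^ 4 ≠ 0 := pow_ne_zero _ hw1
    field_simp
    linear_combination h16
  have hsy : σ Y = -(1 / (1 - w) ^ 4 * (Y + X) / X ^ 2) := by
    have h3 : σ y = -(e * (cb w m * y / x ^ 2)) := by
      calc σ y = e * (e * σ y) := by rw [← mul_assoc, he2, one_mul]
        _ = _ := by rw [h2]; ring
    have h4 : σ (y / r ^ 3) = -(cb w m * y / x ^ 2) / r ^ 3 := by
      rw [map_div₀, map_pow, hsr, h3, mul_pow, he3]
      field_simp
    have hw14 : (1 - w) ^ 4 ≠ 0 := pow_ne_zero _ hw1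
    have e16 : w ^ 4 = 16 / (1 - w) ^ 4 := by rw [eq_div_iff hw14]; exact h16
    rw [hY, map_div₀, map_sub, h4, map_div₀, h1, hs.m, map_ofNat, hX, cb, e16]
    field_simp
    ring
  have hE : Y ^ 2 + X * Y = X ^ 3 + ((3 * (1 - w) - 1) / 4) * X ^ 2 + (1 / (1 - w) ^ 4) * X := by
    have hw14 : (1 - w) ^ 4 ≠ 0 := pow_ne_zero _ hw1
    have e16 : w ^ 4 = 16 / (1 - w) ^ 4 := by rw [eq_div_iff hw14]; exact h16
    have hy' : (y / r ^ 3) ^ 2 = (x / m) ^ 3 + 3 * (1 - w) * (x / m) ^ 2 + 16 / (1 - w) ^ 4 * (x / m) := by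
      rw [← e16, div_pow, hxy, ← pow_mul, mul_comm 3 2, pow_mul, hr, ca, cb]
      field_simp
    rw [hX, hY]
    have e1 : x / (4 * m) = (x / m) / 4 := by field_simp
    rw [e1]
    generalize x / m = z at hy' ⊢
    generalize y / r ^ 3 = t at hy' ⊢
    linear_combination hy' / 64
  have hX0 : X ≠ 0 := div_ne_zero hx (mul_ne_zero (by norm_num) hm)
  refine contra (L := PadicAlgCl p) (V := V) (ξ := ι X) (η := ι Y) (c := ι ((3 * (1 - w) - 1) / 4))
    (b := ι (1 / (1 - w) ^ 4)) ?_ hV ?_ ?_ ?_ ((map_ne_zero ι).2 hX0) τ (fun z => nrm τ z) hin ?_ ?_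
  · rw [hVdef, ← map_pow, hbar, map_sub, map_ofNat]
  · rw [hVdef]
    have h3 : (4 : PadicAlgCl p) = ι 4 := (map_ofNat ι 4).symm
    have h4 : (3 : PadicAlgCl p) = ι 3 := (map_ofNat ι 3).symm
    rw [h3, h4, ← map_mul, ← map_mul, ← map_one ι, ← map_sub]
    congr 1
    ring
  · rw [hVdef, ← map_pow, ← map_mul, ← map_one ι]
    congr 1
    field_simp
  · rw [← map_pow, ← map_mul, ← map_add, hE, map_add, map_add, map_mul, map_mul, map_pow, map_pow]
  · rw [hτι, hsx, map_div₀]
  · rw [hτι, hsy, map_neg, map_div₀, map_mul, map_add, map_pow]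

theorem inert_tow (h : WD w m) {x : ℕ → (Cu (ca w m) (cb w m)).Point} (hx : Tow (eF h) (tA h) x)
    {r : QB} (hr : r ^ 2 = m) {σ : QB →+* QB} (hs : Fx w m σ)
    {p : ℕ} [Fact p.Prime] (ι : QB →+* PadicAlgCl p) (τ : Au p) (hτι : ∀ z, τ (ι z) = ι (σ z))
    (hin : Inert τ) (hV : ‖ι (1 - w)‖ = 1) {e : ℤ} (he : e = 1 ∨ e = -1) (hsr : σ r = e * r) :
    ∀ n, gal h σ hs (x n) = e • x n := by
  have hee : ∀ P : (Cu (ca w m) (cb w m)).Point, e • e • P = P := by
    intro P
    rw [smul_smul]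
    rcases he with rfl | rfl <;> simp
  intro n
  induction n with
  | zero => rw [hx.zero, gal_zero, smul_zero]
  | succ n ih =>
    set P := x (n + 1) with hP
    have hfP : gal h σ hs (eF h P) = e • eF h P := by
      have hk : K (eF h) n (eF h P) := by
        unfold K
        rw [← Function.iterate_succ_apply]
        exact hx.ker (n + 1)
      obtain ⟨k, hk⟩ := Tow.gen (td h) hx hk
      rw [hk, gal_smul, ih, smul_comm]
    have hQ : eF h (e • gal h σ hs P - P) = 0 := by
      rw [map_sub, map_zsmul, ← gal_eF, hfP, hee, sub_self]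
    have key : e • gal h σ hs P - P = 0 → gal h σ hs P = e • P := by
      intro h1
      rw [sub_eq_zero] at h1
      calc gal h σ hs P = e • (e • gal h σ hs P) := (hee _).symm
        _ = e • P := by rw [h1]
    rcases ((td h).kf _).1 hQ with h1 | h1
    · exact key h1
    · exfalso
      rw [sub_eq_iff_eq_add, add_comm] at h1
      rcases hPc : P with _ | ⟨a, b, hab⟩
      · rw [hPc] at h1
        change e • gal h σ hs 0 = 0 + tA h at h1
        rw [gal_zero, smul_zero, zero_add] at h1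
        exact (td h).hT h1.symm
      · rw [hPc] at h1
        by_cases ha : a = 0
        · rw [isT_of_x0 h.dat.hb h.dat.hd hab ha] at h1
          change e • gal h σ hs (tA h) = tA h + tA h at h1
          rw [gal_tA, (td h).T2] at h1
          apply (td h).hT
          rw [← hee (tA h), h1, smul_zero]
        · have hns := ns_T h.dat.hb h.dat.hd hab ha
          have hadd := add_T h.dat.hb h.dat.hd hab ha hns
          change e • gal h σ hs (.some a b hab) = .some a b hab + TT h.dat.hb h.dat.hd at h1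
          rw [hadd, gal_some] at h1
          have hcoord : σ a = cb w m / a ∧ (e : QB) * σ b = -(cb w m * b / a ^ 2) := by
            rcases he with rfl | rfl
            · rw [one_smul] at h1
              have := (Affine.Point.some.injEq _ _ _ _ _ _).mp h1
              refine ⟨this.1, ?_⟩
              rw [Int.cast_one, one_mul]
              exact this.2
            · have hσ : (Cu (ca w m) (cb w m)).Nonsingular (σ a) (σ b) := by
                apply cu_ns h.dat.hb h.dat.hd
                have h5 := congrArg σ (ns_eq hab)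
                rwa [map_pow, map_add, map_add, map_mul, map_mul, map_pow, map_pow, hs.ca,
                  hs.cb] at h5
              rw [neg_smul, one_smul, neg_some hσ (ns_neg h.dat.hb h.dat.hd hσ)] at h1
              have := (Affine.Point.some.injEq _ _ _ _ _ _).mp h1
              refine ⟨this.1, ?_⟩
              rw [Int.cast_neg, Int.cast_one, neg_one_mul]
              exact this.2
          refine local_contra h hr hs ι τ hτι hin hV (e := (e : QB)) ?_ hsr (ns_eq hab) ha hcoord.1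
            hcoord.2
          rcases he with rfl | rfl
          · left; simp
          · right; simp

end tower

end Pool.Agent.R384
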