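import Pool.Agent.R384.Rec
import Pool.Agent.Y715.Df

/-!
# Quadratic Kummer theory over `ℚ(√-7)`
-/

set_option autoImplicit false
set_option linter.unusedSectionVars false

namespace Pool.Agent.R384

open Pool.Agent.Y715.Red Pool.Agent.Y715.Nr Pool.Agent.W237.RK
open Pool.Agent.Y715.Gi (QB KK GK i₀_mem gk_fix)

variable {i₀ : QB} (hi : i₀ ^ 2 = i₀ - 2)

lemma gk_em (σ : GK i₀) (z : OO) : σ (em hi z) = em hi z :=
  map_em σ.toRingEquiv.toRingHom hi hi (gk_fix σ) z

include hi in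
lemma exists_conj : ∃ c : QB ≃ₐ[ℚ] QB, c i₀ = 1 - i₀ := by
  by_contra hcon
  push Not at hcon
  have h : ∀ σ : QB ≃ₐ[ℚ] QB, σ i₀ = i₀ := by
    intro σ
    have h1 : (σ i₀) ^ 2 = σ i₀ - 2 := by rw [← map_pow, hi, map_sub, map_ofNat]
    have h2 : (σ i₀ - i₀) * (σ i₀ - (1 - i₀)) = 0 := by linear_combination h1 - hi
    rcases mul_eq_zero.1 h2 with h3 | h3
    · exact sub_eq_zero.1 h3
    · exact absurd (sub_eq_zero.1 h3) (hcon σ)
  have h2 := InfiniteGalois.mem_bot_iff_fixed (k := ℚ) (K := QB) i₀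
  rw [IntermediateField.mem_bot] at h2
  obtain ⟨q, hq⟩ := h2.2 h
  rw [← hq, ← map_pow] at hi
  have h3 : q ^ 2 = q - 2 := by
    apply (algebraMap ℚ QB).injective
    rw [hi, map_sub, map_ofNat]
  nlinarith [sq_nonneg (2 * q - 1)]

include hi in
/-- the elements of `ℚ(i)` -/
lemma KK_ex {x : QB} (hx : x ∈ KK i₀) : ∃ a b : ℚ, x = a + b * i₀ := by
  have hint : IsAlgebraic ℚ i₀ := Algebra.IsAlgebraic.isAlgebraic i₀
  have h1 : x ∈ Algebra.adjoin ℚ {i₀} := by
    rw [← IntermediateField.adjoin_simple_toSubalgebra_of_isAlgebraic hint]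
    exact hx
  induction h1 using Algebra.adjoin_induction with
  | mem y hy =>
    rw [Set.mem_singleton_iff] at hy
    exact ⟨0, 1, by rw [hy]; push_cast; ring⟩
  | algebraMap r =>
    refine ⟨r, 0, ?_⟩
    push_cast
    rw [zero_mul, add_zero]
    exact (eq_ratCast (algebraMap ℚ QB) r)
  | add y z hy hz ihy ihz =>
    obtain ⟨a, b, e⟩ := ihy (by
      rw [← IntermediateField.adjoin_simple_toSubalgebra_of_isAlgebraic hint] at hy
      exact hy)
    obtain ⟨c, d, e'⟩ := ihz (by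
      rw [← IntermediateField.adjoin_simple_toSubalgebra_of_isAlgebraic hint] at hz
      exact hz)
    exact ⟨a + c, b + d, by rw [e, e']; push_cast; ring⟩
  | mul y z hy hz ihy ihz =>
    obtain ⟨a, b, e⟩ := ihy (by
      rw [← IntermediateField.adjoin_simple_toSubalgebra_of_isAlgebraic hint] at hy
      exact hy)
    obtain ⟨c, d, e'⟩ := ihz (by
      rw [← IntermediateField.adjoin_simple_toSubalgebra_of_isAlgebraic hint] at hz
      exact hz)
    refine ⟨a * c - 2 * (b * d), a * d + b * c + b * d, ?_⟩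
    rw [e, e']
    push_cast
    linear_combination (b : QB) * d * hi

/-- squarefree representatives -/
lemma exists_sqf {x : QB} (hx : x ∈ KK i₀) (hx0 : x ≠ 0) : ∃ z : OO, Squarefree z ∧
    ∃ s ∈ KK i₀, x = em hi z * s ^ 2 := by
  classical
  have h1 : ∃ n : ℕ, ∃ z : OO, z ≠ 0 ∧ (nn z).natAbs = n ∧
      ∃ s ∈ KK i₀, x = em hi z * s ^ 2 := by
    obtain ⟨a, b, e⟩ := KK_ex hi hx
    have hda : (a.den : QB) ≠ 0 := by exact_mod_cast a.den_ne_zero
    have hdb : (b.den : QB) ≠ 0 := by exact_mod_cast b.den_ne_zero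
    set z : OO := ⟨a.num * b.den * (a.den * b.den), b.num * a.den * (a.den * b.den)⟩
      with hz
    have hxz : x = em hi z * (((a.den * b.den : ℕ) : QB)⁻¹) ^ 2 := by
      rw [e, em_apply]
      show _ = ((a.num * b.den * (a.den * b.den) : ℤ) + ((b.num * a.den * (a.den * b.den) : ℤ) :
        QB) * i₀) * _
      have ha : (a : QB) = a.num / a.den := by
        conv_lhs => rw [← Rat.num_div_den a]
        push_cast
        rfl
      have hb : (b : QB) = b.num / b.den := by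
        conv_lhs => rw [← Rat.num_div_den b]
        push_cast
        rfl
      rw [ha, hb]
      push_cast
      field_simp
    refine ⟨_, z, ?_, rfl, _, ?_, hxz⟩
    · intro h0
      rw [h0, map_zero, zero_mul] at hxz
      exact hx0 hxz
    · exact inv_mem (natCast_mem _ _)
  obtain ⟨z, hz0, hzn, s, hs, e⟩ := Nat.find_spec h1
  refine ⟨z, ?_, s, hs, e⟩
  rintro y ⟨w, hw⟩
  by_contra hy
  have hw0 : w ≠ 0 := by
    rintro rfl
    apply hz0
    rw [hw, mul_zero]
  have hy0 : y ≠ 0 := by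
    rintro rfl
    apply hz0
    rw [hw, zero_mul, zero_mul]
  have hmem : em hi y ∈ KK i₀ := by
    rw [em_apply]
    exact add_mem (intCast_mem _ _) (mul_mem (intCast_mem _ _) i₀_mem)
  have h2 := Nat.find_min' h1 (m := (nn w).natAbs) ⟨w, hw0, rfl, em hi y * s,
    mul_mem hmem hs, by rw [e, hw, map_mul, map_mul]; ring⟩
  rw [← hzn, hw, nn_mul, nn_mul, Int.natAbs_mul, Int.natAbs_mul] at h2
  have h3 : 2 ≤ (nn y).natAbs := by
    rcases (by omega : (nn y).natAbs = 0 ∨ (nn y).natAbs = 1 ∨ 2 ≤ (nn y).natAbs) with h4 | h4 | h4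
    · exfalso
      apply hy0
      exact nn_zero_iff.1 (Int.natAbs_eq_zero.1 h4)
    · exfalso
      apply hy
      exact unit_iff.2 (by have := nn_nonneg y; omega)
    · exact h4
  have h5 : 0 < (nn w).natAbs := by
    rw [Nat.pos_iff_ne_zero]
    intro h6
    exact hw0 (nn_zero_iff.1 (Int.natAbs_eq_zero.1 h6))
  have h7 : 2 * 2 * (nn w).natAbs ≤ (nn y).natAbs * (nn y).natAbs * (nn w).natAbs := by gcongr
  omega

/-- quadratic characters -/
theorem kum (h : GK i₀ → ZMod 2) (hc : IsLocallyConstant h) (hm : ∀ σ τ, h (σ * τ) = h σ + h τ) :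
    ∃ z : OO, Squarefree z ∧ ∀ s : QB, s ^ 2 = em hi z → ∀ σ : GK i₀,
      (σ s = s ↔ h σ = 0) := by
  classical
  obtain ⟨s, a, hs0, hsa, hσ⟩ := Pool.Agent.W309.TD.exists_root (K := KK i₀) (Ω := QB)
    two_ne_zero (fun σ => if h σ = 0 then 1 else -1) (fun σ => by
      show (if h σ = 0 then (1 : QB) else -1) = 1 ∨ (if h σ = 0 then (1 : QB) else -1) = -1
      split_ifs
      · exact Or.inl rfl
      · exact Or.inr rfl) (fun σ τ => by
      show (if h (σ * τ) = 0 then (1 : QB) else -1) = (if h σ = 0 then (1 : QB) else -1) *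
        (if h τ = 0 then (1 : QB) else -1)
      rw [hm]
      have h01 : ∀ x : ZMod 2, x = 0 ∨ x = 1 := by decide
      rcases h01 (h σ) with e1 | e1 <;> rcases h01 (h τ) with e2 | e2 <;> rw [e1, e2] <;>
        simp <;> decide) (hc.comp (fun x : ZMod 2 => if x = 0 then (1 : QB) else -1))
  have ha0 : (a : QB) ≠ 0 := by
    intro h0
    have h1 : s ^ 2 = 0 := by
      rw [hsa]
      exact h0
    exact hs0 (pow_eq_zero_iff two_ne_zero |>.1 h1)
  obtain ⟨z, hz, t, ht, e⟩ := exists_sqf hi a.2 ha0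
  refine ⟨z, hz, fun u hu σ => ?_⟩
  have ht0 : t ≠ 0 := by
    rintro rfl
    apply ha0
    rw [e]
    ring
  have h1 : (u * t) ^ 2 = s ^ 2 := by
    rw [mul_pow, hu, hsa]
    exact e.symm
  have hσt : σ t = t := σ.commutes (⟨t, ht⟩ : KK i₀)
  have h2 : σ u = u ↔ σ (u * t) = u * t := by
    rw [map_mul, hσt]
    exact (mul_left_inj' ht0).symm
  have h3 : σ (u * t) = u * t ↔ σ s = s := by
    rcases sq_eq_sq_iff_eq_or_eq_neg.1 h1 with h4 | h4
    · rw [h4]
    · rw [h4, map_neg, neg_inj]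
  rw [h2, h3, hσ]
  show (if h σ = 0 then (1 : QB) else -1) * s = s ↔ _
  split_ifs with h5
  · simp [h5]
  · simp only [h5, iff_false]
    intro h6
    apply hs0
    have h7 : (2 : QB) * s = 0 := by linear_combination -h6
    exact (mul_eq_zero.1 h7).resolve_left two_ne_zero

/-- embeddings -/
theorem exists_emb {ρ : OO} (hρ : Prime ρ) :
    ∃ (p : ℕ) (_ : Fact p.Prime) (ι : QB →ₐ[ℚ] PadicAlgCl p), ‖ι (em hi ρ)‖ < 1 := by
  obtain ⟨p, hp, hpr⟩ := exists_rat hρ
  have : Fact p.Prime := ⟨hp⟩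
  obtain ⟨ι⟩ : Nonempty (QB →ₐ[ℚ] PadicAlgCl p) :=
    ⟨IsAlgClosed.lift (R := ℚ) (S := QB) (M := AlgebraicClosure ℚ_[p])⟩
  have hI : (ι i₀) ^ 2 = ι i₀ - 2 := by rw [← map_pow, hi, map_sub, map_ofNat]
  have hιe : ∀ z, ι (em hi z) = em hI z := fun z => map_em ι.toRingHom hi hI rfl z
  -- one of the two conjugates
  have hprod : ‖ι (em hi ρ)‖ * ‖ι (em hi (cj ρ))‖ < 1 := by
    have hdv : ((p : ℕ) : OO) ∣ ρ * cj ρ ∨ IsUnit (ρ * cj ρ) := by
      rw [mul_cj]
      obtain ⟨t, ht⟩ := hpr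
      have h1 : nn ρ * nn t = p ^ 2 := by
        rw [← nn_mul, ← ht]
        have := nn_int p
        exact_mod_cast this
      have h2 : (nn ρ).natAbs ∣ p ^ 2 := by
        refine ⟨(nn t).natAbs, ?_⟩
        rw [← Int.natAbs_mul, h1, Int.natAbs_pow, Int.natAbs_natCast]
      obtain ⟨e, he, hqe⟩ := (Nat.dvd_prime_pow hp).1 h2
      have hnn : (((nn ρ).natAbs : ℕ) : ℤ) = nn ρ := Int.natAbs_of_nonneg (nn_nonneg ρ)
      rcases (by omega : e = 0 ∨ e = 1 ∨ e = 2) with rfl | rfl | rfl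
      · right
        rw [← hnn, hqe]
        simp
      · left
        rw [← hnn, hqe]
        simp
      · left
        rw [← hnn, hqe]
        push_cast
        exact ⟨(p : OO), by ring⟩
    rcases hdv with h1 | h1
    · rw [← norm_mul, ← map_mul, ← map_mul, hιe]
      obtain ⟨t, ht⟩ := h1
      rw [ht, map_mul, norm_mul]
      have h2 := em_le hI t
      have h3 := p_lt hI
      calc ‖em hI ((p : ℕ) : OO)‖ * ‖em hI t‖ ≤ ‖em hI ((p : ℕ) : OO)‖ * 1 :=
            mul_le_mul_of_nonneg_left h2 (norm_nonneg _)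
        _ < 1 := by rwa [mul_one]
    · exact absurd (isUnit_of_mul_isUnit_left h1) hρ.not_isUnit
  by_cases h1 : ‖ι (em hi ρ)‖ < 1
  · exact ⟨p, inferInstance, ι, h1⟩
  · have h2 : ‖ι (em hi ρ)‖ = 1 := by
      rw [hιe] at h1 ⊢
      exact eq_one_of_not_lt hI h1
    rw [h2, one_mul] at hprod
    obtain ⟨c, hc⟩ := exists_conj hi
    refine ⟨p, inferInstance, ι.comp c.toAlgHom, ?_⟩
    have h3 : (ι.comp c.toAlgHom) (em hi ρ) = ι (em hi (cj ρ)) := by
      show ι (c (em hi ρ)) = _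
      congr 1
      rw [em_apply, em_apply, map_add, map_mul, map_intCast, map_intCast, hc]
      simp only [cj]
      push_cast
      ring
    rw [h3]
    exact hprod

end Pool.Agent.R384
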