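import Pool.Agent.R384.Char

/-!
# Cocycles with values in `ℚ_2(χ)`, `χ = 1` modulo `2`
-/

set_option autoImplicit false
set_option linter.unusedSectionVars false

namespace Pool.Agent.R384

variable {G : Type} [Group G] [TopologicalSpace G]

/-- the value of the character as an element of `ℚ_2` -/
noncomputable def vl (χ : G →* ℤ_[2]ˣ) (σ : G) : ℚ_[2] := ((χ σ : ℤ_[2]) : ℚ_[2])

/-- a continuous cocycle with values in `ℚ_2(χ)` -/
structure Coc (χ : G →* ℤ_[2]ˣ) (c : G → ℚ_[2]) : Prop where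
  cont : Continuous c
  mul : ∀ σ τ, c (σ * τ) = c σ + vl χ σ * c τ

/-- a coboundary on the set `D` -/
def CobOn (χ : G →* ℤ_[2]ˣ) (D : Set G) (c : G → ℚ_[2]) : Prop :=
  ∃ y : ℚ_[2], ∀ σ ∈ D, c σ = (vl χ σ - 1) * y

variable {χ : G →* ℤ_[2]ˣ} {c : G → ℚ_[2]}

lemma norm_two' : ‖(2 : ℚ_[2])‖ = 1 / 2 := by
  have := Padic.norm_p (p := 2)
  simpa using this

lemma norm_vl (σ : G) : ‖vl χ σ‖ = 1 := by
  unfold vl
  rw [PadicInt.padic_norm_e_of_padicInt]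
  exact PadicInt.norm_units _

lemma vl_one : vl χ 1 = 1 := by simp [vl]

lemma vl_mul (σ τ : G) : vl χ (σ * τ) = vl χ σ * vl χ τ := by simp [vl]

lemma cont_vl (hχ : Continuous χ) : Continuous (vl χ) := by
  have h1 : Continuous (fun z : ℤ_[2] => (z : ℚ_[2])) := continuous_subtype_val
  have h2 : Continuous (fun σ => (χ σ : ℤ_[2])) := Units.continuous_val.comp hχ
  exact h1.comp h2

/-- a number of `ℚ_2` of norm less than `1` has norm at most `1/2`. -/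
lemma norm_lt_one {z : ℚ_[2]} (hz : ‖z‖ < 1) : ‖z‖ ≤ 1 / 2 := by
  by_cases h0 : z = 0
  · rw [h0, norm_zero]; norm_num
  · obtain ⟨n, hn⟩ := Padic.padicNormE.image h0
    have hn' : ‖z‖ = (2 : ℝ) ^ (-n) := by
      rw [hn]
      norm_num
    rw [hn'] at hz ⊢
    have h1 : -n < 0 := by
      by_contra hcon
      push Not at hcon
      have := one_le_zpow₀ (a := (2 : ℝ)) (by norm_num) hcon
      linarith
    calc (2 : ℝ) ^ (-n) ≤ 2 ^ (-1 : ℤ) := zpow_le_zpow_right₀ (by norm_num) (by omega)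
      _ = 1 / 2 := by norm_num

lemma norm_lt_half {z : ℚ_[2]} (hz : ‖z‖ < 1 / 2) : ‖z‖ ≤ 1 / 4 := by
  have h1 : ‖z / 2‖ < 1 := by
    rw [norm_div, norm_two']
    linarith
  have h2 := norm_lt_one h1
  rw [norm_div, norm_two'] at h2
  linarith

lemma vl_sub_one (σ : G) : ‖vl χ σ - 1‖ ≤ 1 / 2 := by
  apply norm_lt_one
  unfold vl
  have h1 : ((χ σ : ℤ_[2]) : ℚ_[2]) - 1 = (((χ σ : ℤ_[2]) - 1 : ℤ_[2]) : ℚ_[2]) := by push_cast; rfl
  rw [h1, PadicInt.padic_norm_e_of_padicInt]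
  -- a unit is congruent to one modulo two
  have h2 : PadicInt.toZMod ((χ σ : ℤ_[2]) - 1) = 0 := by
    have hu : IsUnit (PadicInt.toZMod (p := 2) (χ σ : ℤ_[2])) := (χ σ).isUnit.map _
    have h3 : ∀ a : ZMod 2, IsUnit a → a - 1 = 0 := by decide
    rw [map_sub, map_one]
    exact h3 _ hu
  have h4 : ((χ σ : ℤ_[2]) - 1) ∈ RingHom.ker (PadicInt.toZMod (p := 2)) := h2
  rw [PadicInt.ker_toZMod, IsLocalRing.mem_maximalIdeal, PadicInt.mem_nonunits] at h4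
  exact h4

lemma Coc.one (hc : Coc χ c) : c 1 = 0 := by
  have h := hc.mul 1 1
  rw [mul_one, vl_one, one_mul] at h
  exact left_eq_add.1 h

lemma add_le' {a b : ℚ_[2]} {r : ℝ} (ha : ‖a‖ ≤ r) (hb : ‖b‖ ≤ r) : ‖a + b‖ ≤ r :=
  (Padic.nonarchimedean a b).trans (max_le ha hb)

lemma sub_le' {a b : ℚ_[2]} {r : ℝ} (ha : ‖a‖ ≤ r) (hb : ‖b‖ ≤ r) : ‖a - b‖ ≤ r := by
  rw [sub_eq_add_neg]
  exact add_le' ha (by rwa [norm_neg])

lemma add_lt' {a b : ℚ_[2]} {r : ℝ} (ha : ‖a‖ < r) (hb : ‖b‖ < r) : ‖a + b‖ < r :=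
  (Padic.nonarchimedean a b).trans_lt (max_lt ha hb)

/-- the class is divisible by `2 ^ n` -/
def Dv (χ : G →* ℤ_[2]ˣ) (c : G → ℚ_[2]) (n : ℤ) : Prop :=
  ∃ y : ℚ_[2], ∀ σ, ‖c σ + (vl χ σ - 1) * y‖ ≤ (2 : ℝ) ^ (-n)

lemma cob_of_all {τ₀ : G} (h0 : ‖vl χ τ₀ - 1‖ = 1 / 2) {n₀ : ℤ} (h : ∀ n, n₀ ≤ n → Dv χ c n) :
    ∃ y : ℚ_[2], ∀ σ, c σ = (vl χ σ - 1) * y := by
  have hne : vl χ τ₀ - 1 ≠ 0 := by
    intro h1
    rw [h1, norm_zero] at h0
    norm_num at h0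
  set y : ℚ_[2] := -(c τ₀ / (vl χ τ₀ - 1)) with hy
  refine ⟨-y, fun σ => ?_⟩
  have hsmall : ∀ n, n₀ ≤ n → ‖c σ + (vl χ σ - 1) * y‖ ≤ (2 : ℝ) ^ (-n) := by
    intro n hn
    obtain ⟨z, hz⟩ := h n hn
    have h1 : ‖(vl χ τ₀ - 1) * (z - y)‖ ≤ (2 : ℝ) ^ (-n) := by
      have e : (vl χ τ₀ - 1) * (z - y) = c τ₀ + (vl χ τ₀ - 1) * z := by
        rw [hy]
        field_simp
        ring
      rw [e]
      exact hz τ₀
    rw [norm_mul, h0] at h1
    have e : c σ + (vl χ σ - 1) * y = (c σ + (vl χ σ - 1) * z) - (vl χ σ - 1) * (z - y) := by ring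
    rw [e]
    refine sub_le' (hz σ) ?_
    rw [norm_mul]
    calc ‖vl χ σ - 1‖ * ‖z - y‖ ≤ 1 / 2 * ‖z - y‖ :=
          mul_le_mul_of_nonneg_right (vl_sub_one σ) (norm_nonneg _)
      _ ≤ _ := h1
  have hzero : ‖c σ + (vl χ σ - 1) * y‖ ≤ 0 := by
    have h3 : Filter.Tendsto (fun n : ℕ => (2 : ℝ) ^ (-(n₀ + n : ℤ))) Filter.atTop (nhds 0) := by
      have h4 : (fun n : ℕ => (2 : ℝ) ^ (-(n₀ + n : ℤ))) = fun n : ℕ => (2 : ℝ) ^ (-n₀) * (1 / 2) ^ n := by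
        funext n
        rw [neg_add, zpow_add₀ (by norm_num), zpow_neg _ (n : ℤ), zpow_natCast, one_div, inv_pow]
      rw [h4]
      have h5 := (tendsto_pow_atTop_nhds_zero_of_lt_one (r := (1 / 2 : ℝ)) (by norm_num)
        (by norm_num)).const_mul ((2 : ℝ) ^ (-n₀))
      rwa [mul_zero] at h5
    exact ge_of_tendsto' h3 fun n => hsmall _ (by omega)
  have h6 := norm_le_zero_iff.1 hzero
  linear_combination h6

/-- **Normalization.** -/
theorem normalize [CompactSpace G] (hc : Coc χ c) {τ₀ : G} (h0 : ‖vl χ τ₀ - 1‖ = 1 / 2)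
    (hn : ¬ ∃ y : ℚ_[2], ∀ σ, c σ = (vl χ σ - 1) * y) :
    ∃ (a y : ℚ_[2]), a ≠ 0 ∧ (∀ σ, ‖a * c σ + (vl χ σ - 1) * y‖ ≤ 1) ∧
      ∀ z : ℚ_[2], ∃ σ, ¬ ‖a * c σ + (vl χ σ - 1) * y - (vl χ σ - 1) * z‖ < 1 := by
  obtain ⟨n₀, hn₀⟩ : ∃ n₀ : ℤ, Dv χ c n₀ := by
    obtain ⟨C, hC⟩ := (isCompact_range hc.cont).isBounded.exists_norm_le
    obtain ⟨k, hk⟩ := pow_unbounded_of_one_lt C (one_lt_two (α := ℝ))
    refine ⟨-k, 0, fun σ => ?_⟩
    rw [mul_zero, add_zero, neg_neg, zpow_natCast]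
    exact (hC _ (Set.mem_range_self σ)).trans hk.le
  obtain ⟨n, hn1, hn2, hn3⟩ : ∃ n, n₀ ≤ n ∧ Dv χ c n ∧ ¬ Dv χ c (n + 1) := by
    by_contra hcon
    push Not at hcon
    apply hn
    apply cob_of_all h0 (n₀ := n₀)
    intro n hn1
    induction n, hn1 using Int.leInduction with
    | base => exact hn₀
    | succ n hn1 ih => exact hcon n hn1 ih
  obtain ⟨y, hy⟩ := hn2
  have h20 : (2 : ℚ_[2]) ≠ 0 := two_ne_zero
  refine ⟨(2 : ℚ_[2]) ^ (-n), (2 : ℚ_[2]) ^ (-n) * y, zpow_ne_zero _ h20, fun σ => ?_, fun z => ?_⟩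
  · have e : (2 : ℚ_[2]) ^ (-n) * c σ + (vl χ σ - 1) * ((2 : ℚ_[2]) ^ (-n) * y) =
        (2 : ℚ_[2]) ^ (-n) * (c σ + (vl χ σ - 1) * y) := by ring
    rw [e, norm_mul, norm_zpow, norm_two', one_div, inv_zpow, zpow_neg, inv_inv]
    calc (2 : ℝ) ^ n * ‖c σ + (vl χ σ - 1) * y‖ ≤ (2 : ℝ) ^ n * (2 : ℝ) ^ (-n) :=
          mul_le_mul_of_nonneg_left (hy σ) (by positivity)
      _ = 1 := by rw [← zpow_add₀ (by norm_num)]; simp
  · by_contra hcon
    push Not at hcon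
    apply hn3
    refine ⟨y - (2 : ℚ_[2]) ^ n * z, fun σ => ?_⟩
    have h1 := norm_lt_one (hcon σ)
    have e : c σ + (vl χ σ - 1) * (y - (2 : ℚ_[2]) ^ n * z) = (2 : ℚ_[2]) ^ n *
        ((2 : ℚ_[2]) ^ (-n) * c σ + (vl χ σ - 1) * ((2 : ℚ_[2]) ^ (-n) * y) - (vl χ σ - 1) * z) := by
      have h2 : (2 : ℚ_[2]) ^ n * (2 : ℚ_[2]) ^ (-n) = 1 := by
        rw [← zpow_add₀ h20]; simp
      linear_combination (-(c σ) - (vl χ σ - 1) * y) * h2
    rw [e, norm_mul, norm_zpow, norm_two']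
    calc (1 / 2 : ℝ) ^ n * _ ≤ (1 / 2 : ℝ) ^ n * (1 / 2) :=
          mul_le_mul_of_nonneg_left h1 (by positivity)
      _ = (2 : ℝ) ^ (-(n + 1)) := by
        rw [one_div, inv_zpow, zpow_neg, zpow_add₀ (by norm_num), zpow_one, mul_inv]

/-- the operations do not change the local conditions -/
lemma CobOn.twist {D : Set G} (h : CobOn χ D c) (a y : ℚ_[2]) :
    CobOn χ D fun σ => a * c σ + (vl χ σ - 1) * y := by
  obtain ⟨x, hx⟩ := h
  refine ⟨a * x + y, fun σ hσ => ?_⟩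
  simp only [hx σ hσ]
  ring

lemma Coc.twist (hχ : Continuous χ) (hc : Coc χ c) (a y : ℚ_[2]) :
    Coc χ fun σ => a * c σ + (vl χ σ - 1) * y := by
  refine ⟨?_, fun σ τ => ?_⟩
  · have h1 := cont_vl hχ
    have h2 := hc.cont
    fun_prop
  · simp only [hc.mul, vl_mul]
    ring

/-- a cocycle with integral values, modulo two -/
noncomputable def md (c : G → ℚ_[2]) (σ : G) : ZMod 2 :=
  open Classical in if ‖c σ‖ < 1 then 0 else 1

lemma md_zero {σ : G} : md c σ = 0 ↔ ‖c σ‖ < 1 := by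
  unfold md
  split_ifs with h
  · simp [h]
  · simp [h]

lemma md_eq {z : ℚ_[2]} (hz : ‖z‖ ≤ 1) : ¬ ‖z‖ < 1 ↔ ‖z - 1‖ < 1 := by
  constructor
  · intro h
    have h1 : ‖z‖ = 1 := le_antisymm hz (not_lt.1 h)
    let z' : ℤ_[2] := ⟨z, hz⟩
    have hu : IsUnit z' := PadicInt.isUnit_iff.2 h1
    have h2 : PadicInt.toZMod (z' - 1) = 0 := by
      have hu' : IsUnit (PadicInt.toZMod (p := 2) z') := hu.map _
      have h3 : ∀ a : ZMod 2, IsUnit a → a - 1 = 0 := by decide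
      rw [map_sub, map_one]
      exact h3 _ hu'
    have h4 : (z' - 1) ∈ RingHom.ker (PadicInt.toZMod (p := 2)) := h2
    rw [PadicInt.ker_toZMod, IsLocalRing.mem_maximalIdeal, PadicInt.mem_nonunits] at h4
    exact h4
  · intro h h1
    have h2 : (1 : ℚ_[2]) = z - (z - 1) := by ring
    have h3 : ‖(1 : ℚ_[2])‖ < 1 := by
      rw [h2, sub_eq_add_neg]
      exact add_lt' h1 (by rwa [norm_neg])
    rw [norm_one] at h3
    exact lt_irrefl _ h3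

lemma md_mul (hc : Coc χ c) (h1 : ∀ σ, ‖c σ‖ ≤ 1) (σ τ : G) : md c (σ * τ) = md c σ + md c τ := by
  have h2 : ‖c (σ * τ) - (c σ + c τ)‖ < 1 := by
    rw [hc.mul]
    have e : c σ + vl χ σ * c τ - (c σ + c τ) = (vl χ σ - 1) * c τ := by ring
    rw [e, norm_mul]
    have h3 := vl_sub_one (χ := χ) σ
    have h4 := h1 τ
    nlinarith [norm_nonneg (c τ), norm_nonneg (vl χ σ - 1)]
  have key : ∀ z : ℚ_[2], ‖z‖ < 1 → (‖c (σ * τ)‖ < 1 ↔ ‖c σ + c τ - z‖ < 1) := by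
    intro z hz
    constructor
    · intro h
      have e : c σ + c τ - z = c (σ * τ) + (-(c (σ * τ) - (c σ + c τ)) + -z) := by ring
      rw [e]
      exact add_lt' h (add_lt' (by rwa [norm_neg]) (by rwa [norm_neg]))
    · intro h
      have e : c (σ * τ) = (c σ + c τ - z) + ((c (σ * τ) - (c σ + c τ)) + z) := by ring
      rw [e]
      exact add_lt' h (add_lt' h2 hz)
  unfold md
  by_cases hσ : ‖c σ‖ < 1
  · by_cases hτ : ‖c τ‖ < 1
    · have : ‖c (σ * τ)‖ < 1 := (key (c σ + c τ) (add_lt' hσ hτ)).2 (by rw [sub_self, norm_zero]; norm_num)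
      simp [hσ, hτ, this]
    · have : ¬ ‖c (σ * τ)‖ < 1 := by
        rw [key (c σ) hσ, add_sub_cancel_left]
        exact hτ
      simp [hσ, hτ, this]
  · by_cases hτ : ‖c τ‖ < 1
    · have : ¬ ‖c (σ * τ)‖ < 1 := by
        rw [key (c τ) hτ, add_sub_cancel_right]
        exact hσ
      simp [hσ, hτ, this]
    · have a1 := (md_eq (h1 σ)).1 hσ
      have a2 := (md_eq (h1 τ)).1 hτ
      have : ‖c (σ * τ)‖ < 1 := by
        have h20 : ‖(2 : ℚ_[2])‖ < 1 := by rw [norm_two']; norm_num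
        have h5 : ‖(c σ - 1) + (c τ - 1) + 2‖ < 1 := add_lt' (add_lt' a1 a2) h20
        refine (key 0 (by rw [norm_zero]; norm_num)).2 ?_
        have e : c σ + c τ - 0 = (c σ - 1) + (c τ - 1) + 2 := by ring
        rw [e]
        exact h5
      simp only [hσ, hτ, this, if_true, if_false]
      decide

lemma md_cont (hc : Coc χ c) : IsLocallyConstant (md c) := by
  rw [IsLocallyConstant.iff_exists_open]
  intro σ
  refine ⟨{τ | ‖c τ - c σ‖ < 1}, ?_, by simp, fun τ hτ => ?_⟩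
  · exact isOpen_lt (by have := hc.cont; fun_prop) continuous_const
  · have hτ' : ‖c τ - c σ‖ < 1 := hτ
    have : ‖c τ‖ < 1 ↔ ‖c σ‖ < 1 := by
      constructor
      · intro h
        have e : c σ = c τ + -(c τ - c σ) := by ring
        rw [e]
        exact add_lt' h (by rwa [norm_neg])
      · intro h
        have e : c τ = (c τ - c σ) + c σ := by ring
        rw [e]
        exact add_lt' hτ' h
    unfold md
    simp [this]

/-- local triviality, the character is trivial on `D` -/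
lemma loc_triv {D : Set G} (h : CobOn χ D c) (hD : ∀ σ ∈ D, vl χ σ = 1) : ∀ σ ∈ D, md c σ = 0 := by
  obtain ⟨y, hy⟩ := h
  intro σ hσ
  rw [md_zero, hy σ hσ, hD σ hσ, sub_self, zero_mul, norm_zero]
  norm_num

/-- local triviality, the character is not trivial modulo four on `D` -/
lemma loc_four {D : Set G} (h : CobOn χ D c) (h1 : ∀ σ, ‖c σ‖ ≤ 1) {σ₀ : G} (h0 : σ₀ ∈ D)
    (h2 : ‖vl χ σ₀ - 1‖ = 1 / 2) :
    (∀ σ ∈ D, md c σ = 0) ∨ ∀ σ ∈ D, (md c σ = 0 ↔ ‖vl χ σ - 1‖ < 1 / 2) := by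
  obtain ⟨y, hy⟩ := h
  have h3 : ‖y‖ ≤ 2 := by
    have h4 := h1 σ₀
    rw [hy σ₀ h0, norm_mul, h2] at h4
    linarith
  by_cases h5 : ‖y / 2⁻¹‖ < 1
  · left
    have h6 := norm_lt_one h5
    rw [norm_div, norm_inv, norm_two'] at h6
    intro σ hσ
    rw [md_zero, hy σ hσ, norm_mul]
    have h7 := vl_sub_one (χ := χ) σ
    have h8 : ‖y‖ ≤ 1 := by
      rw [one_div, inv_inv] at h6
      linarith
    nlinarith [norm_nonneg y, norm_nonneg (vl χ σ - 1)]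
  · right
    rw [norm_div, norm_inv, norm_two', one_div, inv_inv] at h5
    have h6 : ‖y‖ = 2 := le_antisymm h3 (by linarith)
    intro σ hσ
    rw [md_zero, hy σ hσ, norm_mul, h6]
    constructor
    · intro h; linarith
    · intro h; linarith

/-- from the inertia group to the decomposition group -/
lemma dec_of_inert (hc : Coc χ c) {I D : Set G} (h : CobOn χ I c) {σ₀ : G} (h0 : σ₀ ∈ I)
    (hχ : vl χ σ₀ = -1) (hconj : ∀ τ ∈ D, τ⁻¹ * σ₀ * τ ∈ I) : CobOn χ D c := by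
  obtain ⟨y, hy⟩ := h
  refine ⟨y, fun τ hτ => ?_⟩
  have h1 := hc.mul σ₀ τ
  have h2 := hc.mul τ (τ⁻¹ * σ₀ * τ)
  have e : τ * (τ⁻¹ * σ₀ * τ) = σ₀ * τ := by group
  rw [e, h1, hχ, hy _ (hconj τ hτ), hy σ₀ h0, hχ] at h2
  have h3 : vl χ (τ⁻¹ * σ₀ * τ) = -1 := by
    rw [vl_mul, vl_mul, hχ]
    have h4 : vl χ τ⁻¹ * vl χ τ = 1 := by rw [← vl_mul, inv_mul_cancel, vl_one]
    linear_combination -h4
  rw [h3] at h2
  have h5 : (2 : ℚ_[2]) ≠ 0 := two_ne_zero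
  apply mul_left_cancel₀ h5
  linear_combination -h2

end Pool.Agent.R384
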