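import Pool.Agent.R384.Inr
import Pool.Agent.R384.Kum
import Pool.Agent.R384.Sel

/-!
# The character of the Galois group on the tower
-/

set_option autoImplicit false
set_option linter.unusedSectionVars false

namespace Pool.Agent.R384

open WeierstrassCurve Pool.Agent.Y676.IS
open Pool.Agent.Y715.Red Pool.Agent.Y715.Nr Pool.Agent.W237.RK
open Pool.Agent.Y715.Gi (QB KK GK i₀_mem gk_fix)
open Pool.Agent.Y715.Df (Cmp)

open scoped Classical

/-- an element of the Galois group as a homomorphism -/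
noncomputable abbrev rh {i₀ : QB} (σ : GK i₀) : QB →+* QB := σ.toRingEquiv.toRingHom

section

variable {i₀ w m : QB} (h : WD w m) (fx : ∀ σ : GK i₀, Fx w m (rh σ))
  {x : ℕ → (Cu (ca w m) (cb w m)).Point}

/-- the action -/
noncomputable abbrev act (σ : GK i₀) :
    (Cu (ca w m) (cb w m)).Point →+ (Cu (ca w m) (cb w m)).Point := galH h (rh σ) (fx σ)

lemma act_apply (σ : GK i₀) (P : (Cu (ca w m) (cb w m)).Point) :
    act h fx σ P = gal h (rh σ) (fx σ) P := rfl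

lemma exists_lift : ∀ P : (Cu (ca w m) (cb w m)).Point, IsLocallyConstant fun σ => act h fx σ P := by
  intro P
  rw [IsLocallyConstant.iff_exists_open]
  intro σ
  rcases P with _ | ⟨a, b, hab⟩
  · exact ⟨Set.univ, isOpen_univ, Set.mem_univ _, fun τ _ => rfl⟩
  · have ha := Pool.Agent.W309.TD.locConst_apply (K := KK i₀) (Ω := QB) a
    have hb := Pool.Agent.W309.TD.locConst_apply (K := KK i₀) (Ω := QB) b
    refine ⟨{τ | τ a = σ a} ∩ {τ | τ b = σ b}, (ha.isOpen_fiber (σ a)).inter (hb.isOpen_fiber (σ b)),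
      ⟨rfl, rfl⟩, ?_⟩
    rintro τ ⟨h1, h2⟩
    exact some_congr _ _ h1 h2

lemma cont_val (hx : Tow (eF h) (tA h) x) {κ : GK i₀ → ℤ_[2]}
    (hκ : ∀ σ, ActsBy x (act h fx σ) (κ σ)) : Continuous κ := by
  rw [Metric.continuous_iff']
  intro σ ε hε
  obtain ⟨n, hn⟩ := exists_pow_lt_of_lt_one hε (by norm_num : (1 / 2 : ℝ) < 1)
  obtain ⟨U, hU, hσ, hc⟩ := (IsLocallyConstant.iff_exists_open _).1 (exists_lift h fx (x n)) σ
  filter_upwards [hU.mem_nhds hσ] with τ hτ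
  have h1 := hc τ hτ
  obtain ⟨k, hk⟩ := exists_int (κ τ) n
  obtain ⟨l, hl⟩ := exists_int (κ σ) n
  rw [hκ τ n k hk, hκ σ n l hl] at h1
  have h2 : (k - l) • x n = 0 := by rw [sub_smul, h1, sub_self]
  have h3 := dvd_cast.2 (Tow.dvd (td h) hx h2)
  have h4 : (2 : ℤ_[2]) ^ n ∣ κ τ - κ σ := by
    have e : κ τ - κ σ = (κ τ - k) + ((k - l : ℤ) : ℤ_[2]) - (κ σ - l) := by
      push_cast
      ring
    rw [e]
    exact dvd_sub (dvd_add hk h3) hl
  rw [dist_eq_norm]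
  obtain ⟨c, hc⟩ := h4
  rw [hc, norm_mul, norm_pow]
  have h5 : ‖(2 : ℤ_[2])‖ = 1 / 2 := by
    have := PadicInt.norm_p (p := 2)
    simpa using this
  rw [h5]
  calc (1 / 2 : ℝ) ^ n * ‖c‖ ≤ (1 / 2 : ℝ) ^ n * 1 :=
        mul_le_mul_of_nonneg_left (PadicInt.norm_le_one c) (by positivity)
    _ < ε := by rwa [mul_one]

lemma Tow.two (hx : Tow (eF h) (tA h) x) : eF h (x 2) = tA h := by
  have h1 : eF h (eF h (x 2)) = 0 := hx.ker 2
  rcases ((td h).kf _).1 h1 with h2 | h2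
  · exfalso
    have h3 : x 2 + x 2 = 0 := by
      rcases ((td h).kf _).1 h2 with h3 | h3
      · rw [h3, add_zero]
      · rw [h3, (td h).T2]
    rw [hx.dbl 1, hx.one] at h3
    exact (td h).hT h3
  · exact h2

/-- The character by which the Galois group acts on the tower. -/
theorem exists_kap (hx : Tow (eF h) (tA h) x) {r : QB} (hr : r ^ 2 = m) :
    ∃ κ : GK i₀ →* ℤ_[2]ˣ, Continuous κ ∧ (∀ σ, ActsBy x (act h fx σ) (κ σ)) ∧
      (∀ σ : GK i₀, σ r = r → (4 : ℤ_[2]) ∣ (κ σ : ℤ_[2]) - 1) ∧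
      (∀ σ : GK i₀, σ r = -r → (4 : ℤ_[2]) ∣ (κ σ : ℤ_[2]) + 1) ∧
      (∀ (p : ℕ) [Fact p.Prime] (ι : QB →ₐ[ℚ] PadicAlgCl p) (τ : Au p) (σ : GK i₀),
        Cmp ι τ σ → Inert τ → ‖ι (1 - w)‖ = 1 →
          (σ r = r → κ σ = 1) ∧ (σ r = -r → κ σ = -1)) := by
  obtain ⟨κ, hκ⟩ := exists_char (td h) hx (act h fx) (fun P => by
      rcases P with _ | ⟨a, b, hab⟩
      · rfl
      · rfl) (fun σ τ P => by
      rcases P with _ | ⟨a, b, hab⟩
      · rfl
      · rfl) (fun σ P => gal_eF h (fx σ) P)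
  have h4 : ∀ (σ : GK i₀) (e : ℤ), act h fx σ (x 2) = e • x 2 → (4 : ℤ_[2]) ∣ (κ σ : ℤ_[2]) - e := by
    intro σ e he
    obtain ⟨k, hk⟩ := exists_int (κ σ : ℤ_[2]) 2
    rw [hκ σ 2 k hk] at he
    have h2 : (k - e) • x 2 = 0 := by rw [sub_smul, he, sub_self]
    have h3 := dvd_cast.2 (Tow.dvd (td h) hx h2)
    have e4 : (2 : ℤ_[2]) ^ 2 = 4 := by norm_num
    rw [e4] at hk h3
    have e5 : (κ σ : ℤ_[2]) - e = ((κ σ : ℤ_[2]) - k) + ((k - e : ℤ) : ℤ_[2]) := by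
      push_cast
      ring
    rw [e5]
    exact dvd_add hk h3
  refine ⟨κ, ?_, hκ, ?_, ?_, ?_⟩
  · have hv : Continuous fun σ => ((κ σ : ℤ_[2]ˣ) : ℤ_[2]) := cont_val h fx hx hκ
    rw [Units.continuous_iff]
    refine ⟨hv, ?_⟩
    have h1 : (fun σ : GK i₀ => (((κ σ)⁻¹ : ℤ_[2]ˣ) : ℤ_[2])) =
        (fun σ => ((κ σ : ℤ_[2]ˣ) : ℤ_[2])) ∘ (fun σ => σ⁻¹) := by
      funext σ
      simp
    rw [h1]
    exact hv.comp continuous_inv
  · intro σ hσ
    have := h4 σ 1 (by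
      rw [one_smul]
      exact (gal_four h (fx σ) hr (Tow.two h hx)).1 hσ)
    simpa using this
  · intro σ hσ
    have := h4 σ (-1) (by
      rw [neg_smul, one_smul]
      exact (gal_four h (fx σ) hr (Tow.two h hx)).2 hσ)
    simpa using this
  · intro p _ ι τ σ hc hin hw
    have key : ∀ e : ℤ, (e = 1 ∨ e = -1) → σ r = e * r → ∀ n, act h fx σ (x n) = e • x n := by
      intro e he hsr n
      exact inert_tow h hx hr (fx σ) (ι : QB →+* PadicAlgCl p) τ hc hin hw he hsr n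
    constructor
    · intro hσ
      apply Units.ext
      have h1 := key 1 (Or.inl rfl) (by rw [hσ]; simp)
      have h2 := ActsBy.one hx (a := act h fx σ) (fun n => by rw [h1 n, one_smul])
      rw [scalar_unique (td h) hx (hκ σ) h2]
      rfl
    · intro hσ
      apply Units.ext
      have h1 := key (-1) (Or.inr rfl) (by rw [hσ]; simp)
      have h2 := ActsBy.neg_one hx (a := act h fx σ) (fun n => by rw [h1 n, neg_smul, one_smul])
      rw [scalar_unique (td h) hx (hκ σ) h2]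
      rfl

end

end Pool.Agent.R384
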