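import Pool.Agent.R384.Curve
import Pool.Agent.R384.ChainG

/-!
# The curves `y² = x (x + D a²) (x + D b²)`
-/

set_option autoImplicit false
set_option linter.unusedSectionVars false

namespace Pool.Agent.R384

open WeierstrassCurve Pool.Agent.Y676.IS

variable {F : Type} [Field F] [CharZero F]

/-- the coefficients -/
def al (D a b : F) : F := D * (a ^ 2 + b ^ 2)
/-- the coefficients -/
def be (D a b : F) : F := D ^ 2 * a ^ 2 * b ^ 2

/-- the data of the curve -/
structure LD (D a b c : F) : Prop where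
  D0 : D ≠ 0
  a0 : a ≠ 0
  b0 : b ≠ 0
  c0 : c ≠ 0
  hc : a ^ 2 = b ^ 2 + c ^ 2

variable {D a b c a' b' : F}

lemma LD.neg (h : LD D a b c) : LD (-D) a c b :=
  ⟨neg_ne_zero.2 h.D0, h.a0, h.c0, h.b0, by rw [h.hc, add_comm]⟩

lemma LD.be0 (h : LD D a b c) : be D a b ≠ 0 :=
  mul_ne_zero (mul_ne_zero (pow_ne_zero _ h.D0) (pow_ne_zero _ h.a0)) (pow_ne_zero _ h.b0)

lemma LD.disc (h : LD D a b c) : al D a b ^ 2 - 4 * be D a b = (D * c ^ 2) ^ 2 := by
  unfold al be
  have hc : c ^ 2 = a ^ 2 - b ^ 2 := by rw [h.hc]; ring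
  rw [hc]
  ring

lemma LD.hd (h : LD D a b c) : al D a b ^ 2 - 4 * be D a b ≠ 0 := by
  rw [h.disc]
  exact pow_ne_zero _ (mul_ne_zero h.D0 (pow_ne_zero _ h.c0))

/-- the shift -/
lemma LD.sh (h : LD D a b c) : Sh (al D a b) (be D a b) (al (-D) a c) (be (-D) a c) (D * a ^ 2) where
  hb := h.be0
  hd := h.hd
  hb' := h.neg.be0
  hd' := h.neg.hd
  ea := by
    unfold al
    have hc : c ^ 2 = a ^ 2 - b ^ 2 := by rw [h.hc]; ring
    rw [hc]
    ring
  eb := by
    unfold al be
    have hc : c ^ 2 = a ^ 2 - b ^ 2 := by rw [h.hc]; ring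
    rw [hc]
    ring
  e0 := by
    unfold al be
    ring

/-- the next curve -/
structure LN (D a b c a' b' : F) : Prop extends LD D a b c where
  ea : 2 * a' = a + c
  eb : 2 * b' = a - c

lemma LN.ab (h : LN D a b c a' b') : 4 * (a' * b') = b ^ 2 := by
  have hc := h.hc
  linear_combination (2 * b') * h.ea + (a + c) * h.eb + hc

lemma LN.a0' (h : LN D a b c a' b') : a' ≠ 0 := by
  intro h0
  have := h.ab
  rw [h0, zero_mul, mul_zero] at this
  exact pow_ne_zero 2 h.b0 this.symm

lemma LN.b0' (h : LN D a b c a' b') : b' ≠ 0 := by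
  intro h0
  have := h.ab
  rw [h0, mul_zero, mul_zero] at this
  exact pow_ne_zero 2 h.b0 this.symm

lemma LN.be0' (h : LN D a b c a' b') : be D a' b' ≠ 0 :=
  mul_ne_zero (mul_ne_zero (pow_ne_zero _ h.D0) (pow_ne_zero _ h.a0')) (pow_ne_zero _ h.b0')

lemma LN.sa (h : LN D a b c a' b') : a' = (a + c) / 2 := by
  rw [eq_div_iff two_ne_zero, mul_comm]; exact h.ea

lemma LN.sb (h : LN D a b c a' b') : b' = (a - c) / 2 := by
  rw [eq_div_iff two_ne_zero, mul_comm]; exact h.eb

lemma LN.dat (h : LN D a b c a' b') : Dat (al (-D) a c) (be (-D) a c) (al D a' b') (be D a' b') 2 where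
  hb := h.neg.be0
  hb' := h.be0'
  hu := two_ne_zero
  e1 := by
    unfold al
    rw [h.sa, h.sb]
    ring
  e2 := by
    unfold al be
    rw [h.sa, h.sb]
    ring

lemma LN.dat' (h : LN D a b c a' b') : Dat (al D a' b') (be D a' b') (al (-D) a c) (be (-D) a c) 1 where
  hb := h.be0'
  hb' := h.neg.be0
  hu := one_ne_zero
  e1 := by
    unfold al
    rw [h.sa, h.sb]
    ring
  e2 := by
    unfold al be
    rw [h.sa, h.sb]
    ring

/-- the points of the curve -/
abbrev Pt (D a b : F) : Type := (Cu (al D a b) (be D a b)).Point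

/-- the point `(0, 0)` -/
def pT (h : LD D a b c) : Pt D a b := TT h.be0 h.hd

/-- the point `(-D a², 0)` -/
def pP (h : LD D a b c) : Pt D a b := shF h.sh.symm (TT h.neg.be0 h.neg.hd)

variable [DecidableEq F]

/-- the shift as a homomorphism -/
def sP (h : LD D a b c) : Pt D a b →+ Pt (-D) a c where
  toFun := shF h.sh
  map_zero' := rfl
  map_add' := shF_add h.sh

/-- the inverse of the shift -/
def sM (h : LD D a b c) : Pt (-D) a c →+ Pt D a b where
  toFun := shF h.sh.symm
  map_zero' := rfl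
  map_add' := shF_add h.sh.symm

lemma sM_sP (h : LD D a b c) (P : Pt D a b) : sM h (sP h P) = P := shF_inv h.sh P
lemma sP_sM (h : LD D a b c) (P : Pt (-D) a c) : sP h (sM h P) = P := shF_inv' h.sh P

lemma pP_ne (h : LD D a b c) : pP h ≠ 0 := by rintro ⟨⟩
lemma pT_ne (h : LD D a b c) : pT h ≠ 0 := by rintro ⟨⟩

lemma pP_ne_pT (h : LD D a b c) : pT h ≠ pP h := by
  intro h1
  unfold pP pT TT at h1
  rw [shF_some] at h1
  obtain ⟨e1, -⟩ := (Affine.Point.some.injEq _ _ _ _ _ _).mp h1
  have h2 : D * a ^ 2 = 0 := by linear_combination e1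
  exact mul_ne_zero h.D0 (pow_ne_zero _ h.a0) h2

lemma pT_two (h : LD D a b c) : pT h + pT h = 0 := T_add_T _ _

variable [IsAlgClosed F]

/-- the isogeny with kernel generated by `(-D a², 0)` -/
noncomputable def lf (h : LN D a b c a' b') : Pt D a b →+ Pt D a' b' where
  toFun P := isoF h.dat (shF h.sh P)
  map_zero' := rfl
  map_add' P Q := by rw [shF_add, add_all]

/-- the dual isogeny -/
noncomputable def lg (h : LN D a b c a' b') : Pt D a' b' →+ Pt D a b where
  toFun P := shF h.sh.symm (isoF h.dat' P)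
  map_zero' := rfl
  map_add' P Q := by rw [add_all, shF_add]

lemma lg_lf (h : LN D a b c a' b') (P : Pt D a b) : lg h (lf h P) = P + P := by
  change shF h.sh.symm (isoF h.dat' (isoF h.dat (shF h.sh P))) = P + P
  rw [dbl h.dat h.dat' (by ring), shF_add, shF_inv]

lemma lf_lg (h : LN D a b c a' b') (P : Pt D a' b') : lf h (lg h P) = P + P := by
  change isoF h.dat (shF h.sh (shF h.sh.symm (isoF h.dat' P))) = P + P
  rw [shF_inv', dbl h.dat' h.dat (by ring)]

lemma lf_surj (h : LN D a b c a' b') : Function.Surjective (lf h) := by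
  intro Q
  obtain ⟨P, hP⟩ := iso_surj h.dat Q
  refine ⟨shF h.sh.symm P, ?_⟩
  change isoF h.dat (shF h.sh (shF h.sh.symm P)) = Q
  rw [shF_inv', hP]

lemma lg_surj (h : LN D a b c a' b') : Function.Surjective (lg h) := by
  intro Q
  obtain ⟨P, hP⟩ := iso_surj h.dat' (shF h.sh Q)
  refine ⟨P, ?_⟩
  change shF h.sh.symm (isoF h.dat' P) = Q
  rw [hP, shF_inv]

lemma lf_ker (h : LN D a b c a' b') (P : Pt D a b) : lf h P = 0 ↔ P = 0 ∨ P = pP h.toLD := by
  change isoF h.dat (shF h.sh P) = 0 ↔ _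
  rw [iso_ker]
  constructor
  · rintro (h1 | h1)
    · left
      have := congrArg (shF h.sh.symm) h1
      rwa [shF_inv, shF_zero] at this
    · right
      have := congrArg (shF h.sh.symm) h1
      rwa [shF_inv] at this
  · rintro (h1 | h1)
    · left
      rw [h1, shF_zero]
    · right
      rw [h1]
      exact shF_inv' h.sh _

lemma lg_ker (h : LN D a b c a' b') (P : Pt D a' b') :
    lg h P = 0 ↔ P = 0 ∨ P = TT h.dat'.hb h.dat'.hd := by
  change shF h.sh.symm (isoF h.dat' P) = 0 ↔ _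
  rw [← iso_ker h.dat']
  constructor
  · intro h1
    have := congrArg (shF h.sh) h1
    rwa [shF_inv', shF_zero] at this
  · intro h1
    rw [h1, shF_zero]

/-- the chain of curves -/
theorem chain {D : F} {a b c : ℕ → F} (h : ∀ n, LN D (a n) (b n) (c n) (a (n + 1)) (b (n + 1))) :
    CD (fun n => Pt D (a n) (b n)) (fun n => lf (h n)) (fun n => lg (h n))
      (fun n => pP (h n).toLD) (fun n => pT (h n).toLD) where
  gf n P := lg_lf (h n) P
  fg n P := lf_lg (h n) P
  fsurj n := lf_surj (h n)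
  gsurj n := lg_surj (h n)
  kf n P := lf_ker (h n) P
  kg n P := lg_ker (h n) P
  T0 n := pT_ne _
  P0 n := pP_ne _
  T2 := pT_two _
  ne n := pP_ne_pT _

end Pool.Agent.R384
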