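import Pool.Agent.R384.Emb

/-!
# Square roots in local fields
-/

set_option autoImplicit false
set_option linter.unusedSectionVars false

namespace Pool.Agent.R384

open Pool.Agent.Y715.Red Pool.Agent.Y715.Nr Pool.Agent.W237.RK
open Pool.Agent.Y715.Lc (norm_two_odd)
open Pool.Agent.Y715.Gi (norm_two')

/-- `x` is a square modulo `q` -/
def Sqm (q x : OO) : Prop := ∃ y : OO, q ∣ x - y ^ 2

section odd

variable {p : ℕ} [Fact p.Prime] {w : PadicAlgCl p} (hw : w ^ 2 = w - 2)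

/-- square roots of units -/
lemma fix_of_unit (hp : p ≠ 2) {z : OO} {s : PadicAlgCl p} (hs : s ^ 2 = em hw z)
    (hz : ¬ ‖em hw z‖ < 1) {τ : Au p} (hτ : Inert τ) (hτI : τ w = w) : τ s = s := by
  have h1 := eq_one_of_not_lt hw hz
  have h2 : ‖s‖ = 1 := by
    rw [← hs, norm_pow] at h1
    exact (pow_eq_one_iff_of_nonneg (norm_nonneg _) two_ne_zero).1 h1
  have h3 : (τ s) ^ 2 = s ^ 2 := by
    rw [← map_pow, hs, em_fix hw hτI]
  rcases sq_eq_sq_iff_eq_or_eq_neg.1 h3 with h4 | h4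
  · exact h4
  · exfalso
    have h5 := hτ s h2.le
    have e : τ s - s = -(2 * s) := by rw [h4]; ring
    rw [e, norm_neg, norm_mul, norm_two_odd hp, h2] at h5
    norm_num at h5

include hw in
lemma norm_rt (hp : p ≠ 7) : ‖2 * w - 1‖ = 1 := by
  have h1 : (2 * w - 1) ^ 2 = -((7 : ℕ) : PadicAlgCl p) := by
    push_cast
    linear_combination 4 * hw
  have hpp : p.Prime := Fact.out
  have h : ¬ p ∣ 7 := fun h => hp ((Nat.prime_dvd_prime_iff_eq hpp (by norm_num)).1 h)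
  have h2 := Pool.Agent.W327.RK.norm_nat h
  have h3 : ‖2 * w - 1‖ ^ 2 = 1 := by
    rw [← norm_pow, h1, norm_neg]
    exact h2
  exact (pow_eq_one_iff_of_nonneg (norm_nonneg _) two_ne_zero).1 h3

include hw in
/-- the residue field -/
theorem residue (hp : p ≠ 7) (h2 : ‖(2 : PadicAlgCl p)‖ = 1)
    {y : PadicAlgCl p} (hy : ‖y‖ ≤ 1) (h : ∀ τ : Au p, τ w = w → τ y = y) :
    ∃ a b : ℤ, ‖y - (a + b * w)‖ < 1 := by
  by_cases hall : ∀ τ : Au p, τ y = y
  · obtain ⟨a, ha⟩ := near hy hall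
    refine ⟨a, 0, ?_⟩
    simpa using ha
  · push Not at hall
    obtain ⟨t, hty⟩ := hall
    have htI : t w = 1 - w := by
      rcases w_or hw t with h1 | h1
      · exact absurd (h t h1) hty
      · exact h1
    have htI' : t⁻¹ w = 1 - w := by
      have := congrArg (t⁻¹ : Au p) htI
      rw [← AlgEquiv.mul_apply, inv_mul_cancel, AlgEquiv.one_apply, map_sub, map_one] at this
      linear_combination this
    have key : ∀ τ : Au p, τ w = 1 - w → τ y = t y := by
      intro τ hτI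
      have h1 : (t⁻¹ * τ) y = y := by
        apply h
        rw [AlgEquiv.mul_apply, hτI, map_sub, map_one, htI']
        ring
      have h2 := congrArg t h1
      rw [← AlgEquiv.mul_apply, ← mul_assoc, mul_inv_cancel, one_mul] at h2
      exact h2
    have hc1 : ∀ τ : Au p, τ w = w → τ (t y) = t y := by
      intro τ h1
      have h3 := key (τ * t) (by rw [AlgEquiv.mul_apply, htI, map_sub, map_one, h1])
      rwa [AlgEquiv.mul_apply] at h3
    have hc2 : ∀ τ : Au p, τ w = 1 - w → τ (t y) = y := by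
      intro τ h1
      have h3 := h (τ * t) (by rw [AlgEquiv.mul_apply, htI, map_sub, map_one, h1]; ring)
      rwa [AlgEquiv.mul_apply] at h3
    have h20 : (2 : PadicAlgCl p) ≠ 0 := by
      intro h0
      rw [h0, norm_zero] at h2
      exact zero_ne_one h2
    have hI1 : ‖2 * w - 1‖ = 1 := norm_rt hw hp
    have hI0 : 2 * w - 1 ≠ 0 := by
      intro h0
      rw [h0, norm_zero] at hI1
      exact zero_ne_one hI1
    have hty1 : ‖t y‖ ≤ 1 := by rwa [nrm]
    obtain ⟨a, ha⟩ := near (x := (y + t y) / 2) (by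
      rw [norm_div, h2, div_one]
      exact add_le hy hty1) (by
      intro τ
      rw [map_div₀, map_add, map_ofNat]
      rcases w_or hw τ with h1 | h1
      · rw [h τ h1, hc1 τ h1]
      · rw [key τ h1, hc2 τ h1, add_comm])
    obtain ⟨b, hb⟩ := near (x := (y - t y) / (2 * (2 * w - 1))) (by
      rw [norm_div, norm_mul, h2, hI1, mul_one, div_one]
      exact sub_le hy hty1) (by
      intro τ
      rw [map_div₀, map_sub, map_mul, map_sub, map_mul, map_ofNat, map_one]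
      rcases w_or hw τ with h1 | h1
      · rw [h τ h1, hc1 τ h1, h1]
      · rw [key τ h1, hc2 τ h1, h1]
        have e : (2 : PadicAlgCl p) * (2 * (1 - w) - 1) = -(2 * (2 * w - 1)) := by ring
        rw [e, div_neg, ← neg_div, neg_sub])
    refine ⟨a - b, 2 * b, ?_⟩
    have e : y - (((a - b : ℤ) : PadicAlgCl p) + ((2 * b : ℤ) : PadicAlgCl p) * w) =
        ((y + t y) / 2 - a) + ((y - t y) / (2 * (2 * w - 1)) - b) * (2 * w - 1) := by
      push_cast
      field_simp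
      ring
    rw [e]
    refine add_lt ha ?_
    rw [norm_mul, hI1, mul_one]
    exact hb

/-- squares -/
lemma resid (hp : p ≠ 2) (hp7 : p ≠ 7) {ρ : OO} (hρ : Prime ρ) (hl : ‖em hw ρ‖ < 1) {x : OO}
    {y : PadicAlgCl p} (hy : y ^ 2 = em hw x) (hfix : ∀ τ : Au p, τ w = w → τ y = y) :
    Sqm ρ x := by
  have hy1 : ‖y‖ ≤ 1 := by
    apply Pool.Agent.Y715.Red.sq_le
    rw [hy]
    exact em_le hw x
  obtain ⟨a, b, hab⟩ := residue hw hp7 (norm_two_odd hp) hy1 hfix
  refine ⟨⟨a, b⟩, (dvd_iff hw hρ hl _).2 ?_⟩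
  have h1 : em hw (⟨a, b⟩ : OO) = a + b * w := rfl
  have h2 : ‖(a + b * w : PadicAlgCl p)‖ ≤ 1 := by
    rw [← h1]
    exact em_le hw _
  rw [map_sub, map_pow, h1, ← hy]
  have e : y ^ 2 - (a + b * w) ^ 2 = (y - (a + b * w)) * (y + (a + b * w)) := by ring
  rw [e, norm_mul]
  calc ‖y - (a + b * w)‖ * ‖y + (a + b * w)‖ ≤ ‖y - (a + b * w)‖ * 1 :=
        mul_le_mul_of_nonneg_left (add_le hy1 h2) (norm_nonneg _)
    _ < 1 := by rwa [mul_one]

end odd

section two

/-- the square of a unit of `ℚ_2` is one modulo eight -/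
lemma sq_mod_eight {y : PadicAlgCl 2} (hy : ‖y‖ = 1) (h : ∀ τ : Au 2, τ y = y) :
    ‖y ^ 2 - 1‖ ≤ 1 / 8 := by
  obtain ⟨a, ha⟩ := near hy.le h
  obtain ⟨x, rfl⟩ := fix_mem h
  have hx : ‖x‖ = 1 := by
    rw [← PadicAlgCl.norm_extends 2 x]
    exact hy
  -- in `ℤ_2`
  have key : ∀ z : ℤ_[2], IsUnit z → (8 : ℤ_[2]) ∣ z ^ 2 - 1 := by
    intro z hz
    have h1 : PadicInt.toZModPow 3 (z ^ 2 - 1) = 0 := by
      have hu : IsUnit (PadicInt.toZModPow 3 z) := hz.map _
      have h3 : ∀ a : ZMod (2 ^ 3), IsUnit a → a ^ 2 - 1 = 0 := by decide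
      rw [map_sub, map_pow, map_one]
      exact h3 _ hu
    have h2 : (z ^ 2 - 1) ∈ RingHom.ker (PadicInt.toZModPow (p := 2) 3) := h1
    rw [PadicInt.ker_toZModPow, Ideal.mem_span_singleton] at h2
    have e : ((2 : ℕ) : ℤ_[2]) ^ 3 = 8 := by norm_num
    rwa [e] at h2
  let z : ℤ_[2] := ⟨x, hx.le⟩
  obtain ⟨c, hc⟩ := key z (PadicInt.isUnit_iff.2 hx)
  have h4 : ‖z ^ 2 - 1‖ ≤ 1 / 8 := by
    rw [hc, norm_mul]
    have h5 : ‖(8 : ℤ_[2])‖ = 1 / 8 := by
      have e : (8 : ℤ_[2]) = ((2 : ℕ) : ℤ_[2]) ^ 3 := by norm_num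
      rw [e, norm_pow, PadicInt.norm_p]
      norm_num
    rw [h5]
    have := PadicInt.norm_le_one c
    linarith
  have h6 : ‖x ^ 2 - 1‖ ≤ 1 / 8 := by
    have e : x ^ 2 - 1 = ((z ^ 2 - 1 : ℤ_[2]) : ℚ_[2]) := by push_cast; rfl
    rw [e]
    exact h4
  rw [← PadicAlgCl.norm_extends 2] at h6
  have e : algebraMap ℚ_[2] (PadicAlgCl 2) x ^ 2 - 1 = ((x ^ 2 - 1 : ℚ_[2]) : PadicAlgCl 2) := by
    show _ = algebraMap ℚ_[2] (PadicAlgCl 2) _
    rw [map_sub, map_pow, map_one]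
  rw [e]
  exact h6

variable {w : PadicAlgCl 2} (hw : w ^ 2 = w - 2)

include hw in
/-- `√-7` is in `ℚ_2` -/
lemma two_fix (τ : Au 2) : τ w = w := by
  rcases w_or hw τ with h | h
  · exact h
  · exfalso
    have h1 : w * (1 - w) = 2 := by linear_combination -hw
    have h2 : ‖w‖ * ‖1 - w‖ = 1 / 2 := by
      rw [← norm_mul, h1, norm_two']
      norm_num
    have h3 : ‖1 - w‖ = ‖w‖ := by rw [← h, nrm]
    rw [h3] at h2
    have h4 : ‖w‖ < 1 := by nlinarith [norm_nonneg w]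
    have h5 : ‖(1 : PadicAlgCl 2)‖ < 1 := by
      have e : (1 : PadicAlgCl 2) = w + (1 - w) := by ring
      rw [e]
      exact add_lt h4 (by rw [h3]; exact h4)
    rw [norm_one] at h5
    exact lt_irrefl _ h5

end two

end Pool.Agent.R384
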