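import Pool.Agent.R384.Kap
import Pool.Agent.R384.Alg

/-!
# The vanishing of the Selmer groups
-/

set_option autoImplicit false
set_option linter.unusedSectionVars false

namespace Pool.Agent.R384

open Pool.Agent.Y715.Red Pool.Agent.Y715.Nr Pool.Agent.W237.RK
open Pool.Agent.Y715.Gi (QB KK GK i₀_mem gk_fix)
open Pool.Agent.Y715.Df (Cmp exists_cmp)
open Pool.Agent.Y715.Lc (norm_two_odd)

open scoped Classical

variable {i₀ : QB} (hi : i₀ ^ 2 = i₀ - 2)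

/-- the data of a character that is quadratic modulo four and on the inertia groups -/
structure ChiD (χ : GK i₀ →* ℤ_[2]ˣ) (m : OO) (r : QB) : Prop where
  cont : Continuous χ
  hr : r ^ 2 = em hi m
  one : ∀ σ : GK i₀, σ r = r → (4 : ℤ_[2]) ∣ (χ σ : ℤ_[2]) - 1
  neg : ∀ σ : GK i₀, σ r = -r → (4 : ℤ_[2]) ∣ (χ σ : ℤ_[2]) + 1
  inert : ∀ (p : ℕ) [Fact p.Prime] (ι : QB →ₐ[ℚ] PadicAlgCl p) (τ : Au p) (σ : GK i₀),
    p ≠ 2 → Cmp ι τ σ → Inert τ → (σ r = r → χ σ = 1) ∧ (σ r = -r → χ σ = -1)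

/-- the inertia group -/
def II {p : ℕ} [Fact p.Prime] (ι : QB →ₐ[ℚ] PadicAlgCl p) : Set (GK i₀) :=
  {σ | ∃ τ : Au p, Cmp ι τ σ ∧ Inert τ}

/-- the decomposition group -/
def DD {p : ℕ} [Fact p.Prime] (ι : QB →ₐ[ℚ] PadicAlgCl p) : Set (GK i₀) :=
  {σ | ∃ τ : Au p, Cmp ι τ σ}

section basic

variable {p : ℕ} [Fact p.Prime] (ι : QB →ₐ[ℚ] PadicAlgCl p)

include hi in
lemma iw : (ι i₀) ^ 2 = ι i₀ - 2 := by rw [← map_pow, hi, map_sub, map_ofNat]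

lemma ι_em (z : OO) : ι (em hi z) = em (iw hi ι) z := map_em ι.toRingHom hi (iw hi ι) rfl z

variable {ι}

lemma conj_mem {σ₀ τ : GK i₀} (h0 : σ₀ ∈ II ι) (ht : τ ∈ DD ι) : τ⁻¹ * σ₀ * τ ∈ II ι := by
  obtain ⟨t0, h1, h2⟩ := h0
  obtain ⟨t, h3⟩ := ht
  have h4 : Cmp ι t⁻¹ τ⁻¹ := by
    intro x
    have h5 := h3 (τ⁻¹ x)
    rw [← AlgEquiv.mul_apply τ τ⁻¹, mul_inv_cancel, AlgEquiv.one_apply] at h5
    rw [← h5, ← AlgEquiv.mul_apply t⁻¹ t, inv_mul_cancel, AlgEquiv.one_apply]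
  refine ⟨t⁻¹ * t0 * t, (h4.mul h1).mul h3, ?_⟩
  intro z hz
  have h5 := h2 (t z) (by rwa [nrm])
  have e : (t⁻¹ * t0 * t) z - z = t⁻¹ (t0 (t z) - t z) := by
    rw [map_sub, AlgEquiv.mul_apply, AlgEquiv.mul_apply, ← AlgEquiv.mul_apply t⁻¹ t,
      inv_mul_cancel, AlgEquiv.one_apply]
  rw [e, nrm]
  exact h5

lemma fix_D {s : QB} (h : ∀ σ ∈ (DD ι : Set (GK i₀)), σ s = s) (τ : Au p) (hτ : τ (ι i₀) = ι i₀) :
    τ (ι s) = ι s := by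
  obtain ⟨σ, hσ⟩ := exists_cmp ι τ hτ
  rw [hσ, h σ ⟨τ, hσ⟩]

lemma fix_I {s : QB} (h : ∀ σ ∈ (II ι : Set (GK i₀)), σ s = s) (τ : Au p) (hin : Inert τ)
    (hτ : τ (ι i₀) = ι i₀) : τ (ι s) = ι s := by
  obtain ⟨σ, hσ⟩ := exists_cmp ι τ hτ
  rw [hσ, h σ ⟨τ, hσ, hin⟩]

lemma II_sub {σ : GK i₀} (h : σ ∈ II ι) : σ ∈ DD ι := by
  obtain ⟨τ, h1, -⟩ := h
  exact ⟨τ, h1⟩

end basic

lemma rt_or {m : OO} {r : QB} (hr : r ^ 2 = em hi m) (σ : GK i₀) : σ r = r ∨ σ r = -r := by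
  have h : (σ r) ^ 2 = r ^ 2 := by rw [← map_pow, hr, gk_em]
  exact sq_eq_sq_iff_eq_or_eq_neg.1 h

lemma norm_of_four {z : ℤ_[2]} (h : (4 : ℤ_[2]) ∣ z) : ‖(z : ℚ_[2])‖ ≤ 1 / 4 := by
  obtain ⟨c, rfl⟩ := h
  rw [PadicInt.padic_norm_e_of_padicInt, norm_mul]
  have h4 : ‖(4 : ℤ_[2])‖ = 1 / 4 := by
    have e : (4 : ℤ_[2]) = ((2 : ℕ) : ℤ_[2]) ^ 2 := by norm_num
    rw [e, norm_pow, PadicInt.norm_p]
    norm_num
  rw [h4]
  have := PadicInt.norm_le_one c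
  linarith

variable {χ : GK i₀ →* ℤ_[2]ˣ} {m : OO} {r : QB}

lemma ChiD.small (cd : ChiD hi χ m r) {σ : GK i₀} (h : σ r = r) : ‖vl χ σ - 1‖ < 1 / 2 := by
  have h1 := norm_of_four (cd.one σ h)
  have e : (((χ σ : ℤ_[2]) - 1 : ℤ_[2]) : ℚ_[2]) = vl χ σ - 1 := by
    unfold vl
    push_cast
    rfl
  rw [e] at h1
  linarith

lemma ChiD.big (cd : ChiD hi χ m r) {σ : GK i₀} (h : σ r = -r) : ‖vl χ σ - 1‖ = 1 / 2 := by
  have h1 := norm_of_four (cd.neg σ h)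
  have e : (((χ σ : ℤ_[2]) + 1 : ℤ_[2]) : ℚ_[2]) = vl χ σ + 1 := by
    unfold vl
    push_cast
    rfl
  rw [e] at h1
  have h2 := vl_sub_one (χ := χ) σ
  refine le_antisymm h2 ?_
  by_contra hcon
  push Not at hcon
  have h3 : ‖(2 : ℚ_[2])‖ < 1 / 2 := by
    have e2 : (2 : ℚ_[2]) = (vl χ σ + 1) + -(vl χ σ - 1) := by ring
    rw [e2]
    exact add_lt' (by linarith) (by rwa [norm_neg])
  rw [Pool.Agent.R384.norm_two'] at h3
  exact lt_irrefl _ h3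

lemma ChiD.iff (cd : ChiD hi χ m r) (σ : GK i₀) : ‖vl χ σ - 1‖ < 1 / 2 ↔ σ r = r := by
  constructor
  · intro h
    rcases rt_or hi cd.hr σ with h1 | h1
    · exact h1
    · rw [cd.big hi h1] at h
      exact absurd h (lt_irrefl _)
  · exact cd.small hi

/-- the conclusion of the local analysis: either `√δ` or `√(δ m)` is fixed by the group `D` -/
lemma loc_dich (cd : ChiD hi χ m r) {c : GK i₀ → ℚ_[2]} (hc1 : ∀ σ, ‖c σ‖ ≤ 1) {D : Set (GK i₀)}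
    (hD : CobOn χ D c) {σ₀ : GK i₀} (h0 : σ₀ ∈ D) (h2 : σ₀ r = -r) {δ : OO} {s : QB}
    (hs : s ^ 2 = em hi δ) (hk : ∀ σ : GK i₀, σ s = s ↔ md c σ = 0) :
    (∀ σ ∈ D, σ s = s) ∨ ∀ σ ∈ D, σ (s * r) = s * r := by
  rcases loc_four hD hc1 h0 (cd.big hi h2) with h3 | h3
  · left
    intro σ hσ
    exact (hk σ).2 (h3 σ hσ)
  · right
    intro σ hσ
    have h4 := h3 σ hσ
    rw [← hk σ, cd.iff hi] at h4
    rw [map_mul]
    rcases rt_or hi cd.hr σ with h5 | h5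
    · rw [h5, h4.2 h5]
    · rcases rt_or hi hs σ with h6 | h6
      · rw [h6, h4.1 h6]
      · rw [h5, h6]
        ring

/-- the cocycle is trivial on an unramified inertia group -/
lemma unram (cd : ChiD hi χ m r) {c : GK i₀ → ℚ_[2]} {p : ℕ} [Fact p.Prime] (hp : p ≠ 2)
    {ι : QB →ₐ[ℚ] PadicAlgCl p} (hD : CobOn χ (II ι) c)
    (hm : ¬ ‖em (iw hi ι) m‖ < 1) : ∀ σ ∈ (II ι : Set (GK i₀)), md c σ = 0 := by
  apply loc_triv hD
  rintro σ ⟨τ, hτ, hin⟩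
  have h1 : (ι r) ^ 2 = em (iw hi ι) m := by rw [← map_pow, cd.hr, ι_em]
  have h2 : τ (ι r) = ι r := fix_of_unit (iw hi ι) hp h1 hm hin hτ.fix
  have h3 : σ r = r := by
    apply ι.injective
    show ι (σ r) = ι r
    rw [← hτ, h2]
  have h4 := (cd.inert p ι τ σ hp hτ hin).1 h3
  unfold vl
  rw [h4]
  simp

/-- an element of the inertia group of a prime divisor that moves `√m` -/
lemma exists_ram (cd : ChiD hi χ m r) {q m1 : OO} (hq : Prime q) (hm : m = q * m1) (hq1 : ¬ q ∣ m1)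
    {p : ℕ} [Fact p.Prime] {ι : QB →ₐ[ℚ] PadicAlgCl p} (hι : ‖em (iw hi ι) q‖ < 1) :
    ∃ σ ∈ (II ι : Set (GK i₀)), σ r = -r := by
  by_contra hcon
  push Not at hcon
  refine no_simple (iw hi ι) hq hι hq1 (s := ι r) ?_ ?_
  · rw [← map_pow, cd.hr, ι_em, hm]
  · intro τ hin hτ
    refine fix_I (fun σ hσ => ?_) τ hin hτ
    rcases rt_or hi cd.hr σ with h | h
    · exact h
    · exact absurd h (hcon σ hσ)

lemma two_of_dvd {ρ : OO} (hρ : Prime ρ) {p : ℕ} [Fact p.Prime] {w : PadicAlgCl p}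
    (hw : w ^ 2 = w - 2) (h : ‖em hw ρ‖ < 1) : p = 2 ↔ ρ ∣ 2 := by
  constructor
  · rintro rfl
    have := (dvd_iff hw hρ h ((2 : ℕ) : OO)).2 (p_lt hw)
    exact_mod_cast this
  · intro h1
    by_contra hp
    have h2 := (dvd_iff hw hρ h 2).1 h1
    rw [map_ofNat, norm_two_odd hp] at h2
    exact lt_irrefl _ h2

lemma nn_mod (h : Pr m) : nn m % 4 = 1 := by
  obtain ⟨a, ha⟩ := h.re
  obtain ⟨b, hb⟩ := h.im
  have e : nn m = 4 * (4 * a ^ 2 + 2 * a + (4 * a + 1) * b + 8 * b ^ 2) + 1 := by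
    rw [nn, hb, show m.re = 4 * a + 1 by linarith]
    ring
  omega

lemma seven_of {q : OO} (hq : Pr q) {p : ℕ} [Fact p.Prime] {w : PadicAlgCl p}
    (hw : w ^ 2 = w - 2) (h : ‖em hw q‖ < 1) : p ≠ 7 := by
  rintro rfl
  have e7 : ((7 : ℕ) : OO) = -(⟨-1, 2⟩ * ⟨-1, 2⟩) := by
    ext
    · rw [QuadraticAlgebra.re_natCast]; simp
    · rw [QuadraticAlgebra.im_natCast]; simp
  have h1 := (dvd_iff hw hq.prime h ((7 : ℕ) : OO)).2 (p_lt hw)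
  rw [e7, dvd_neg] at h1
  have h2 : q ∣ ⟨-1, 2⟩ := (hq.prime.dvd_or_dvd h1).elim id id
  obtain ⟨t, ht⟩ := h2
  have h3 := congrArg nn ht
  rw [nn_mul] at h3
  have h4 : nn (⟨-1, 2⟩ : OO) = 7 := by simp [nn]
  rw [h4] at h3
  have h5 := nn_mod hq
  have h6 := nn_nonneg q
  have h7 : nn q ∣ 7 := ⟨_, h3⟩
  have h8 : nn q ≤ 7 := Int.le_of_dvd (by norm_num) h7
  have h9 : nn q ≠ 1 := fun h => hq.prime.not_isUnit (unit_iff.2 h)
  have h10 : nn q = 5 := by omega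
  rw [h10] at h7
  norm_num at h7

/-- the local condition at a prime divisor of `m` -/
lemma loc_q (cd : ChiD hi χ m r) {c : GK i₀ → ℚ_[2]} (hc : Coc χ c) (hc1 : ∀ σ, ‖c σ‖ ≤ 1)
    {q m1 : OO} (hq : Pr q) (hm : m = q * m1) (hq1 : ¬ q ∣ m1)
    {p : ℕ} [Fact p.Prime] {ι : QB →ₐ[ℚ] PadicAlgCl p} (hι : ‖em (iw hi ι) q‖ < 1)
    (hD : CobOn χ (II ι) c) {δ : OO} (hδ : Squarefree δ) {s : QB}
    (hs : s ^ 2 = em hi δ) (hk : ∀ σ : GK i₀, σ s = s ↔ md c σ = 0) :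
    (¬ q ∣ δ ∧ Sqm q δ) ∨ ∃ δ1 m1, δ = q * δ1 ∧ m = q * m1 ∧ Sqm q (δ1 * m1) := by
  have hp2 : p ≠ 2 := fun h => hq.two ((two_of_dvd hq.prime (iw hi ι) hι).1 h)
  have hp7 : p ≠ 7 := seven_of hq (iw hi ι) hι
  obtain ⟨σ₀, h0, h2⟩ := exists_ram hi cd hq.prime hm hq1 hι
  have hχ : vl χ σ₀ = -1 := by
    obtain ⟨τ, hτ, hin⟩ := h0
    unfold vl
    rw [(cd.inert p ι τ σ₀ hp2 hτ hin).2 h2]
    simp
  have hD' : CobOn χ (DD ι) c := dec_of_inert hc hD h0 hχ fun τ hτ => conj_mem h0 hτ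
  have hsq : (ι s) ^ 2 = em (iw hi ι) δ := by rw [← map_pow, hs, ι_em]
  rcases loc_dich hi cd hc1 hD' (II_sub h0) h2 hs hk with h | h
  · left
    refine ⟨not_dvd_of_fix (iw hi ι) hq.prime hι hδ hsq fun τ _ hτ => fix_D h τ hτ, ?_⟩
    exact resid (iw hi ι) hp2 hp7 hq.prime hι hsq (fix_D h)
  · right
    have hsr : (s * r) ^ 2 = em hi (δ * m) := by rw [mul_pow, hs, cd.hr, map_mul]
    have hdv : q ∣ δ := by
      by_contra hcon
      refine no_simple (iw hi ι) hq.prime hι (t := δ * m1) (s := ι (s * r))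
        (fun h => (hq.prime.dvd_or_dvd h).elim hcon hq1) ?_ fun τ _ hτ => fix_D h τ hτ
      rw [← map_pow, hsr, ι_em, hm]
      congr 1
      ring
    obtain ⟨δ1, hδ1⟩ := hdv
    refine ⟨δ1, m1, hδ1, hm, ?_⟩
    have hq0 : em (iw hi ι) q ≠ 0 := em_ne _ hq.prime.ne_zero
    refine resid (iw hi ι) hp2 hp7 hq.prime hι (y := ι (s * r) / em (iw hi ι) q) ?_ ?_
    · rw [div_pow, ← map_pow, hsr, ι_em, hδ1, hm, div_eq_iff (pow_ne_zero _ hq0), ← map_pow,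
        ← map_mul]
      congr 1
      ring
    · intro τ hτ
      rw [map_div₀, fix_D h τ hτ, em_fix (iw hi ι) hτ]

/-- a number congruent to `5` or `-5` modulo `8` -/
lemma five_of {m : OO} (h8 : (8 : OO) ∣ m - 5 ∨ (8 : OO) ∣ m + 5) {w : PadicAlgCl 2}
    (hw : w ^ 2 = w - 2) : ∃ z : ℤ, (z = 5 ∨ z = -5) ∧ ‖em hw m - z‖ ≤ 1 / 8 := by
  have h8n : ‖(8 : PadicAlgCl 2)‖ = 1 / 8 := by
    have e : (8 : PadicAlgCl 2) = 2 ^ 3 := by norm_num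
    rw [e, norm_pow, Pool.Agent.Y715.Gi.norm_two']
    norm_num
  have key : ∀ t : OO, ‖em hw (8 * t)‖ ≤ 1 / 8 := by
    intro t
    rw [map_mul, map_ofNat, norm_mul, h8n]
    have := em_le hw t
    linarith
  rcases h8 with ⟨t, ht⟩ | ⟨t, ht⟩
  · refine ⟨5, Or.inl rfl, ?_⟩
    have := key t
    rw [← ht, map_sub, map_ofNat] at this
    push_cast
    exact this
  · refine ⟨-5, Or.inr rfl, ?_⟩
    have := key t
    rw [← ht, map_add, map_ofNat] at this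
    push_cast
    rw [sub_neg_eq_add]
    exact this

lemma odd_norm {z : ℤ} (hz : z % 2 = 1) : ‖(z : PadicAlgCl 2)‖ = 1 := by
  have h1 : ¬ 2 ∣ z.natAbs := by omega
  have h2 := Pool.Agent.W327.RK.norm_nat (p := 2) h1
  rcases Int.natAbs_eq z with h | h
  · have e : (z : PadicAlgCl 2) = ((z.natAbs : ℕ) : PadicAlgCl 2) := by
      rw [← Int.cast_natCast, ← h]
    rw [e]
    exact h2
  · have e : (z : PadicAlgCl 2) = -((z.natAbs : ℕ) : PadicAlgCl 2) := by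
      rw [← Int.cast_natCast, ← Int.cast_neg, ← h]
    rw [e, norm_neg]
    exact h2

lemma even_norm {z k : ℤ} {n : ℕ} (hz : z = 2 ^ n * k) (hk : k % 2 = 1) :
    ‖(z : PadicAlgCl 2)‖ = (1 / 2) ^ n := by
  rw [hz]
  push_cast
  rw [norm_mul, norm_pow, Pool.Agent.Y715.Gi.norm_two', odd_norm hk, mul_one]
  norm_num

end Pool.Agent.R384
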