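import Pool.Agent.R384.ChainG

/-!
# Matrices of the endomorphisms on a basis of the Tate module
-/

set_option autoImplicit false
set_option linter.unusedSectionVars false

namespace Pool.Agent.R384

/-- a basis of the Tate module -/
structure Bs {A : Type} [AddCommGroup A] (e : Fin 2 → ℕ → A) : Prop where
  zero : ∀ i, e i 0 = 0
  dbl : ∀ i n, e i (n + 1) + e i (n + 1) = e i n
  span : ∀ (n : ℕ) (P : A), (2 ^ n : ℤ) • P = 0 → ∃ k : Fin 2 → ℤ, P = ∑ i, k i • e i n
  indep : ∀ (n : ℕ) (k : Fin 2 → ℤ), ∑ i, k i • e i n = 0 → ∀ i, (2 ^ n : ℤ) ∣ k i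

/-- the matrix of an endomorphism -/
def Acts {A : Type} [AddCommGroup A] (e : Fin 2 → ℕ → A) (f : A →+ A)
    (M : Matrix (Fin 2) (Fin 2) ℤ_[2]) : Prop :=
  ∀ (n : ℕ) (k : Fin 2 → Fin 2 → ℤ), (∀ i j, (2 : ℤ_[2]) ^ n ∣ M i j - k i j) →
    ∀ j, f (e j n) = ∑ i, k i j • e i n

variable {A : Type} [AddCommGroup A] {e : Fin 2 → ℕ → A}

lemma bs_of {Q Q' : A} {x y : ℕ → A} (hx : Sq Q x) (hy : Sq Q' y)
    (h4 : ∀ z : A, z + z = 0 → z = 0 ∨ z = Q ∨ z = Q' ∨ z = Q + Q') (hQ : Q ≠ 0) (hQ' : Q' ≠ 0)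
    (hne : Q ≠ Q') : Bs ![x, y] where
  zero i := by fin_cases i; exacts [hx.zero, hy.zero]
  dbl i n := by fin_cases i; exacts [hx.dbl n, hy.dbl n]
  span n P hP := by
    obtain ⟨a, b, h⟩ := hx.basis hy h4 hP
    refine ⟨![a, b], ?_⟩
    rw [Fin.sum_univ_two]
    exact h
  indep n k hk := by
    rw [Fin.sum_univ_two] at hk
    obtain ⟨h1, h2⟩ := hx.uniq hy hQ hQ' hne hk
    intro i
    fin_cases i
    exacts [h1, h2]

variable (hb : Bs e)

include hb

lemma Bs.pow' (i : Fin 2) (n : ℕ) : (2 ^ n : ℤ) • e i n = 0 := by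
  induction n with
  | zero => rw [hb.zero, smul_zero]
  | succ n ih => rw [pow_succ, mul_smul, two_smul, hb.dbl, ih]

lemma Bs.smul_congr {i : Fin 2} {n : ℕ} {k l : ℤ} (h : (2 ^ n : ℤ) ∣ k - l) :
    k • e i n = l • e i n := by
  obtain ⟨c, hc⟩ := h
  have h1 : k = l + c * 2 ^ n := by linarith
  rw [h1, add_smul, mul_smul, hb.pow', smul_zero, add_zero]

omit hb in
lemma dvd_int {z : ℤ_[2]} {n : ℕ} {k l : ℤ} (hk : (2 : ℤ_[2]) ^ n ∣ z - k)
    (hl : (2 : ℤ_[2]) ^ n ∣ z - l) : (2 ^ n : ℤ) ∣ k - l := by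
  apply dvd_cast.1
  have h2 := dvd_sub hl hk
  rw [sub_sub_sub_cancel_left] at h2
  push_cast
  exact h2

lemma acts_of {f : A →+ A} {M : Matrix (Fin 2) (Fin 2) ℤ_[2]}
    (h : ∀ n, ∃ k : Fin 2 → Fin 2 → ℤ, (∀ i j, (2 : ℤ_[2]) ^ n ∣ M i j - k i j) ∧
      ∀ j, f (e j n) = ∑ i, k i j • e i n) : Acts e f M := by
  intro n l hl j
  obtain ⟨k, hk, hf⟩ := h n
  rw [hf j]
  refine Finset.sum_congr rfl fun i _ => ?_
  exact hb.smul_congr (dvd_int (hk i j) (hl i j))

lemma exists_acts (f : A →+ A) : ∃ M, Acts e f M := by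
  have h1 : ∀ n j, ∃ k : Fin 2 → ℤ, f (e j n) = ∑ i, k i • e i n := by
    intro n j
    apply hb.span
    rw [← map_zsmul, hb.pow', map_zero]
  choose k hk using h1
  have h2 : ∀ i j n, (2 ^ n : ℤ) ∣ k (n + 1) j i - k n j i := by
    intro i j n
    have h3 : ∑ i, (k (n + 1) j i - k n j i) • e i n = 0 := by
      have h4 : f (e j n) = ∑ i, k (n + 1) j i • e i n := by
        rw [← hb.dbl, map_add, hk, ← Finset.sum_add_distrib]
        refine Finset.sum_congr rfl fun i _ => ?_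
        rw [← smul_add, hb.dbl]
      simp only [sub_smul]
      rw [Finset.sum_sub_distrib, ← h4, ← hk, sub_self]
    exact hb.indep n _ h3 i
  choose z hz using fun i j => exists_lim (fun n => k n j i) (h2 i j)
  refine ⟨Matrix.of z, acts_of hb fun n => ⟨fun i j => k n j i, fun i j => hz i j n, fun j => hk n j⟩⟩

lemma Acts.unique {f : A →+ A} {M M' : Matrix (Fin 2) (Fin 2) ℤ_[2]} (h : Acts e f M)
    (h' : Acts e f M') : M = M' := by
  ext1 i j
  apply eq_of_dvd
  intro n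
  choose k hk using fun i j => exists_int (M i j) n
  choose k' hk' using fun i j => exists_int (M' i j) n
  have h1 : ∑ i, (k i j - k' i j) • e i n = 0 := by
    simp only [sub_smul]
    rw [Finset.sum_sub_distrib, ← h n k hk j, ← h' n k' hk' j, sub_self]
  have h2 := dvd_cast.2 (hb.indep n _ h1 i)
  push_cast at h2
  have h3 := dvd_sub (dvd_add (hk i j) h2) (hk' i j)
  have e : M i j - (k i j : ℤ_[2]) + ((k i j : ℤ_[2]) - k' i j) - (M' i j - k' i j) =
      M i j - M' i j := by ring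
  rwa [e] at h3

lemma Acts.mul {f g h : A →+ A} (hfg : ∀ P, h P = f (g P)) {M N : Matrix (Fin 2) (Fin 2) ℤ_[2]}
    (hM : Acts e f M) (hN : Acts e g N) : Acts e h (M * N) := by
  apply acts_of hb
  intro n
  choose k hk using fun i j => exists_int (M i j) n
  choose l hl using fun i j => exists_int (N i j) n
  refine ⟨fun i j => ∑ s, k i s * l s j, fun i j => ?_, fun j => ?_⟩
  · rw [Matrix.mul_apply]
    push_cast
    rw [← Finset.sum_sub_distrib]
    refine Finset.dvd_sum fun s _ => ?_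
    have e : M i s * N s j - k i s * l s j = (M i s - k i s) * N s j + k i s * (N s j - l s j) := by
      ring
    rw [e]
    exact dvd_add ((hk i s).mul_right _) ((hl s j).mul_left _)
  · rw [hfg, hN n l hl j, map_sum]
    simp only [map_zsmul, hM n k hk, Finset.smul_sum, Finset.sum_smul]
    rw [Finset.sum_comm]
    refine Finset.sum_congr rfl fun i _ => Finset.sum_congr rfl fun s _ => ?_
    rw [smul_smul, mul_comm]

lemma Acts.scalar {f : A →+ A} (t : ℤ) (h : ∀ i n, f (e i n) = t • e i n) :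
    Acts e f ((t : ℤ_[2]) • (1 : Matrix (Fin 2) (Fin 2) ℤ_[2])) := by
  apply acts_of hb
  intro n
  refine ⟨fun i j => if i = j then t else 0, fun i j => ?_, fun j => ?_⟩
  · rw [Matrix.smul_apply, Matrix.one_apply, smul_eq_mul]
    by_cases hij : i = j <;> simp [hij]
  · rw [h]
    simp

/-- the entries of the matrix from the action on the point of level `n` -/
lemma Acts.entry {f : A →+ A} {M : Matrix (Fin 2) (Fin 2) ℤ_[2]} (h : Acts e f M) {n : ℕ}
    {j : Fin 2} {t : ℤ} (ht : f (e j n) = t • e j n) (i : Fin 2) :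
    (2 : ℤ_[2]) ^ n ∣ M i j - if i = j then (t : ℤ_[2]) else 0 := by
  choose k hk using fun i j => exists_int (M i j) n
  have h1 : ∑ i, (k i j - if i = j then t else 0) • e i n = 0 := by
    simp only [sub_smul]
    rw [Finset.sum_sub_distrib, ← h n k hk j, ht]
    simp
  have h2 := dvd_cast.2 (hb.indep n _ h1 i)
  have e : M i j - (if i = j then (t : ℤ_[2]) else 0) = (M i j - k i j) +
      ((k i j - if i = j then t else 0 : ℤ) : ℤ_[2]) := by
    split_ifs
    · push_cast; ring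
    · push_cast; ring
  rw [e]
  exact dvd_add (hk i j) h2

omit hb

/-- representations -/
theorem exists_rep (hb : Bs e) {G : Type} [Group G] (a : G → A →+ A) (h1 : ∀ P, a 1 P = P)
    (hmul : ∀ σ τ P, a (σ * τ) P = a σ (a τ P)) :
    ∃ ρ : G →* Matrix (Fin 2) (Fin 2) ℤ_[2], ∀ σ, Acts e (a σ) (ρ σ) := by
  choose z hz using fun σ => exists_acts hb (a σ)
  have hz1 : z 1 = 1 := by
    have h2 := Acts.scalar hb (f := a 1) 1 (fun i n => by rw [h1, one_smul])
    rw [Int.cast_one, one_smul] at h2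
    exact (hz 1).unique hb h2
  have hzm : ∀ σ τ, z (σ * τ) = z σ * z τ := fun σ τ =>
    (hz (σ * τ)).unique hb (Acts.mul hb (hmul σ τ) (hz σ) (hz τ))
  exact ⟨{ toFun := z, map_one' := hz1, map_mul' := hzm }, hz⟩

/-- continuity -/
theorem rep_cont (hb : Bs e) {G : Type} [Group G] [TopologicalSpace G] {a : G → A →+ A}
    (hl : ∀ P, IsLocallyConstant fun σ => a σ P) {ρ : G → Matrix (Fin 2) (Fin 2) ℤ_[2]}
    (hρ : ∀ σ, Acts e (a σ) (ρ σ)) (i j : Fin 2) : Continuous fun σ => ρ σ i j := by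
  rw [Metric.continuous_iff']
  intro σ ε hε
  obtain ⟨n, hn⟩ := exists_pow_lt_of_lt_one hε (by norm_num : (1 / 2 : ℝ) < 1)
  obtain ⟨U, hU, hσ, hc⟩ := (IsLocallyConstant.iff_exists_open _).1 (hl (e j n)) σ
  filter_upwards [hU.mem_nhds hσ] with τ hτ
  have h1 := hc τ hτ
  choose k hk using fun i j => exists_int (ρ τ i j) n
  choose l hl using fun i j => exists_int (ρ σ i j) n
  rw [hρ τ n k hk, hρ σ n l hl] at h1
  have h2 : ∑ i, (k i j - l i j) • e i n = 0 := by
    simp only [sub_smul]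
    rw [Finset.sum_sub_distrib, h1, sub_self]
  have h3 := dvd_cast.2 (hb.indep n _ h2 i)
  have h4 : (2 : ℤ_[2]) ^ n ∣ ρ τ i j - ρ σ i j := by
    have e : ρ τ i j - ρ σ i j = (ρ τ i j - k i j) + ((k i j - l i j : ℤ) : ℤ_[2]) -
        (ρ σ i j - l i j) := by
      push_cast
      ring
    rw [e]
    exact dvd_sub (dvd_add (hk i j) h3) (hl i j)
  rw [dist_eq_norm]
  obtain ⟨c, hc⟩ := h4
  rw [hc, norm_mul, norm_pow]
  have h5 : ‖(2 : ℤ_[2])‖ = 1 / 2 := by
    have := PadicInt.norm_p (p := 2)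
    simpa using this
  rw [h5]
  calc (1 / 2 : ℝ) ^ n * ‖c‖ ≤ (1 / 2 : ℝ) ^ n * 1 :=
        mul_le_mul_of_nonneg_left (PadicInt.norm_le_one c) (by positivity)
    _ < ε := by rwa [mul_one]

end Pool.Agent.R384
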