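import Pool.Agent.R384.Prd
import Pool.Agent.R384.Fam

/-!
# Norms of the parameters
-/

set_option autoImplicit false
set_option linter.unusedSectionVars false

namespace Pool.Agent.R384

open Pool.Agent.Y715.Red Pool.Agent.Y715.Nr Pool.Agent.W237.RK
open Pool.Agent.Y715.Gi (QB KK GK i₀_mem gk_fix)

variable {i₀ : QB} (hi : i₀ ^ 2 = i₀ - 2)

lemma unit_norm {z : OO} (h : IsCoprime z 2) (ι : QB →ₐ[ℚ] PadicAlgCl 2) : ‖ι (em hi z)‖ = 1 := by
  rw [ι_em]
  have h1 := em_le (iw hi ι) z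
  by_contra hne
  have hlt : ‖em (iw hi ι) z‖ < 1 := lt_of_le_of_ne h1 hne
  obtain ⟨u, v, huv⟩ := h
  have h2 := congrArg (em (iw hi ι)) huv
  rw [map_add, map_mul, map_mul, map_one, map_ofNat] at h2
  have h3 : ‖em (iw hi ι) u * em (iw hi ι) z + em (iw hi ι) v * 2‖ < 1 := by
    apply add_lt
    · rw [norm_mul]
      have hu := em_le (iw hi ι) u
      have h0 := norm_nonneg (em (iw hi ι) u)
      have h0' := norm_nonneg (em (iw hi ι) z)
      nlinarith
    · rw [norm_mul, Pool.Agent.Y715.Gi.norm_two']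
      have hv := em_le (iw hi ι) v
      have h0 := norm_nonneg (em (iw hi ι) v)
      nlinarith
  rw [h2, norm_one] at h3
  exact lt_irrefl _ h3

lemma half_norm {x : PadicAlgCl 2} (hx : x * (1 - x) = 2) (h : ‖x‖ < 1) : ‖x‖ = 1 / 2 := by
  have h1 : ‖1 - x‖ = 1 := by
    have h2 : ‖1 - x‖ ≤ 1 := sub_le (by rw [norm_one]) h.le
    by_contra hne
    have h3 : ‖1 - x‖ < 1 := lt_of_le_of_ne h2 hne
    have h4 : ‖(1 - x) + x‖ < 1 := add_lt h3 h
    rw [sub_add_cancel, norm_one] at h4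
    exact lt_irrefl _ h4
  have h2 := congrArg norm hx
  rw [norm_mul, h1, mul_one, Pool.Agent.Y715.Gi.norm_two'] at h2
  rw [h2]
  norm_num

lemma em_om : em hi om = i₀ := by
  rw [em_apply]
  simp [om]

/-- the elements divisible by `ω²` -/
lemma quarter {z : OO} (h : om ^ 2 ∣ z) {ι : QB →ₐ[ℚ] PadicAlgCl 2} (hι : ‖ι i₀‖ < 1) :
    ‖ι (em hi z)‖ ≤ 1 / 4 := by
  obtain ⟨t, rfl⟩ := h
  have h1 : ‖ι i₀‖ = 1 / 2 := by
    apply half_norm _ hι
    rw [← map_one ι, ← map_sub, ← map_mul]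
    have e : i₀ * (1 - i₀) = 2 := by linear_combination -hi
    rw [e, map_ofNat]
  rw [map_mul, map_mul, map_pow, em_om, map_pow, norm_mul, norm_pow, h1, ι_em]
  have h2 := em_le (iw hi ι) t
  have h0 := norm_nonneg (em (iw hi ι) t)
  nlinarith

/-- the elements divisible by `(1 - ω)²` -/
lemma quarter' {z : OO} (h : (1 - om) ^ 2 ∣ z) {ι : QB →ₐ[ℚ] PadicAlgCl 2} (hι : ‖ι (1 - i₀)‖ < 1) :
    ‖ι (em hi z)‖ ≤ 1 / 4 := by
  obtain ⟨t, rfl⟩ := h
  have h1 : ‖ι (1 - i₀)‖ = 1 / 2 := by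
    apply half_norm _ hι
    rw [← map_one ι, ← map_sub, ← map_mul]
    have e : (1 - i₀) * (1 - (1 - i₀)) = 2 := by linear_combination -hi
    rw [e, map_ofNat]
  rw [map_mul, map_mul, map_pow, map_sub, map_one, em_om, map_pow, norm_mul, norm_pow, h1, ι_em]
  have h2 := em_le (iw hi ι) t
  have h0 := norm_nonneg (em (iw hi ι) t)
  nlinarith

end Pool.Agent.R384
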