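import Pool.Agent.R384.Cyc

/-!
# The vanishing of the Selmer groups of the tensor products
-/

set_option autoImplicit false
set_option linter.unusedSectionVars false

namespace Pool.Agent.R384

open Pool.Agent.Y715.Red Pool.Agent.Y715.Nr Pool.Agent.W237.RK
open Pool.Agent.Y715.Gi (QB KK GK i₀_mem gk_fix)
open Pool.Agent.Y715.Df (Cmp exists_cmp)
open Pool.Agent.Y715.Lc (norm_two_odd)

open scoped Classical

variable {i₀ : QB} (hi : i₀ ^ 2 = i₀ - 2)

section

variable {D : OO} {r I : QB} {ι₁ ι₂ : QB →ₐ[ℚ] PadicAlgCl 2} {n i : ℕ} {a b c d : Fin n → OO}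
  {rk : Fin n → QB} {s : OO}
  {ρ : Fin n → GK i₀ →* Matrix (Fin 2) (Fin 2) ℤ_[2]}

/-- the square root of the twist of a coordinate -/
noncomputable def rtb (r I : QB) (i : ℕ) (x : Fin n → Fin 2) : QB :=
  if Even (i + cn x 0) then r else I * r

/-- the twist of a coordinate -/
noncomputable def mmb (D : OO) (i : ℕ) (x : Fin n → Fin 2) : OO :=
  if Even (i + cn x 0) then D else -D

lemma rtb_sq (hr : r ^ 2 = em hi D) (hI : I ^ 2 = -1) (x : Fin n → Fin 2) :
    rtb r I i x ^ 2 = em hi (mmb D i x) := by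
  unfold rtb mmb
  split_ifs
  · exact hr
  · rw [mul_pow, hI, hr, map_neg]; ring

/-- the signs -/
lemma signs (hr : r ^ 2 = em hi D) (hI : I ^ 2 = -1) (σ : GK i₀) :
    ∃ eI ep : ℤ, (eI = 1 ∨ eI = -1) ∧ (ep = 1 ∨ ep = -1) ∧ σ I = eI * I ∧ σ r = ep * r := by
  have hIe : I ^ 2 = em hi (-1) := by rw [hI, map_neg, map_one]
  rcases rt_or hi hIe σ with h1 | h1 <;> rcases rt_or hi hr σ with h2 | h2
  · exact ⟨1, 1, Or.inl rfl, Or.inl rfl, by rw [h1]; simp, by rw [h2]; simp⟩
  · exact ⟨1, -1, Or.inl rfl, Or.inr rfl, by rw [h1]; simp, by rw [h2]; simp⟩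
  · exact ⟨-1, 1, Or.inr rfl, Or.inl rfl, by rw [h1]; simp, by rw [h2]; simp⟩
  · exact ⟨-1, -1, Or.inr rfl, Or.inr rfl, by rw [h1]; simp, by rw [h2]; simp⟩

/-- the signs of the square roots of the `d k` -/
lemma signs' (hrk : ∀ k, rk k ^ 2 = em hi (d k)) (hs : s ≠ 0) (hrs : r * em hi s = ∏ k, rk k)
    (σ : GK i₀) : ∃ ep : Fin n → ℤ, (∀ k, ep k = 1 ∨ ep k = -1) ∧ (∀ k, σ (rk k) = ep k * rk k) ∧
      σ r = ((∏ k, ep k : ℤ) : QB) * r := by
  have h1 : ∀ k, ∃ e : ℤ, (e = 1 ∨ e = -1) ∧ σ (rk k) = e * rk k := by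
    intro k
    rcases rt_or hi (hrk k) σ with h | h
    · exact ⟨1, Or.inl rfl, by rw [h]; simp⟩
    · exact ⟨-1, Or.inr rfl, by rw [h]; simp⟩
  choose ep h2 h3 using h1
  refine ⟨ep, h2, h3, ?_⟩
  have h4 := congrArg σ hrs
  rw [map_mul, gk_em hi, map_prod] at h4
  simp only [h3] at h4
  rw [Finset.prod_mul_distrib, ← hrs, ← mul_assoc] at h4
  have h5 := mul_right_cancel₀ (em_ne hi hs) h4
  rw [h5]
  push_cast
  rfl

lemma prod_sgn {ep : Fin n → ℤ} (h : ∀ k, ep k = 1 ∨ ep k = -1) :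
    ∏ k, ep k = 1 ∨ ∏ k, ep k = -1 := by
  have key : ∀ S : Finset (Fin n), ∏ k ∈ S, ep k = 1 ∨ ∏ k ∈ S, ep k = -1 := by
    intro S
    induction S using Finset.induction_on with
    | empty => left; simp
    | insert a S ha ih =>
      rw [Finset.prod_insert ha]
      rcases h a with h1 | h1 <;> rcases ih with h2 | h2 <;> rw [h1, h2] <;> norm_num
  exact key _

lemma sgn_pow {e : ℤ} (he : e = 1 ∨ e = -1) (m : ℕ) : e ^ m = if Even m then 1 else e := by
  rcases he with rfl | rfl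
  · rw [one_pow]; split_ifs <;> rfl
  · split_ifs with h
    · exact h.neg_one_pow
    · exact (Nat.not_even_iff_odd.1 h).neg_one_pow

/-- the action modulo four -/
theorem vd_of (hr : r ^ 2 = em hi D) (hI : I ^ 2 = -1) (hD : D ≠ 0)
    (hrk : ∀ k, rk k ^ 2 = em hi (d k)) (hs : s ≠ 0) (hrs : r * em hi s = ∏ k, rk k)
    (hρ : ∀ k, Rho hi (a k) (b k) (c k) (rk k) I ι₁ ι₂ (ρ k)) :
    VD hi (tR ρ (cyc i₀) i) (rtb r I i) (mmb D i) := by
  have hI0 : I ≠ 0 := by
    rintro rfl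
    norm_num at hI
  have hr0 : r ≠ 0 := by
    rintro rfl
    rw [zero_pow two_ne_zero] at hr
    exact em_ne hi hD hr.symm
  have key : ∀ (σ : GK i₀) (x : Fin n → Fin 2), ∃ e : ℤ, σ (rtb r I i x) = e * rtb r I i x ∧
      (e = 1 ∨ e = -1) ∧ ∀ v, ‖tR ρ (cyc i₀) i σ v x - e * v x‖ ≤ ‖v‖ / 4 := by
    intro σ x
    obtain ⟨eI, -, hI1, -, hσI, -⟩ := signs hi hr hI σ
    obtain ⟨ep, hp1, hσr, hσr'⟩ := signs' hi hrk hs hrs σ
    have hI2 : eI * eI = 1 := by rcases hI1 with rfl | rfl <;> norm_num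
    have hσIr : ∀ k, σ (I * rk k) = ((eI * ep k : ℤ) : QB) * (I * rk k) := by
      intro k
      rw [map_mul, hσI, hσr]
      push_cast
      ring
    have d0 : ∀ k, (4 : ℤ_[2]) ∣ ρ k σ 0 0 - ((eI * ep k : ℤ) : ℤ_[2]) := by
      intro k
      have h1 : eI * ep k = 1 ∨ eI * ep k = -1 := by
        rcases hI1 with h | h <;> rcases hp1 k with h' | h' <;> rw [h, h'] <;> norm_num
      have h2 := hσIr k
      rcases h1 with h1 | h1
      · rw [h1] at h2 ⊢
        rw [Int.cast_one]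
        exact (hρ k).p0 σ (by rw [h2]; simp)
      · rw [h1] at h2 ⊢
        rw [Int.cast_neg, Int.cast_one, sub_neg_eq_add]
        exact (hρ k).m0 σ (by rw [h2]; simp)
    have d1 : ∀ k, (4 : ℤ_[2]) ∣ ρ k σ 1 1 - ep k := by
      intro k
      have h2 := hσr k
      rcases hp1 k with h1 | h1
      · rw [h1] at h2 ⊢
        rw [Int.cast_one]
        exact (hρ k).p1 σ (by rw [h2]; simp)
      · rw [h1] at h2 ⊢
        rw [Int.cast_neg, Int.cast_one, sub_neg_eq_add]
        exact (hρ k).m1 σ (by rw [h2]; simp)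
    have dχ : (4 : ℤ_[2]) ∣ (cyc i₀ σ : ℤ_[2]) - eI := by
      rcases hI1 with rfl | rfl
      · rw [Int.cast_one]
        exact (cyc_four hI σ).1 (by rw [hσI]; simp)
      · rw [Int.cast_neg, Int.cast_one, sub_neg_eq_add]
        exact (cyc_four hI σ).2 (by rw [hσI]; simp)
    refine ⟨eI ^ (i + cn x 0) * ∏ k, ep k, ?_, ?_, ?_⟩
    · rw [sgn_pow hI1]
      unfold rtb
      split_ifs with h
      · rw [one_mul]
        exact hσr'
      · rw [map_mul, hσI, hσr']
        push_cast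
        ring
    · rw [sgn_pow hI1]
      have h3 := prod_sgn hp1
      split_ifs
      · rw [one_mul]; exact h3
      · rcases hI1 with h1 | h1 <;> rcases h3 with h2 | h2 <;> rw [h1, h2] <;> norm_num
    · intro v
      exact tR_near ρ (cyc i₀) i (fun k a b hab => (hρ k).off σ a b hab)
        (tm_diag ρ (cyc i₀) i hI2 d0 d1 dχ) v
  have rt0 : ∀ x : Fin n → Fin 2, rtb r I i x ≠ 0 := by
    intro x
    unfold rtb
    split_ifs
    · exact hr0
    · exact mul_ne_zero hI0 hr0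
  refine ⟨tR_cont ρ (cyc i₀) i (fun k a b => (hρ k).cont a b) (cyc_cont i₀), rtb_sq hi hr hI, ?_, ?_, ?_⟩
  · intro x
    unfold mmb
    split_ifs
    · exact hD
    · exact neg_ne_zero.2 hD
  · intro σ x hx v
    obtain ⟨e, h1, h2, h3⟩ := key σ x
    rcases h2 with rfl | rfl
    · have := h3 v
      rwa [Int.cast_one, one_mul] at this
    · exfalso
      rw [hx, Int.cast_neg, Int.cast_one, neg_one_mul] at h1
      exact ne_neg' (rt0 x) h1
  · intro σ x hx v
    obtain ⟨e, h1, h2, h3⟩ := key σ x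
    rcases h2 with rfl | rfl
    · exfalso
      rw [hx, Int.cast_one, one_mul] at h1
      exact ne_neg' (rt0 x) h1.symm
    · have := h3 v
      rwa [Int.cast_neg, Int.cast_one, neg_one_mul, sub_neg_eq_add] at this

/-- **The vanishing theorem for tensor products.** -/
theorem prod_vanish {N : ℕ} {q : Fin N → OO} (hq : ∀ j, Pr (q j)) (hinj : Function.Injective q)
    (h8 : (8 : OO) ∣ ∏ j, q j - 5) (hind : Indec q) (hD : D = ∏ j, q j ∨ D = -∏ j, q j)
    (hr : r ^ 2 = em hi D) (hI : I ^ 2 = -1) (hι₁ : ‖ι₁ i₀‖ < 1) (hι₂ : ‖ι₂ (1 - i₀)‖ < 1)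
    (hn : n = 2 * i + 1) (hρ : ∀ k, Rho hi (a k) (b k) (c k) (rk k) I ι₁ ι₂ (ρ k))
    (hrk : ∀ k, rk k ^ 2 = em hi (d k)) (hs : s ≠ 0) (hrs : r * em hi s = ∏ k, rk k)
    (h0 : ∀ k, a k * b k * c k ≠ 0)
    (hbad : ∀ k π, Prime π → ¬ π ∣ 2 → π ∣ a k * b k * c k → Sqm π (-1) ∧ ¬ Sqm π D)
    {f : GK i₀ → (Fin n → Fin 2) → ℚ_[2]} (hf : VCoc (tR ρ (cyc i₀) i) f)
    (hodd : ∀ (p : ℕ) [Fact p.Prime] (ι : QB →ₐ[ℚ] PadicAlgCl p), p ≠ 2 →
      VCob (tR ρ (cyc i₀) i) (II ι) f)
    (h1 : VCobS (tR ρ (cyc i₀) i) {x | cn x 0 ≤ i} (DD ι₁) f)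
    (h2 : VCobS (tR ρ (cyc i₀) i) {x | cn x 1 ≤ i} (DD ι₂) f) :
    ∃ y, ∀ σ, f σ = tR ρ (cyc i₀) i σ y - y := by
  have hpne : ∏ j, q j ≠ 0 := Finset.prod_ne_zero_iff.2 fun j _ => (hq j).prime.ne_zero
  have hD0 : D ≠ 0 := by
    rcases hD with h | h
    · rwa [h]
    · rw [h]; exact neg_ne_zero.2 hpne
  have hD8 : (8 : OO) ∣ D - 5 ∨ (8 : OO) ∣ D + 5 := by
    rcases hD with h | h
    · left; rw [h]; exact h8
    · right
      rw [h]
      have : -∏ j, q j + 5 = -(∏ j, q j - 5) := by ring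
      rw [this]
      exact (dvd_neg).2 h8
  have vd := vd_of (i := i) hi hr hI hD0 hrk hs hrs hρ
  have hne : ι₁ ≠ ι₂ := by
    rintro rfl
    have h3 : ‖ι₁ (1 : QB)‖ < 1 := by
      have e : (1 : QB) = i₀ + (1 - i₀) := by ring
      rw [e, map_add]
      exact add_lt hι₁ hι₂
    rw [map_one, norm_one] at h3
    exact lt_irrefl _ h3
  set κ : (Fin n → Fin 2) → (QB →ₐ[ℚ] PadicAlgCl 2) := fun x => if cn x 0 ≤ i then ι₁ else ι₂
    with hκ
  have κ1 : ∀ x, κ x = ι₁ ↔ cn x 0 ≤ i := by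
    intro x
    simp only [hκ]
    split_ifs with h
    · simp [h]
    · simp [h, hne.symm]
  have κ2 : ∀ x, κ x = ι₂ ↔ cn x 1 ≤ i := by
    intro x
    have h3 := cn_add x
    simp only [hκ]
    split_ifs with h
    · constructor
      · intro h4; exact absurd h4 hne
      · intro h4; omega
    · constructor
      · intro _; omega
      · intro _; rfl
  have κor : ∀ x, κ x = ι₁ ∨ κ x = ι₂ := by
    intro x
    simp only [hκ]
    split_ifs
    · exact Or.inl rfl
    · exact Or.inr rfl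
  have hom : em hi om = i₀ := by
    rw [em_apply]
    simp [om]
  have mvall : ∀ ι : QB →ₐ[ℚ] PadicAlgCl 2, ∃ σ ∈ (DD ι : Set (GK i₀)),
      ∀ x : Fin n → Fin 2, σ (rtb r I i x) = -rtb r I i x := by
    intro ι
    obtain ⟨σ, hσ, h3, h4⟩ := exists_mv hi hD8 hr hI ι
    refine ⟨σ, hσ, fun x => ?_⟩
    unfold rtb
    split_ifs
    · exact h3
    · rw [map_mul, h3, h4, mul_neg]
  refine vmain hi hq hinj h8 hind (rt := rtb r I i) (mm := mmb D i) ?_ vd
    (fun x => if cn x 0 ≤ i then om else 1 - om) (fun x => if cn x 0 ≤ i then 1 - om else om)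
    ?_ κ ?_ (fun x => mvall _) hf hodd ?_ ?_ ?_
  · intro x
    unfold mmb
    split_ifs
    · exact hD
    · rcases hD with h | h
      · right; rw [h]
      · left; rw [h, neg_neg]
  · intro x
    by_cases h : cn x 0 ≤ i
    · left; simp [h]
    · right; simp [h]
  · intro x
    by_cases h : cn x 0 ≤ i
    · rw [if_pos h, (κ1 x).2 h, hom]
      exact hι₁
    · rw [if_neg h, show κ x = ι₂ from if_neg h, map_sub, map_one, hom]
      exact hι₂
  · -- the odd places
    intro p _ ι hp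
    have fI : ∀ σ ∈ (II ι : Set (GK i₀)), σ I = I := by
      rintro σ ⟨τ, hτ, hin⟩
      have h3 : (ι I) ^ 2 = em (iw hi ι) (-1) := by
        rw [← map_pow, hI, map_neg, map_neg, map_one, map_one]
      have h4 : τ (ι I) = ι I := by
        refine fix_of_unit (iw hi ι) hp h3 ?_ hin hτ.fix
        rw [map_neg, map_one, norm_neg, norm_one]
        exact lt_irrefl _
      apply ι.injective
      show ι (σ I) = ι I
      rw [← hτ, h4]
    by_cases hg : ∀ k, ‖em (iw hi ι) (a k * b k * c k)‖ = 1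
    · left
      have hfac : ∀ k, ‖ι (em hi (a k))‖ = 1 ∧ ‖ι (em hi (b k))‖ = 1 ∧ ‖ι (em hi (c k))‖ = 1 := by
        intro k
        have h3 := hg k
        rw [map_mul, map_mul, norm_mul, norm_mul] at h3
        rw [ι_em, ι_em, ι_em]
        have n1 := em_le (iw hi ι) (a k)
        have n2 := em_le (iw hi ι) (b k)
        have n3 := em_le (iw hi ι) (c k)
        have m1 := norm_nonneg (em (iw hi ι) (a k))
        have m2 := norm_nonneg (em (iw hi ι) (b k))
        have m3 := norm_nonneg (em (iw hi ι) (c k))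
        have m12 : ‖em (iw hi ι) (a k)‖ * ‖em (iw hi ι) (b k)‖ ≤ 1 := mul_le_one₀ n1 m2 n2
        have e3 : ‖em (iw hi ι) (c k)‖ = 1 := by nlinarith
        rw [e3, mul_one] at h3
        have e2 : ‖em (iw hi ι) (b k)‖ = 1 := by nlinarith
        rw [e2, mul_one] at h3
        exact ⟨h3, e2, e3⟩
      intro σ hσ
      have hχ := cyc_inert hp hσ
      have hσI := fI σ hσ
      obtain ⟨ep, hp1, hσr, hσr'⟩ := signs' hi hrk hs hrs σ
      have hsc : ∀ k, ρ k σ = (ep k : ℤ_[2]) • 1 := by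
        intro k
        have h2 := hσr k
        have h4 := (hρ k).odd p ι hp (hfac k).1 (hfac k).2.1 (hfac k).2.2 σ hσ
        rcases hp1 k with h1 | h1
        · rw [h1] at h2 ⊢
          rw [h4.1 (by rw [h2]; simp)]
          simp
        · rw [h1] at h2 ⊢
          rw [h4.2 (by rw [h2]; simp)]
          simp
      have hR := tR_scalar ρ (cyc i₀) i hsc hχ
      have hprod : (∏ k, (ep k : ℤ_[2])) = ((∏ k, ep k : ℤ) : ℤ_[2]) := by push_cast; rfl
      rw [hprod] at hR
      rcases prod_sgn hp1 with h3 | h3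
      · left
        rw [h3] at hR hσr'
        have hσr1 : σ r = r := by rw [hσr']; simp
        constructor
        · intro v
          rw [hR]
          simp
        · intro x
          unfold rtb
          split_ifs
          · exact hσr1
          · rw [map_mul, hσI, hσr1]
      · right
        rw [h3] at hR hσr'
        have hσr1 : σ r = -r := by rw [hσr']; simp
        constructor
        · intro v
          rw [hR]
          simp
        · intro x
          unfold rtb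
          split_ifs
          · exact hσr1
          · rw [map_mul, hσI, hσr1, mul_neg]
    · right
      push Not at hg
      obtain ⟨k, hk⟩ := hg
      have hlt : ‖em (iw hi ι) (a k * b k * c k)‖ < 1 := lt_of_le_of_ne (em_le _ _) hk
      obtain ⟨π, hπ, hd, hπl⟩ := exists_below (iw hi ι) (h0 k) hlt
      have hπ2 : ¬ π ∣ 2 := fun h => hp ((two_of_dvd hπ (iw hi ι) hπl).2 h)
      obtain ⟨hs1, hs2⟩ := hbad k π hπ hπ2 hd
      have hDu : ¬ ‖em (iw hi ι) D‖ < 1 := by
        rw [← dvd_iff (iw hi ι) hπ hπl]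
        intro h3
        exact hs2 ⟨0, by simpa using h3⟩
      have hmu : ∀ x : Fin n → Fin 2, ¬ ‖em (iw hi ι) (mmb D i x)‖ < 1 := by
        intro x
        unfold mmb
        split_ifs
        · exact hDu
        · rw [map_neg, norm_neg]; exact hDu
      refine ⟨?_, ?_, hmu⟩
      · obtain ⟨F, hF, hFr⟩ := exists_frob hi hp hr hπl hπ hs1 hs2
        have hFI := fix_sqrt hi hp hI hπl hπ hs1 F hF
        refine ⟨F, hF, fun x => ?_⟩
        unfold rtb
        split_ifs
        · exact hFr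
        · rw [map_mul, hFI, hFr, mul_neg]
      · rintro σ ⟨τ, hτ, hin⟩ x
        have h3 : (ι (rtb r I i x)) ^ 2 = em (iw hi ι) (mmb D i x) := by
          rw [← map_pow, rtb_sq hi hr hI, ι_em]
        have h4 : τ (ι (rtb r I i x)) = ι (rtb r I i x) :=
          fix_of_unit (iw hi ι) hp h3 (hmu x) hin hτ.fix
        apply ι.injective
        show ι (σ (rtb r I i x)) = ι (rtb r I i x)
        rw [← hτ, h4]
  · -- stability
    intro x σ hσ v hv x' hx'
    have h01 : ∀ s : Fin 2, s ≠ 0 → s = 1 := by decide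
    have h10 : ∀ s : Fin 2, s ≠ 1 → s = 0 := by decide
    rcases κor x with h3 | h3
    · rw [h3] at hσ hv hx'
      refine tR_stable ρ (cyc i₀) i (t := 0) (m := i) (fun k s hs => ?_) (fun b hb => hv b ((κ1 b).2 hb))
        x' ((κ1 x').1 hx')
      rw [h01 s hs]
      exact (hρ k).d1 σ hσ
    · rw [h3] at hσ hv hx'
      refine tR_stable ρ (cyc i₀) i (t := 1) (m := i) (fun k s hs => ?_) (fun b hb => hv b ((κ2 b).2 hb))
        x' ((κ2 x').1 hx')
      rw [h10 s hs]
      exact (hρ k).d2 σ hσ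
  · intro x
    rcases κor x with h3 | h3
    · have e : {b' | κ b' = κ x} = {x | cn x 0 ≤ i} := by
        ext b'
        rw [Set.mem_ofPred_eq, h3, κ1]
        rfl
      rw [e, h3]
      exact h1
    · have e : {b' | κ b' = κ x} = {x | cn x 1 ≤ i} := by
        ext b'
        rw [Set.mem_ofPred_eq, h3, κ2]
        rfl
      rw [e, h3]
      exact h2

end

end Pool.Agent.R384
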