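import Pool.Agent.R384.Res

/-!
# Quadratic reciprocity for `ℤ[ω]`
-/

set_option autoImplicit false
set_option linter.unusedSectionVars false

namespace Pool.Agent.R384

open QuadraticAlgebra

open scoped NumberTheorySymbols

variable {q r : OO}

lemma Pr.re (h : Pr q) : (4 : ℤ) ∣ q.re - 1 := by
  obtain ⟨t, ht⟩ := h.one
  have h1 := congrArg QuadraticAlgebra.re ht
  refine ⟨t.re, ?_⟩
  simpa using h1

lemma Pr.im (h : Pr q) : (4 : ℤ) ∣ q.im := by
  obtain ⟨t, ht⟩ := h.one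
  have h1 := congrArg QuadraticAlgebra.im ht
  refine ⟨t.im, ?_⟩
  simpa using h1

lemma exists_rat (hq : Prime q) : ∃ l : ℕ, l.Prime ∧ q ∣ (l : OO) := by
  have hN : q ∣ (((nn q).natAbs : ℕ) : OO) := by
    refine ⟨cj q, ?_⟩
    rw [mul_cj]
    have h1 : (((nn q).natAbs : ℕ) : ℤ) = nn q := Int.natAbs_of_nonneg (nn_nonneg q)
    have h2 := congrArg (fun a : ℤ => (a : OO)) h1
    simp only [Int.cast_natCast] at h2
    exact h2
  have hN0 : (nn q).natAbs ≠ 0 := fun h0 =>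
    hq.ne_zero (nn_zero_iff.1 (Int.natAbs_eq_zero.1 h0))
  rw [← Nat.prod_primeFactorsList hN0, Nat.cast_list_prod, hq.dvd_prod_iff] at hN
  obtain ⟨a, ha, hd⟩ := hN
  rw [List.mem_map] at ha
  obtain ⟨l, hl, rfl⟩ := ha
  exact ⟨l, Nat.prime_of_mem_primeFactorsList hl, hd⟩

lemma exists_type (hq : Prime q) : (∃ p : ℕ, p.Prime ∧ nn q = p) ∨
    (∃ l : ℕ, l.Prime ∧ (q = ((l : ℤ) : OO) ∨ q = ((-l : ℤ) : OO))) := by
  obtain ⟨l, hl, t, ht⟩ := exists_rat hq
  have hn : nn q * nn t = l ^ 2 := by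
    rw [← nn_mul, ← ht]
    have := nn_int l
    exact_mod_cast this
  have hn' : (nn q).natAbs * (nn t).natAbs = l ^ 2 := by
    rw [← Int.natAbs_mul, hn, Int.natAbs_pow, Int.natAbs_natCast]
  have hN1 : (nn q).natAbs ≠ 1 := fun h0 => hq.not_isUnit (unit_iff.2 (by
    have := nn_nonneg q
    omega))
  have hnn : (((nn q).natAbs : ℕ) : ℤ) = nn q := Int.natAbs_of_nonneg (nn_nonneg q)
  obtain ⟨e, he, hqe⟩ := (Nat.dvd_prime_pow hl).1 (⟨_, hn'.symm⟩ : (nn q).natAbs ∣ l ^ 2)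
  rcases (by omega : e = 0 ∨ e = 1 ∨ e = 2) with rfl | rfl | rfl
  · exact absurd hqe hN1
  · left
    rw [pow_one] at hqe
    exact ⟨l, hl, by rw [← hnn, hqe]⟩
  · right
    have hw1 : (nn t).natAbs = 1 := by
      rw [hqe] at hn'
      have : 0 < l ^ 2 := pow_pos hl.pos 2
      exact Nat.eq_of_mul_eq_mul_left this (by rw [hn', mul_one])
    have hwu : IsUnit t := unit_iff.2 (by
      have := nn_nonneg t
      omega)
    refine ⟨l, hl, ?_⟩
    rcases unit_cases hwu with rfl | rfl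
    · left
      rw [mul_one] at ht
      rw [← ht]
      push_cast
      rfl
    · right
      push_cast
      rw [ht]
      ring

lemma Pr.cases (h : Pr q) : (∃ p : ℕ, p.Prime ∧ p % 4 = 1 ∧ nn q = p) ∨
    (∃ (l : ℕ) (e : ℤ), l.Prime ∧ l ≠ 2 ∧ (e = l ∨ e = -l) ∧ (4 : ℤ) ∣ e - 1 ∧ q = ((e : ℤ) : OO)) := by
  have h1 := h.re
  have h2 := h.im
  rcases exists_type h.prime with ⟨p, hp, hpn⟩ | ⟨l, hl, hq⟩
  · left
    refine ⟨p, hp, ?_, hpn⟩
    obtain ⟨a, ha⟩ := h1
    obtain ⟨b, hb⟩ := h2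
    have e : (p : ℤ) = 4 * (4 * a ^ 2 + 2 * a + (4 * a + 1) * b + 8 * b ^ 2) + 1 := by
      rw [← hpn, nn, hb, show q.re = 4 * a + 1 by linarith]
      ring
    omega
  · right
    rcases hq with hq | hq
    · have e1 : q.re = l := by rw [hq]; simp
      rw [e1] at h1
      exact ⟨l, l, hl, by rintro rfl; omega, Or.inl rfl, h1, hq⟩
    · have e1 : q.re = -l := by rw [hq]; simp
      rw [e1] at h1
      exact ⟨l, -l, hl, by rintro rfl; omega, Or.inr rfl, h1, hq⟩

lemma not_dvd (hq : Pr q) (hr : Pr r) (hne : q ≠ r) : ¬ q ∣ r := by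
  intro h
  obtain ⟨u, hu⟩ := (hq.prime.dvd_prime_iff_associated hr.prime).1 h
  have h1 := hq.re
  have h2 := hr.re
  rcases unit_cases u.isUnit with h3 | h3
  · rw [h3, mul_one] at hu
    exact hne hu
  · rw [h3] at hu
    have h4 := congrArg QuadraticAlgebra.re hu
    simp at h4
    omega

/-! ### Split primes -/

section split

variable {p : ℕ} [hp : Fact p.Prime]

lemma jac_gen (hp4 : p % 4 = 1) {n : ℤ} {s n' : ℕ} (ho : Odd n') (h : n.natAbs = 2 ^ s * n') :
    J(n | p) = J(2 | p) ^ s * J(p | n') := by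
  have hpo : Odd p := Nat.odd_iff.2 (by omega)
  have h1 : J(n | p) = J((n.natAbs : ℤ) | p) := by
    rcases Int.natAbs_eq n with h2 | h2
    · conv_lhs => rw [h2]
    · conv_lhs => rw [h2]
      rw [jacobiSym.neg _ hpo, ZMod.χ₄_nat_one_mod_four hp4, one_mul]
  rw [h1, h]
  push_cast
  rw [jacobiSym.mul_left, jacobiSym.pow_left,
    jacobiSym.quadratic_reciprocity_one_mod_four' ho hp4]

variable (hq : Prime q) (hn : nn q = p)

include hq hn

lemma split_dvd (n : ℤ) : q ∣ (n : OO) ↔ (p : ℤ) ∣ n := by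
  constructor
  · rintro ⟨t, ht⟩
    have h1 : (p : ℤ) ∣ n ^ 2 := by
      refine ⟨nn t, ?_⟩
      rw [← hn, ← nn_mul, ← ht, nn_int]
    have hpp : Prime (p : ℤ) := Nat.prime_iff_prime_int.1 hp.out
    exact hpp.dvd_of_dvd_pow h1
  · rintro ⟨m, rfl⟩
    have h1 : q ∣ ((p : ℤ) : OO) := by
      refine ⟨cj q, ?_⟩
      rw [mul_cj, hn]
    rw [Int.cast_mul]
    exact Dvd.dvd.mul_right h1 _

lemma split_cop : Int.gcd q.re q.im = 1 := by
  by_contra hcon
  obtain ⟨l, hl, hd⟩ := Nat.exists_prime_and_dvd hcon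
  have h1 : (l : ℤ) ∣ q.re := (Int.natCast_dvd_natCast.2 hd).trans (Int.gcd_dvd_left ..)
  have h2 : (l : ℤ) ∣ q.im := (Int.natCast_dvd_natCast.2 hd).trans (Int.gcd_dvd_right ..)
  obtain ⟨a, ha⟩ := h1
  obtain ⟨b, hb⟩ := h2
  have h3 : (p : ℤ) = l * (l * (a ^ 2 + a * b + 2 * b ^ 2)) := by
    rw [← hn, nn, ha, hb]
    ring
  have h4 : l ∣ p := Int.natCast_dvd_natCast.1 ⟨_, h3⟩
  have h5 : l = p := (Nat.prime_dvd_prime_iff_eq hl hp.out).1 h4
  subst h5
  have h6 : (l : ℤ) * (a ^ 2 + a * b + 2 * b ^ 2) = 1 := by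
    have hl0 : (l : ℤ) ≠ 0 := by exact_mod_cast hl.ne_zero
    apply mul_left_cancel₀ hl0
    rw [← h3, mul_one]
  have h7 : (l : ℤ) ∣ 1 := ⟨_, h6.symm⟩
  have h8 : l ∣ 1 := by exact_mod_cast h7
  exact hl.one_lt.ne' (Nat.dvd_one.1 h8)

lemma split_im_ne : q.im ≠ 0 := by
  intro h
  have h1 : (p : ℤ) = q.re * q.re := by rw [← hn, nn, h]; ring
  have h2 : p = q.re.natAbs * q.re.natAbs := by
    rw [← Int.natAbs_mul, ← h1, Int.natAbs_natCast]
  exact (Nat.Prime.prime hp.out).irreducible.not_isSquare ⟨_, h2⟩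

lemma split_not_dvd_im : ¬ (p : ℤ) ∣ q.im := by
  intro h
  have h1 : (p : ℤ) ∣ q.re ^ 2 := by
    have h2 : q.re ^ 2 = p - q.im * (q.re + 2 * q.im) := by rw [← hn, nn]; ring
    rw [h2]
    exact dvd_sub (dvd_refl _) (Dvd.dvd.mul_right h _)
  have hpp : Prime (p : ℤ) := Nat.prime_iff_prime_int.1 hp.out
  have h3 : (p : ℤ) ∣ q.re := hpp.dvd_of_dvd_pow h1
  have h4 := Int.dvd_coe_gcd h3 h
  rw [split_cop hq hn] at h4
  have h5 : p ∣ 1 := by exact_mod_cast h4
  exact hp.out.one_lt.ne' (Nat.dvd_one.1 h5)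

lemma split_int {n : ℤ} (h : ¬ (p : ℤ) ∣ n) : Sqm q (n : OO) ↔ J(n | p) = 1 := by
  rw [← jacobiSym.legendreSym.to_jacobiSym, legendreSym.eq_one_iff _
    (by rwa [Ne, ZMod.intCast_zmod_eq_zero_iff_dvd])]
  constructor
  · rintro ⟨y, hy⟩
    -- `d y` is congruent to an integer
    set k : ℤ := q.im * y.re - q.re * y.im with hk
    have h1 : q ∣ (q.im : OO) * y - (k : OO) := by
      refine ⟨(y.im : OO), ?_⟩
      ext
      · simp [hk]
      · simp [hk]
    have h2 : q ∣ ((q.im ^ 2 * n - k ^ 2 : ℤ) : OO) := by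
      have e : ((q.im ^ 2 * n - k ^ 2 : ℤ) : OO) = (q.im : OO) ^ 2 * ((n : OO) - y ^ 2) +
          ((q.im : OO) * y - (k : OO)) * ((q.im : OO) * y + (k : OO)) := by
        push_cast
        ring
      rw [e]
      exact dvd_add (Dvd.dvd.mul_left hy _) (Dvd.dvd.mul_right h1 _)
    rw [split_dvd hq hn, ← ZMod.intCast_zmod_eq_zero_iff_dvd] at h2
    have hd : (q.im : ZMod p) ≠ 0 := by
      rw [Ne, ZMod.intCast_zmod_eq_zero_iff_dvd]
      exact split_not_dvd_im hq hn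
    refine ⟨(k : ZMod p) / (q.im : ZMod p), ?_⟩
    push_cast at h2
    field_simp
    linear_combination h2
  · rintro ⟨y, hy⟩
    refine ⟨((y.val : ℤ) : OO), ?_⟩
    have h1 : (p : ℤ) ∣ n - (y.val : ℤ) ^ 2 := by
      rw [← ZMod.intCast_zmod_eq_zero_iff_dvd]
      push_cast
      rw [ZMod.natCast_zmod_val, hy]
      ring
    have h2 := (split_dvd hq hn _).2 h1
    push_cast at h2 ⊢
    exact h2

/-- the symbol modulo a split prime -/
lemma split_symb (h : Pr q) {x : OO} (hx : ¬ q ∣ x) :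
    ¬ (p : ℤ) ∣ q.im * x.re - q.re * x.im ∧
      (Sqm q x ↔ J(q.im * (q.im * x.re - q.re * x.im) | p) = 1) := by
  have hb : ¬ q ∣ (q.im : OO) := fun h => split_not_dvd_im hq hn ((split_dvd hq hn _).1 h)
  have hbx : ¬ q ∣ (q.im : OO) * x := fun h => (hq.dvd_or_dvd h).elim hb hx
  have e : (q.im : OO) * x - ((q.im * x.re - q.re * x.im : ℤ) : OO) = q * x.im := by
    ext
    · simp
    · simp
  have hm : ¬ q ∣ ((q.im * x.re - q.re * x.im : ℤ) : OO) := by
    intro h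
    apply hbx
    have : (q.im : OO) * x = q * x.im + ((q.im * x.re - q.re * x.im : ℤ) : OO) := by
      rw [← e]; ring
    rw [this]
    exact dvd_add (Dvd.intro _ rfl) h
  have hpm : ¬ (p : ℤ) ∣ q.im * x.re - q.re * x.im := fun h => hm ((split_dvd hq hn _).2 h)
  have hpp : Prime (p : ℤ) := Nat.prime_iff_prime_int.1 hp.out
  have hpm2 : ¬ (p : ℤ) ∣ q.im * (q.im * x.re - q.re * x.im) := fun h =>
    (hpp.dvd_or_dvd h).elim (split_not_dvd_im hq hn) hpm
  refine ⟨hpm, ?_⟩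
  rw [← split_int hq hn hpm2, ← qs_zero, ← qs_zero]
  have h1 : qs q (x * (q.im : OO) ^ 2) = qs q x := qs_mul_sq h hb
  have h2 : qs q (x * (q.im : OO) ^ 2) =
      qs q ((q.im * (q.im * x.re - q.re * x.im) : ℤ) : OO) := by
    apply qs_eq
    apply sqm_congr
    refine ⟨(q.im : OO) * x.im, ?_⟩
    rw [Int.cast_mul]
    linear_combination (q.im : OO) * e
  rw [← h1, h2]

lemma im_symb (h : Pr q) (hp4 : p % 4 = 1) : J(q.im | p) = 1 := by
  obtain ⟨s, b, hb, e⟩ := Nat.exists_eq_two_pow_mul_odd (n := q.im.natAbs)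
    (Int.natAbs_ne_zero.2 (split_im_ne hq hn))
  rw [jac_gen hp4 hb e]
  have hbd : (b : ℤ) ∣ q.im := by
    rw [← Int.dvd_natAbs, e]
    push_cast
    exact Dvd.intro_left _ rfl
  have h1 : J(p | b) = 1 := by
    have h1 : J(p | b) = J(q.re ^ 2 | b) := by
      apply jacobiSym.mod_left'
      apply Int.ModEq.eq
      apply (Int.modEq_iff_dvd).2
      rw [← hn, nn]
      have : q.re ^ 2 - (q.re ^ 2 + q.re * q.im + 2 * q.im ^ 2) = q.im * (-(q.re + 2 * q.im)) := by
        ring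
      rw [this]
      exact Dvd.dvd.mul_right hbd _
    rw [h1]
    apply jacobiSym.sq_one'
    have h2 := split_cop hq hn
    refine Nat.eq_one_of_dvd_one ?_
    rw [← h2]
    exact Nat.dvd_gcd (Int.gcd_dvd_natAbs_left ..) ((Int.gcd_dvd_natAbs_right ..).trans
      (Int.natAbs_dvd_natAbs.2 hbd))
  rw [h1, mul_one]
  have hpo : Odd p := Nat.odd_iff.2 (by omega)
  have h3 : ¬ p % 2 = 0 := by omega
  obtain ⟨a, ha⟩ := h.re
  obtain ⟨c, hc⟩ := h.im
  have hp8 : (p : ℤ) = 8 * (2 * a ^ 2 + a + 2 * a * c + 4 * c ^ 2) + 4 * c + 1 := by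
    rw [← hn, nn, hc, show q.re = 4 * a + 1 by linarith]
    ring
  by_cases h8 : p % 8 = 1
  · rw [jacobiSym.at_two hpo, ZMod.χ₈_nat_eq_if_mod_eight, if_neg h3, if_pos (Or.inl h8), one_pow]
  · -- `d` is four times an odd number
    have hs : s = 2 := by
      have hc2 : c % 2 = 1 := by omega
      have h4 : q.im.natAbs = 4 * c.natAbs := by rw [hc, Int.natAbs_mul]; rfl
      have h5 : c.natAbs % 2 = 1 := by omega
      rw [e] at h4
      have hb2 := Nat.odd_iff.1 hb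
      rcases (by omega : s = 0 ∨ s = 1 ∨ s = 2 ∨ 3 ≤ s) with rfl | rfl | rfl | h6
      · omega
      · omega
      · rfl
      · obtain ⟨k, rfl⟩ := Nat.exists_eq_add_of_le h6
        rw [pow_add] at h4
        have : (2 ^ 3 * 2 ^ k) * b = 8 * (2 ^ k * b) := by ring
        omega
    rw [hs]
    rw [jacobiSym.at_two hpo, ZMod.χ₈_nat_eq_if_mod_eight, if_neg h3]
    split_ifs <;> norm_num

end split

/-! ### Inert primes -/

section inert

variable {l : ℕ} [hl : Fact l.Prime] {e : ℤ} (he : e = l ∨ e = -l) (hl2 : l ≠ 2)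

include he in
lemma e_dvd (n : ℤ) : (l : ℤ) ∣ n ↔ e ∣ n := by
  rcases he with rfl | rfl
  · rfl
  · rw [neg_dvd]

variable (hq : Prime ((e : ℤ) : OO))

lemma int_dvd {e : ℤ} {x : OO} : ((e : ℤ) : OO) ∣ x ↔ e ∣ x.re ∧ e ∣ x.im := by
  constructor
  · rintro ⟨t, rfl⟩
    exact ⟨⟨t.re, by simp⟩, ⟨t.im, by simp⟩⟩
  · rintro ⟨⟨a, ha⟩, ⟨b, hb⟩⟩
    refine ⟨⟨a, b⟩, ?_⟩
    ext
    · simp [ha]
    · simp [hb]

include he hq

lemma inert_nn {x : OO} : ((e : ℤ) : OO) ∣ x ↔ (l : ℤ) ∣ nn x := by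
  rw [e_dvd he]
  constructor
  · rintro ⟨t, rfl⟩
    rw [nn_mul, nn_int]
    exact ⟨e * nn t, by ring⟩
  · intro h
    have h1 : ((e : ℤ) : OO) ∣ x * cj x := by
      rw [mul_cj]
      obtain ⟨k, hk⟩ := h
      rw [hk, Int.cast_mul]
      exact Dvd.intro _ rfl
    rcases hq.dvd_or_dvd h1 with h2 | h2
    · exact h2
    · rw [int_dvd] at h2 ⊢
      simp only [cj] at h2
      have h3 : e ∣ x.im := (dvd_neg.1 h2.2)
      exact ⟨(dvd_add_left h3).1 h2.1, h3⟩

lemma inert_seven : ¬ (l : ℤ) ∣ -7 := by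
  intro h
  rw [dvd_neg] at h
  have h7 : l = 7 := (Nat.prime_dvd_prime_iff_eq hl.out (by norm_num)).1 (by exact_mod_cast h)
  have h1 : ((e : ℤ) : OO) ∣ ⟨-1, 2⟩ := by
    rw [inert_nn he hq, h7]
    norm_num [nn]
  rw [int_dvd, ← e_dvd he, h7] at h1
  norm_num at h1

include hl2

lemma inert_neg : J(-7 | l) = -1 := by
  have h7 := inert_seven he hq
  rw [← jacobiSym.legendreSym.to_jacobiSym, legendreSym.eq_neg_one_iff]
  rintro ⟨c, hc⟩
  have h1 : (l : ℤ) ∣ nn (⟨-1 - c.val, 2⟩ : OO) := by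
    rw [← ZMod.intCast_zmod_eq_zero_iff_dvd]
    simp only [nn]
    push_cast
    rw [ZMod.natCast_zmod_val]
    push_cast at hc
    linear_combination -hc
  rw [← inert_nn he hq, int_dvd, ← e_dvd he, ← e_dvd he] at h1
  have h3 : (l : ℤ) ∣ 2 := h1.2
  have h2 : l ∣ 2 := by exact_mod_cast h3
  exact hl2 ((Nat.prime_dvd_prime_iff_eq hl.out Nat.prime_two).1 h2)

/-- integers are squares -/
lemma inert_int (h4 : (4 : ℤ) ∣ e - 1) {n : ℤ} (hn : ¬ (l : ℤ) ∣ n) : Sqm ((e : ℤ) : OO) (n : OO) := by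
  have hpr : Pr ((e : ℤ) : OO) := ⟨hq, by
    obtain ⟨t, ht⟩ := h4
    refine ⟨(t : OO), ?_⟩
    have h5 := congrArg (fun a : ℤ => (a : OO)) ht
    push_cast at h5
    exact h5⟩
  have hint : ∀ a b : ℤ, (l : ℤ) ∣ a - b → ((e : ℤ) : OO) ∣ (a : OO) - (b : OO) := by
    intro a b h
    rw [e_dvd he] at h
    obtain ⟨k, hk⟩ := h
    refine ⟨(k : OO), ?_⟩
    rw [← Int.cast_sub, hk, Int.cast_mul]
  have hnd : ∀ a : ℤ, ¬ (l : ℤ) ∣ a → ¬ ((e : ℤ) : OO) ∣ (a : OO) := by
    intro a ha h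
    rw [int_dvd, ← e_dvd he] at h
    exact ha (by simpa using h.1)
  have sq : ∀ a : ℤ, ¬ (l : ℤ) ∣ a → J(a | l) = 1 → ∃ c : ℤ, (l : ℤ) ∣ a - c ^ 2 := by
    intro a ha hJ
    rw [← jacobiSym.legendreSym.to_jacobiSym, legendreSym.eq_one_iff _
      (by rwa [Ne, ZMod.intCast_zmod_eq_zero_iff_dvd])] at hJ
    obtain ⟨y, hy⟩ := hJ
    refine ⟨(y.val : ℤ), ?_⟩
    rw [← ZMod.intCast_zmod_eq_zero_iff_dvd]
    push_cast
    rw [ZMod.natCast_zmod_val, hy]
    ring
  have h7 := inert_seven he hq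
  have hlp : Prime (l : ℤ) := Nat.prime_iff_prime_int.1 hl.out
  have hJ : J(n | l) = 1 ∨ J(n | l) = -1 := by
    rw [← jacobiSym.legendreSym.to_jacobiSym]
    exact legendreSym.eq_one_or_neg_one l (by rwa [Ne, ZMod.intCast_zmod_eq_zero_iff_dvd])
  rcases hJ with hJ | hJ
  · obtain ⟨c, hc⟩ := sq n hn hJ
    refine ⟨(c : OO), ?_⟩
    have := hint _ _ hc
    push_cast at this
    exact this
  · have h1 : J(-7 * n | l) = 1 := by
      rw [jacobiSym.mul_left, hJ, inert_neg he hl2 hq]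
      norm_num
    obtain ⟨c, hc⟩ := sq _ (fun h => (hlp.dvd_or_dvd h).elim h7 hn) h1
    rw [← qs_zero, ← qs_mul_sq hpr (x := (n : OO)) (y := ((7 : ℤ) : OO)) (hnd 7 (fun h => h7 (dvd_neg.2 h))),
      qs_zero]
    refine ⟨(c : OO) * ⟨-1, 2⟩, ?_⟩
    have h2 := hint _ _ hc
    have e7 : ((⟨-1, 2⟩ : OO)) ^ 2 = ((-7 : ℤ) : OO) := by
      ext
      · rw [re_intCast]; simp [pow_two]
      · rw [im_intCast]; simp [pow_two]
    have h3 : (n : OO) * ((7 : ℤ) : OO) ^ 2 - ((c : OO) * ⟨-1, 2⟩) ^ 2 =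
        (((-7 * n : ℤ) : OO) - ((c ^ 2 : ℤ) : OO)) * ((-7 : ℤ) : OO) := by
      rw [mul_pow, e7]
      push_cast
      ring
    rw [h3]
    exact Dvd.dvd.mul_right h2 _

/-- the symbol modulo an inert prime -/
lemma inert_symb (h4 : (4 : ℤ) ∣ e - 1) {x : OO} (hx : ¬ ((e : ℤ) : OO) ∣ x) :
    Sqm ((e : ℤ) : OO) x ↔ J(nn x | l) = 1 := by
  have hpr : Pr ((e : ℤ) : OO) := ⟨hq, by
    obtain ⟨t, ht⟩ := h4
    refine ⟨(t : OO), ?_⟩
    have h5 := congrArg (fun a : ℤ => (a : OO)) ht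
    push_cast at h5
    exact h5⟩
  have hlp : Prime (l : ℤ) := Nat.prime_iff_prime_int.1 hl.out
  have hnx : ¬ (l : ℤ) ∣ nn x := fun h => hx ((inert_nn he hq).2 h)
  rw [← jacobiSym.legendreSym.to_jacobiSym, legendreSym.eq_one_iff _
      (by rwa [Ne, ZMod.intCast_zmod_eq_zero_iff_dvd])]
  constructor
  · rintro ⟨y, hy⟩
    rw [int_dvd] at hy
    obtain ⟨h1, h2⟩ := hy
    rw [← e_dvd he, ← ZMod.intCast_zmod_eq_zero_iff_dvd] at h1 h2
    refine ⟨((nn y : ℤ) : ZMod l), ?_⟩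
    have e1 : ((nn (y ^ 2) : ℤ) : ZMod l) = ((nn y : ℤ) : ZMod l) * ((nn y : ℤ) : ZMod l) := by
      rw [pow_two, nn_mul]
      push_cast
      ring
    rw [← e1]
    have h3 : (x.re : ZMod l) = ((y ^ 2).re : ZMod l) := by
      rw [re_sub] at h1
      push_cast at h1
      linear_combination h1
    have h4' : (x.im : ZMod l) = ((y ^ 2).im : ZMod l) := by
      rw [im_sub] at h2
      push_cast at h2
      linear_combination h2
    simp only [nn]
    push_cast
    rw [h3, h4']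
  · rintro ⟨n', hn'⟩
    set n : ℤ := (n'.val : ℤ) with hn
    have h1 : (l : ℤ) ∣ nn x - n ^ 2 := by
      rw [← ZMod.intCast_zmod_eq_zero_iff_dvd]
      push_cast
      rw [hn]
      push_cast
      rw [ZMod.natCast_zmod_val, hn']
      ring
    -- the two cases
    have key : ∀ k : ℤ, (l : ℤ) ∣ nn x - k ^ 2 → ¬ (l : ℤ) ∣ 2 * x.re + x.im + 2 * k →
        Sqm ((e : ℤ) : OO) x := by
      intro k hk1 hk2
      have hnd : ¬ ((e : ℤ) : OO) ∣ ((2 * x.re + x.im + 2 * k : ℤ) : OO) := by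
        intro h
        rw [int_dvd, ← e_dvd he] at h
        exact hk2 (by simpa using h.1)
      have htr : x + cj x = ((2 * x.re + x.im : ℤ) : OO) := by
        ext
        · rw [re_intCast]; simp [cj]; ring
        · rw [im_intCast]; simp [cj]
      have h2 : ((e : ℤ) : OO) ∣ x * ((2 * x.re + x.im + 2 * k : ℤ) : OO) - (x + (k : OO)) ^ 2 := by
        have h3 : x * ((2 * x.re + x.im + 2 * k : ℤ) : OO) - (x + (k : OO)) ^ 2 =
            ((nn x - k ^ 2 : ℤ) : OO) := by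
          have h5 : ((2 * x.re + x.im + 2 * k : ℤ) : OO) = x + cj x + 2 * (k : OO) := by
            rw [htr]
            push_cast
            ring
          rw [h5]
          push_cast
          have := mul_cj x
          linear_combination this
        rw [h3]
        rw [e_dvd he] at hk1
        obtain ⟨c, hc⟩ := hk1
        rw [hc, Int.cast_mul]
        exact Dvd.intro _ rfl
      have h3 : qs ((e : ℤ) : OO) (x * ((2 * x.re + x.im + 2 * k : ℤ) : OO)) = 0 :=
        qs_zero.2 ⟨_, h2⟩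
      rw [qs_mul hpr hx hnd, qs_zero.2 (inert_int he hl2 hq h4 hk2), add_zero] at h3
      exact qs_zero.1 h3
    by_cases hk : (l : ℤ) ∣ 2 * x.re + x.im + 2 * n
    · apply key (-n)
      · rwa [neg_sq]
      · intro hk'
        have h5 : (l : ℤ) ∣ 4 * n := by
          have := dvd_sub hk hk'
          have e5 : 2 * x.re + x.im + 2 * n - (2 * x.re + x.im + 2 * -n) = 4 * n := by ring
          rwa [e5] at this
        rcases hlp.dvd_or_dvd h5 with h6 | h6
        · have h7 : (l : ℤ) ∣ 2 ^ 2 := by norm_num; exact h6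
          have h8 := hlp.dvd_of_dvd_pow h7
          exact hl2 ((Nat.prime_dvd_prime_iff_eq hl.out Nat.prime_two).1 (by exact_mod_cast h8))
        · apply hnx
          have h7 : nn x = (nn x - n ^ 2) + n * n := by ring
          rw [h7]
          exact dvd_add h1 (Dvd.dvd.mul_right h6 _)
    · exact key n h1 hk

end inert

/-! ### Reciprocity -/

lemma recip_ss (hq : Pr q) (hr : Pr r) (hne : q ≠ r) {p s : ℕ}
    [hp : Fact p.Prime] [hs : Fact s.Prime] (hp4 : p % 4 = 1) (hs4 : s % 4 = 1)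
    (hpn : nn q = p) (hsn : nn r = s) : qs q r = qs r q := by
  obtain ⟨h1, h2⟩ := split_symb hq.prime hpn hq (not_dvd hq hr hne)
  obtain ⟨h3, h4⟩ := split_symb hr.prime hsn hr (not_dvd hr hq hne.symm)
  set m := q.im * r.re - q.re * r.im with hm
  have hm' : r.im * q.re - r.re * q.im = -m := by rw [hm]; ring
  rw [hm'] at h3 h4
  have hm0 : m ≠ 0 := by
    rintro h0
    rw [h0] at h1
    exact h1 (dvd_zero _)
  obtain ⟨t, n', hn', e⟩ := Nat.exists_eq_two_pow_mul_odd (n := m.natAbs) (Int.natAbs_ne_zero.2 hm0)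
  apply qs_eq
  rw [h2, h4, jacobiSym.mul_left, jacobiSym.mul_left, im_symb hq.prime hpn hq hp4,
    im_symb hr.prime hsn hr hs4, one_mul, one_mul, jac_gen hp4 hn' e,
    jac_gen hs4 hn' (by rw [Int.natAbs_neg]; exact e)]
  -- the product of the symbols
  have hnd : (n' : ℤ) ∣ m := by
    rw [← Int.dvd_natAbs, e]
    push_cast
    exact Dvd.intro_left _ rfl
  set A := q.re * (r.re + r.im) + 2 * (q.im * r.im) with hA
  have hprod : (p : ℤ) * s = A ^ 2 + A * m + 2 * m ^ 2 := by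
    rw [← hpn, ← hsn, nn, nn, hA, hm]
    ring
  have hcop : A.gcd n' = 1 := by
    by_contra hcon
    obtain ⟨l, hl, hd⟩ := Nat.exists_prime_and_dvd hcon
    have g1 : (l : ℤ) ∣ A := (Int.natCast_dvd_natCast.2 hd).trans (Int.gcd_dvd_left ..)
    have g2 : (l : ℤ) ∣ m := ((Int.natCast_dvd_natCast.2 hd).trans (Int.gcd_dvd_right ..)).trans hnd
    have g3 : (l : ℤ) ∣ (p : ℤ) * s := by
      have : (p : ℤ) * s = A * (A + m) + m * (2 * m) := by rw [hprod]; ring
      rw [this]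
      exact dvd_add (Dvd.dvd.mul_right g1 _) (Dvd.dvd.mul_right g2 _)
    have hlp : Prime (l : ℤ) := Nat.prime_iff_prime_int.1 hl
    rcases hlp.dvd_or_dvd g3 with g4 | g4
    · have g5 : l = p := (Nat.prime_dvd_prime_iff_eq hl hp.out).1 (Int.natCast_dvd_natCast.1 g4)
      rw [g5] at g2
      exact h1 g2
    · have g5 : l = s := (Nat.prime_dvd_prime_iff_eq hl hs.out).1 (Int.natCast_dvd_natCast.1 g4)
      rw [g5] at g2
      exact h3 ((dvd_neg).2 g2)
  have h5 : J(p | n') * J(s | n') = 1 := by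
    rw [← jacobiSym.mul_left, ← jacobiSym.sq_one' hcop]
    apply jacobiSym.mod_left'
    apply Int.ModEq.eq
    apply (Int.modEq_iff_dvd).2
    have : A ^ 2 - (p : ℤ) * s = m * (-(A + 2 * m)) := by rw [hprod]; ring
    rw [this]
    exact Dvd.dvd.mul_right hnd _
  -- the powers of two
  have h6 : J(2 | p) ^ t = J(2 | s) ^ t := by
    have hpo : Odd p := Nat.odd_iff.2 (by omega)
    have hso : Odd s := Nat.odd_iff.2 (by omega)
    obtain ⟨a, ha⟩ := hq.re
    obtain ⟨b, hb⟩ := hq.im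
    obtain ⟨c, hc⟩ := hr.re
    obtain ⟨d, hd⟩ := hr.im
    have hm4 : m = 4 * (b * r.re - q.re * d) := by rw [hm, hb, hd]; ring
    have e1 : (p : ℤ) = 8 * (2 * a ^ 2 + a + 2 * a * b + 4 * b ^ 2) + 4 * b + 1 := by
      rw [← hpn, nn, hb, show q.re = 4 * a + 1 by linarith]
      ring
    have e2 : (s : ℤ) = 8 * (2 * c ^ 2 + c + 2 * c * d + 4 * d ^ 2) + 4 * d + 1 := by
      rw [← hsn, nn, hd, show r.re = 4 * c + 1 by linarith]
      ring
    by_cases h8 : p % 8 = s % 8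
    · rw [jacobiSym.at_two hpo, jacobiSym.at_two hso, ZMod.χ₈_nat_eq_if_mod_eight,
        ZMod.χ₈_nat_eq_if_mod_eight]
      have h9 : p % 2 = s % 2 := by omega
      rw [h8, h9]
    · have hbd : (b - d) % 2 = 1 := by omega
      have hodd : (b * r.re - q.re * d) % 2 = 1 := by
        have e3 : b * r.re - q.re * d = (b - d) + 4 * (b * c - a * d) := by
          rw [show q.re = 4 * a + 1 by linarith, show r.re = 4 * c + 1 by linarith]
          ring
        omega
      have ht : t = 2 := by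
        have h4' : m.natAbs = 4 * (b * r.re - q.re * d).natAbs := by rw [hm4, Int.natAbs_mul]; rfl
        have h5' : (b * r.re - q.re * d).natAbs % 2 = 1 := by omega
        rw [e] at h4'
        have hb2 := Nat.odd_iff.1 hn'
        rcases (by omega : t = 0 ∨ t = 1 ∨ t = 2 ∨ 3 ≤ t) with rfl | rfl | rfl | h6
        · omega
        · omega
        · rfl
        · obtain ⟨k, rfl⟩ := Nat.exists_eq_add_of_le h6
          rw [pow_add] at h4'
          have : (2 ^ 3 * 2 ^ k) * n' = 8 * (2 ^ k * n') := by ring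
          omega
      rw [ht]
      have sq : ∀ n : ℕ, Odd n → J(2 | n) ^ 2 = 1 := by
        intro n hn
        rw [jacobiSym.at_two hn, ZMod.χ₈_nat_eq_if_mod_eight]
        have := Nat.odd_iff.1 hn
        rw [if_neg (by omega)]
        split_ifs <;> norm_num
      rw [sq p hpo, sq s hso]
  rw [h6]
  rcases jacobiSym.trichotomy p n' with h6 | h6 | h6 <;>
  rcases jacobiSym.trichotomy s n' with h7 | h7 | h7 <;> rw [h6, h7] at h5 <;> norm_num at h5 <;>
    simp [h6, h7]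

lemma recip_si (hq : Pr q) (hr : Pr r) (hne : q ≠ r) {p l : ℕ} {e : ℤ}
    [hp : Fact p.Prime] [hl : Fact l.Prime] (hp4 : p % 4 = 1) (hpn : nn q = p)
    (hl2 : l ≠ 2) (he : e = l ∨ e = -l) (h4 : (4 : ℤ) ∣ e - 1) (hre : r = ((e : ℤ) : OO)) :
    qs q r = qs r q := by
  subst hre
  have h1 := inert_symb he hl2 hr.prime h4 (not_dvd hr hq hne.symm)
  have hlo : Odd l := hl.out.odd_of_ne_two hl2
  have hpe : ¬ (p : ℤ) ∣ e := by
    intro h
    exact not_dvd hq hr hne ((split_dvd hq.prime hpn _).2 h)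
  apply qs_eq
  rw [h1, split_int hq.prime hpn hpe, hpn]
  have h2 : J(e | p) = J(l | p) := by
    rcases he with rfl | rfl
    · rfl
    · rw [jacobiSym.neg _ (Nat.odd_iff.2 (by omega)), ZMod.χ₄_nat_one_mod_four hp4, one_mul]
  rw [h2, jacobiSym.quadratic_reciprocity_one_mod_four' hlo hp4]

lemma recip_ii (hq : Pr q) (hr : Pr r) (hne : q ≠ r) {l : ℕ} {e f : ℤ}
    [hl : Fact l.Prime] (hl2 : l ≠ 2) (he : e = l ∨ e = -l) (h4 : (4 : ℤ) ∣ e - 1)
    (hqe : q = ((e : ℤ) : OO)) (hrf : r = ((f : ℤ) : OO)) : qs q r = 0 := by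
  subst hqe
  subst hrf
  have h1 := inert_symb he hl2 hq.prime h4 (not_dvd hq hr hne)
  have h2 : ¬ (l : ℤ) ∣ f := by
    intro h
    apply not_dvd hq hr hne
    rw [inert_nn he hq.prime, nn_int]
    exact Dvd.dvd.pow h two_ne_zero
  rw [qs_zero, h1, nn_int]
  apply jacobiSym.sq_one'
  rw [Int.gcd_comm]
  have := (Nat.Prime.coprime_iff_not_dvd hl.out).2 (fun h => h2 (Int.natCast_dvd.2 h))
  exact this

/-- **Quadratic reciprocity.** -/
theorem recip (hq : Pr q) (hr : Pr r) (hne : q ≠ r) : qs q r = qs r q := by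
  rcases hq.cases with ⟨p, hp, hp4, hpn⟩ | ⟨l, e, hl, hl2, he, he4, hqe⟩
  · have : Fact p.Prime := ⟨hp⟩
    rcases hr.cases with ⟨s, hs, hs4, hsn⟩ | ⟨l, e, hl, hl2, he, he4, hre⟩
    · have : Fact s.Prime := ⟨hs⟩
      exact recip_ss hq hr hne hp4 hs4 hpn hsn
    · have : Fact l.Prime := ⟨hl⟩
      exact recip_si hq hr hne hp4 hpn hl2 he he4 hre
  · have : Fact l.Prime := ⟨hl⟩
    rcases hr.cases with ⟨s, hs, hs4, hsn⟩ | ⟨l', e', hl', hl2', he', he4', hre⟩
    · have : Fact s.Prime := ⟨hs⟩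
      exact (recip_si hr hq hne.symm hs4 hsn hl2 he he4 hqe).symm
    · have : Fact l'.Prime := ⟨hl'⟩
      rw [recip_ii hq hr hne hl2 he he4 hqe hre, recip_ii hr hq hne.symm hl2' he' he4' hre hqe]

/-- `-1` is a square -/
theorem neg_one_symb (hq : Pr q) : qs q (-1) = 0 := by
  have hnd : ¬ q ∣ -1 := by
    rw [dvd_neg]
    exact fun h => hq.prime.not_isUnit (isUnit_of_dvd_one h)
  rw [qs_zero]
  rcases hq.cases with ⟨p, hp, hp4, hpn⟩ | ⟨l, e, hl, hl2, he, he4, hqe⟩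
  · have : Fact p.Prime := ⟨hp⟩
    have h1 : ¬ (p : ℤ) ∣ -1 := by
      rw [← split_dvd hq.prime hpn]
      push_cast
      exact hnd
    have h2 := split_int hq.prime hpn h1
    push_cast at h2
    rw [h2, jacobiSym.at_neg_one (Nat.odd_iff.2 (by omega)), ZMod.χ₄_nat_one_mod_four hp4]
  · have : Fact l.Prime := ⟨hl⟩
    subst hqe
    rw [inert_symb he hl2 hq.prime he4 hnd]
    have : nn (-1 : OO) = 1 := by simp [nn]
    rw [this, jacobiSym.one_left]

lemma not_dvd_two_div (hq : Pr q) {x y : OO} (h : x * y = 2) : ¬ q ∣ x := by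
  intro h1
  apply hq.two
  rw [← h]
  exact Dvd.dvd.mul_right h1 _

/-- `ω` -/
def om : OO := ⟨0, 1⟩

lemma om_mul : om * (1 - om) = 2 := by
  ext
  · rw [re_ofNat]; simp [om]
  · rw [im_ofNat]; simp [om]

/-- **The supplementary law.** -/
theorem om_symb (hq : Pr q) : qs q om = 0 ↔ (8 : ℤ) ∣ q.re - 1 := by
  rw [qs_zero]
  have h1 := hq.re
  have h2 := hq.im
  have hnd : ¬ q ∣ om := not_dvd_two_div hq om_mul
  rcases hq.cases with ⟨p, hp, hp4, hpn⟩ | ⟨l, e, hl, hl2, he, he4, hqe⟩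
  · have : Fact p.Prime := ⟨hp⟩
    obtain ⟨h3, h4⟩ := split_symb hq.prime hpn hq hnd
    have e1 : q.im * om.re - q.re * om.im = -q.re := by
      show q.im * 0 - q.re * 1 = _
      ring
    rw [h4, e1, jacobiSym.mul_left, im_symb hq.prime hpn hq hp4, one_mul]
    have hro : Odd q.re.natAbs := by
      rw [Int.natAbs_odd]
      exact Int.odd_iff.2 (by omega)
    rw [jac_gen hp4 (s := 0) hro (by simp), pow_zero, one_mul]
    have hnd' : (q.re.natAbs : ℤ) ∣ q.re := Int.natAbs_dvd.2 (dvd_refl _)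
    have hcop : Int.gcd q.im q.re.natAbs = 1 := by
      have h5 : Int.gcd q.im q.re.natAbs = Int.gcd q.im q.re := by
        rw [Int.gcd_def, Int.gcd_def, Int.natAbs_natCast]
      rw [h5, Int.gcd_comm]
      exact split_cop hq.prime hpn
    have h5 : J(p | q.re.natAbs) = J(2 | q.re.natAbs) := by
      have h6 : J(p | q.re.natAbs) = J(2 * q.im ^ 2 | q.re.natAbs) := by
        apply jacobiSym.mod_left'
        apply Int.ModEq.eq
        apply (Int.modEq_iff_dvd).2
        have : 2 * q.im ^ 2 - (p : ℤ) = q.re * (-(q.re + q.im)) := by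
          rw [← hpn, nn]
          ring
        rw [this]
        exact Dvd.dvd.mul_right hnd' _
      rw [h6, jacobiSym.mul_left, jacobiSym.sq_one' hcop, mul_one]
    rw [h5, jacobiSym.at_two hro, ZMod.χ₈_nat_eq_if_mod_eight]
    have h7 : ¬ q.re.natAbs % 2 = 0 := by
      have := Nat.odd_iff.1 hro
      omega
    rw [if_neg h7]
    split_ifs with h8
    · simp only [true_iff]
      omega
    · constructor
      · intro h9
        norm_num at h9
      · intro h9
        omega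
  · have : Fact l.Prime := ⟨hl⟩
    subst hqe
    rw [inert_symb he hl2 hq.prime he4 hnd]
    have e1 : nn om = 2 := by simp [nn, om]
    have hlo : Odd l := hl.odd_of_ne_two hl2
    have hlo' := Nat.odd_iff.1 hlo
    rw [e1, jacobiSym.at_two hlo, ZMod.χ₈_nat_eq_if_mod_eight, if_neg (by omega), re_intCast]
    simp only [Int.cast_id]
    split_ifs with h8
    · simp only [true_iff]
      omega
    · constructor
      · intro h9
        norm_num at h9
      · intro h9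
        omega

/-! ### Conjugation -/

/-- the conjugation as a homomorphism -/
def cjH : OO →+* OO where
  toFun := cj
  map_one' := by ext <;> simp [cj]
  map_zero' := by ext <;> simp [cj]
  map_add' x y := by ext <;> simp [cj] <;> ring
  map_mul' x y := by ext <;> simp [cj] <;> ring

lemma cj_cj (x : OO) : cj (cj x) = x := by ext <;> simp [cj]

lemma cj_dvd {x y : OO} (h : x ∣ y) : cj x ∣ cj y := map_dvd cjH h

lemma sqm_cj {q x : OO} : Sqm (cj q) (cj x) ↔ Sqm q x := by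
  have key : ∀ q x : OO, Sqm q x → Sqm (cj q) (cj x) := by
    rintro q x ⟨y, hy⟩
    refine ⟨cj y, ?_⟩
    have h1 := cj_dvd hy
    have h2 : cj (x - y ^ 2) = cj x - cj y ^ 2 := by
      show cjH _ = cjH _ - cjH _ ^ 2
      rw [map_sub, map_pow]
    rwa [h2] at h1
  constructor
  · intro h
    have := key _ _ h
    rwa [cj_cj, cj_cj] at this
  · exact key q x

lemma Pr.cj (hq : Pr q) : Pr (cj q) := by
  refine ⟨?_, ?_⟩
  · let c : OO ≃+* OO := RingEquiv.ofBijective cjH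
      ⟨fun x y h => by
        have h1 : R384.cj (R384.cj x) = R384.cj (R384.cj y) := congrArg R384.cj h
        rwa [cj_cj, cj_cj] at h1, fun x => ⟨R384.cj x, cj_cj x⟩⟩
    exact (MulEquiv.prime_iff c.toMulEquiv).2 hq.prime
  · have h1 := cj_dvd hq.one
    have h2 : R384.cj (q - 1) = R384.cj q - 1 := by
      show cjH _ = cjH _ - 1
      rw [map_sub, map_one]
    have h3 : R384.cj 4 = 4 := by
      show cjH _ = _
      rw [map_ofNat]
    rwa [h2, h3] at h1

/-- the supplementary law for the conjugate -/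
theorem om_symb' (hq : Pr q) : qs q (1 - om) = 0 ↔ (8 : ℤ) ∣ q.re + q.im - 1 := by
  have h1 := om_symb hq.cj
  have h2 : qs q (1 - om) = qs (cj q) om := by
    apply qs_eq
    rw [← sqm_cj]
    have : cj (1 - om) = om := by ext <;> simp [cj, om]
    rw [this]
  rw [h2, h1]
  rfl

end Pool.Agent.R384
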