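import Pool.Agent.R384.Act
import Pool.Agent.R384.Core

/-!
# The kernel of the reduction at a place above two
-/

set_option autoImplicit false
set_option linter.unusedSectionVars false

namespace Pool.Agent.R384

open WeierstrassCurve Pool.Agent.Y676.IS
open Pool.Agent.Y715.Red Pool.Agent.Y715.Nr Pool.Agent.W237.RK
open Pool.Agent.Y715.Gi (QB KK GK i₀_mem gk_fix)

open scoped Classical

/-- a point which is not reduced to an affine point of the model with `x = 4 X` -/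
def Rg (ι : QB →+* PadicAlgCl 2) {α β : QB} : (Cu α β).Point → Prop
  | .zero => True
  | .some x _ _ => 1 / 4 < ‖ι x‖

variable {ι : QB →+* PadicAlgCl 2} {D a b c a' b' : QB}

/-- the conditions on the coefficients -/
structure Va (ι : QB →+* PadicAlgCl 2) (D a b c : QB) : Prop extends LD D a b c where
  nD : ‖ι D‖ = 1
  na : ‖ι a‖ = 1
  nb : ‖ι b‖ ≤ 1 / 4
  nc : ‖ι ((a - c) / 2)‖ ≤ 1 / 4

lemma n2 : ‖ι (2 : QB)‖ = 1 / 2 := by
  rw [map_ofNat, Pool.Agent.Y715.Gi.norm_two']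
  norm_num

lemma n4 : ‖ι (4 : QB)‖ = 1 / 4 := by
  have e : (4 : QB) = 2 * 2 := by norm_num
  rw [e, map_mul, norm_mul, n2]
  norm_num

lemma Va.nac (h : Va ι D a b c) : ‖ι ((a + c) / 2)‖ = 1 := by
  have e : (a + c) / 2 = a - (a - c) / 2 := by ring
  rw [e, map_sub, sub_eq_add_neg, eq_of_lt, h.na]
  rw [norm_neg, h.na]
  have := h.nc
  linarith

/-- the choice of the sign of `c` -/
lemma exists_cc (h : LD D a b c) (nD : ‖ι D‖ = 1) (na : ‖ι a‖ = 1) (nb : ‖ι b‖ ≤ 1 / 4) :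
    Va ι D a b c ∨ Va ι D a b (-c) := by
  have hprod : ‖ι (a - c)‖ * ‖ι (a + c)‖ ≤ 1 / 16 := by
    rw [← norm_mul, ← map_mul]
    have e : (a - c) * (a + c) = b * b := by
      have := h.hc
      linear_combination this
    rw [e, map_mul, norm_mul]
    nlinarith [norm_nonneg (ι b)]
  have h2a : 1 / 2 ≤ max ‖ι (a - c)‖ ‖ι (a + c)‖ := by
    have e : ‖ι (2 * a)‖ = 1 / 2 := by rw [map_mul, norm_mul, n2, na, mul_one]
    rw [← e]
    have e2 : (2 * a : QB) = (a - c) + (a + c) := by ring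
    rw [e2, map_add]
    exact IsUltrametricDist.norm_add_le_max _ _
  have key : ∀ u v : ℝ, 0 ≤ u → u * v ≤ 1 / 16 → 1 / 2 ≤ v → u ≤ 1 / 8 := by
    intro u v hu h1 h2
    nlinarith
  rcases le_max_iff.1 h2a with h1 | h1
  · right
    have h3 : ‖ι (a + c)‖ ≤ 1 / 8 := key _ _ (norm_nonneg _) (by rwa [mul_comm]) h1
    refine ⟨⟨h.D0, h.a0, h.b0, neg_ne_zero.2 h.c0, by rw [neg_sq]; exact h.hc⟩, nD, na, nb, ?_⟩
    rw [sub_neg_eq_add, map_div₀, norm_div, n2]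
    linarith
  · left
    have h3 : ‖ι (a - c)‖ ≤ 1 / 8 := key _ _ (norm_nonneg _) hprod h1
    refine ⟨h, nD, na, nb, ?_⟩
    rw [map_div₀, norm_div, n2]
    linarith

/-- the next curve -/
lemma Va.next (h : Va ι D a b c) : ∃ c', Va ι D ((a + c) / 2) ((a - c) / 2) c' := by
  have hn : LN D a b c ((a + c) / 2) ((a - c) / 2) := ⟨h.toLD, by ring, by ring⟩
  obtain ⟨c', hc'⟩ := IsAlgClosed.exists_pow_nat_eq (a * c) two_pos
  have h1 : LD D ((a + c) / 2) ((a - c) / 2) c' := by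
    refine ⟨h.D0, hn.a0', hn.b0', ?_, ?_⟩
    · rintro rfl
      rw [zero_pow two_ne_zero] at hc'
      exact mul_ne_zero h.a0 h.c0 hc'.symm
    · rw [hc']; ring
  rcases exists_cc h1 h.nD h.nac h.nc with h2 | h2
  · exact ⟨_, h2⟩
  · exact ⟨_, h2⟩

/-- the sequence of curves -/
lemma exists_chain (h : Va ι D a b c) : ∃ a' b' c' : ℕ → QB, a' 0 = a ∧ b' 0 = b ∧ c' 0 = c ∧
    (∀ n, Va ι D (a' n) (b' n) (c' n)) ∧
    ∀ n, LN D (a' n) (b' n) (c' n) (a' (n + 1)) (b' (n + 1)) := by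
  have hs : ∀ p : {p : QB × QB × QB // Va ι D p.1 p.2.1 p.2.2}, ∃ c', Va ι D
      ((p.1.1 + p.1.2.2) / 2) ((p.1.1 - p.1.2.2) / 2) c' := fun p => p.2.next
  choose s hs using hs
  let z : ℕ → {p : QB × QB × QB // Va ι D p.1 p.2.1 p.2.2} := fun n =>
    Nat.rec ⟨(a, b, c), h⟩ (fun _ p => ⟨((p.1.1 + p.1.2.2) / 2, (p.1.1 - p.1.2.2) / 2, s p), hs p⟩) n
  refine ⟨fun n => (z n).1.1, fun n => (z n).1.2.1, fun n => (z n).1.2.2, rfl, rfl, rfl,
    fun n => (z n).2, fun n => ⟨(z n).2.toLD, ?_, ?_⟩⟩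
  · show 2 * (((z n).1.1 + (z n).1.2.2) / 2) = _
    ring
  · show 2 * (((z n).1.1 - (z n).1.2.2) / 2) = _
    ring

/-- the choice of the sign is invariant -/
lemma Va.fix (h : Va ι D a b c) {σ : QB →+* QB} {τ : PadicAlgCl 2 → PadicAlgCl 2}
    (hτ : ∀ z, ‖τ z‖ = ‖z‖) (hc : ∀ x, τ (ι x) = ι (σ x)) (fa : σ a = a) (fb : σ b = b) :
    σ c = c := by
  have h1 : (σ c) ^ 2 = c ^ 2 := by
    rw [← map_pow]
    have e : c ^ 2 = a ^ 2 - b ^ 2 := by rw [h.hc]; ring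
    rw [e, map_sub, map_pow, map_pow, fa, fb]
  rcases sq_eq_sq_iff_eq_or_eq_neg.1 h1 with h2 | h2
  · exact h2
  · exfalso
    have h3 : ι (σ ((a - c) / 2)) = ι ((a + c) / 2) := by
      rw [map_div₀, map_sub, fa, h2, map_ofNat, sub_neg_eq_add]
    have h4 := h.nc
    rw [← hτ, hc, h3, h.nac] at h4
    norm_num at h4

lemma chain_fix {a' b' c' : ℕ → QB} (hv : ∀ n, Va ι D (a' n) (b' n) (c' n))
    (hn : ∀ n, LN D (a' n) (b' n) (c' n) (a' (n + 1)) (b' (n + 1)))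
    {σ : QB →+* QB} {τ : PadicAlgCl 2 → PadicAlgCl 2}
    (hτ : ∀ z, ‖τ z‖ = ‖z‖) (hc : ∀ x, τ (ι x) = ι (σ x)) (fa : σ (a' 0) = a' 0)
    (fb : σ (b' 0) = b' 0) (n : ℕ) : σ (a' n) = a' n ∧ σ (b' n) = b' n ∧ σ (c' n) = c' n := by
  induction n with
  | zero => exact ⟨fa, fb, (hv 0).fix hτ hc fa fb⟩
  | succ n ih =>
    have h1 : σ (a' (n + 1)) = a' (n + 1) := by
      rw [(hn n).sa, map_div₀, map_add, ih.1, ih.2.2, map_ofNat]
    have h2 : σ (b' (n + 1)) = b' (n + 1) := by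
      rw [(hn n).sb, map_div₀, map_sub, ih.1, ih.2.2, map_ofNat]
    exact ⟨h1, h2, (hv (n + 1)).fix hτ hc h1 h2⟩

/-- the kernel of the reduction contains the preimages -/
lemma Rg_lf (h : LN D a b c a' b') (hv : Va ι D a b c) {P : Pt D a b} (hP : Rg ι (lf h P)) :
    Rg ι P := by
  rcases P with _ | ⟨x, y, hxy⟩
  · exact trivial
  show 1 / 4 < ‖ι x‖
  by_contra hcon
  push Not at hcon
  have hA : ‖ι (D * a ^ 2)‖ = 1 := by rw [map_mul, map_pow, norm_mul, norm_pow, hv.nD, hv.na]; norm_num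
  have hB : ‖ι (D * b ^ 2)‖ ≤ 1 / 4 := by
    rw [map_mul, map_pow, norm_mul, norm_pow, hv.nD, one_mul]
    have := hv.nb
    nlinarith [norm_nonneg (ι b)]
  have hxA : ‖ι (x + D * a ^ 2)‖ = 1 := by
    rw [add_comm, map_add, eq_of_lt, hA]
    rw [hA]
    linarith
  have hx0 : x + D * a ^ 2 ≠ 0 := by
    intro h0
    rw [h0, map_zero, norm_zero] at hxA
    norm_num at hxA
  have hP' : Rg ι (isoF h.dat (shF h.sh (.some x y hxy))) := hP
  rw [shF_some, isoF_some h.dat _ hx0] at hP'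
  have h1 : 1 / 4 < ‖ι (y ^ 2 / (2 ^ 2 * (x + D * a ^ 2) ^ 2))‖ := hP'
  have e : y ^ 2 / (2 ^ 2 * (x + D * a ^ 2) ^ 2) = x * (x + D * b ^ 2) / (4 * (x + D * a ^ 2)) := by
    have h2 := ns_eq hxy
    have h3 : y ^ 2 = x * (x + D * b ^ 2) * (x + D * a ^ 2) := by
      rw [h2]
      unfold al be
      ring
    rw [h3]
    field_simp
    ring
  rw [e, map_div₀, norm_div, map_mul, norm_mul, map_mul, norm_mul, hxA, n4, mul_one] at h1
  have h2 : ‖ι (x + D * b ^ 2)‖ ≤ 1 / 4 := by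
    rw [map_add]
    exact add_le hcon hB
  have h3 : ‖ι x‖ * ‖ι (x + D * b ^ 2)‖ ≤ 1 / 4 * (1 / 4) := by
    apply mul_le_mul hcon h2 (norm_nonneg _) (by norm_num)
  rw [lt_div_iff₀ (by norm_num)] at h1
  linarith

lemma Rg_Kc {a b c : ℕ → QB} (hv : ∀ n, Va ι D (a n) (b n) (c n))
    (h : ∀ n, LN D (a n) (b n) (c n) (a (n + 1)) (b (n + 1))) (n : ℕ) :
    ∀ (m : ℕ) (P : Pt D (a m) (b m)), Kc (A := fun n => Pt D (a n) (b n))
      (fun n => lf (h n)) n m P → Rg ι P := by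
  induction n with
  | zero =>
    intro m P hP
    have : P = 0 := hP
    rw [this]
    exact trivial
  | succ n ih =>
    intro m P hP
    exact Rg_lf (h m) (hv m) (ih (m + 1) _ hP)

lemma pP_eq {c c' : QB} (h : LD D a b c) (h' : LD D a b c') : pP h = pP h' := by
  unfold pP TT
  rw [shF_some, shF_some]

/-- **The ordinary line at a place above two.** -/
theorem tow2 (h : LD D a b c) (nD : ‖ι D‖ = 1) (na : ‖ι a‖ = 1) (nb : ‖ι b‖ ≤ 1 / 4) :
    ∃ x : ℕ → Pt D a b, Sq (pP h) x ∧ (∀ n, Rg ι (x n)) ∧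
      ∀ (σ : QB →+* QB) (hs : Fc (al D a b) (be D a b) σ) (τ : PadicAlgCl 2 → PadicAlgCl 2),
        σ D = D → σ a = a → σ b = b → (∀ z, ‖τ z‖ = ‖z‖) → (∀ x, τ (ι x) = ι (σ x)) →
        ∀ n, ∃ k : ℤ, gH hs (x n) = k • x n := by
  obtain ⟨c1, hc1⟩ : ∃ c1, Va ι D a b c1 := by
    rcases exists_cc h nD na nb with h1 | h1
    · exact ⟨_, h1⟩
    · exact ⟨_, h1⟩
  obtain ⟨a', b', c', rfl, rfl, rfl, hv, hn⟩ := exists_chain hc1
  obtain ⟨x, hx, hK⟩ := (chain hn).exists_sq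
  refine ⟨x, ?_, fun n => Rg_Kc hv hn n 0 _ (hK n), ?_⟩
  · have : pP h = pP (hn 0).toLD := pP_eq h (hn 0).toLD
    rw [this]
    exact hx
  · intro σ hs τ fD fa fb hτ hc n
    have hfix := chain_fix hv hn hτ hc fa fb
    have h1 := Kc_ga hn fD (fun n => (hfix n).1) (fun n => (hfix n).2.1) (fun n => (hfix n).2.2) n 0
      (x n) (hK n)
    exact (chain hn).gen hx hK h1

end Pool.Agent.R384
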