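import Pool.Agent.R384.Loc

/-!
# Quadratic residue symbols of `ℤ[ω]`
-/

set_option autoImplicit false
set_option linter.unusedSectionVars false

namespace Pool.Agent.R384

open QuadraticAlgebra

/-- the additive quadratic residue symbol -/
noncomputable def qs (q x : OO) : ZMod 2 :=
  open Classical in if Sqm q x then 0 else 1

lemma qs_zero {q x : OO} : qs q x = 0 ↔ Sqm q x := by
  unfold qs
  split_ifs with h
  · simp [h]
  · simp [h]

lemma qs_eq {q x q' x' : OO} (h : Sqm q x ↔ Sqm q' x') : qs q x = qs q' x' := by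
  have h01 : ∀ a b : ZMod 2, (a = 0 ↔ b = 0) → a = b := by decide
  apply h01
  rw [qs_zero, qs_zero, h]

abbrev FF (q : OO) : Type := OO ⧸ Ideal.span {q}

lemma mk_eq_zero (q x : OO) : (Ideal.Quotient.mk (Ideal.span {q}) x) = 0 ↔ q ∣ x := by
  rw [Ideal.Quotient.eq_zero_iff_mem, Ideal.mem_span_singleton]

lemma sqm_iff (q x : OO) :
    Sqm q x ↔ IsSquare (Ideal.Quotient.mk (Ideal.span {q}) x) := by
  constructor
  · rintro ⟨y, hy⟩
    refine ⟨Ideal.Quotient.mk _ y, ?_⟩
    rw [← map_mul, ← sub_eq_zero, ← map_sub, mk_eq_zero, ← pow_two]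
    exact hy
  · rintro ⟨y, hy⟩
    obtain ⟨z, rfl⟩ := Ideal.Quotient.mk_surjective y
    refine ⟨z, ?_⟩
    rw [← mk_eq_zero, map_sub, hy, map_pow, pow_two, sub_self]

lemma sqm_congr {q x y : OO} (h : q ∣ x - y) : Sqm q x ↔ Sqm q y := by
  constructor
  · rintro ⟨z, hz⟩
    refine ⟨z, ?_⟩
    have : y - z ^ 2 = (x - z ^ 2) - (x - y) := by ring
    rw [this]
    exact dvd_sub hz h
  · rintro ⟨z, hz⟩
    refine ⟨z, ?_⟩
    have : x - z ^ 2 = (y - z ^ 2) + (x - y) := by ring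
    rw [this]
    exact dvd_add hz h

/-- the primes used -/
structure Pr (q : OO) : Prop where
  prime : Prime q
  one : (4 : OO) ∣ q - 1

variable {q : OO}

/-- the residue field -/
noncomputable abbrev fld (hq : Prime q) : Field (FF q) :=
  have : (Ideal.span {q}).IsMaximal := PrincipalIdealRing.isMaximal_of_irreducible hq.irreducible
  Ideal.Quotient.field _

noncomputable abbrev ftp (hq : Prime q) : Fintype (FF q) :=
  @Fintype.ofFinite _ (Ideal.finiteQuotientOfFreeOfNeBot _ (by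
    rw [Ne, Ideal.span_singleton_eq_bot]; exact hq.ne_zero))

lemma Pr.two (h : Pr q) : ¬ q ∣ 2 := by
  intro h2
  have h4 : q ∣ 4 := by
    have : (4 : OO) = 2 * 2 := by norm_num
    rw [this]
    exact Dvd.dvd.mul_right h2 _
  have h1 : q ∣ q - 1 := h4.trans h.one
  have h3 : q ∣ 1 := (dvd_sub_right (dvd_refl q)).1 h1
  exact h.prime.not_isUnit (isUnit_of_dvd_one h3)

lemma char_ne (h : Pr q) : letI := fld h.prime; ringChar (FF q) ≠ 2 := by
  let _ := fld h.prime
  intro h2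
  apply h.two
  have h1 : ((2 : ℕ) : FF q) = 0 := by
    rw [← h2]
    exact CharP.cast_eq_zero _ _
  rw [← mk_eq_zero]
  rw [map_ofNat]
  exact_mod_cast h1

lemma qs_mul (h : Pr q) {x y : OO} (hx : ¬ q ∣ x) (hy : ¬ q ∣ y) :
    qs q (x * y) = qs q x + qs q y := by
  classical
  let _ := fld h.prime
  let _ := ftp h.prime
  have h0x : (Ideal.Quotient.mk (Ideal.span {q}) x) ≠ 0 := fun h => hx ((mk_eq_zero q x).1 h)
  have h0y : (Ideal.Quotient.mk (Ideal.span {q}) y) ≠ 0 := fun h => hy ((mk_eq_zero q y).1 h)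
  have hc := char_ne h
  have hxy : (Ideal.Quotient.mk (Ideal.span {q}) (x * y)) ≠ 0 := by
    rw [map_mul]
    exact mul_ne_zero h0x h0y
  have key : ∀ z : OO, (Ideal.Quotient.mk (Ideal.span {q}) z) ≠ 0 →
      (qs q z = 0 ↔ quadraticChar (FF q) (Ideal.Quotient.mk (Ideal.span {q}) z) = 1) := by
    intro z hz
    rw [qs_zero, sqm_iff, quadraticChar_one_iff_isSquare hz]
  have kx := key x h0x
  have ky := key y h0y
  have kxy := key _ hxy
  rw [map_mul, map_mul] at kxy
  have dx := quadraticChar_dichotomy h0x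
  have dy := quadraticChar_dichotomy h0y
  have h01 : ∀ a : ZMod 2, a = 0 ∨ a = 1 := by decide
  rcases dx with dx | dx <;> rcases dy with dy | dy <;> rw [dx] at kx kxy <;> rw [dy] at ky kxy <;>
    rcases h01 (qs q x) with e1 | e1 <;> rcases h01 (qs q y) with e2 | e2 <;>
    rcases h01 (qs q (x * y)) with e3 | e3 <;> rw [e1] at kx ⊢ <;> rw [e2] at ky ⊢ <;>
    rw [e3] at kxy ⊢ <;> revert kx ky kxy <;> decide

lemma qs_one : qs q 1 = 0 := qs_zero.2 ⟨1, by simp⟩

lemma qs_sq {x : OO} : qs q (x ^ 2) = 0 := qs_zero.2 ⟨x, by simp⟩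

lemma qs_mul_sq (h : Pr q) {x y : OO} (hy : ¬ q ∣ y) : qs q (x * y ^ 2) = qs q x := by
  by_cases hx : q ∣ x
  · rw [qs_zero.2 ⟨0, by simpa using Dvd.dvd.mul_right hx _⟩, qs_zero.2 ⟨0, by simpa using hx⟩]
  · have hy2 : ¬ q ∣ y ^ 2 := fun h' => hy (h.prime.dvd_of_dvd_pow h')
    rw [qs_mul h hx hy2, qs_sq, add_zero]

lemma qs_prod (h : Pr q) {ι : Type*} (S : Finset ι) (f : ι → OO) (hf : ∀ i ∈ S, ¬ q ∣ f i) :
    qs q (∏ i ∈ S, f i) = ∑ i ∈ S, qs q (f i) := by
  classical
  induction S using Finset.induction_on with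
  | empty =>
    rw [Finset.prod_empty, Finset.sum_empty]
    exact qs_one
  | insert i S hi ih =>
    rw [Finset.prod_insert hi, Finset.sum_insert hi, qs_mul h, ih]
    · exact fun j hj => hf j (Finset.mem_insert_of_mem hj)
    · exact hf i (Finset.mem_insert_self _ _)
    · intro h1
      obtain ⟨j, hj, h2⟩ := (h.prime.dvd_finsetProd_iff _).1 h1
      exact hf j (Finset.mem_insert_of_mem hj) h2

end Pool.Agent.R384
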