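import Mathlib

/-!
# The ring of integers of `ℚ(√-7)`
-/

set_option autoImplicit false

namespace Pool.Agent.R384

open QuadraticAlgebra

/-- `ℤ[ω]`, `ω² = ω - 2` -/
abbrev OO : Type := QuadraticAlgebra ℤ (-2) 1

/-- the norm -/
def nn (z : OO) : ℤ := z.re ^ 2 + z.re * z.im + 2 * z.im ^ 2

lemma nn_eq (z : OO) : norm z = nn z := by
  rw [norm_def, nn]
  ring

lemma nn_mul (z t : OO) : nn (z * t) = nn z * nn t := by
  rw [← nn_eq, ← nn_eq, ← nn_eq, map_mul]

lemma nn_four (z : OO) : 4 * nn z = (2 * z.re + z.im) ^ 2 + 7 * z.im ^ 2 := by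
  rw [nn]; ring

lemma nn_nonneg (z : OO) : 0 ≤ nn z := by
  have := nn_four z
  nlinarith [sq_nonneg (2 * z.re + z.im), sq_nonneg z.im]

lemma nn_zero_iff {z : OO} : nn z = 0 ↔ z = 0 := by
  constructor
  · intro h
    have h1 := nn_four z
    rw [h] at h1
    have h2 : z.im ^ 2 = 0 := by nlinarith [sq_nonneg (2 * z.re + z.im), sq_nonneg z.im]
    have h3 : z.im = 0 := pow_eq_zero_iff two_ne_zero |>.1 h2
    rw [h3] at h1
    have h4 : z.re ^ 2 = 0 := by linarith
    have h5 : z.re = 0 := pow_eq_zero_iff two_ne_zero |>.1 h4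
    ext
    · exact h5
    · exact h3
  · rintro rfl
    simp [nn]

lemma nn_pos {z : OO} (hz : z ≠ 0) : 0 < nn z :=
  lt_of_le_of_ne (nn_nonneg z) fun h => hz (nn_zero_iff.1 h.symm)

instance : NoZeroDivisors OO where
  eq_zero_or_eq_zero_of_mul_eq_zero {a b} h := by
    have h1 := congrArg nn h
    rw [nn_mul, nn_zero_iff.2 rfl, mul_eq_zero] at h1
    rcases h1 with h1 | h1
    · exact Or.inl (nn_zero_iff.1 h1)
    · exact Or.inr (nn_zero_iff.1 h1)

instance : IsDomain OO := NoZeroDivisors.to_isDomain _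

/-- the conjugate -/
def cj (z : OO) : OO := ⟨z.re + z.im, -z.im⟩

lemma mul_cj (z : OO) : z * cj z = ((nn z : ℤ) : OO) := by
  ext
  · rw [re_mul, re_intCast]; simp [cj, nn]; ring
  · rw [im_mul, im_intCast]; simp [cj]; ring

lemma nn_cj (z : OO) : nn (cj z) = nn z := by
  simp [cj, nn]; ring

lemma nn_int (n : ℤ) : nn (n : OO) = n ^ 2 := by
  simp [nn]

lemma exists_round (y n : ℤ) (hn : 0 < n) : ∃ k : ℤ, 2 * |y - k * n| ≤ n := by
  refine ⟨(2 * y + n) / (2 * n), ?_⟩
  set k := (2 * y + n) / (2 * n) with hk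
  have h1 : k * (2 * n) ≤ 2 * y + n := Int.ediv_mul_le _ (by omega)
  have h2 : 2 * y + n < (k + 1) * (2 * n) := Int.lt_ediv_add_one_mul_self _ (by omega)
  rw [← abs_two (α := ℤ), ← abs_mul, abs_le]
  constructor <;> nlinarith

lemma exists_div (z t : OO) (ht : t ≠ 0) : ∃ k : OO, nn (z - t * k) < nn t := by
  have hn := nn_pos ht
  set u := z * cj t with hu
  obtain ⟨k2, hk2⟩ := exists_round u.im (nn t) hn
  obtain ⟨k1, hk1⟩ := exists_round (2 * u.re + (u.im - k2 * nn t)) (2 * nn t) (by omega)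
  refine ⟨⟨k1, k2⟩, ?_⟩
  have h1 : nn ((z - t * ⟨k1, k2⟩) * cj t) = nn (z - t * ⟨k1, k2⟩) * nn t := by
    rw [nn_mul, nn_cj]
  have h2 : (z - t * ⟨k1, k2⟩) * cj t = u - ((nn t : ℤ) : OO) * ⟨k1, k2⟩ := by
    rw [← mul_cj, hu]; ring
  rw [h2] at h1
  have h3 := nn_four (u - ((nn t : ℤ) : OO) * ⟨k1, k2⟩)
  have e1 : (u - ((nn t : ℤ) : OO) * ⟨k1, k2⟩).re = u.re - k1 * nn t := by simp; ring
  have e2 : (u - ((nn t : ℤ) : OO) * ⟨k1, k2⟩).im = u.im - k2 * nn t := by simp; ring
  rw [e1, e2] at h3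
  rw [h1] at h3
  have a1 : 4 * (u.im - k2 * nn t) ^ 2 ≤ (nn t) ^ 2 := by
    have := pow_le_pow_left₀ (by positivity) hk2 2
    rw [mul_pow, sq_abs] at this
    linarith
  have a2 : (2 * (u.re - k1 * nn t) + (u.im - k2 * nn t)) ^ 2 ≤ (nn t) ^ 2 := by
    have := pow_le_pow_left₀ (by positivity) hk1 2
    rw [mul_pow, sq_abs, mul_pow] at this
    have e : (2 * u.re + (u.im - k2 * nn t)) - k1 * (2 * nn t) =
        2 * (u.re - k1 * nn t) + (u.im - k2 * nn t) := by ring
    rw [e] at this
    linarith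
  nlinarith

/-- the Euclidean quotient -/
noncomputable def qt (z t : OO) : OO :=
  open Classical in if h : t = 0 then 0 else (exists_div z t h).choose

lemma qt_lt (z t : OO) (ht : t ≠ 0) : nn (z - t * qt z t) < nn t := by
  unfold qt
  rw [dif_neg ht]
  exact (exists_div z t ht).choose_spec

noncomputable instance : EuclideanDomain OO :=
  { (inferInstance : CommRing OO), (inferInstance : Nontrivial OO) with
    quotient := qt
    quotient_zero := fun z => by simp [qt]
    remainder := fun z t => z - t * qt z t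
    quotient_mul_add_remainder_eq := fun z t => by ring
    r := fun z t => nn z < nn t
    r_wellFounded := by
      have : WellFounded (fun z t : OO => (nn z).toNat < (nn t).toNat) :=
        InvImage.wf (fun z : OO => (nn z).toNat) (Nat.lt_wfRel.wf)
      refine Subrelation.wf ?_ this
      intro z t h
      have := nn_nonneg z
      have := nn_nonneg t
      show (nn z).toNat < (nn t).toNat
      have h' : nn z < nn t := h
      omega
    remainder_lt := fun z t ht => qt_lt z t ht
    mul_left_not_lt := fun z t ht h => by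
      have h1 : nn (z * t) < nn z := h
      rw [nn_mul] at h1
      have h2 := nn_pos ht
      have h3 := nn_nonneg z
      nlinarith }

lemma unit_iff {u : OO} : IsUnit u ↔ nn u = 1 := by
  constructor
  · intro h
    obtain ⟨v, hv⟩ := h.exists_right_inv
    have h1 := congrArg nn hv
    rw [nn_mul] at h1
    have h2 : nn (1 : OO) = 1 := by simp [nn]
    rw [h2] at h1
    exact Int.eq_one_of_mul_eq_one_right (nn_nonneg u) h1
  · intro h
    refine IsUnit.of_mul_eq_one (cj u) ?_
    rw [mul_cj, h, Int.cast_one]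

lemma unit_cases {u : OO} (h : IsUnit u) : u = 1 ∨ u = -1 := by
  have h1 := nn_four u
  rw [unit_iff.1 h] at h1
  have h2 : u.im = 0 := by
    by_contra h0
    have : 0 < u.im ^ 2 := by positivity
    nlinarith [sq_nonneg (2 * u.re + u.im)]
  rw [h2] at h1
  have h3 : u.re ^ 2 = 1 := by linarith
  rcases sq_eq_one_iff.1 h3 with h | h
  · left
    ext
    · rw [h, re_one]
    · rw [h2, im_one]
  · right
    ext
    · rw [h, re_neg, re_one]
    · rw [h2, im_neg, im_one, neg_zero]

/-- `w` is a root of `X² - X + 2`: the embedding -/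
def em {L : Type} [CommRing L] {w : L} (hw : w ^ 2 = w - 2) : OO →+* L where
  toFun z := (z.re : L) + z.im * w
  map_one' := by simp
  map_zero' := by simp
  map_add' z t := by simp; ring
  map_mul' z t := by
    simp
    linear_combination (-(z.im : L) * t.im) * hw

end Pool.Agent.R384
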