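import Pool.Agent.R384.Vec
import Pool.Agent.R384.Frm

/-!
# Tensor products of representations of rank two
-/

set_option autoImplicit false
set_option linter.unusedSectionVars false

namespace Pool.Agent.R384

open Pool.Agent.Y715.Red Pool.Agent.Y715.Nr Pool.Agent.W237.RK
open Pool.Agent.Y715.Gi (QB KK GK i₀_mem gk_fix)
open Pool.Agent.Y715.Df (Cmp exists_cmp)
open Pool.Agent.Y715.Lc (norm_two_odd)

open scoped Classical

section gen

variable {G : Type} [Group G] {n : ℕ} (ρ : Fin n → G →* Matrix (Fin 2) (Fin 2) ℤ_[2])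
  (χ : G →* ℤ_[2]ˣ) (i : ℕ)

/-- the entries of the matrix -/
noncomputable def tm (σ : G) (α β : Fin n → Fin 2) : ℤ_[2] :=
  (((χ σ)⁻¹ ^ i : ℤ_[2]ˣ) : ℤ_[2]) * ∏ k, ρ k σ (α k) (β k)

lemma tm_one (α β : Fin n → Fin 2) : tm ρ χ i 1 α β = if α = β then 1 else 0 := by
  unfold tm
  rw [map_one, inv_one, one_pow, Units.val_one, one_mul]
  simp only [map_one, Matrix.one_apply]
  split_ifs with h
  · rw [h]; simp
  · obtain ⟨k, hk⟩ := Function.ne_iff.1 h
    exact Finset.prod_eq_zero (Finset.mem_univ k) (by rw [if_neg hk])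

lemma tm_mul (σ τ : G) (α β : Fin n → Fin 2) :
    tm ρ χ i (σ * τ) α β = ∑ γ, tm ρ χ i σ α γ * tm ρ χ i τ γ β := by
  have h1 : ∀ k, ρ k (σ * τ) (α k) (β k) = ∑ s : Fin 2, ρ k σ (α k) s * ρ k τ s (β k) := by
    intro k
    rw [map_mul, Matrix.mul_apply]
  have h2 : ∏ k, ρ k (σ * τ) (α k) (β k) =
      ∑ γ : Fin n → Fin 2, ∏ k, ρ k σ (α k) (γ k) * ρ k τ (γ k) (β k) := by
    simp only [h1]
    rw [Finset.prod_univ_sum]
    simp
  unfold tm
  rw [h2, map_mul, mul_inv_rev, mul_comm (χ τ)⁻¹, mul_pow, Units.val_mul, Finset.mul_sum]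
  refine Finset.sum_congr rfl fun γ _ => ?_
  rw [Finset.prod_mul_distrib]
  ring

/-- the matrix -/
noncomputable def tM (σ : G) : Matrix (Fin n → Fin 2) (Fin n → Fin 2) ℚ_[2] :=
  Matrix.of fun α β => (tm ρ χ i σ α β : ℚ_[2])

/-- the tensor product, twisted -/
noncomputable def tR : Representation ℚ_[2] G ((Fin n → Fin 2) → ℚ_[2]) where
  toFun σ := Matrix.toLin' (tM ρ χ i σ)
  map_one' := by
    have : tM ρ χ i 1 = 1 := by
      ext1 α β
      unfold tM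
      rw [Matrix.of_apply, tm_one, Matrix.one_apply]
      split_ifs <;> simp
    rw [this, Matrix.toLin'_one]
    rfl
  map_mul' σ τ := by
    have : tM ρ χ i (σ * τ) = tM ρ χ i σ * tM ρ χ i τ := by
      ext1 α β
      unfold tM
      rw [Matrix.of_apply, tm_mul, Matrix.mul_apply, PadicInt.coe_sum]
      refine Finset.sum_congr rfl fun γ _ => ?_
      rw [Matrix.of_apply, Matrix.of_apply, PadicInt.coe_mul]
    rw [this, Matrix.toLin'_mul]
    rfl

lemma tR_apply (σ : G) (v : (Fin n → Fin 2) → ℚ_[2]) (α : Fin n → Fin 2) :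
    tR ρ χ i σ v α = ∑ β, (tm ρ χ i σ α β : ℚ_[2]) * v β := by
  show Matrix.toLin' (tM ρ χ i σ) v α = _
  rw [Matrix.toLin'_apply, Matrix.mulVec, dotProduct]
  rfl

lemma nsum {ι : Type} (s : Finset ι) (f : ι → ℚ_[2]) {r : ℝ} (hr : 0 ≤ r)
    (h : ∀ x ∈ s, ‖f x‖ ≤ r) : ‖∑ x ∈ s, f x‖ ≤ r := by
  induction s using Finset.induction_on with
  | empty => rw [Finset.sum_empty, norm_zero]; exact hr
  | insert a s ha ih =>
    rw [Finset.sum_insert ha]
    exact add_le' (h a (Finset.mem_insert_self a s)) (ih fun x hx => h x (Finset.mem_insert_of_mem hx))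

lemma norm4 {z : ℤ_[2]} (h : (4 : ℤ_[2]) ∣ z) : ‖(z : ℚ_[2])‖ ≤ 1 / 4 := norm_of_four h

/-- estimate for the entries -/
lemma tR_near {σ : G} {α : Fin n → Fin 2} {t : ℤ}
    (hoff : ∀ k a b, a ≠ b → (4 : ℤ_[2]) ∣ ρ k σ a b) (hdiag : (4 : ℤ_[2]) ∣ tm ρ χ i σ α α - t)
    (v : (Fin n → Fin 2) → ℚ_[2]) : ‖tR ρ χ i σ v α - t * v α‖ ≤ ‖v‖ / 4 := by
  have hv := norm_nonneg v
  rw [tR_apply, ← Finset.add_sum_erase _ _ (Finset.mem_univ α), add_sub_right_comm]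
  refine add_le' ?_ ?_
  · rw [← sub_mul, norm_mul]
    have h1 := norm4 hdiag
    rw [PadicInt.coe_sub, PadicInt.coe_intCast] at h1
    have h2 := norm_le_pi_norm v α
    calc _ ≤ (1 / 4 : ℝ) * ‖v‖ := mul_le_mul h1 h2 (norm_nonneg _) (by norm_num)
      _ = ‖v‖ / 4 := by ring
  · refine nsum _ _ (by positivity) fun β hβ => ?_
    have hne : α ≠ β := fun h => (Finset.ne_of_mem_erase hβ) h.symm
    obtain ⟨k, hk⟩ := Function.ne_iff.1 hne
    have h1 : (4 : ℤ_[2]) ∣ tm ρ χ i σ α β := by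
      unfold tm
      exact ((hoff k _ _ hk).trans (Finset.dvd_prod_of_mem (fun k => ρ k σ (α k) (β k))
        (Finset.mem_univ k))).mul_left _
    have h2 := norm4 h1
    rw [norm_mul]
    have h3 := norm_le_pi_norm v β
    calc _ ≤ (1 / 4 : ℝ) * ‖v‖ := mul_le_mul h2 h3 (norm_nonneg _) (by norm_num)
      _ = ‖v‖ / 4 := by ring

lemma prod_cong {s : Finset (Fin n)} {z : Fin n → ℤ_[2]} {t : Fin n → ℤ}
    (h : ∀ k, (4 : ℤ_[2]) ∣ z k - t k) : (4 : ℤ_[2]) ∣ ∏ k ∈ s, z k - ((∏ k ∈ s, t k : ℤ) : ℤ_[2]) := by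
  induction s using Finset.induction_on with
  | empty => simp
  | insert a s ha ih =>
    rw [Finset.prod_insert ha, Finset.prod_insert ha]
    push_cast at ih ⊢
    have e : z a * ∏ k ∈ s, z k - t a * ∏ k ∈ s, (t k : ℤ_[2]) =
        (z a - t a) * ∏ k ∈ s, z k + t a * (∏ k ∈ s, z k - ∏ k ∈ s, (t k : ℤ_[2])) := by ring
    rw [e]
    exact dvd_add ((h a).mul_right _) (ih.mul_left _)

lemma pow_cong {z : ℤ_[2]} {t : ℤ} (h : (4 : ℤ_[2]) ∣ z - t) (m : ℕ) :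
    (4 : ℤ_[2]) ∣ z ^ m - ((t ^ m : ℤ) : ℤ_[2]) := by
  push_cast
  exact h.trans (sub_dvd_pow_sub_pow z (t : ℤ_[2]) m)

lemma inv_cong {u : ℤ_[2]ˣ} {t : ℤ} (ht : t * t = 1) (h : (4 : ℤ_[2]) ∣ (u : ℤ_[2]) - t) :
    (4 : ℤ_[2]) ∣ ((u⁻¹ : ℤ_[2]ˣ) : ℤ_[2]) - t := by
  have e : ((u⁻¹ : ℤ_[2]ˣ) : ℤ_[2]) - t = -(((u⁻¹ : ℤ_[2]ˣ) : ℤ_[2]) * t) * ((u : ℤ_[2]) - t) := by
    have h1 : ((u⁻¹ : ℤ_[2]ˣ) : ℤ_[2]) * (u : ℤ_[2]) = 1 := Units.inv_mul u
    have h2 : (t : ℤ_[2]) * t = 1 := by exact_mod_cast congrArg (fun z : ℤ => (z : ℤ_[2])) ht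
    linear_combination (t : ℤ_[2]) * h1 - ((u⁻¹ : ℤ_[2]ˣ) : ℤ_[2]) * h2
  rw [e]
  exact h.mul_left _

/-- the number of coordinates equal to `t` -/
def cn (b : Fin n → Fin 2) (t : Fin 2) : ℕ := (Finset.univ.filter fun k => b k = t).card

lemma cn_add (b : Fin n → Fin 2) : cn b 0 + cn b 1 = n := by
  unfold cn
  have h : (Finset.univ.filter fun k => b k = 1) = Finset.univ.filter fun k => ¬ b k = 0 := by
    ext k
    simp only [Finset.mem_filter, Finset.mem_univ, true_and]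
    have : ∀ x : Fin 2, x = 1 ↔ ¬ x = 0 := by decide
    exact this _
  rw [h, Finset.card_filter_add_card_filter_not]
  simp

/-- the diagonal entries -/
lemma tm_diag {σ : G} {α : Fin n → Fin 2} {eI : ℤ} {ep : Fin n → ℤ} (hI : eI * eI = 1)
    (h0 : ∀ k, (4 : ℤ_[2]) ∣ ρ k σ 0 0 - ((eI * ep k : ℤ) : ℤ_[2]))
    (h1 : ∀ k, (4 : ℤ_[2]) ∣ ρ k σ 1 1 - ep k) (hχ : (4 : ℤ_[2]) ∣ (χ σ : ℤ_[2]) - eI) :
    (4 : ℤ_[2]) ∣ tm ρ χ i σ α α - ((eI ^ (i + cn α 0) * ∏ k, ep k : ℤ) : ℤ_[2]) := by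
  have a1 : (4 : ℤ_[2]) ∣ ∏ k, ρ k σ (α k) (α k) -
      ((∏ k, (if α k = 0 then eI * ep k else ep k) : ℤ) : ℤ_[2]) := by
    apply prod_cong
    intro k
    rcases (by have : ∀ x : Fin 2, x = 0 ∨ x = 1 := by decide
               exact this (α k) : α k = 0 ∨ α k = 1) with h | h
    · rw [h, if_pos rfl]; exact h0 k
    · rw [h, if_neg (by decide)]; exact h1 k
  have a2 : (∏ k, (if α k = 0 then eI * ep k else ep k) : ℤ) = eI ^ cn α 0 * ∏ k, ep k := by
    have e1 : ∀ k, (if α k = 0 then eI * ep k else ep k) = (if α k = 0 then eI else 1) * ep k := by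
      intro k
      split_ifs <;> ring
    simp only [e1]
    rw [Finset.prod_mul_distrib, Finset.prod_ite, Finset.prod_const, Finset.prod_const_one, mul_one]
    rfl
  have a3 := pow_cong (inv_cong hI hχ) i
  unfold tm
  rw [a2] at a1
  rw [← Units.val_pow_eq_pow_val] at a3
  have e : ((eI ^ (i + cn α 0) * ∏ k, ep k : ℤ) : ℤ_[2]) = ((eI ^ i : ℤ) : ℤ_[2]) *
      ((eI ^ cn α 0 * ∏ k, ep k : ℤ) : ℤ_[2]) := by
    push_cast
    ring
  rw [e]
  have e2 : ∀ x y s t : ℤ_[2], x * y - s * t = (x - s) * y + s * (y - t) := fun _ _ _ _ => by ring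
  rw [e2]
  exact dvd_add (a3.mul_right _) (a1.mul_left _)

/-- stability of the filtration -/
lemma tR_stable {σ : G} {t : Fin 2} (h : ∀ k s, s ≠ t → ρ k σ s t = 0) {m : ℕ}
    {v : (Fin n → Fin 2) → ℚ_[2]} (hv : ∀ b, cn b t ≤ m → v b = 0) :
    ∀ b, cn b t ≤ m → tR ρ χ i σ v b = 0 := by
  intro b hb
  rw [tR_apply]
  apply Finset.sum_eq_zero
  intro β _
  by_cases hβ : ∀ k, β k = t → b k = t
  · rw [hv β, mul_zero]
    refine le_trans ?_ hb
    unfold cn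
    apply Finset.card_le_card
    intro k
    simp only [Finset.mem_filter, Finset.mem_univ, true_and]
    exact hβ k
  · push Not at hβ
    obtain ⟨k, hk, hk'⟩ := hβ
    have : tm ρ χ i σ b β = 0 := by
      unfold tm
      rw [Finset.prod_eq_zero (Finset.mem_univ k) (by rw [hk]; exact h k _ hk'), mul_zero]
    rw [this, PadicInt.coe_zero, zero_mul]

/-- scalar matrices -/
lemma tR_scalar {σ : G} {t : Fin n → ℤ_[2]} (h : ∀ k, ρ k σ = t k • 1) (hχ : χ σ = 1)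
    (v : (Fin n → Fin 2) → ℚ_[2]) : tR ρ χ i σ v = ((∏ k, t k : ℤ_[2]) : ℚ_[2]) • v := by
  funext α
  rw [tR_apply, Pi.smul_apply, smul_eq_mul, Finset.sum_eq_single α]
  · congr 2
    unfold tm
    rw [hχ, inv_one, one_pow, Units.val_one, one_mul]
    simp only [h, Matrix.smul_apply, Matrix.one_apply_eq, smul_eq_mul, mul_one]
  · intro β _ hβ
    obtain ⟨k, hk⟩ := Function.ne_iff.1 (Ne.symm hβ)
    have : tm ρ χ i σ α β = 0 := by
      unfold tm
      rw [Finset.prod_eq_zero (Finset.mem_univ k) (by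
        rw [h, Matrix.smul_apply, Matrix.one_apply_ne hk, smul_zero]), mul_zero]
    rw [this, PadicInt.coe_zero, zero_mul]
  · intro h
    exact absurd (Finset.mem_univ α) h

lemma tR_cont [TopologicalSpace G] (hρ : ∀ k a b, Continuous fun σ => ρ k σ a b)
    (hχ : Continuous χ) (v : (Fin n → Fin 2) → ℚ_[2]) : Continuous fun σ => tR ρ χ i σ v := by
  rw [continuous_pi_iff]
  intro α
  have h0 : ∀ β, Continuous fun σ => (tm ρ χ i σ α β : ℚ_[2]) := by
    intro β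
    have h1 : Continuous (fun z : ℤ_[2] => (z : ℚ_[2])) := continuous_subtype_val
    refine h1.comp ?_
    unfold tm
    refine Continuous.mul ?_ (continuous_finsetProd _ fun k _ => hρ k _ _)
    exact Units.continuous_val.comp (hχ.inv.pow i)
  have h2 : (fun σ => tR ρ χ i σ v α) = fun σ => ∑ β, (tm ρ χ i σ α β : ℚ_[2]) * v β := by
    funext σ
    exact tR_apply ρ χ i σ v α
  rw [h2]
  exact continuous_finsetSum _ fun β _ => (h0 β).mul continuous_const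

end gen

end Pool.Agent.R384
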