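import Pool.Agent.R384.Core

/-!
# Cocycles with values in `ℚ_2 ^ B`
-/

set_option autoImplicit false
set_option linter.unusedSectionVars false

namespace Pool.Agent.R384

open Pool.Agent.Y715.Red Pool.Agent.Y715.Nr Pool.Agent.W237.RK
open Pool.Agent.Y715.Gi (QB KK GK i₀_mem gk_fix)
open Pool.Agent.Y715.Df (Cmp exists_cmp)
open Pool.Agent.Y715.Lc (norm_two_odd)

open scoped Classical

variable {B : Type} [Fintype B]

lemma vlt {v : B → ℚ_[2]} (h : ‖v‖ < 1) : ‖v‖ ≤ 1 / 2 := by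
  rw [pi_norm_le_iff_of_nonneg (by norm_num)]
  intro b
  exact norm_lt_one ((norm_le_pi_norm v b).trans_lt h)

lemma vadd {u v : B → ℚ_[2]} {r : ℝ} (hr : 0 ≤ r) (hu : ‖u‖ ≤ r) (hv : ‖v‖ ≤ r) : ‖u + v‖ ≤ r := by
  rw [pi_norm_le_iff_of_nonneg hr]
  intro b
  exact add_le' ((norm_le_pi_norm u b).trans hu) ((norm_le_pi_norm v b).trans hv)

lemma vsub {u v : B → ℚ_[2]} {r : ℝ} (hr : 0 ≤ r) (hu : ‖u‖ ≤ r) (hv : ‖v‖ ≤ r) : ‖u - v‖ ≤ r := by
  rw [sub_eq_add_neg]
  exact vadd hr hu (by rwa [norm_neg])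

section gen

variable {G : Type} [Group G] [TopologicalSpace G]

/-- continuous cocycles -/
structure VCoc (R : Representation ℚ_[2] G (B → ℚ_[2])) (c : G → B → ℚ_[2]) : Prop where
  cont : Continuous c
  mul : ∀ σ τ, c (σ * τ) = c σ + R σ (c τ)

/-- coboundaries on a subset -/
def VCob (R : Representation ℚ_[2] G (B → ℚ_[2])) (D : Set G) (c : G → B → ℚ_[2]) : Prop :=
  ∃ y : B → ℚ_[2], ∀ σ ∈ D, c σ = R σ y - y

/-- coboundaries on a subset, some coordinates -/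
def VCobS (R : Representation ℚ_[2] G (B → ℚ_[2])) (S : Set B) (D : Set G) (c : G → B → ℚ_[2]) :
    Prop := ∃ y : B → ℚ_[2], ∀ σ ∈ D, ∀ b ∈ S, c σ b = (R σ y - y) b

variable {R : Representation ℚ_[2] G (B → ℚ_[2])} {c : G → B → ℚ_[2]}

lemma R_one (v : B → ℚ_[2]) : R 1 v = v := by rw [map_one]; rfl

lemma R_mul (σ τ : G) (v : B → ℚ_[2]) : R (σ * τ) v = R σ (R τ v) := by rw [map_mul]; rfl

lemma VCob.toS {D : Set G} (h : VCob R D c) (S : Set B) : VCobS R S D c := by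
  obtain ⟨y, hy⟩ := h
  exact ⟨y, fun σ hσ b _ => by rw [hy σ hσ]⟩

/-- the class is divisible by `2 ^ n` -/
def VDv (R : Representation ℚ_[2] G (B → ℚ_[2])) (c : G → B → ℚ_[2]) (n : ℤ) : Prop :=
  ∃ y : B → ℚ_[2], ∀ σ, ‖c σ + (R σ y - y)‖ ≤ (2 : ℝ) ^ (-n)

/-- an element that acts as `-1` modulo four -/
def Mv (R : Representation ℚ_[2] G (B → ℚ_[2])) (τ₀ : G) : Prop := ∀ v, ‖R τ₀ v - v‖ = ‖v‖ / 2

/-- all the elements act trivially modulo two -/
def Tr (R : Representation ℚ_[2] G (B → ℚ_[2])) : Prop := ∀ σ v, ‖R σ v - v‖ ≤ ‖v‖ / 2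

lemma Mv.surj {τ₀ : G} (h : Mv R τ₀) (u : B → ℚ_[2]) : ∃ y, R τ₀ y - y = u := by
  have hinj : Function.Injective (R τ₀ - LinearMap.id : (B → ℚ_[2]) →ₗ[ℚ_[2]] (B → ℚ_[2])) := by
    rw [← LinearMap.ker_eq_bot, LinearMap.ker_eq_bot']
    intro v hv
    have h1 := h v
    have h2 : R τ₀ v - v = 0 := hv
    rw [h2, norm_zero] at h1
    have h3 : ‖v‖ = 0 := by linarith
    exact norm_eq_zero.1 h3
  obtain ⟨y, hy⟩ := LinearMap.surjective_of_injective hinj u
  exact ⟨y, hy⟩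

lemma vcob_of_all (ht : Tr R) {τ₀ : G} (h0 : Mv R τ₀) {n₀ : ℤ} (h : ∀ n, n₀ ≤ n → VDv R c n) :
    ∃ y, ∀ σ, c σ = R σ y - y := by
  obtain ⟨y, hy⟩ := h0.surj (-c τ₀)
  refine ⟨-y, fun σ => ?_⟩
  have hsmall : ∀ n, n₀ ≤ n → ‖c σ + (R σ y - y)‖ ≤ (2 : ℝ) ^ (-n) := by
    intro n hn
    have hpos : (0 : ℝ) ≤ 2 ^ (-n) := by positivity
    obtain ⟨z, hz⟩ := h n hn
    have h1 : ‖R τ₀ (z - y) - (z - y)‖ ≤ (2 : ℝ) ^ (-n) := by
      have e : R τ₀ (z - y) - (z - y) = c τ₀ + (R τ₀ z - z) := by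
        rw [map_sub]
        have : R τ₀ y - y = -c τ₀ := hy
        calc R τ₀ z - R τ₀ y - (z - y) = (R τ₀ z - z) - (R τ₀ y - y) := by abel
          _ = _ := by rw [this]; abel
      rw [e]
      exact hz τ₀
    rw [h0] at h1
    have e : c σ + (R σ y - y) = (c σ + (R σ z - z)) - (R σ (z - y) - (z - y)) := by
      rw [map_sub]
      abel
    rw [e]
    exact vsub hpos (hz σ) ((ht σ _).trans h1)
  have hzero : ‖c σ + (R σ y - y)‖ ≤ 0 := by
    have h3 : Filter.Tendsto (fun n : ℕ => (2 : ℝ) ^ (-(n₀ + n : ℤ))) Filter.atTop (nhds 0) := by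
      have h4 : (fun n : ℕ => (2 : ℝ) ^ (-(n₀ + n : ℤ))) = fun n : ℕ => (2 : ℝ) ^ (-n₀) * (1 / 2) ^ n := by
        funext n
        rw [neg_add, zpow_add₀ (by norm_num), zpow_neg _ (n : ℤ), zpow_natCast, one_div, inv_pow]
      rw [h4]
      have h5 := (tendsto_pow_atTop_nhds_zero_of_lt_one (r := (1 / 2 : ℝ)) (by norm_num)
        (by norm_num)).const_mul ((2 : ℝ) ^ (-n₀))
      rwa [mul_zero] at h5
    exact ge_of_tendsto' h3 fun n => hsmall _ (by omega)
  have h6 := norm_le_zero_iff.1 hzero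
  rw [map_neg]
  have h7 : c σ = -(R σ y - y) := eq_neg_of_add_eq_zero_left h6
  rw [h7]
  abel

lemma norm_two_smul_zpow (n : ℤ) (v : B → ℚ_[2]) :
    ‖((2 : ℚ_[2]) ^ n) • v‖ = (2 : ℝ) ^ (-n) * ‖v‖ := by
  rw [norm_smul, norm_zpow, norm_two', one_div, inv_zpow, zpow_neg]

/-- **Normalization.** -/
theorem vnormalize [CompactSpace G] (hc : VCoc R c) (ht : Tr R) {τ₀ : G} (h0 : Mv R τ₀)
    (hn : ¬ ∃ y, ∀ σ, c σ = R σ y - y) :
    ∃ (a : ℚ_[2]) (y : B → ℚ_[2]), a ≠ 0 ∧ (∀ σ, ‖a • c σ + (R σ y - y)‖ ≤ 1) ∧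
      ∀ z : B → ℚ_[2], ∃ σ, ¬ ‖a • c σ + (R σ y - y) - (R σ z - z)‖ < 1 := by
  obtain ⟨n₀, hn₀⟩ : ∃ n₀ : ℤ, VDv R c n₀ := by
    obtain ⟨C, hC⟩ := (isCompact_range hc.cont).isBounded.exists_norm_le
    obtain ⟨k, hk⟩ := pow_unbounded_of_one_lt C (one_lt_two (α := ℝ))
    refine ⟨-k, 0, fun σ => ?_⟩
    rw [map_zero, sub_zero, add_zero, neg_neg, zpow_natCast]
    exact (hC _ (Set.mem_range_self σ)).trans hk.le
  obtain ⟨n, hn1, hn2, hn3⟩ : ∃ n, n₀ ≤ n ∧ VDv R c n ∧ ¬ VDv R c (n + 1) := by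
    by_contra hcon
    push Not at hcon
    apply hn
    apply vcob_of_all ht h0 (n₀ := n₀)
    intro n hn1
    induction n, hn1 using Int.leInduction with
    | base => exact hn₀
    | succ n hn1 ih => exact hcon n hn1 ih
  obtain ⟨y, hy⟩ := hn2
  have h20 : (2 : ℚ_[2]) ≠ 0 := two_ne_zero
  refine ⟨(2 : ℚ_[2]) ^ (-n), ((2 : ℚ_[2]) ^ (-n)) • y, zpow_ne_zero _ h20, fun σ => ?_, fun z => ?_⟩
  · have e : ((2 : ℚ_[2]) ^ (-n)) • c σ + (R σ (((2 : ℚ_[2]) ^ (-n)) • y) - ((2 : ℚ_[2]) ^ (-n)) • y)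
        = ((2 : ℚ_[2]) ^ (-n)) • (c σ + (R σ y - y)) := by
      rw [map_smul, smul_add, smul_sub]
    rw [e, norm_two_smul_zpow, neg_neg]
    calc (2 : ℝ) ^ n * ‖c σ + (R σ y - y)‖ ≤ (2 : ℝ) ^ n * (2 : ℝ) ^ (-n) :=
          mul_le_mul_of_nonneg_left (hy σ) (by positivity)
      _ = 1 := by rw [← zpow_add₀ (by norm_num)]; simp
  · by_contra hcon
    push Not at hcon
    apply hn3
    refine ⟨y - ((2 : ℚ_[2]) ^ n) • z, fun σ => ?_⟩
    have h1 := vlt (hcon σ)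
    have h2 : (2 : ℚ_[2]) ^ n * (2 : ℚ_[2]) ^ (-n) = 1 := by
      rw [← zpow_add₀ h20]; simp
    have e : c σ + (R σ (y - ((2 : ℚ_[2]) ^ n) • z) - (y - ((2 : ℚ_[2]) ^ n) • z)) =
        ((2 : ℚ_[2]) ^ n) • (((2 : ℚ_[2]) ^ (-n)) • c σ +
          (R σ (((2 : ℚ_[2]) ^ (-n)) • y) - ((2 : ℚ_[2]) ^ (-n)) • y) - (R σ z - z)) := by
      rw [map_sub, map_smul, map_smul, smul_sub, smul_add, smul_sub, smul_sub, smul_smul, smul_smul,
        smul_smul, h2, one_smul, one_smul, one_smul]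
      abel
    rw [e, norm_two_smul_zpow]
    calc (2 : ℝ) ^ (-n) * _ ≤ (2 : ℝ) ^ (-n) * (1 / 2) :=
          mul_le_mul_of_nonneg_left h1 (by positivity)
      _ = (2 : ℝ) ^ (-(n + 1)) := by
        rw [neg_add, zpow_add₀ (by norm_num), zpow_neg_one]
        norm_num

lemma VCobS.twist {S : Set B} {D : Set G} (h : VCobS R S D c) (a : ℚ_[2]) (y : B → ℚ_[2]) :
    VCobS R S D fun σ => a • c σ + (R σ y - y) := by
  obtain ⟨x, hx⟩ := h
  refine ⟨a • x + y, fun σ hσ b hb => ?_⟩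
  have h1 := hx σ hσ b hb
  simp only [map_add, map_smul, Pi.add_apply, Pi.sub_apply, Pi.smul_apply, smul_eq_mul] at h1 ⊢
  rw [h1]
  ring

lemma VCob.twist {D : Set G} (h : VCob R D c) (a : ℚ_[2]) (y : B → ℚ_[2]) :
    VCob R D fun σ => a • c σ + (R σ y - y) := by
  obtain ⟨x, hx⟩ := h
  refine ⟨a • x + y, fun σ hσ => ?_⟩
  show a • c σ + (R σ y - y) = _
  rw [hx σ hσ, map_add, map_smul, smul_sub]
  abel

lemma VCoc.twist (hR : ∀ v, Continuous fun σ => R σ v) (hc : VCoc R c) (a : ℚ_[2])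
    (y : B → ℚ_[2]) : VCoc R fun σ => a • c σ + (R σ y - y) := by
  refine ⟨?_, fun σ τ => ?_⟩
  · have h1 := hR y
    have h2 := hc.cont
    fun_prop
  · simp only [hc.mul, R_mul, smul_add, map_add, map_sub, map_smul]
    abel

/-- from the inertia group to the decomposition group -/
lemma vdec_of_inert (hc : VCoc R c) {I D : Set G} (h : VCob R I c) {σ₀ : G} (h0 : σ₀ ∈ I)
    (hχ : ∀ v, R σ₀ v = -v) (hconj : ∀ τ ∈ D, τ⁻¹ * σ₀ * τ ∈ I) : VCob R D c := by
  obtain ⟨y, hy⟩ := h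
  refine ⟨y, fun τ hτ => ?_⟩
  have h1 := hc.mul σ₀ τ
  have h2 := hc.mul τ (τ⁻¹ * σ₀ * τ)
  have e : τ * (τ⁻¹ * σ₀ * τ) = σ₀ * τ := by group
  have h3 : ∀ v, R (τ⁻¹ * σ₀ * τ) v = -v := by
    intro v
    rw [R_mul, R_mul, hχ, map_neg, ← R_mul, inv_mul_cancel, R_one]
  rw [e, h1, hχ, hy _ (hconj τ hτ), hy σ₀ h0, hχ, h3, map_sub, map_neg] at h2
  funext b
  have h4 := congrFun h2 b
  simp only [Pi.add_apply, Pi.neg_apply, Pi.sub_apply] at h4 ⊢
  have h5 : (2 : ℚ_[2]) ≠ 0 := two_ne_zero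
  apply mul_left_cancel₀ h5
  linear_combination -h4

/-- a multiplicative place -/
lemma vmult (hc : VCoc R c) (hc1 : ∀ σ, ‖c σ‖ ≤ 1) {I : Set G} (h : VCob R I c) {F : G}
    (hF : Mv R F) (hconj : ∀ σ ∈ I, F⁻¹ * σ * F ∈ I) (hI : ∀ σ ∈ I, ∀ v, ‖R σ v - v‖ ≤ ‖v‖ / 4) :
    ∀ σ ∈ I, ‖c σ‖ < 1 := by
  obtain ⟨y, hy⟩ := h
  let W : Submodule ℚ_[2] (B → ℚ_[2]) :=
    { carrier := {v | ∀ σ ∈ I, R σ v = v}
      add_mem' := fun {u v} hu hv σ hσ => by rw [map_add, hu σ hσ, hv σ hσ]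
      zero_mem' := fun σ _ => map_zero _
      smul_mem' := fun a v hv σ hσ => by rw [map_smul, hv σ hσ] }
  have hW : ∀ v, v ∈ W ↔ ∀ σ ∈ I, R σ v = v := fun v => Iff.rfl
  have hL : ∀ v ∈ W, (R F - LinearMap.id : (B → ℚ_[2]) →ₗ[ℚ_[2]] (B → ℚ_[2])) v ∈ W := by
    intro v hv
    have e : (R F - LinearMap.id : (B → ℚ_[2]) →ₗ[ℚ_[2]] (B → ℚ_[2])) v = R F v - v := rfl
    rw [e]
    refine W.sub_mem ?_ hv
    rw [hW]
    intro σ hσ
    have h1 := hv (F⁻¹ * σ * F) (hconj σ hσ)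
    have e2 : σ * F = F * (F⁻¹ * σ * F) := by group
    rw [← R_mul, e2, R_mul, h1]
  have hinj : Function.Injective ((R F - LinearMap.id : (B → ℚ_[2]) →ₗ[ℚ_[2]] (B → ℚ_[2])).restrict hL) := by
    rw [← LinearMap.ker_eq_bot, LinearMap.ker_eq_bot']
    intro v hv
    have h2 : R F v.1 - v.1 = 0 := congrArg Subtype.val hv
    have h1 := hF v.1
    rw [h2, norm_zero] at h1
    have h3 : ‖v.1‖ = 0 := by linarith
    exact Subtype.ext (norm_eq_zero.1 h3)
  have hcF : c F - (R F y - y) ∈ W := by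
    rw [hW]
    intro σ hσ
    have h1 := hc.mul σ F
    have h2 := hc.mul F (F⁻¹ * σ * F)
    have e : F * (F⁻¹ * σ * F) = σ * F := by group
    rw [e, h1, hy σ hσ, hy _ (hconj σ hσ)] at h2
    have e2 : R F (R (F⁻¹ * σ * F) y) = R σ (R F y) := by
      rw [← R_mul, e, R_mul]
    rw [map_sub, e2] at h2
    rw [map_sub, map_sub]
    have h3 : R σ (c F) = c F + (R σ (R F y) - R F y) - (R σ y - y) := by
      rw [← h2]
      abel
    rw [h3]
    abel
  obtain ⟨z, hz⟩ := LinearMap.surjective_of_injective hinj ⟨_, hcF⟩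
  have hz' : R F z.1 - z.1 = c F - (R F y - y) := congrArg Subtype.val hz
  have h1 : c F = R F (y + z.1) - (y + z.1) := by
    have h2 : c F = (R F z.1 - z.1) + (R F y - y) := by rw [hz']; abel
    rw [h2, map_add]
    abel
  have h2 : ‖y + z.1‖ ≤ 2 := by
    have h3 := hc1 F
    rw [h1, hF] at h3
    linarith
  intro σ hσ
  have h3 : c σ = R σ (y + z.1) - (y + z.1) := by
    rw [hy σ hσ, map_add, z.2 σ hσ]
    abel
  rw [h3]
  have := hI σ hσ (y + z.1)
  linarith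

end gen

/-! ### The Galois group -/

variable {i₀ : QB} (hi : i₀ ^ 2 = i₀ - 2)

/-- the action modulo four -/
structure VD (R : Representation ℚ_[2] (GK i₀) (B → ℚ_[2])) (rt : B → QB) (mm : B → OO) : Prop where
  cont : ∀ v, Continuous fun σ => R σ v
  hr : ∀ b, rt b ^ 2 = em hi (mm b)
  m0 : ∀ b, mm b ≠ 0
  one : ∀ (σ : GK i₀) b, σ (rt b) = rt b → ∀ v, ‖R σ v b - v b‖ ≤ ‖v‖ / 4
  neg : ∀ (σ : GK i₀) b, σ (rt b) = -rt b → ∀ v, ‖R σ v b + v b‖ ≤ ‖v‖ / 4

variable {R : Representation ℚ_[2] (GK i₀) (B → ℚ_[2])} {rt : B → QB} {mm : B → OO}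

lemma VD.tr (vd : VD hi R rt mm) : Tr R := by
  intro σ v
  have hv := norm_nonneg v
  rw [pi_norm_le_iff_of_nonneg (by linarith)]
  intro b
  rw [Pi.sub_apply]
  rcases rt_or hi (vd.hr b) σ with h | h
  · exact (vd.one σ b h v).trans (by linarith)
  · have e : R σ v b - v b = (R σ v b + v b) - 2 * v b := by ring
    rw [e]
    refine sub_le' ((vd.neg σ b h v).trans (by linarith)) ?_
    rw [norm_mul, norm_two']
    have := norm_le_pi_norm v b
    linarith

lemma VD.rt0 (vd : VD hi R rt mm) (b : B) : rt b ≠ 0 := by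
  intro h
  have h1 := vd.hr b
  rw [h, zero_pow two_ne_zero] at h1
  exact em_ne hi (vd.m0 b) h1.symm

lemma ne_neg' {x : QB} (hx : x ≠ 0) : x ≠ -x := by
  intro h
  apply hx
  have h2 : (2 : QB) * x = 0 := by linear_combination h
  exact (mul_eq_zero.1 h2).resolve_left two_ne_zero

/-- the coordinates of a vector -/
lemma two_le (vd : VD hi R rt mm) {σ : GK i₀} {b : B} (h : σ (rt b) = -rt b) {v : B → ℚ_[2]} {t : ℝ}
    (hv : ‖v‖ ≤ 4 * t) (ht : ‖(R σ v - v) b‖ ≤ t) : ‖v b‖ ≤ 2 * t := by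
  have h1 := vd.neg σ b h v
  have e : 2 * v b = (R σ v b + v b) - (R σ v - v) b := by
    rw [Pi.sub_apply]
    ring
  have h2 : ‖2 * v b‖ ≤ t := by
    rw [e]
    exact sub_le' (h1.trans (by linarith)) ht
  rw [norm_mul, norm_two'] at h2
  linarith

lemma VD.mv (vd : VD hi R rt mm) {σ : GK i₀} (h : ∀ b, σ (rt b) = -rt b) : Mv R σ := by
  intro v
  refine le_antisymm (vd.tr hi σ v) ?_
  by_contra hcon
  push Not at hcon
  have hv : 0 < ‖v‖ := by
    by_contra h0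
    have h1 : ‖v‖ = 0 := le_antisymm (not_lt.1 h0) (norm_nonneg v)
    rw [h1, zero_div] at hcon
    exact absurd hcon (not_lt.2 (norm_nonneg _))
  set t : ℝ := max (‖v‖ / 4) ‖R σ v - v‖ with ht
  have ht2 : t < ‖v‖ / 2 := max_lt (by linarith) hcon
  have h1 : ‖v‖ ≤ 2 * t := by
    rw [pi_norm_le_iff_of_nonneg (by have := le_max_left (‖v‖ / 4) ‖R σ v - v‖; linarith)]
    intro b
    refine two_le hi vd (h b) (t := t) ?_ ((norm_le_pi_norm (R σ v - v) b).trans (le_max_right _ _))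
    have := le_max_left (‖v‖ / 4) ‖R σ v - v‖
    linarith
  linarith

/-- the dichotomy -/
lemma vdich (vd : VD hi R rt mm) {c : GK i₀ → B → ℚ_[2]} (hc1 : ∀ σ, ‖c σ‖ ≤ 1) {S : Set B}
    {D : Set (GK i₀)} (hst : ∀ σ ∈ D, ∀ v : B → ℚ_[2], (∀ b ∈ S, v b = 0) → ∀ b ∈ S, R σ v b = 0)
    (h : VCobS R S D c) {σ₀ : GK i₀} (h0 : σ₀ ∈ D) (h2 : ∀ b, σ₀ (rt b) = -rt b) :
    ∀ b ∈ S, Dich (md fun σ => c σ b) (rt b) D := by
  obtain ⟨y, hy⟩ := h
  set z : B → ℚ_[2] := fun b => if b ∈ S then y b else 0 with hz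
  have hzy : ∀ σ ∈ D, ∀ b ∈ S, c σ b = (R σ z - z) b := by
    intro σ hσ b hb
    rw [hy σ hσ b hb]
    have h3 := hst σ hσ (y - z) (fun b hb => by simp [hz, hb]) b hb
    have h4 : z b = y b := by simp [hz, hb]
    rw [map_sub, Pi.sub_apply] at h3
    rw [Pi.sub_apply, Pi.sub_apply, h4]
    linear_combination h3
  have hzn : ‖z‖ ≤ 2 := by
    by_contra hcon
    push Not at hcon
    have h1 : ‖z‖ ≤ 2 * max (‖z‖ / 4) 1 := by
      rw [pi_norm_le_iff_of_nonneg (by positivity)]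
      intro b
      by_cases hb : b ∈ S
      · refine two_le hi vd (h2 b) (t := max (‖z‖ / 4) 1) ?_ ?_
        · have := le_max_left (‖z‖ / 4) 1
          linarith
        · rw [← hzy σ₀ h0 b hb]
          exact ((norm_le_pi_norm (c σ₀) b).trans (hc1 σ₀)).trans (le_max_right _ _)
      · have : z b = 0 := by simp [hz, hb]
        rw [this, norm_zero]
        positivity
    rcases max_cases (‖z‖ / 4) 1 with ⟨h3, -⟩ | ⟨h3, -⟩
    · rw [h3] at h1
      linarith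
    · rw [h3] at h1
      linarith
  intro b hb
  have hfix : ∀ σ ∈ D, σ (rt b) = rt b → md (fun σ => c σ b) σ = 0 := by
    intro σ hσ h3
    rw [md_zero, hzy σ hσ b hb]
    have h4 := vd.one σ b h3 z
    rw [Pi.sub_apply]
    linarith
  by_cases h5 : ‖2 * z b‖ < 1
  · left
    intro σ hσ
    rcases rt_or hi (vd.hr b) σ with h3 | h3
    · exact hfix σ hσ h3
    · rw [md_zero, hzy σ hσ b hb]
      have h4 := vd.neg σ b h3 z
      have e : (R σ z - z) b = (R σ z b + z b) + -(2 * z b) := by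
        rw [Pi.sub_apply]
        ring
      rw [e]
      refine add_lt' (by linarith) (by rwa [norm_neg])
  · right
    intro σ hσ
    rcases rt_or hi (vd.hr b) σ with h3 | h3
    · exact ⟨fun _ => h3, fun _ => hfix σ hσ h3⟩
    · constructor
      · intro h4
        exfalso
        apply h5
        rw [md_zero, hzy σ hσ b hb] at h4
        have h6 := vd.neg σ b h3 z
        have e : 2 * z b = (R σ z b + z b) + -((R σ z - z) b) := by
          rw [Pi.sub_apply]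
          ring
        rw [e]
        exact add_lt' (by linarith) (by rwa [norm_neg])
      · intro h4
        exfalso
        rw [h3] at h4
        exact ne_neg' (vd.rt0 hi b) h4.symm

/-- the reduction of a coordinate -/
lemma vmd (vd : VD hi R rt mm) {c : GK i₀ → B → ℚ_[2]} (hc : VCoc R c) (hc1 : ∀ σ, ‖c σ‖ ≤ 1)
    (b : B) : IsLocallyConstant (md fun σ => c σ b) ∧
      ∀ σ τ, md (fun σ => c σ b) (σ * τ) = md (fun σ => c σ b) σ + md (fun σ => c σ b) τ := by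
  constructor
  · rw [IsLocallyConstant.iff_exists_open]
    intro σ
    refine ⟨{τ | ‖c τ b - c σ b‖ < 1}, ?_, by simp, fun τ hτ => ?_⟩
    · refine isOpen_lt ?_ continuous_const
      have h1 : Continuous fun τ => c τ b := (continuous_apply b).comp hc.cont
      fun_prop
    · have hτ' : ‖c τ b - c σ b‖ < 1 := hτ
      have : ‖c τ b‖ < 1 ↔ ‖c σ b‖ < 1 := by
        constructor
        · intro h
          have e : c σ b = c τ b + -(c τ b - c σ b) := by ring
          rw [e]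
          exact add_lt' h (by rwa [norm_neg])
        · intro h
          have e : c τ b = (c τ b - c σ b) + c σ b := by ring
          rw [e]
          exact add_lt' hτ' h
      unfold md
      simp [this]
  · intro σ τ
    have h2 : ‖c (σ * τ) b - (c σ b + c τ b)‖ < 1 := by
      rw [hc.mul, Pi.add_apply]
      have e : c σ b + R σ (c τ) b - (c σ b + c τ b) = (R σ (c τ) - c τ) b := by
        rw [Pi.sub_apply]
        ring
      rw [e]
      have h3 := vd.tr hi σ (c τ)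
      have h4 := hc1 τ
      have h5 := norm_le_pi_norm (R σ (c τ) - c τ) b
      linarith
    have b1 : ∀ σ, ‖c σ b‖ ≤ 1 := fun σ => (norm_le_pi_norm (c σ) b).trans (hc1 σ)
    have key : ∀ z : ℚ_[2], ‖z‖ < 1 → (‖c (σ * τ) b‖ < 1 ↔ ‖c σ b + c τ b - z‖ < 1) := by
      intro z hz
      constructor
      · intro h
        have e : c σ b + c τ b - z = c (σ * τ) b + (-(c (σ * τ) b - (c σ b + c τ b)) + -z) := by ring
        rw [e]
        exact add_lt' h (add_lt' (by rwa [norm_neg]) (by rwa [norm_neg]))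
      · intro h
        have e : c (σ * τ) b = (c σ b + c τ b - z) + ((c (σ * τ) b - (c σ b + c τ b)) + z) := by ring
        rw [e]
        exact add_lt' h (add_lt' h2 hz)
    unfold md
    by_cases hσ : ‖c σ b‖ < 1
    · by_cases hτ : ‖c τ b‖ < 1
      · have : ‖c (σ * τ) b‖ < 1 := (key (c σ b + c τ b) (add_lt' hσ hτ)).2 (by
          rw [sub_self, norm_zero]; norm_num)
        simp [hσ, hτ, this]
      · have : ¬ ‖c (σ * τ) b‖ < 1 := by
          rw [key (c σ b) hσ, add_sub_cancel_left]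
          exact hτ
        simp [hσ, hτ, this]
    · by_cases hτ : ‖c τ b‖ < 1
      · have : ¬ ‖c (σ * τ) b‖ < 1 := by
          rw [key (c τ b) hτ, add_sub_cancel_right]
          exact hσ
        simp [hσ, hτ, this]
      · have a1 := (md_eq (b1 σ)).1 hσ
        have a2 := (md_eq (b1 τ)).1 hτ
        have : ‖c (σ * τ) b‖ < 1 := by
          have h20 : ‖(2 : ℚ_[2])‖ < 1 := by rw [norm_two']; norm_num
          have h5 : ‖(c σ b - 1) + (c τ b - 1) + 2‖ < 1 := add_lt' (add_lt' a1 a2) h20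
          refine (key 0 (by rw [norm_zero]; norm_num)).2 ?_
          have e : c σ b + c τ b - 0 = (c σ b - 1) + (c τ b - 1) + 2 := by ring
          rw [e]
          exact h5
        simp only [hσ, hτ, this, if_true, if_false]
        decide

lemma mdz {G : Type} [Group G] [TopologicalSpace G] {c : G → B → ℚ_[2]} {σ : G} {b : B} :
    md (fun σ => c σ b) σ = 0 ↔ ‖c σ b‖ < 1 := md_zero

/-- **The vanishing theorem for vectors.** -/
theorem vmain {n : ℕ} {q : Fin n → OO} (hq : ∀ i, Pr (q i)) (hinj : Function.Injective q)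
    (h8 : (8 : OO) ∣ ∏ i, q i - 5) (hind : Indec q)
    (hm : ∀ b, mm b = ∏ i, q i ∨ mm b = -∏ i, q i) (vd : VD hi R rt mm)
    (ϖ ϖ' : B → OO) (hϖ : ∀ b, (ϖ b = om ∧ ϖ' b = 1 - om) ∨ (ϖ b = 1 - om ∧ ϖ' b = om))
    (κ : B → (QB →ₐ[ℚ] PadicAlgCl 2)) (hκ : ∀ b, ‖κ b (em hi (ϖ b))‖ < 1)
    (hmove : ∀ b, ∃ σ ∈ (DD (κ b) : Set (GK i₀)), ∀ b, σ (rt b) = -rt b)
    {c : GK i₀ → B → ℚ_[2]} (hc : VCoc R c)
    (hodd : ∀ (p : ℕ) [Fact p.Prime] (ι : QB →ₐ[ℚ] PadicAlgCl p), p ≠ 2 → VCob R (II ι) c)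
    (hpl : ∀ (p : ℕ) [Fact p.Prime] (ι : QB →ₐ[ℚ] PadicAlgCl p), p ≠ 2 →
      (∀ σ ∈ (II ι : Set (GK i₀)), ((∀ v, R σ v = v) ∧ ∀ b, σ (rt b) = rt b) ∨
        ((∀ v, R σ v = -v) ∧ ∀ b, σ (rt b) = -rt b)) ∨
      ((∃ F ∈ (DD ι : Set (GK i₀)), ∀ b, F (rt b) = -rt b) ∧
        (∀ σ ∈ (II ι : Set (GK i₀)), ∀ b, σ (rt b) = rt b) ∧
        ∀ b, ¬ ‖em (iw hi ι) (mm b)‖ < 1))
    (hst : ∀ b, ∀ σ ∈ (DD (κ b) : Set (GK i₀)), ∀ v : B → ℚ_[2], (∀ b', κ b' = κ b → v b' = 0) →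
      ∀ b', κ b' = κ b → R σ v b' = 0)
    (hstr : ∀ b, VCobS R {b' | κ b' = κ b} (DD (κ b)) c) :
    ∃ y, ∀ σ, c σ = R σ y - y := by
  by_contra hn
  rcases isEmpty_or_nonempty B with hB | ⟨⟨b₀⟩⟩
  · apply hn
    exact ⟨0, fun σ => Subsingleton.elim _ _⟩
  obtain ⟨τ₀, -, hτ₀⟩ := hmove b₀
  obtain ⟨a, y, ha, hint, hmin⟩ := vnormalize hc (vd.tr hi) (vd.mv hi hτ₀) hn
  set c' : GK i₀ → B → ℚ_[2] := fun σ => a • c σ + (R σ y - y) with hc'
  have hcc : VCoc R c' := hc.twist vd.cont a y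
  have hodd' : ∀ (p : ℕ) [Fact p.Prime] (ι : QB →ₐ[ℚ] PadicAlgCl p), p ≠ 2 →
      VCob R (II ι) c' := fun p _ ι hp => (hodd p ι hp).twist a y
  have hstr' : ∀ b, VCobS R {b' | κ b' = κ b} (DD (κ b)) c' := fun b => (hstr b).twist a y
  have key : ∀ b, (∀ σ, md (fun σ => c' σ b) σ = 0) ∨
      ∀ σ : GK i₀, (md (fun σ => c' σ b) σ = 0 ↔ σ (rt b) = rt b) := by
    intro b
    refine core hi hq hinj h8 hind (hm b) (vd.hr b) (hϖ b) (hκ b) ⟨(vmd hi vd hcc hint b).1,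
      (vmd hi vd hcc hint b).2, ?_, ?_, ?_⟩
    · intro p _ ι hp hu σ hσ
      rcases hpl p ι hp with h | ⟨⟨F, hF, hFb⟩, hI, hu'⟩
      · obtain ⟨z, hz⟩ := hodd' p ι hp
        have h1 : σ (rt b) = rt b := by
          obtain ⟨τ, hτ, hin⟩ := hσ
          have h1 : (ι (rt b)) ^ 2 = em (iw hi ι) (mm b) := by rw [← map_pow, vd.hr b, ι_em]
          have h2 : τ (ι (rt b)) = ι (rt b) := fix_of_unit (iw hi ι) hp h1 hu hin hτ.fix
          apply ι.injective
          show ι (σ (rt b)) = ι (rt b)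
          rw [← hτ, h2]
        rcases h σ hσ with ⟨h2, -⟩ | ⟨-, h2⟩
        · rw [md_zero]
          show ‖c' σ b‖ < 1
          rw [hz σ hσ, h2, sub_self, Pi.zero_apply, norm_zero]
          norm_num
        · exfalso
          rw [h2 b] at h1
          exact ne_neg' (vd.rt0 hi b) h1.symm
      · have h1 := vmult hcc hint (hodd' p ι hp) (vd.mv hi hFb) (fun σ hσ => conj_mem hσ hF)
          (fun σ hσ v => by
            have hv := norm_nonneg v
            rw [pi_norm_le_iff_of_nonneg (by linarith)]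
            intro b
            rw [Pi.sub_apply]
            exact vd.one σ b (hI σ hσ b) v) σ hσ
        rw [md_zero]
        exact (norm_le_pi_norm (c' σ) b).trans_lt h1
    · intro p _ ι hp hu
      rcases hpl p ι hp with h | ⟨-, -, hu'⟩
      · -- an element of the inertia group that moves `rt b`
        have hqi : ∃ i, ‖em (iw hi ι) (q i)‖ < 1 := by
          by_contra hcon
          push Not at hcon
          have h1 : ∀ i, ‖em (iw hi ι) (q i)‖ = 1 := fun i => eq_one_of_not_lt _ (not_lt.2 (hcon i))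
          have h2 : ‖em (iw hi ι) (∏ i, q i)‖ = 1 := by
            rw [map_prod, norm_prod]
            exact Finset.prod_eq_one fun i _ => h1 i
          have h3 : ‖em (iw hi ι) (mm b)‖ = 1 := by
            rcases hm b with h | h
            · rw [h, h2]
            · rw [h, map_neg, norm_neg, h2]
          rw [h3] at hu
          exact lt_irrefl _ hu
        obtain ⟨i, hqi⟩ := hqi
        obtain ⟨m1, hm1, hm1'⟩ : ∃ m1, mm b = q i * m1 ∧ ¬ q i ∣ m1 := by
          have h1 := Finset.mul_prod_erase Finset.univ q (Finset.mem_univ i)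
          have h2 := nd_prod hq hinj (Finset.notMem_erase i Finset.univ)
          rcases hm b with h | h
          · exact ⟨_, by rw [h, ← h1], h2⟩
          · refine ⟨-∏ k ∈ Finset.univ.erase i, q k, by rw [h, ← h1]; ring, ?_⟩
            rwa [dvd_neg]
        obtain ⟨σ₀, h0, h2⟩ : ∃ σ ∈ (II ι : Set (GK i₀)), σ (rt b) = -rt b := by
          by_contra hcon
          push Not at hcon
          refine no_simple (iw hi ι) (hq i).prime hqi hm1' (s := ι (rt b)) ?_ ?_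
          · rw [← map_pow, vd.hr b, ι_em, hm1]
          · intro τ hin hτ
            refine fix_I (fun σ hσ => ?_) τ hin hτ
            rcases rt_or hi (vd.hr b) σ with h | h
            · exact h
            · exact absurd h (hcon σ hσ)
        rcases h σ₀ h0 with ⟨-, h3⟩ | ⟨h3, h4⟩
        · exfalso
          rw [h3 b] at h2
          exact ne_neg' (vd.rt0 hi b) h2
        · have hD := vdec_of_inert hcc (D := DD ι) (hodd' p ι hp) h0 h3 fun τ hτ => conj_mem h0 hτ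
          refine vdich hi vd hint (S := Set.univ) ?_ (hD.toS _) (II_sub h0) h4 b (Set.mem_univ b)
          intro σ _ v hv b' _
          have : v = 0 := funext fun b => hv b (Set.mem_univ b)
          rw [this, map_zero, Pi.zero_apply]
      · exact absurd hu (hu' b)
    · obtain ⟨σ₀, h0, h2⟩ := hmove b
      exact vdich hi vd hint (hst b) (hstr' b) h0 h2 b rfl
  -- the contradiction
  set z : B → ℚ_[2] := fun b => if ∀ σ, md (fun σ => c' σ b) σ = 0 then 0 else 1 / 2 with hz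
  have hz2 : ‖z‖ ≤ 2 := by
    rw [pi_norm_le_iff_of_nonneg (by norm_num)]
    intro b
    simp only [hz]
    split_ifs
    · rw [norm_zero]; norm_num
    · rw [norm_div, norm_one, norm_two']; norm_num
  obtain ⟨σ, hσ⟩ := hmin z
  apply hσ
  rw [pi_norm_lt_iff (by norm_num)]
  intro b
  have hb1 : ‖c' σ b‖ ≤ 1 := (norm_le_pi_norm (c' σ) b).trans (hint σ)
  have hgoal : (a • c σ + (R σ y - y) - (R σ z - z)) b = c' σ b - (R σ z b - z b) := by
    rw [hc']
    simp only [Pi.sub_apply]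
  rw [hgoal]
  rcases rt_or hi (vd.hr b) σ with h3 | h3
  · -- `σ` fixes `rt b`
    have h4 : ‖c' σ b‖ < 1 := by
      rcases key b with h5 | h5
      · exact mdz.1 (h5 σ)
      · exact mdz.1 ((h5 σ).2 h3)
    have h5 := vd.one σ b h3 z
    rw [sub_eq_add_neg]
    refine add_lt' h4 ?_
    rw [norm_neg]
    linarith
  · have h5 := vd.neg σ b h3 z
    have e : c' σ b - (R σ z b - z b) = (c' σ b + 2 * z b) + -(R σ z b + z b) := by ring
    rw [e]
    refine add_lt' ?_ (by rw [norm_neg]; linarith)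
    rcases key b with h6 | h6
    · have h7 : z b = 0 := by simp only [hz]; rw [if_pos h6]
      rw [h7, mul_zero, add_zero]
      exact mdz.1 (h6 σ)
    · by_cases h7 : ∀ σ, md (fun σ => c' σ b) σ = 0
      · have h8 : z b = 0 := by simp only [hz]; rw [if_pos h7]
        rw [h8, mul_zero, add_zero]
        exact mdz.1 (h7 σ)
      · have h8 : z b = 1 / 2 := by simp only [hz]; rw [if_neg h7]
        have h9 : ¬ md (fun σ => c' σ b) σ = 0 := by
          intro h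
          have := (h6 σ).1 h
          rw [h3] at this
          exact ne_neg' (vd.rt0 hi b) this.symm
        have h10 : ¬ ‖c' σ b‖ < 1 := fun h => h9 (mdz.2 h)
        have h11 := (md_eq hb1).1 h10
        have e2 : c' σ b + 2 * z b = (c' σ b - 1) + 2 := by rw [h8]; ring
        rw [e2]
        refine add_lt' h11 ?_
        rw [norm_two']
        norm_num

end Pool.Agent.R384
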